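import Pool.Agent.GML.Defs

/-!
# GML: statements of the modules
-/

namespace Pool.Agent.GML

open MvPolynomial Filter

noncomputable section

/-- abbreviation: `κ[X_0, …, X_(r-1)]` -/
abbrev Po (κ : Type) [CommRing κ] (r : ℕ) : Type := MvPolynomial (Fin r) κ

/-! ## basic constructions -/

/-- homogeneous submodules are graded modules -/
def Stmt_SUB : Prop :=
  ∀ (V : Type) [CommRing V] (r : ℕ) (M : GMod V r) (N : Submodule (Po V r) M.M), IsHom M N →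
    ∃ (N' : GMod V r) (f : GHom N' M), Function.Injective f.f ∧ LinearMap.range f.f = N ∧
      ∀ n x, f.f x ∈ M.gr n → x ∈ N'.gr n

/-- quotients by homogeneous submodules are graded modules -/
def Stmt_QUO : Prop :=
  ∀ (V : Type) [CommRing V] (r : ℕ) (M : GMod V r) (N : Submodule (Po V r) M.M), IsHom M N →
    ∃ (Q : GMod V r) (g : GHom M Q), Function.Surjective g.f ∧ LinearMap.ker g.f = N ∧
      ∀ n y, y ∈ Q.gr n → ∃ x ∈ M.gr n, g.f x = y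

/-- the graded ring `V[X_0, …, X_(r-1)]` -/
def Stmt_AGR : Prop :=
  (∀ (V : Type) [CommRing V] (r : ℕ), DirectSum.IsInternal (Agr V r)) ∧
  (∀ (V : Type) [CommRing V] (r : ℕ) (i j : ℤ) (p q : Po V r), p ∈ Agr V r i → q ∈ Agr V r j →
    p * q ∈ Agr V r (i + j)) ∧
  (∀ (κ : Type) [Field κ] (r : ℕ), 0 < r → ∀ n : ℤ, Module.Finite κ (Agr κ r n) ∧
    Module.finrank κ (Agr κ r n) = if 0 ≤ n then (n.toNat + (r - 1)).choose (r - 1) else 0)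

/-- free graded modules exist -/
def Stmt_FRX : Prop :=
  ∀ (V : Type) [CommRing V] (r k : ℕ) (d : Fin k → ℤ),
    ∃ (M : GMod V r) (b : Module.Basis (Fin k) (Po V r) M.M), ∀ i, b i ∈ M.gr (d i)

/-- homogeneous components -/
def Stmt_CMP : Prop :=
  ∀ (V : Type) [CommRing V] (r : ℕ) (M : GMod V r),
    (∀ n x, M.cmp n x ∈ M.gr n) ∧ (∀ n x, x ∈ M.gr n → M.cmp n x = x) ∧
    (∀ m n x, x ∈ M.gr n → m ≠ n → M.cmp m x = 0) ∧
    (∀ n x y, M.cmp n (x + y) = M.cmp n x + M.cmp n y) ∧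
    (∀ n (v : V) x, M.cmp n (v • x) = v • M.cmp n x) ∧
    (∀ n i x, M.cmp (n + 1) ((X i : Po V r) • x) = (X i : Po V r) • M.cmp n x) ∧
    (∀ x, ∃ S : Finset ℤ, x = ∑ n ∈ S, M.cmp n x ∧ ∀ n ∉ S, M.cmp n x = 0) ∧
    (∀ x, (∀ n, M.cmp n x = 0) → x = 0) ∧
    (∀ P : Submodule (Po V r) M.M, IsHom M P ↔ ∀ x ∈ P, ∀ n, M.cmp n x ∈ P) ∧
    (∀ (N : GMod V r) (g : GHom M N) n x, g.f (M.cmp n x) = N.cmp n (g.f x))

/-- degreewise exactness; kernels, ranges, images, preimages of homogeneous submodules are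
homogeneous -/
def Stmt_DEG : Prop :=
  ∀ (V : Type) [CommRing V] (r : ℕ) (M N : GMod V r) (g : GHom M N),
    (∀ n (y : N.M), y ∈ N.gr n → y ∈ LinearMap.range g.f → ∃ x ∈ M.gr n, g.f x = y) ∧
    (Function.Injective g.f → ∀ n (x : M.M), g.f x ∈ N.gr n → x ∈ M.gr n) ∧
    IsHom M (LinearMap.ker g.f) ∧ IsHom N (LinearMap.range g.f) ∧
    (∀ P : Submodule (Po V r) M.M, IsHom M P → IsHom N (P.map g.f)) ∧
    (∀ P : Submodule (Po V r) N.M, IsHom N P → IsHom M (P.comap g.f)) ∧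
    (∀ P Q : Submodule (Po V r) M.M, IsHom M P → IsHom M Q → IsHom M (P ⊓ Q) ∧ IsHom M (P ⊔ Q)) ∧
    (∀ S : Set M.M, (∀ x ∈ S, ∃ n, x ∈ M.gr n) → IsHom M (Submodule.span (Po V r) S))

/-! ## the six-term sequence -/

def Stmt_LES : Prop :=
  ∀ (V : Type) [CommRing V] (M' M M'' : GMod V 3) (f : GHom M' M) (g : GHom M M''), SES f g →
    ∀ n : ℤ,
      h1 M n ≤ h1 M' n + h1 M'' n ∧
      h2 M n ≤ h2 M' n + h2 M'' n ∧
      h2 M' n + h2 M'' n ≤ h2 M n + h1 M'' n ∧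
      h1 M'' n + h2 M n ≤ h1 M n + h2 M' n + h2 M'' n

/-- increasing unions -/
def Stmt_UNI : Prop :=
  ∀ (V : Type) [CommRing V] (M : GMod V 3) (N : ℕ → Submodule (Po V 3) M.M),
    Monotone N → (∀ x, ∃ j, x ∈ N j) → ∀ (n : ℤ) (b : ℕ∞),
    ((∀ j, ∃ (M' : GMod V 3) (f : GHom M' M), Function.Injective f.f ∧
        LinearMap.range f.f = N j ∧ h1 M' n ≤ b) → h1 M n ≤ b) ∧
    ((∀ j, ∃ (M' : GMod V 3) (f : GHom M' M), Function.Injective f.f ∧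
        LinearMap.range f.f = N j ∧ h2 M' n ≤ b) → h2 M n ≤ b)

/-- chartwise isomorphisms `γ_i / X_i ^ c : M → N` of degree `-b`, independent of `i` -/
def Stmt_SHI : Prop :=
  ∀ (V : Type) [CommRing V] (M N : GMod V 3) (b c : ℕ) (γ : Fin 3 → (M.M →ₗ[Po V 3] N.M)),
    (∀ i (n : ℤ) x, x ∈ M.gr n → γ i x ∈ N.gr (n + c - b)) →
    (∀ i k x, (X k : Po V 3) ^ c • γ i x = (X i : Po V 3) ^ c • γ k x) →
    (∀ i x, γ i x = 0 → ∃ j : ℕ, (X i : Po V 3) ^ j • x = 0) →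
    (∀ i y, ∃ (j : ℕ) (x : M.M), (X i : Po V 3) ^ j • y = γ i x) →
    ∀ n : ℤ, h1 N n = h1 M (n + b) ∧ h2 N n = h2 M (n + b)

/-- isomorphic graded modules have the same `h1`, `h2` (degree zero isomorphisms) -/
def Stmt_ISO : Prop :=
  ∀ (V : Type) [CommRing V] (M N : GMod V 3) (f : GHom M N), Function.Bijective f.f →
    ∀ n : ℤ, h1 N n = h1 M n ∧ h2 N n = h2 M n

/-- free modules: `H¹ = 0`, `H²` = inverse monomials -/
def Stmt_FRA : Prop :=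
  ∀ (κ : Type) [Field κ] (M : GMod κ 3) (ι : Type) [Fintype ι] (b : Module.Basis ι (Po κ 3) M.M)
    (d : ι → ℤ), (∀ i, b i ∈ M.gr (d i)) → ∀ n : ℤ,
      h1 M n = 0 ∧ h2 M n = ((∑ i, ((d i - n - 1).toNat).choose 2 : ℕ) : ℕ∞)

/-- torsion modules (not finitely generated): `H² = 0` -/
def Stmt_TOR : Prop :=
  ∀ (κ : Type) [Field κ] (M : GMod κ 3), (∀ x : M.M, ∃ f : Po κ 3, f ≠ 0 ∧ f • x = 0) →
    ∀ n : ℤ, h2 M n = 0

/-! ## finitely generated modules over a field -/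

/-- a maximal independent family of homogeneous elements -/
def Stmt_FRE : Prop :=
  ∀ (κ : Type) [Field κ] (r : ℕ) (M : GMod κ r), Module.Finite (Po κ r) M.M →
    ∃ (k : ℕ) (b : Fin k → M.M) (d : Fin k → ℤ) (f : Po κ r) (e : ℕ),
      LinearIndependent (Po κ r) b ∧ (∀ i, b i ∈ M.gr (d i)) ∧ f ≠ 0 ∧ f.IsHomogeneous e ∧
      (∀ x : M.M, f • x ∈ Submodule.span (Po κ r) (Set.range b)) ∧
      k = Module.finrank (Po κ r) M.M

/-- dimensions of the graded pieces of a free module -/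
def Stmt_DIM : Prop :=
  ∀ (κ : Type) [Field κ] (r : ℕ), 0 < r → ∀ (M : GMod κ r) (k : ℕ) (b : Fin k → M.M)
    (d : Fin k → ℤ), LinearIndependent (Po κ r) b → (∀ i, b i ∈ M.gr (d i)) → ∀ n : ℤ,
      Module.finrank κ ↥(M.gr n ⊓ (Submodule.span (Po κ r) (Set.range b)).restrictScalars κ) =
        ∑ i, if d i ≤ n then ((n - d i).toNat + (r - 1)).choose (r - 1) else 0

/-- growth of finitely generated modules -/
def Stmt_GRO : Prop :=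
  ∀ (κ : Type) [Field κ] (r : ℕ) (M : GMod κ (r + 2)), Module.Finite (Po κ (r + 2)) M.M →
    (∀ n, Module.Finite κ (M.gr n)) ∧ (∃ n₀ : ℤ, ∀ n ≤ n₀, M.gr n = ⊥) ∧
    ∃ C : ℕ, ∀ n : ℕ,
      |(Module.finrank κ (M.gr n) : ℤ) -
        Module.finrank (Po κ (r + 2)) M.M * ((n + r + 1).choose (r + 1) : ℕ)| ≤
          C * ((n : ℤ) + 1) ^ r

/-- finitely generated torsion modules in three variables -/
def Stmt_TFG : Prop :=
  ∀ (κ : Type) [Field κ] (M : GMod κ 3), Module.Finite (Po κ 3) M.M →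
    (∀ x : M.M, ∃ f : Po κ 3, f ≠ 0 ∧ f • x = 0) →
    (∀ n : ℤ, h1 M n ≠ ⊤) ∧ (∃ n₀ : ℤ, ∀ n, n₀ ≤ n → h1 M n = 0) ∧
    ∃ C : ℕ, ∀ n : ℕ, h1 M (-(n : ℤ)) ≤ ((C * (n + 1) : ℕ) : ℕ∞)

/-- finitely generated modules in three variables -/
def Stmt_FGB : Prop :=
  ∀ (κ : Type) [Field κ] (M : GMod κ 3), Module.Finite (Po κ 3) M.M →
    (∀ n : ℤ, h1 M n ≠ ⊤ ∧ h2 M n ≠ ⊤) ∧
    (∃ n₀ : ℤ, ∀ n, n₀ ≤ n → h1 M n = 0 ∧ h2 M n = 0) ∧
    ∃ C : ℕ, ∀ n : ℕ, (h1 M (-(n : ℤ))).toNat ≤ C * (n + 1) ∧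
      |((h2 M (-(n : ℤ))).toNat : ℚ) - Module.finrank (Po κ 3) M.M * (n : ℚ) ^ 2 / 2| ≤
        C * ((n : ℚ) + 1)

/-! ## balanced filtrations -/

/-- dimensions along a filtration -/
def Stmt_FIL : Prop :=
  ∀ (κ : Type) [Field κ] (W : GMod κ 3) (F : ℕ → Submodule (Po κ 3) W.M),
    Monotone F → (∀ x, ∃ j, x ∈ F j) → (∀ j, IsHom W (F j)) →
    ∀ (G : ℕ → GMod κ 3) (p : ∀ J, ↥(F J) →ₗ[Po κ 3] (G J).M), (∀ J, IsGr F J (G J) (p J)) →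
    ∀ (n : ℤ) (K : ℕ), (∀ J, K ≤ J → h1 (G J) n = 0 ∧ h2 (G J) n = 0) →
      h1 W n ≤ ∑ J ∈ Finset.range K, h1 (G J) n ∧
      h2 W n ≤ ∑ J ∈ Finset.range K, h2 (G J) n ∧
      ∑ J ∈ Finset.range K, h2 (G J) n ≤ h2 W n + ∑ J ∈ Finset.range K, h1 (G J) n

/-- the graded pieces of a balanced filtration -/
def Stmt_GRS : Prop :=
  ∀ (κ : Type) [Field κ] (W : GMod κ 3) (a b c : ℕ) (γ : Fin 3 → (W.M →ₗ[Po κ 3] W.M))
    (F : ℕ → Submodule (Po κ 3) W.M), BalM W a b c γ F →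
    (∃ (G : ℕ → GMod κ 3) (p : ∀ J, ↥(F J) →ₗ[Po κ 3] (G J).M), ∀ J, IsGr F J (G J) (p J)) ∧
    ∀ (G : ℕ → GMod κ 3) (p : ∀ J, ↥(F J) →ₗ[Po κ 3] (G J).M), (∀ J, IsGr F J (G J) (p J)) →
      (∀ J, J < a → Module.Finite (Po κ 3) (G J).M) ∧
      (∀ J (n : ℤ), h1 (G (J + a)) n = h1 (G J) (n + b) ∧ h2 (G (J + a)) n = h2 (G J) (n + b)) ∧
      ∑ J ∈ Finset.range a, Module.finrank (Po κ 3) (G J).M =
        Module.finrank (Po κ 3) ↥(F (a - 1))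

/-- the two-sided bounds for a balanced filtration -/
def Stmt_WBD : Prop :=
  ∀ (κ : Type) [Field κ] (W : GMod κ 3) (a b c : ℕ) (γ : Fin 3 → (W.M →ₗ[Po κ 3] W.M))
    (F : ℕ → Submodule (Po κ 3) W.M), BalM W a b c γ F →
    (∀ n : ℤ, h1 W n ≠ ⊤ ∧ h2 W n ≠ ⊤) ∧
    (∃ n₀ : ℤ, ∀ n, n₀ ≤ n → h1 W n = 0 ∧ h2 W n = 0) ∧
    ∃ C : ℕ, ∀ n : ℕ, (h1 W (-(n : ℤ))).toNat ≤ C * (n + 1) ^ 2 ∧
      |((h2 W (-(n : ℤ))).toNat : ℚ) -
        Module.finrank (Po κ 3) ↥(F (a - 1)) * (n : ℚ) ^ 3 / (6 * b)| ≤ C * ((n : ℚ) + 1) ^ 2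

/-! ## duality and reduction -/

/-- the exponent `(m, m, m)` -/
def cst (m : ℕ) : Fin 3 →₀ ℕ := Finsupp.equivFunOnFinite.symm fun _ => m

/-- functionals on `H²` are the graded `V[X]`-linear maps to `V[X]` -/
def Stmt_DUA : Prop :=
  ∀ (V : Type) [CommRing V] (M : GMod V 3) (s : ℤ),
    ∃ Φ : Om M s ≃ₗ[V] (H2 M (-s - 3) →ₗ[V] V),
      ∀ (φ : Om M s) (f : ℕ → M.M) (hf : f ∈ Seq M Finset.univ (-s - 3)),
        ∀ᶠ a : ℕ in atTop, Φ φ (Submodule.Quotient.mk ⟨f, hf⟩) =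
          coeff (cst (a - 1)) ((φ : M.M →ₗ[Po V 3] Po V 3) (f a))

/-- reduction: `H²(D) / t = H²(W)` and `H¹(W) → H²(D)[t]` is onto -/
def Stmt_RED : Prop :=
  ∀ (V κ : Type) [CommRing V] [CommRing κ] (σ : V →+* κ) (t : V) (D : GMod V 3) (W : GMod κ 3)
    (R : Red σ t D W), (∀ x : D.M, t • x = 0 → x = 0) → ∀ n : ℤ,
    ∃ (ρ : H2 D n →+ H2 W n) (δ : H1 W n →+ H2 D n),
      (∀ (f : ℕ → D.M) (hf : f ∈ Seq D Finset.univ n)
        (hf' : (fun a => R.q (f a)) ∈ Seq W Finset.univ n),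
        ρ (Submodule.Quotient.mk ⟨f, hf⟩) = Submodule.Quotient.mk ⟨_, hf'⟩) ∧
      Function.Surjective ρ ∧ (∀ y, ρ y = 0 ↔ ∃ z, y = t • z) ∧
      (∀ (v : V) y, ρ (v • y) = σ v • ρ y) ∧
      (∀ (v : V) x, δ (σ v • x) = v • δ x) ∧
      (∀ y, t • y = 0 ↔ ∃ x, δ x = y)

/-- rank of the dual of a module over a complete discrete valuation ring -/
def Stmt_RNK : Prop :=
  ∀ (V : Type) [CommRing V] [IsDomain V] [IsDiscreteValuationRing V]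
    [IsAdicComplete (IsLocalRing.maximalIdeal V) V] (κ : Type) [Field κ] (σ : V →+* κ) (t : V),
    Irreducible t → Function.Surjective σ → RingHom.ker σ = Ideal.span {t} →
    ∀ (H : Type) [AddCommGroup H] [Module V H] (Hk : Type) [AddCommGroup Hk] [Module κ Hk]
      (K : Type) [AddCommGroup K] [Module κ K] [Module.Finite κ Hk] [Module.Finite κ K]
      (ρ : H →+ Hk) (δ : K →+ H),
      Function.Surjective ρ → (∀ y, ρ y = 0 ↔ ∃ z, y = t • z) →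
      (∀ (v : V) y, ρ (v • y) = σ v • ρ y) → (∀ (v : V) x, δ (σ v • x) = v • δ x) →
      (∀ y, t • y = 0 ↔ ∃ x, δ x = y) →
      Module.Free V (H →ₗ[V] V) ∧ Module.Finite V (H →ₗ[V] V) ∧
      Module.finrank V (H →ₗ[V] V) ≤ Module.finrank κ Hk ∧
      Module.finrank κ Hk ≤ Module.finrank V (H →ₗ[V] V) + Module.finrank κ K

/-- `V` complete discrete valuation ring, `W = D / t`: rank of the module of functionals and
codimension of its reduction -/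
def Stmt_EXP : Prop :=
  ∀ (V : Type) [CommRing V] [IsDomain V] [IsDiscreteValuationRing V]
    [IsAdicComplete (IsLocalRing.maximalIdeal V) V] (κ : Type) [Field κ] (σ : V →+* κ) (t : V),
    Irreducible t → ∀ (D : GMod V 3) (W : GMod κ 3) (R : Red σ t D W),
    (∀ x : D.M, t • x = 0 → x = 0) → ∀ s : ℤ, h1 W (-s - 3) ≠ ⊤ → h2 W (-s - 3) ≠ ⊤ →
      Module.Free V (Om D s) ∧ Module.Finite V (Om D s) ∧ Module.Finite κ (Om W s) ∧
      Module.finrank κ (Om W s) = (h2 W (-s - 3)).toNat ∧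
      ∃ U : Submodule κ (Om W s),
        (∀ φ' : Om W s, φ' ∈ U ↔ ∃ φ : Om D s, ∀ x, (φ' : W.M →ₗ[Po κ 3] Po κ 3) (R.q x) =
          MvPolynomial.map σ ((φ : D.M →ₗ[Po V 3] Po V 3) x)) ∧
        Module.finrank κ U = Module.finrank V (Om D s) ∧
        Module.finrank κ (Om W s) ≤ Module.finrank κ U + (h1 W (-s - 3)).toNat

/-- **count of functionals** for a balanced reduction -/
def Stmt_CNT : Prop :=
  ∀ (V : Type) [CommRing V] [IsDomain V] [IsDiscreteValuationRing V]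
    [IsAdicComplete (IsLocalRing.maximalIdeal V) V] (κ : Type) [Field κ] (σ : V →+* κ) (t : V),
    Irreducible t → ∀ (D : GMod V 3) (W : GMod κ 3) (R : Red σ t D W),
    (∀ x : D.M, t • x = 0 → x = 0) →
    ∀ (a b c : ℕ) (γ : Fin 3 → (W.M →ₗ[Po κ 3] W.M)) (F : ℕ → Submodule (Po κ 3) W.M),
    BalM W a b c γ F →
      (∀ s : ℤ, Module.Free V (Om D s) ∧ Module.Finite V (Om D s) ∧ Module.Finite κ (Om W s) ∧
        Module.finrank V (Om D s) ≤ Module.finrank κ (Om W s)) ∧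
      (∃ s₀ : ℤ, ∀ s ≤ s₀, Om W s = ⊥ ∧ Om D s = ⊥) ∧
      ∃ C : ℕ, ∀ s : ℕ,
        |(Module.finrank κ (Om W s) : ℚ) -
          Module.finrank (Po κ 3) ↥(F (a - 1)) * (s : ℚ) ^ 3 / (6 * b)| ≤ C * ((s : ℚ) + 1) ^ 2 ∧
        |(Module.finrank V (Om D s) : ℚ) -
          Module.finrank (Po κ 3) ↥(F (a - 1)) * (s : ℚ) ^ 3 / (6 * b)| ≤ C * ((s : ℚ) + 1) ^ 2 ∧
        ∃ U : Submodule κ (Om W s),
          (∀ φ' : Om W s, φ' ∈ U ↔ ∃ φ : Om D s, ∀ x, (φ' : W.M →ₗ[Po κ 3] Po κ 3) (R.q x) =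
            MvPolynomial.map σ ((φ : D.M →ₗ[Po V 3] Po V 3) x)) ∧
          Module.finrank κ (Om W s) ≤ Module.finrank κ U + C * (s + 1) ^ 2

end

end Pool.Agent.GML
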