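import Pool.Agent.GML.Stmts

namespace Pool.Agent.GML

open MvPolynomial Filter

noncomputable section

namespace AGR_

variable {V : Type} [CommRing V] {r : ℕ}

lemma mem_nonneg {n : ℤ} (hn : 0 ≤ n) (p : Po V r) :
    p ∈ Agr V r n ↔ p ∈ homogeneousSubmodule (Fin r) V n.toNat := by
  unfold Agr
  rw [if_pos hn]

lemma mem_neg {n : ℤ} (hn : n < 0) (p : Po V r) : p ∈ Agr V r n ↔ p = 0 := by
  unfold Agr
  rw [if_neg (not_le.2 hn), Submodule.mem_bot]

lemma comp_coe (u : DirectSum ℤ (fun n => Agr V r n)) (j : ℕ) :
    homogeneousComponent j ((DirectSum.coeAddMonoidHom (Agr V r)) u) = (u (j : ℤ) : Po V r) := by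
  classical
  induction u using DirectSum.induction_on with
  | zero => simp
  | of n x =>
    rw [DirectSum.coeAddMonoidHom_of]
    by_cases hn : 0 ≤ n
    · obtain ⟨m, rfl⟩ := Int.eq_ofNat_of_zero_le hn
      have hx : (x : Po V r) ∈ homogeneousSubmodule (Fin r) V m := by
        have := (mem_nonneg hn (x : Po V r)).1 x.2
        simpa using this
      rw [homogeneousComponent_of_mem hx]
      by_cases h : j = m
      · subst h
        rw [if_pos rfl, DirectSum.of_eq_same]
      · rw [if_neg h, DirectSum.of_eq_of_ne]
        · rfl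
        · intro h'
          apply h
          exact_mod_cast h'
    · have hx : x = 0 := by
        apply Subtype.ext
        exact (mem_neg (not_le.1 hn) _).1 x.2
      rw [hx]
      simp
  | add u v hu hv =>
    rw [map_add, map_add, hu, hv]
    rfl

end AGR_

open AGR_

theorem agr_proof : Stmt_AGR := by
  classical
  refine ⟨?_, ?_, ?_⟩
  · intro V _ r
    constructor
    · rw [injective_iff_map_eq_zero]
      intro u hu
      apply DFinsupp.ext
      intro n
      by_cases hn : 0 ≤ n
      · obtain ⟨m, rfl⟩ := Int.eq_ofNat_of_zero_le hn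
        have h := comp_coe u m
        rw [hu, map_zero] at h
        exact Subtype.ext h.symm
      · exact Subtype.ext ((mem_neg (not_le.1 hn) _).1 (u n).2)
    · intro p
      have hmem : ∀ i : ℕ, homogeneousComponent i p ∈ Agr V r (i : ℤ) := by
        intro i
        rw [mem_nonneg (Int.natCast_nonneg i)]
        simpa using homogeneousComponent_isHomogeneous i p
      refine ⟨∑ i ∈ Finset.range (p.totalDegree + 1),
        DirectSum.of (fun n => Agr V r n) (i : ℤ) ⟨homogeneousComponent i p, hmem i⟩, ?_⟩
      rw [map_sum]
      simp only [DirectSum.coeAddMonoidHom_of]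
      exact sum_homogeneousComponent p
  · intro V _ r i j p q hp hq
    by_cases hi : 0 ≤ i
    · by_cases hj : 0 ≤ j
      · rw [mem_nonneg hi] at hp
        rw [mem_nonneg hj] at hq
        rw [mem_nonneg (add_nonneg hi hj), Int.toNat_add hi hj]
        exact MvPolynomial.IsHomogeneous.mul hp hq
      · rw [(mem_neg (not_le.1 hj) q).1 hq, mul_zero]
        exact Submodule.zero_mem _
    · rw [(mem_neg (not_le.1 hi) p).1 hp, zero_mul]
      exact Submodule.zero_mem _
  · intro κ _ r hr n
    by_cases hn : 0 ≤ n
    · have hA : Agr κ r n = homogeneousSubmodule (Fin r) κ n.toNat := by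
        unfold Agr; rw [if_pos hn]
      rw [hA, if_pos hn]
      set m := n.toNat
      have hset : {d : Fin r →₀ ℕ | d.degree = m} =
          ((Finset.univ : Finset (Fin r)).finsuppAntidiag m : Set (Fin r →₀ ℕ)) := by
        ext d
        simp only [Set.mem_setOf_eq, Finset.coe_sort_coe, Finset.mem_coe,
          Finset.mem_finsuppAntidiag, Finset.subset_univ, and_true]
        rw [Finsupp.degree_eq_sum]
      have e1 : homogeneousSubmodule (Fin r) κ m ≃ₗ[κ]
          (((Finset.univ : Finset (Fin r)).finsuppAntidiag m) →₀ κ) := by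
        rw [homogeneousSubmodule_eq_finsupp_supported, hset]
        exact AddMonoidAlgebra.supportedEquivFinsupp _
      refine ⟨Module.Finite.equiv e1.symm, ?_⟩
      rw [e1.finrank_eq, Module.finrank_finsupp_self, Fintype.card_coe,
        Finset.card_finsuppAntidiag_nat_eq_choose, Finset.card_univ, Fintype.card_fin]
      have h1 : r + m - 1 = m + (r - 1) := by omega
      rw [h1]
      exact (Nat.choose_symm_add (a := m) (b := r - 1)).trans rfl
    · have hA : Agr κ r n = ⊥ := by
        unfold Agr; rw [if_neg hn]
      rw [hA, if_neg hn]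
      exact ⟨inferInstance, finrank_bot κ _⟩

end

end Pool.Agent.GML
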