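import Pool.Agent.GML.Stmts

/-!
# GML, module CMP: homogeneous components
-/

set_option autoImplicit false

namespace Pool.Agent.GML

open MvPolynomial Filter

noncomputable section

namespace CMP_

variable {V : Type} [CommRing V] {r : ℕ}

/-- the equivalence -/
def ee (M : GMod V r) : (DirectSum ℤ fun n => M.gr n) ≃ₗ[V] M.M :=
  LinearEquiv.ofBijective (DirectSum.coeLinearMap M.gr) M.int

lemma ee_apply (M : GMod V r) (y : DirectSum ℤ fun n => M.gr n) :
    ee M y = DirectSum.coeLinearMap M.gr y := rfl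

lemma cmp_def (M : GMod V r) (n : ℤ) (x : M.M) : M.cmp n x = (((ee M).symm x) n : M.gr n) := rfl

lemma c1 (M : GMod V r) (n : ℤ) (x : M.M) : M.cmp n x ∈ M.gr n := by
  rw [cmp_def]
  exact Subtype.property _

lemma symm_hom (M : GMod V r) (n : ℤ) (x : M.M) (hx : x ∈ M.gr n) :
    (ee M).symm x = DirectSum.lof V ℤ (fun n => M.gr n) n ⟨x, hx⟩ := by
  rw [LinearEquiv.symm_apply_eq]
  rw [ee_apply, DirectSum.coeLinearMap_lof]

lemma c2 (M : GMod V r) (n : ℤ) (x : M.M) (hx : x ∈ M.gr n) : M.cmp n x = x := by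
  rw [cmp_def, symm_hom M n x hx, DirectSum.lof_apply]

lemma c3 (M : GMod V r) (m n : ℤ) (x : M.M) (hx : x ∈ M.gr n) (h : m ≠ n) : M.cmp m x = 0 := by
  rw [cmp_def, symm_hom M n x hx, DirectSum.lof_eq_of, DirectSum.of_eq_of_ne _ _ _ h]
  rfl

lemma c4 (M : GMod V r) (n : ℤ) (x y : M.M) : M.cmp n (x + y) = M.cmp n x + M.cmp n y := by
  rw [cmp_def, cmp_def, cmp_def, map_add, DirectSum.add_apply]
  rfl

lemma c5 (M : GMod V r) (n : ℤ) (v : V) (x : M.M) : M.cmp n (v • x) = v • M.cmp n x := by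
  rw [cmp_def, cmp_def, map_smul]
  rfl

lemma c0 (M : GMod V r) (n : ℤ) : M.cmp n 0 = 0 := by
  rw [cmp_def, map_zero]
  rfl

lemma c7 (M : GMod V r) (x : M.M) :
    ∃ S : Finset ℤ, x = ∑ n ∈ S, M.cmp n x ∧ ∀ n ∉ S, M.cmp n x = 0 := by
  classical
  refine ⟨((ee M).symm x).support, ?_, ?_⟩
  · have h1 : (ee M) ((ee M).symm x) = x := (ee M).apply_symm_apply x
    have h2 : (ee M) ((ee M).symm x) = ∑ n ∈ ((ee M).symm x).support, M.cmp n x := by
      conv_lhs => rw [← DirectSum.sum_support_of ((ee M).symm x)]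
      rw [map_sum]
      refine Finset.sum_congr rfl fun n _ => ?_
      rw [cmp_def, ← DirectSum.lof_eq_of V]
      rw [ee_apply, DirectSum.coeLinearMap_lof]
    rw [← h2, h1]
  · intro n hn
    rw [DFinsupp.notMem_support_iff] at hn
    rw [cmp_def, hn]
    rfl

lemma c8 (M : GMod V r) (x : M.M) (h : ∀ n, M.cmp n x = 0) : x = 0 := by
  obtain ⟨S, hS, -⟩ := c7 M x
  rw [hS]
  exact Finset.sum_eq_zero fun n _ => h n

lemma ind (M : GMod V r) {P : M.M → Prop} (h0 : P 0) (hadd : ∀ x y, P x → P y → P (x + y))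
    (hhom : ∀ n, ∀ x ∈ M.gr n, P x) (x : M.M) : P x := by
  classical
  obtain ⟨S, hS, -⟩ := c7 M x
  rw [hS]
  exact Finset.sum_induction _ P hadd h0 fun n _ => hhom n _ (c1 M n x)

lemma c6 (M : GMod V r) (n : ℤ) (i : Fin r) (x : M.M) :
    M.cmp (n + 1) ((X i : Po V r) • x) = (X i : Po V r) • M.cmp n x := by
  refine ind M (P := fun x => M.cmp (n + 1) ((X i : Po V r) • x) = (X i : Po V r) • M.cmp n x)
    ?_ ?_ ?_ x
  · rw [smul_zero, c0, c0, smul_zero]
  · intro x y hx hy
    rw [smul_add, c4, c4, smul_add, hx, hy]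
  · intro m x hx
    have h1 := M.mul_mem i m x hx
    by_cases hmn : m = n
    · subst hmn
      rw [c2 M _ _ h1, c2 M _ _ hx]
    · rw [c3 M (n + 1) (m + 1) _ h1 (by omega), c3 M n m _ hx (Ne.symm hmn), smul_zero]

lemma C_smul (M : GMod V r) (v : V) (x : M.M) : (C v : Po V r) • x = v • x := by
  rw [← MvPolynomial.algebraMap_eq, algebraMap_smul]

lemma poly (M : GMod V r) (P : Submodule (Po V r) M.M) (p : Po V r) (x : M.M)
    (h : ∀ n, M.cmp n x ∈ P) : ∀ n, M.cmp n (p • x) ∈ P := by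
  induction p using MvPolynomial.induction_on with
  | C v =>
    intro n
    rw [C_smul, c5, ← C_smul]
    exact P.smul_mem _ (h n)
  | add p q hp hq =>
    intro n
    rw [add_smul, c4]
    exact P.add_mem (hp n) (hq n)
  | mul_X p i hp =>
    intro n
    have h1 : (p * X i) • x = (X i : Po V r) • (p • x) := by
      rw [smul_smul, mul_comm]
    have h2 := c6 M (n - 1) i (p • x)
    rw [sub_add_cancel] at h2
    rw [h1, h2]
    exact P.smul_mem _ (hp _)

lemma c9 (M : GMod V r) (P : Submodule (Po V r) M.M) :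
    IsHom M P ↔ ∀ x ∈ P, ∀ n, M.cmp n x ∈ P := by
  classical
  constructor
  · intro hP x hx
    unfold IsHom at hP
    rw [← hP] at hx
    refine Submodule.span_induction (p := fun x _ => ∀ n, M.cmp n x ∈ P) ?_ ?_ ?_ ?_ hx
    · rintro y ⟨hy, m, hm⟩ n
      by_cases hmn : n = m
      · subst hmn
        rw [c2 M _ _ hm]
        exact hy
      · rw [c3 M n m _ hm hmn]
        exact P.zero_mem
    · intro n
      rw [c0]
      exact P.zero_mem
    · intro y z _ _ hy hz n
      rw [c4]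
      exact P.add_mem (hy n) (hz n)
    · intro p y _ hy
      exact poly M P p y hy
  · intro h
    unfold IsHom
    refine le_antisymm (Submodule.span_le.2 fun y hy => hy.1) ?_
    intro x hx
    obtain ⟨S, hS, -⟩ := c7 M x
    rw [hS]
    exact Submodule.sum_mem _ fun n _ => Submodule.subset_span ⟨h x hx n, n, c1 M n x⟩

lemma c10 (M N : GMod V r) (g : GHom M N) (n : ℤ) (x : M.M) :
    g.f (M.cmp n x) = N.cmp n (g.f x) := by
  refine ind M (P := fun x => g.f (M.cmp n x) = N.cmp n (g.f x)) ?_ ?_ ?_ x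
  · rw [c0, map_zero, c0]
  · intro x y hx hy
    rw [c4, map_add, map_add, c4, hx, hy]
  · intro m x hx
    have h1 := g.deg m x hx
    by_cases hmn : n = m
    · subst hmn
      rw [c2 M _ _ hx, c2 N _ _ h1]
    · rw [c3 M n m _ hx hmn, c3 N n m _ h1 hmn, map_zero]

end CMP_

open CMP_ in
theorem cmp_proof : Stmt_CMP := by
  intro V _ r M
  exact ⟨c1 M, c2 M, fun m n x hx h => c3 M m n x hx h, c4 M, c5 M, c6 M, c7 M, c8 M, c9 M,
    fun N g n x => c10 M N g n x⟩

end

end Pool.Agent.GML
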