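import Pool.Agent.GML.Stmts

/-!
# GML, module DEG: degreewise exactness, homogeneous submodules
-/

set_option autoImplicit false

namespace Pool.Agent.GML

open MvPolynomial Filter

theorem deg_proof (hCMP : Stmt_CMP) : Stmt_DEG := by
  intro V _ r M N g
  obtain ⟨c1, c2, c3, c4, c5, c6, c7, c8, c9, c10⟩ := hCMP V r M
  obtain ⟨d1, d2, d3, d4, d5, d6, d7, d8, d9, d10⟩ := hCMP V r N
  have hcg : ∀ n x, g.f (M.cmp n x) = N.cmp n (g.f x) := fun n x => c10 N g n x
  have hmap : ∀ P : Submodule (Po V r) M.M, IsHom M P → IsHom N (P.map g.f) := by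
    intro P hP
    rw [d9]
    rintro y ⟨x, hx, rfl⟩ n
    rw [← hcg]
    exact Submodule.mem_map_of_mem ((c9 P).1 hP x hx n)
  have hcomap : ∀ P : Submodule (Po V r) N.M, IsHom N P → IsHom M (P.comap g.f) := by
    intro P hP
    rw [c9]
    intro x hx n
    rw [Submodule.mem_comap, hcg]
    exact (d9 P).1 hP _ hx n
  have cz : ∀ n, M.cmp n 0 = 0 := by
    intro n
    have h := c4 n 0 0
    rw [add_zero] at h
    have h2 := congrArg (fun t => t - M.cmp n 0) h
    simpa using h2.symm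
  have dz' : ∀ n, N.cmp n 0 = 0 := by
    intro n
    have h := d4 n 0 0
    rw [add_zero] at h
    have h2 := congrArg (fun t => t - N.cmp n 0) h
    simpa using h2.symm
  refine ⟨?_, ?_, ?_, ?_, hmap, hcomap, ?_, ?_⟩
  · rintro n y hy ⟨x, rfl⟩
    refine ⟨M.cmp n x, c1 n x, ?_⟩
    rw [hcg]
    exact d2 n _ hy
  · intro hinj n x hx
    have h1 : g.f (M.cmp n x) = g.f x := by
      rw [hcg]
      exact d2 n _ hx
    rw [← hinj h1]
    exact c1 n x
  · rw [c9]
    intro x hx n
    rw [LinearMap.mem_ker] at hx ⊢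
    rw [hcg, hx, dz']
  · rw [d9]
    rintro y ⟨x, rfl⟩ n
    exact ⟨M.cmp n x, hcg n x⟩
  · intro P Q hP hQ
    constructor
    · rw [c9]
      intro x hx n
      exact ⟨(c9 P).1 hP x hx.1 n, (c9 Q).1 hQ x hx.2 n⟩
    · rw [c9]
      intro x hx n
      obtain ⟨y, hy, z, hz, rfl⟩ := Submodule.mem_sup.1 hx
      rw [c4]
      exact Submodule.add_mem_sup ((c9 P).1 hP y hy n) ((c9 Q).1 hQ z hz n)
  · intro S hS
    unfold IsHom
    refine le_antisymm (Submodule.span_le.2 fun y hy => hy.1) (Submodule.span_le.2 fun y hy => ?_)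
    exact Submodule.subset_span ⟨Submodule.subset_span hy, hS y hy⟩

end Pool.Agent.GML
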