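import Pool.Agent.GML.Stmts

set_option autoImplicit false

open MvPolynomial Filter

namespace Pool.Agent.GML

namespace DIM_

variable {V : Type} [CommRing V] {r : ℕ}

theorem monomial_smul_mem (M : GMod V r) (N : ℕ) : ∀ (s : Fin r →₀ ℕ), s.degree = N →
    ∀ (m : ℤ) (x : M.M), x ∈ M.gr m → (monomial s (1 : V)) • x ∈ M.gr (m + N) := by
  induction N with
  | zero =>
    intro s hs m x hx
    have h0 : s = 0 := (Finsupp.degree_eq_zero_iff s).1 hs
    subst h0
    simpa using hx
  | succ N ih =>
    intro s hs m x hx
    have hne : s ≠ 0 := by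
      rintro rfl
      simp at hs
    obtain ⟨i, hi⟩ := Finsupp.ne_iff.1 hne
    have hi' : 1 ≤ s i := Nat.one_le_iff_ne_zero.2 hi
    have hle : Finsupp.single i 1 ≤ s := by
      intro j
      by_cases hj : j = i
      · subst hj; simpa using hi'
      · simp [Finsupp.single_apply, Ne.symm hj]
    obtain ⟨s', rfl⟩ := exists_add_of_le hle
    have hd : s'.degree = N := by
      rw [map_add, Finsupp.degree_single] at hs
      omega
    have h1 : (monomial (Finsupp.single i 1 + s') (1 : V)) = X i * monomial s' 1 := by
      rw [X, monomial_mul, one_mul]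
    rw [h1, mul_smul]
    have h2 := M.mul_mem i _ _ (ih s' hd m x hx)
    have h3 : m + ((N + 1 : ℕ) : ℤ) = m + N + 1 := by push_cast; ring
    rw [h3]
    exact h2

theorem hom_smul_mem (M : GMod V r) {N : ℕ} {p : Po V r} (hp : p ∈ homogeneousSubmodule (Fin r) V N)
    {m : ℤ} {x : M.M} (hx : x ∈ M.gr m) : p • x ∈ M.gr (m + N) := by
  rw [← p.support_sum_monomial_coeff, Finset.sum_smul]
  refine Submodule.sum_mem _ fun s hs => ?_
  have hd : s.degree = N := by
    have h := (mem_homogeneousSubmodule _ _).1 hp (mem_support_iff.1 hs)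
    rw [← h]
    simp [Finsupp.weight_apply, Finsupp.degree_apply, Finsupp.sum]
  have h1 : (monomial s (coeff s p)) = coeff s p • (monomial s (1 : V)) := by
    rw [smul_monomial, smul_eq_mul, mul_one]
  rw [h1, smul_assoc]
  exact Submodule.smul_mem _ _ (monomial_smul_mem M N s hd m x hx)

theorem agr_smul_mem (M : GMod V r) {e : ℤ} {p : Po V r} (hp : p ∈ Agr V r e)
    {m : ℤ} {x : M.M} (hx : x ∈ M.gr m) : p • x ∈ M.gr (m + e) := by
  unfold Agr at hp
  split_ifs at hp with h
  · have := hom_smul_mem M hp hx
    rwa [Int.toNat_of_nonneg h] at this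
  · rw [Submodule.mem_bot] at hp
    rw [hp, zero_smul]
    exact Submodule.zero_mem _

/-- component of degree `e` -/
noncomputable def comp (e : ℤ) (q : Po V r) : Po V r :=
  if 0 ≤ e then homogeneousComponent e.toNat q else 0

theorem comp_mem (e : ℤ) (q : Po V r) : comp e q ∈ Agr V r e := by
  unfold comp Agr
  split_ifs with h
  · exact homogeneousComponent_mem _ _
  · exact Submodule.zero_mem _

theorem cmp_smul (hCMP : Stmt_CMP) (M : GMod V r) {d : ℤ} {x : M.M} (hx : x ∈ M.gr d) (n : ℤ)
    (q : Po V r) : M.cmp n (q • x) = comp (n - d) q • x := by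
  obtain ⟨h1, h2, h3, h4, -⟩ := hCMP V r M
  have hsum : ∀ (S : Finset ℕ) (f : ℕ → M.M), M.cmp n (∑ e ∈ S, f e) = ∑ e ∈ S, M.cmp n (f e) := by
    intro S f
    classical
    induction S using Finset.induction_on with
    | empty => simpa using h2 n 0 (Submodule.zero_mem _)
    | insert a S ha ih => rw [Finset.sum_insert ha, Finset.sum_insert ha, h4, ih]
  have hq : q • x = ∑ e ∈ Finset.range (q.totalDegree + 1), homogeneousComponent e q • x := by
    rw [← Finset.sum_smul, sum_homogeneousComponent]
  rw [hq, hsum]
  have hterm : ∀ e : ℕ, M.cmp n (homogeneousComponent e q • x) =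
      if (e : ℤ) = n - d then homogeneousComponent e q • x else 0 := by
    intro e
    have hm : homogeneousComponent e q • x ∈ M.gr (d + e) :=
      hom_smul_mem M (homogeneousComponent_mem _ _) hx
    split_ifs with h
    · have h5 : d + (e : ℤ) = n := by rw [h]; ring
      rw [h5] at hm
      exact h2 n _ hm
    · exact h3 n _ _ hm (fun h' => h (by rw [h']; ring))
  simp only [hterm]
  unfold comp
  split_ifs with h
  · by_cases hle : (n - d).toNat ∈ Finset.range (q.totalDegree + 1)
    · rw [Finset.sum_eq_single_of_mem _ hle]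
      · rw [if_pos (Int.toNat_of_nonneg h)]
      · intro e _ he
        rw [if_neg]
        intro h'
        apply he
        rw [← h', Int.toNat_natCast]
    · rw [Finset.sum_eq_zero]
      · have : q.totalDegree < (n - d).toNat := by
          rw [Finset.mem_range] at hle; omega
        rw [homogeneousComponent_eq_zero _ _ this, zero_smul]
      · intro e he
        rw [if_neg]
        intro h'
        apply hle
        rwa [← h', Int.toNat_natCast]
  · rw [zero_smul]
    refine Finset.sum_eq_zero fun e _ => ?_
    rw [if_neg]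
    intro h'
    apply h
    rw [← h']
    exact Int.natCast_nonneg e

end DIM_

open DIM_ in
theorem dim_proof (hAGR : Stmt_AGR) (hCMP : Stmt_CMP) : Stmt_DIM := by
  intro κ _ r hr M k b d hb hbd n
  obtain ⟨-, -, hfin⟩ := hAGR
  have hfin := hfin κ r hr
  let Φ : (∀ i : Fin k, Agr κ r (n - d i)) →ₗ[κ] M.M :=
    { toFun := fun p => ∑ i, (p i : Po κ r) • b i
      map_add' := by
        intro p q
        simp only [Pi.add_apply, Submodule.coe_add, add_smul, Finset.sum_add_distrib]
      map_smul' := by
        intro c p
        simp only [Pi.smul_apply, Submodule.coe_smul, smul_assoc, Finset.smul_sum,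
          RingHom.id_apply] }
  have hΦ : ∀ p, Φ p = ∑ i, (p i : Po κ r) • b i := fun _ => rfl
  have hinj : Function.Injective Φ := by
    rw [injective_iff_map_eq_zero]
    intro p hp
    rw [hΦ] at hp
    have h1 := Fintype.linearIndependent_iff.1 hb (fun i => (p i : Po κ r)) hp
    funext i
    exact Subtype.ext (h1 i)
  have hrange : LinearMap.range Φ =
      M.gr n ⊓ (Submodule.span (Po κ r) (Set.range b)).restrictScalars κ := by
    ext y
    constructor
    · rintro ⟨p, rfl⟩
      rw [hΦ]
      refine ⟨Submodule.sum_mem _ fun i _ => ?_, ?_⟩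
      · have := agr_smul_mem M (p i).2 (hbd i)
        have h2 : d i + (n - d i) = n := by ring
        rwa [h2] at this
      · rw [SetLike.mem_coe, Submodule.restrictScalars_mem]
        exact Submodule.sum_mem _ fun i _ =>
          Submodule.smul_mem _ _ (Submodule.subset_span ⟨i, rfl⟩)
    · rintro ⟨h1, h2⟩
      rw [SetLike.mem_coe, Submodule.restrictScalars_mem] at h2
      obtain ⟨q, hq⟩ := (Submodule.mem_span_range_iff_exists_fun (Po κ r)).1 h2
      obtain ⟨c1, c2, c3, c4, -⟩ := hCMP κ r M
      refine ⟨fun i => ⟨comp (n - d i) (q i), comp_mem _ _⟩, ?_⟩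
      rw [hΦ]
      have h3 : y = M.cmp n y := (c2 n y h1).symm
      have hsum : ∀ (S : Finset (Fin k)) (f : Fin k → M.M),
          M.cmp n (∑ e ∈ S, f e) = ∑ e ∈ S, M.cmp n (f e) := by
        intro S f
        classical
        induction S using Finset.induction_on with
        | empty => simpa using c2 n 0 (Submodule.zero_mem _)
        | insert a S ha ih => rw [Finset.sum_insert ha, Finset.sum_insert ha, c4, ih]
      rw [h3, ← hq, hsum]
      refine Finset.sum_congr rfl fun i _ => ?_
      exact (cmp_smul hCMP M (hbd i) n (q i)).symm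
  rw [← hrange, LinearMap.finrank_range_of_inj hinj]
  haveI : ∀ i, Module.Finite κ (Agr κ r (n - d i)) := fun i => (hfin (n - d i)).1
  rw [Module.finrank_pi_fintype]
  refine Finset.sum_congr rfl fun i _ => ?_
  rw [(hfin (n - d i)).2]
  simp only [sub_nonneg]

end Pool.Agent.GML
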