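import Pool.Agent.GML.Stmts

/-!
# GML / FRE: a maximal independent family of homogeneous elements
-/

set_option autoImplicit false

namespace Pool.Agent.GML

open MvPolynomial Filter

noncomputable section

namespace FRE_

lemma mono_smul {V : Type} [CommRing V] {r : ℕ} (M : GMod V r) (s : Fin r →₀ ℕ) (c : V) :
    ∀ (n : ℤ) (x : M.M), x ∈ M.gr n → (monomial s c : Po V r) • x ∈ M.gr (n + (s.degree : ℤ)) := by
  classical
  induction s using Finsupp.induction_linear generalizing c with
  | zero =>
    intro n x hx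
    have : (monomial (0 : Fin r →₀ ℕ) c : Po V r) • x = c • x := by
      rw [← C_apply, ← algebraMap_eq, algebraMap_smul]
    rw [this, map_zero]
    simpa using (M.gr n).smul_mem c hx
  | add s t hs ht =>
    intro n x hx
    have h1 : (monomial (s + t) c : Po V r) = monomial s 1 * monomial t c := by
      rw [monomial_mul, one_mul]
    rw [h1, mul_smul, map_add]
    have := hs 1 _ _ (ht c n x hx)
    have e : n + ((s.degree + t.degree : ℕ) : ℤ) = n + (t.degree : ℤ) + (s.degree : ℤ) := by
      push_cast; ring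
    rw [e]; exact this
  | single i k =>
    intro n x hx
    induction k generalizing c with
    | zero =>
      have : (monomial (Finsupp.single i 0) c : Po V r) • x = c • x := by
        rw [Finsupp.single_zero, ← C_apply, ← algebraMap_eq, algebraMap_smul]
      rw [this]
      simpa using (M.gr n).smul_mem c hx
    | succ k ih =>
      have h1 : (monomial (Finsupp.single i (k + 1)) c : Po V r) =
          X i * monomial (Finsupp.single i k) c := by
        rw [X, monomial_mul, one_mul, ← Finsupp.single_add, add_comm 1 k]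
      rw [h1, mul_smul]
      have := M.mul_mem i _ _ (ih c)
      have e : n + ((Finsupp.single i (k + 1)).degree : ℤ) =
          n + ((Finsupp.single i k).degree : ℤ) + 1 := by
        simp only [Finsupp.degree_single]; push_cast; ring
      rw [e]; exact this

lemma hom_smul {V : Type} [CommRing V] {r : ℕ} (M : GMod V r) {p : Po V r} {e : ℕ}
    (hp : p.IsHomogeneous e) (n : ℤ) (x : M.M) (hx : x ∈ M.gr n) : p • x ∈ M.gr (n + e) := by
  classical
  rw [p.as_sum, Finset.sum_smul]
  refine Submodule.sum_mem _ (fun s hs => ?_)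
  have h1 := mono_smul M s (coeff s p) n x hx
  have h2 : s.degree = e := by
    by_contra h
    exact (MvPolynomial.mem_support_iff.1 hs) (hp.coeff_eq_zero h)
  rwa [h2] at h1

lemma cmp_smul {V : Type} [CommRing V] (h : Stmt_CMP) {r : ℕ} (M : GMod V r) (p : Po V r) (n : ℤ)
    (x : M.M) (hx : x ∈ M.gr n) (e : ℕ) :
    M.cmp (n + e) (p • x) = (homogeneousComponent e p) • x := by
  classical
  obtain ⟨h1, h2, h3, h4, h5, -⟩ := h V r M
  have hsum : ∀ (s : Finset ℕ) (g : ℕ → M.M) (m : ℤ),
      M.cmp m (∑ i ∈ s, g i) = ∑ i ∈ s, M.cmp m (g i) := by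
    intro s g m
    induction s using Finset.induction_on with
    | empty =>
      simp only [Finset.sum_empty]
      have := h5 m 0 (0 : M.M)
      simpa using this
    | insert a s ha ih => rw [Finset.sum_insert ha, h4, ih, Finset.sum_insert ha]
  conv_lhs => rw [← sum_homogeneousComponent p, Finset.sum_smul, hsum]
  have hc : ∀ i : ℕ, (homogeneousComponent i p) • x ∈ M.gr (n + (i : ℤ)) := fun i =>
    hom_smul M (homogeneousComponent_isHomogeneous i p) n x hx
  by_cases he : e ∈ Finset.range (p.totalDegree + 1)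
  · rw [Finset.sum_eq_single_of_mem e he, h2 _ _ (hc e)]
    intro i _ hie
    exact h3 _ _ _ (hc i) (by omega)
  · rw [Finset.sum_eq_zero, homogeneousComponent_eq_zero, zero_smul]
    · rw [Finset.mem_range] at he; omega
    · intro i hi
      refine h3 _ _ _ (hc i) ?_
      intro h'
      apply he
      have : e = i := by omega
      rwa [this]

/-- homogeneous generators -/
lemma gens (h : Stmt_CMP) {V : Type} [CommRing V] {r : ℕ} (M : GMod V r)
    [hf : Module.Finite (Po V r) M.M] :
    ∃ (m : ℕ) (v : Fin m → M.M) (d : Fin m → ℤ), (∀ i, v i ∈ M.gr (d i)) ∧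
      Submodule.span (Po V r) (Set.range v) = ⊤ := by
  classical
  obtain ⟨S, hS⟩ := hf.1
  obtain ⟨h1, h2, h3, h4, h5, h6, h7, -⟩ := h V r M
  choose T hT using h7
  let U : Finset M.M := S.biUnion (fun x => (T x).image (fun n => M.cmp n x))
  have hU : ∀ x ∈ U, ∃ n : ℤ, x ∈ M.gr n := by
    intro x hx
    obtain ⟨y, -, hx⟩ := Finset.mem_biUnion.1 hx
    obtain ⟨n, -, rfl⟩ := Finset.mem_image.1 hx
    exact ⟨n, h1 n y⟩
  choose! D hD using hU
  refine ⟨U.card, fun i => (U.equivFin.symm i : M.M), fun i => D (U.equivFin.symm i),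
    fun i => hD _ (U.equivFin.symm i).2, ?_⟩
  rw [eq_top_iff, ← hS]
  refine Submodule.span_le.2 (fun x hx => ?_)
  rw [(hT x).1]
  refine Submodule.sum_mem _ (fun n hn => Submodule.subset_span ?_)
  have hmem : M.cmp n x ∈ U :=
    Finset.mem_biUnion.2 ⟨x, hx, Finset.mem_image.2 ⟨n, hn, rfl⟩⟩
  exact ⟨U.equivFin ⟨_, hmem⟩, by simp⟩

end FRE_

open FRE_ in
theorem fre_proof (hCMP : Stmt_CMP) (hDEG : Stmt_DEG) : Stmt_FRE := by
  classical
  intro κ _ r M hM
  obtain ⟨m, v, d, hv, hspan⟩ := gens hCMP M
  obtain ⟨s, hs, hmax⟩ := exists_maximal_linearIndepOn (Po κ r) v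
  -- homogeneous annihilators modulo the span
  have hhom : IsHom M (Submodule.span (Po κ r) (v '' s)) := by
    refine (hDEG κ r M M ⟨LinearMap.id, fun _ _ h => h⟩).2.2.2.2.2.2.2 _ ?_
    rintro _ ⟨i, -, rfl⟩
    exact ⟨d i, hv i⟩
  have hcl := ((hCMP κ r M).2.2.2.2.2.2.2.2.1 (Submodule.span (Po κ r) (v '' s))).1 hhom
  have hstep : ∀ i : Fin m, ∃ (a : Po κ r) (e : ℕ), a ≠ 0 ∧ a.IsHomogeneous e ∧
      a • v i ∈ Submodule.span (Po κ r) (v '' s) := by
    intro i
    by_cases hi : i ∈ s
    · exact ⟨1, 0, one_ne_zero, isHomogeneous_one _ _, by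
        rw [one_smul]; exact Submodule.subset_span ⟨i, hi, rfl⟩⟩
    · obtain ⟨a, ha, hai⟩ := hmax i hi
      have : ∃ e : ℕ, homogeneousComponent e a ≠ 0 := by
        by_contra hcon
        push Not at hcon
        apply ha
        rw [← sum_homogeneousComponent a]
        exact Finset.sum_eq_zero (fun e _ => hcon e)
      obtain ⟨e, he⟩ := this
      refine ⟨homogeneousComponent e a, e, he, homogeneousComponent_isHomogeneous e a, ?_⟩
      rw [← cmp_smul hCMP M a (d i) (v i) (hv i) e]
      exact hcl _ hai _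
  choose a e ha0 hae hai using hstep
  let f : Po κ r := ∏ i, a i
  have hf0 : f ≠ 0 := Finset.prod_ne_zero_iff.2 (fun i _ => ha0 i)
  have hfh : f.IsHomogeneous (∑ i, e i) := IsHomogeneous.prod _ _ _ (fun i _ => hae i)
  have hfx : ∀ x : M.M, f • x ∈ Submodule.span (Po κ r) (v '' s) := by
    intro x
    have hx : x ∈ Submodule.span (Po κ r) (Set.range v) := by rw [hspan]; trivial
    induction hx using Submodule.span_induction with
    | mem x hx =>
      obtain ⟨i, rfl⟩ := hx
      have : f = (∏ j ∈ Finset.univ.erase i, a j) * a i :=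
        (Finset.prod_erase_mul _ _ (Finset.mem_univ i)).symm
      rw [this, mul_smul]
      exact Submodule.smul_mem _ _ (hai i)
    | zero => rw [smul_zero]; exact Submodule.zero_mem _
    | add x y _ _ hx hy => rw [smul_add]; exact Submodule.add_mem _ hx hy
    | smul c x _ hx => rw [smul_comm]; exact Submodule.smul_mem _ _ hx
  -- enumeration
  let E : Fin (Fintype.card s) ≃ s := (Fintype.equivFin s).symm
  have hrange : Set.range (fun i => v (E i : Fin m)) = v '' s := by
    ext x
    constructor
    · rintro ⟨i, rfl⟩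
      exact ⟨E i, (E i).2, rfl⟩
    · rintro ⟨i, hi, rfl⟩
      exact ⟨E.symm ⟨i, hi⟩, by simp⟩
  have hli : LinearIndependent (Po κ r) (fun i => v (E i : Fin m)) :=
    (LinearIndependent.comp hs E E.injective)
  refine ⟨Fintype.card s, fun i => v (E i), fun i => d (E i), f, ∑ i, e i, hli,
    fun i => hv _, hf0, hfh, ?_, ?_⟩
  · intro x; rw [hrange]; exact hfx x
  · have h1 := finrank_span_eq_card hli
    rw [Fintype.card_fin] at h1
    set N := Submodule.span (Po κ r) (Set.range fun i => v (E i : Fin m)) with hN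
    have h2 : Module.rank (Po κ r) (M.M ⧸ N) = 0 := by
      rw [_root_.rank_eq_zero_iff]
      intro x
      obtain ⟨y, rfl⟩ := Submodule.mkQ_surjective N x
      refine ⟨f, hf0, ?_⟩
      rw [← map_smul]
      refine (Submodule.Quotient.mk_eq_zero N).2 ?_
      rw [hN, hrange]
      exact hfx y
    have h3 := rank_quotient_add_rank_of_isDomain (R := Po κ r) N
    rw [h2, zero_add] at h3
    rw [← h1, Module.finrank, Module.finrank, h3]

end

end Pool.Agent.GML
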