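import Pool.Agent.GML.Stmts

/-!
# GML: module GRO (growth of finitely generated graded modules)
-/

set_option autoImplicit false

namespace Pool.Agent.GML

open MvPolynomial Filter

noncomputable section

namespace GRO_

/-! ## binomials -/

/-- the dimension of the forms of degree `z` in `r + 2` variables -/
def Ad (r : ℕ) (z : ℤ) : ℕ := if 0 ≤ z then (z.toNat + (r + 1)).choose (r + 1) else 0

lemma Ad_nat (r n : ℕ) : Ad r n = (n + r + 1).choose (r + 1) := by
  unfold Ad
  rw [if_pos (Int.natCast_nonneg n), Int.toNat_natCast, ← add_assoc]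

lemma Ad_step (r : ℕ) (z : ℤ) :
    Ad r z ≤ Ad r (z + 1) ∧ Ad r (z + 1) ≤ Ad r z + (z.natAbs + r + 1) ^ r := by
  unfold Ad
  rcases lt_trichotomy z (-1) with h | h | h
  · have h1 : ¬ 0 ≤ z := by omega
    have h2 : ¬ 0 ≤ z + 1 := by omega
    rw [if_neg h1, if_neg h2]
    exact ⟨le_rfl, Nat.zero_le _⟩
  · subst h
    have h1 : ¬ (0 : ℤ) ≤ -1 := by omega
    have h2 : (0 : ℤ) ≤ -1 + 1 := by omega
    rw [if_neg h1, if_pos h2]
    refine ⟨Nat.zero_le _, ?_⟩
    have h3 : ((-1 + 1 : ℤ)).toNat = 0 := by simp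
    rw [h3, zero_add, Nat.choose_self, zero_add]
    exact Nat.one_le_pow _ _ (by omega)
  · obtain ⟨m, rfl⟩ : ∃ m : ℕ, z = m := ⟨z.toNat, by omega⟩
    have h1 : (0 : ℤ) ≤ m := by omega
    have h2 : (0 : ℤ) ≤ (m : ℤ) + 1 := by omega
    rw [if_pos h1, if_pos h2]
    have h3 : ((m : ℤ) + 1).toNat = m + 1 := by omega
    rw [h3, Int.toNat_natCast, Int.natAbs_natCast]
    have h4 : (m + 1 + (r + 1)).choose (r + 1) =
        (m + (r + 1)).choose r + (m + (r + 1)).choose (r + 1) := by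
      have : m + 1 + (r + 1) = (m + (r + 1)) + 1 := by ring
      rw [this, Nat.choose_succ_succ]
    rw [h4]
    refine ⟨Nat.le_add_left _ _, ?_⟩
    rw [add_comm]
    refine Nat.add_le_add_left ?_ _
    rw [← add_assoc]
    exact Nat.choose_le_pow _ _

lemma Ad_diff (r : ℕ) (z : ℤ) (t : ℕ) :
    Ad r z ≤ Ad r (z + t) ∧ Ad r (z + t) ≤ Ad r z + t * (z.natAbs + t + r + 1) ^ r := by
  induction t with
  | zero => simp
  | succ t ih =>
    have h1 := Ad_step r (z + t)
    have h2 : z + ((t + 1 : ℕ) : ℤ) = z + t + 1 := by push_cast; ring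
    rw [h2]
    refine ⟨ih.1.trans h1.1, h1.2.trans ?_⟩
    have h3 : ((z + t).natAbs + r + 1) ^ r ≤ (z.natAbs + (t + 1) + r + 1) ^ r :=
      Nat.pow_le_pow_left (by omega) _
    have h4 : (z.natAbs + t + r + 1) ^ r ≤ (z.natAbs + (t + 1) + r + 1) ^ r :=
      Nat.pow_le_pow_left (by omega) _
    calc Ad r (z + t) + ((z + t).natAbs + r + 1) ^ r
        ≤ (Ad r z + t * (z.natAbs + t + r + 1) ^ r) + (z.natAbs + (t + 1) + r + 1) ^ r :=
          Nat.add_le_add ih.2 h3
      _ ≤ (Ad r z + t * (z.natAbs + (t + 1) + r + 1) ^ r) + (z.natAbs + (t + 1) + r + 1) ^ r :=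
          Nat.add_le_add_right (Nat.add_le_add_left (Nat.mul_le_mul_left _ h4) _) _
      _ = _ := by ring

/-- uniform version -/
lemma Ad_bd (r : ℕ) (u : ℤ) (t : ℕ) : ∃ C : ℕ, ∀ n : ℕ,
    Ad r (n + u) ≤ Ad r (n + u + t) ∧ Ad r (n + u + t) ≤ Ad r (n + u) + C * (n + 1) ^ r := by
  refine ⟨t * (u.natAbs + t + r + 2) ^ r, fun n => ?_⟩
  have h := Ad_diff r (n + u) t
  refine ⟨h.1, h.2.trans (Nat.add_le_add_left ?_ _)⟩
  rw [mul_assoc, ← mul_pow]
  refine Nat.mul_le_mul_left _ (Nat.pow_le_pow_left ?_ _)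
  have h1 : ((n : ℤ) + u).natAbs ≤ n + u.natAbs := by omega
  nlinarith [Nat.zero_le (n * (u.natAbs + t + r + 1))]

lemma Ad_abs (r : ℕ) (d : ℤ) : ∃ C : ℕ, ∀ n : ℕ,
    |(Ad r (n - d) : ℤ) - Ad r n| ≤ C * ((n : ℤ) + 1) ^ r := by
  rcases le_total d 0 with h | h
  · obtain ⟨C, hC⟩ := Ad_bd r 0 (-d).toNat
    refine ⟨C, fun n => ?_⟩
    have h1 := hC n
    have e : (n : ℤ) + 0 + ((-d).toNat : ℤ) = n - d := by omega
    rw [e, add_zero] at h1
    rw [abs_le]
    have h2 : ((Ad r n : ℕ) : ℤ) ≤ (Ad r (n - d) : ℕ) := by exact_mod_cast h1.1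
    have h3 : ((Ad r (n - d) : ℕ) : ℤ) ≤ (Ad r n : ℕ) + C * ((n : ℤ) + 1) ^ r := by
      exact_mod_cast h1.2
    have h4 : (0 : ℤ) ≤ C * ((n : ℤ) + 1) ^ r := by positivity
    constructor <;> linarith
  · obtain ⟨C, hC⟩ := Ad_bd r (-d) d.toNat
    refine ⟨C, fun n => ?_⟩
    have h1 := hC n
    have e : (n : ℤ) + -d + (d.toNat : ℤ) = n := by omega
    rw [e, ← sub_eq_add_neg] at h1
    rw [abs_le]
    have h2 : ((Ad r (n - d) : ℕ) : ℤ) ≤ (Ad r n : ℕ) := by exact_mod_cast h1.1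
    have h3 : ((Ad r n : ℕ) : ℤ) ≤ (Ad r (n - d) : ℕ) + C * ((n : ℤ) + 1) ^ r := by
      exact_mod_cast h1.2
    have h4 : (0 : ℤ) ≤ C * ((n : ℤ) + 1) ^ r := by positivity
    constructor <;> linarith

/-! ## homogeneous generators -/

section gens

variable {V : Type} [CommRing V] {r : ℕ} (M : GMod V r)

lemma mon_mem (m : Fin r →₀ ℕ) : ∀ (n : ℤ) (x : M.M), x ∈ M.gr n →
    (monomial m (1 : V) : Po V r) • x ∈ M.gr (n + (m.degree : ℕ)) := by
  induction m using Finsupp.induction_linear with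
  | zero =>
    intro n x hx
    simpa using hx
  | add f g hf hg =>
    intro n x hx
    have h1 : (monomial (f + g) (1 : V) : Po V r) = monomial f 1 * monomial g 1 := by
      rw [monomial_mul, one_mul]
    rw [h1, mul_smul]
    have h2 := hf _ _ (hg n x hx)
    have e : n + ((f + g).degree : ℕ) = n + (g.degree : ℕ) + (f.degree : ℕ) := by
      rw [map_add]
      push_cast
      ring
    rw [e]
    exact h2
  | single i k =>
    intro n x hx
    have h1 : ∀ k : ℕ, (X i : Po V r) ^ k • x ∈ M.gr (n + k) := by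
      intro k
      induction k with
      | zero => simpa using hx
      | succ k ih =>
        rw [pow_succ', mul_smul]
        have := M.mul_mem i _ _ ih
        have e : n + ((k + 1 : ℕ) : ℤ) = n + k + 1 := by push_cast; ring
        rw [e]
        exact this
    have h2 : (monomial (Finsupp.single i k) (1 : V) : Po V r) = X i ^ k := by
      rw [X_pow_eq_monomial]
    rw [h2]
    have h3 : (Finsupp.single i k).degree = k := by simp
    rw [h3]
    exact h1 k

lemma hom_mem (p : Po V r) (k : ℕ) (hp : p.IsHomogeneous k) (n : ℤ) (x : M.M) (hx : x ∈ M.gr n) :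
    p • x ∈ M.gr (n + k) := by
  rw [p.as_sum, Finset.sum_smul]
  refine Submodule.sum_mem _ fun m hm => ?_
  have h1 : (monomial m (coeff m p) : Po V r) = (coeff m p) • monomial m (1 : V) := by
    rw [smul_monomial, smul_eq_mul, mul_one]
  rw [h1, smul_assoc]
  refine Submodule.smul_mem _ _ ?_
  have h2 : m.degree = k := by
    have := hp (mem_support_iff.1 hm)
    rwa [Finsupp.degree_eq_weight_one]
  rw [← h2]
  exact mon_mem M m n x hx

/-- the component of degree `z` of a polynomial -/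
def hc (z : ℤ) (p : Po V r) : Po V r := if 0 ≤ z then homogeneousComponent z.toNat p else 0

lemma hc_mem (z : ℤ) (p : Po V r) : hc z p ∈ Agr V r z := by
  unfold hc Agr
  split_ifs with h
  · exact homogeneousComponent_isHomogeneous _ _
  · exact Submodule.zero_mem _

lemma cmp_sum (hCMP : Stmt_CMP) {ι : Type} (s : Finset ι) (x : ι → M.M) (n : ℤ) :
    M.cmp n (∑ i ∈ s, x i) = ∑ i ∈ s, M.cmp n (x i) := by
  classical
  obtain ⟨-, -, -, hadd, hsm, -⟩ := hCMP V r M
  induction s using Finset.induction_on with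
  | empty =>
    have := hsm n 0 0
    simpa using this
  | insert a s ha ih => rw [Finset.sum_insert ha, Finset.sum_insert ha, hadd, ih]

lemma cmp_smul (hCMP : Stmt_CMP) (p : Po V r) (c : ℤ) (y : M.M) (hy : y ∈ M.gr c) (n : ℤ) :
    M.cmp n (p • y) = hc (n - c) p • y := by
  obtain ⟨-, h2, h3, -, hsm, -⟩ := hCMP V r M
  have hz : M.cmp n 0 = 0 := by
    have := hsm n 0 0
    simpa using this
  conv_lhs => rw [← sum_homogeneousComponent p, Finset.sum_smul]
  rw [cmp_sum M hCMP]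
  have key : ∀ k : ℕ, M.cmp n (homogeneousComponent k p • y) =
      if (k : ℤ) = n - c then homogeneousComponent k p • y else 0 := by
    intro k
    have hk := hom_mem M _ k (homogeneousComponent_isHomogeneous k p) c y hy
    split_ifs with h
    · have e : c + (k : ℤ) = n := by omega
      rw [e] at hk
      exact h2 _ _ hk
    · exact h3 n (c + k) _ hk (by omega)
  simp only [key]
  unfold hc
  split_ifs with h
  · by_cases hk : (n - c).toNat ∈ Finset.range (p.totalDegree + 1)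
    · rw [Finset.sum_eq_single_of_mem _ hk]
      · rw [if_pos (by omega)]
      · intro b _ hb
        rw [if_neg (by omega)]
    · rw [homogeneousComponent_eq_zero, zero_smul]
      · refine Finset.sum_eq_zero fun b hb => ?_
        rw [if_neg]
        intro hbe
        apply hk
        have : b = (n - c).toNat := by omega
        rw [← this]
        exact hb
      · rw [Finset.mem_range] at hk
        omega
  · rw [zero_smul]
    refine Finset.sum_eq_zero fun b _ => ?_
    rw [if_neg (by omega)]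

/-- finitely many homogeneous generators -/
lemma exists_gens (hCMP : Stmt_CMP) [Module.Finite (Po V r) M.M] :
    ∃ (ι : Type) (_ : Fintype ι) (y : ι → M.M) (c : ι → ℤ), (∀ j, y j ∈ M.gr (c j)) ∧
      Submodule.span (Po V r) (Set.range y) = ⊤ := by
  classical
  obtain ⟨h1, -, -, -, -, -, h7, -⟩ := hCMP V r M
  obtain ⟨S, hS⟩ := (Module.finite_def.1 (inferInstance : Module.Finite (Po V r) M.M))
  choose T hT _ using h7
  refine ⟨↥(S.sigma T), inferInstance, fun j => M.cmp j.1.2 j.1.1, fun j => j.1.2,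
    fun j => h1 _ _, ?_⟩
  rw [eq_top_iff, ← hS, Submodule.span_le]
  intro x hx
  rw [SetLike.mem_coe, hT x]
  refine Submodule.sum_mem _ fun n hn => ?_
  exact Submodule.subset_span ⟨⟨⟨x, n⟩, Finset.mem_sigma.2 ⟨hx, hn⟩⟩, rfl⟩

lemma rep (hCMP : Stmt_CMP) {ι : Type} [Fintype ι] (y : ι → M.M) (c : ι → ℤ)
    (hy : ∀ j, y j ∈ M.gr (c j)) (hs : Submodule.span (Po V r) (Set.range y) = ⊤) (n : ℤ)
    (x : M.M) (hx : x ∈ M.gr n) :
    ∃ p : ι → Po V r, (∀ j, p j ∈ Agr V r (n - c j)) ∧ x = ∑ j, p j • y j := by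
  obtain ⟨-, h2, -⟩ := hCMP V r M
  have hx' : x ∈ Submodule.span (Po V r) (Set.range y) := by
    rw [hs]
    trivial
  obtain ⟨P, hP⟩ := (Submodule.mem_span_range_iff_exists_fun (Po V r)).1 hx'
  refine ⟨fun j => hc (n - c j) (P j), fun j => hc_mem _ _, ?_⟩
  rw [← h2 n x hx, ← hP, cmp_sum M hCMP]
  refine Finset.sum_congr rfl fun j _ => ?_
  exact cmp_smul M hCMP _ _ _ (hy j) n

end gens

end GRO_

open GRO_ in
theorem gro_proof (hAGR : Stmt_AGR) (hCMP : Stmt_CMP) (hFRE : Stmt_FRE) (hDIM : Stmt_DIM)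
    (_hDEG : Stmt_DEG) (_hQUO : Stmt_QUO) : Stmt_GRO := by
  classical
  intro κ _ r M hfin
  obtain ⟨k, b, d, f, e, hli, hbd, hf0, hfe, hfx, hk⟩ := hFRE κ (r + 2) M hfin
  obtain ⟨ι, _, y, c, hy, hspan⟩ := exists_gens M hCMP
  obtain ⟨-, hmul, hdim⟩ := hAGR
  have hfA : ∀ z : ℤ, Module.Finite κ (Agr κ (r + 2) z) := fun z =>
    (hdim κ (r + 2) (by omega) z).1
  have hA : ∀ z : ℤ, Module.finrank κ (Agr κ (r + 2) z) = Ad r z := fun z =>
    (hdim κ (r + 2) (by omega) z).2
  -- the map of the generators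
  let Ψ : ∀ n : ℤ, ((j : ι) → Agr κ (r + 2) (n - c j)) →ₗ[κ] M.M := fun n =>
    ∑ j, ((LinearMap.toSpanSingleton (Po κ (r + 2)) M.M (y j)).restrictScalars κ).comp
      ((Submodule.subtype _).comp (LinearMap.proj j))
  have hΨ : ∀ n p, Ψ n p = ∑ j, (p j : Po κ (r + 2)) • y j := by
    intro n p
    simp [Ψ, LinearMap.sum_apply]
  have hgr : ∀ n, M.gr n ≤ LinearMap.range (Ψ n) := by
    intro n x hx
    obtain ⟨p, hp, hx'⟩ := rep M hCMP y c hy hspan n x hx
    exact ⟨fun j => ⟨p j, hp j⟩, by rw [hΨ]; exact hx'.symm⟩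
  have hfn : ∀ n, Module.Finite κ (M.gr n) := fun n =>
    Submodule.finiteDimensional_of_le (hgr n)
  refine ⟨hfn, ⟨-(∑ j, |c j|) - 1, fun n hn => ?_⟩, ?_⟩
  · rw [eq_bot_iff]
    intro x hx
    obtain ⟨p, hp, hx'⟩ := rep M hCMP y c hy hspan n x hx
    have h0 : ∀ j, p j = 0 := by
      intro j
      have h1 : |c j| ≤ ∑ j, |c j| := Finset.single_le_sum (f := fun j => |c j|)
        (fun i _ => abs_nonneg _) (Finset.mem_univ j)
      have h2 := neg_abs_le (c j)
      have h3 : ¬ 0 ≤ n - c j := by omega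
      have h4 := hp j
      unfold Agr at h4
      rw [if_neg h3] at h4
      exact (Submodule.mem_bot _).1 h4
    rw [hx']
    simp [h0]
  · choose C₁ hC₁ using fun i : Fin k => Ad_abs r (d i)
    choose C₂ hC₂ using fun j : ι => Ad_bd r (-c j - e) e
    refine ⟨∑ i, C₁ i + ∑ j, C₂ j, fun n => ?_⟩
    set N : Submodule κ M.M := (Submodule.span (Po κ (r + 2)) (Set.range b)).restrictScalars κ
      with hN
    have hD := hDIM κ (r + 2) (by omega) M k b d hli hbd n
    have hD' : Module.finrank κ ↥(M.gr n ⊓ N) = ∑ i, Ad r (n - d i) := by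
      rw [hD]
      refine Finset.sum_congr rfl fun i _ => ?_
      unfold Ad
      by_cases h : d i ≤ n
      · rw [if_pos h, if_pos (by omega)]
        rfl
      · rw [if_neg h, if_neg (by omega)]
    have := hfn n
    -- the quotient
    let g : M.gr n →ₗ[κ] (M.M ⧸ N) := (N.mkQ).comp (M.gr n).subtype
    let Φ : ((j : ι) → Agr κ (r + 2) ((n : ℤ) - c j)) →ₗ[κ] (M.M ⧸ N) := (N.mkQ).comp (Ψ n)
    have hker : Module.finrank κ (LinearMap.ker g) = Module.finrank κ ↥(M.gr n ⊓ N) := by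
      have h1 : LinearMap.ker g = Submodule.comap (M.gr n).subtype N := by
        ext x
        simp [g]
      rw [h1, ← Submodule.map_comap_subtype]
      exact (Submodule.finrank_map_subtype_eq _ _).symm
    have hrk := LinearMap.finrank_range_add_finrank_ker g
    have hrg : LinearMap.range g ≤ LinearMap.range Φ := by
      rintro _ ⟨x, rfl⟩
      obtain ⟨p, hp⟩ := hgr n x.2
      exact ⟨p, by
        show N.mkQ (Ψ n p) = N.mkQ (x : M.M)
        rw [hp]⟩
    have hrg' : Module.finrank κ (LinearMap.range g) ≤ Module.finrank κ (LinearMap.range Φ) :=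
      Submodule.finrank_mono hrg
    have hrΦ := LinearMap.finrank_range_add_finrank_ker Φ
    have hpi : Module.finrank κ ((j : ι) → Agr κ (r + 2) ((n : ℤ) - c j)) =
        ∑ j, Ad r ((n : ℤ) - c j) := by
      rw [Module.finrank_pi_fintype]
      exact Finset.sum_congr rfl fun j _ => hA _
    -- the kernel of `Φ`
    have hfq : ∀ (j : ι) (q : Agr κ (r + 2) ((n : ℤ) - c j - e)),
        f * (q : Po κ (r + 2)) ∈ Agr κ (r + 2) ((n : ℤ) - c j) := by
      intro j q
      have h1 : f ∈ Agr κ (r + 2) (e : ℤ) := by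
        unfold Agr
        rw [if_pos (Int.natCast_nonneg e)]
        exact hfe
      have h2 := hmul κ (r + 2) e ((n : ℤ) - c j - e) f q h1 q.2
      have e1 : (e : ℤ) + ((n : ℤ) - c j - e) = (n : ℤ) - c j := by ring
      rwa [e1] at h2
    let Θ₀ : ((j : ι) → Agr κ (r + 2) ((n : ℤ) - c j - e)) →ₗ[κ]
        ((j : ι) → Agr κ (r + 2) ((n : ℤ) - c j)) :=
      LinearMap.pi fun j => LinearMap.codRestrict _
        ((LinearMap.mulLeft κ f).comp ((Submodule.subtype _).comp (LinearMap.proj j)))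
        fun q => hfq j (q j)
    have hΘ₀ : ∀ q j, ((Θ₀ q j : Agr κ (r + 2) ((n : ℤ) - c j)) : Po κ (r + 2)) = f * (q j) :=
      fun q j => rfl
    have hΘk : ∀ q, Θ₀ q ∈ LinearMap.ker Φ := by
      intro q
      rw [LinearMap.mem_ker]
      show N.mkQ (Ψ n (Θ₀ q)) = 0
      rw [Submodule.mkQ_apply, Submodule.Quotient.mk_eq_zero, hΨ]
      have h1 : ∑ j, ((Θ₀ q j : Agr κ (r + 2) ((n : ℤ) - c j)) : Po κ (r + 2)) • y j =
          f • ∑ j, (q j : Po κ (r + 2)) • y j := by
        rw [Finset.smul_sum]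
        refine Finset.sum_congr rfl fun j _ => ?_
        rw [hΘ₀, mul_smul]
      rw [h1]
      exact hfx _
    have hΘi : Function.Injective (LinearMap.codRestrict (LinearMap.ker Φ) Θ₀ hΘk) := by
      intro q q' h
      have h1 : Θ₀ q = Θ₀ q' := congrArg Subtype.val h
      funext j
      have h2 := congrArg (fun z => ((z j : Agr κ (r + 2) ((n : ℤ) - c j)) : Po κ (r + 2))) h1
      simp only [hΘ₀] at h2
      exact Subtype.ext (mul_left_cancel₀ hf0 h2)
    have hkΦ : ∑ j, Ad r ((n : ℤ) - c j - e) ≤ Module.finrank κ (LinearMap.ker Φ) := by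
      have h1 := LinearMap.finrank_le_finrank_of_injective hΘi
      rw [Module.finrank_pi_fintype] at h1
      simpa only [hA] using h1
    -- conclusion
    have hU : Module.finrank κ (M.gr n) + ∑ j, Ad r ((n : ℤ) - c j - e) ≤
        ∑ i, Ad r (n - d i) + ∑ j, Ad r ((n : ℤ) - c j) := by
      rw [hpi] at hrΦ
      rw [hker, hD'] at hrk
      omega
    have hL : ∑ i, Ad r (n - d i) ≤ Module.finrank κ (M.gr n) := by
      rw [hker, hD'] at hrk
      omega
    have hj : ∑ j, Ad r ((n : ℤ) - c j) ≤ ∑ j, Ad r ((n : ℤ) - c j - e) +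
        (∑ j, C₂ j) * (n + 1) ^ r := by
      rw [Finset.sum_mul, ← Finset.sum_add_distrib]
      refine Finset.sum_le_sum fun j _ => ?_
      have h1 := (hC₂ j n).2
      have e1 : (n : ℤ) + (-c j - e) + e = (n : ℤ) - c j := by ring
      have e2 : (n : ℤ) + (-c j - e) = (n : ℤ) - c j - e := by ring
      rwa [e1, e2] at h1
    have hi : |∑ i, ((Ad r (n - d i) : ℕ) : ℤ) - k * (Ad r n : ℤ)| ≤
        (∑ i, (C₁ i : ℤ)) * ((n : ℤ) + 1) ^ r := by
      have h1 : ∑ i, ((Ad r (n - d i) : ℕ) : ℤ) - k * (Ad r n : ℤ) =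
          ∑ i : Fin k, (((Ad r (n - d i) : ℕ) : ℤ) - (Ad r n : ℤ)) := by
        rw [Finset.sum_sub_distrib]
        simp
      rw [h1, Finset.sum_mul]
      exact (Finset.abs_sum_le_sum_abs _ _).trans (Finset.sum_le_sum fun i _ => hC₁ i n)
    rw [← hk, ← Ad_nat]
    have hU' : ((Module.finrank κ (M.gr n) : ℕ) : ℤ) ≤ ∑ i, ((Ad r (n - d i) : ℕ) : ℤ) +
        (∑ j, (C₂ j : ℤ)) * ((n : ℤ) + 1) ^ r := by
      have h1 : Module.finrank κ (M.gr n) ≤ ∑ i, Ad r (n - d i) + (∑ j, C₂ j) * (n + 1) ^ r := by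
        omega
      exact_mod_cast h1
    have hL' : ∑ i, ((Ad r (n - d i) : ℕ) : ℤ) ≤ ((Module.finrank κ (M.gr n) : ℕ) : ℤ) := by
      exact_mod_cast hL
    have hi' := abs_le.1 hi
    have hpos : (0 : ℤ) ≤ (∑ j, (C₂ j : ℤ)) * ((n : ℤ) + 1) ^ r := by positivity
    push_cast
    rw [abs_le, add_mul]
    constructor
    · linarith [hi'.1]
    · linarith [hi'.2]

end

end Pool.Agent.GML
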