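import Pool.Agent.GML.Stmts

/-!
# GML, module QUO: quotients by homogeneous submodules are graded modules
-/

set_option autoImplicit false

namespace Pool.Agent.GML

open MvPolynomial Filter

namespace QUO_

lemma internal {V M' : Type} [CommRing V] [AddCommGroup M'] [Module V M']
    (gr : ℤ → Submodule V M') (c : ℤ → M' → M') (hadd : ∀ n x y, c n (x + y) = c n x + c n y)
    (h1 : ∀ n x, x ∈ gr n → c n x = x) (h2 : ∀ m n x, x ∈ gr n → m ≠ n → c m x = 0)
    (h3 : ∀ x, ∃ S : Finset ℤ, x = ∑ n ∈ S, c n x) (h4 : ∀ n x, c n x ∈ gr n) :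
    DirectSum.IsInternal gr := by
  classical
  have c0 : ∀ n, c n 0 = 0 := by
    intro n
    have h := hadd n 0 0
    rw [add_zero] at h
    have h' := congrArg (fun t => t - c n 0) h
    simpa using h'.symm
  have hkey : ∀ (z : DirectSum ℤ fun n => gr n) (n : ℤ),
      c n (DirectSum.coeLinearMap gr z) = (z n : M') := by
    intro z n
    induction z using DirectSum.induction_on with
    | zero =>
      rw [map_zero, c0]
      rfl
    | of i x =>
      rw [← DirectSum.lof_eq_of V, DirectSum.coeLinearMap_lof]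
      by_cases hin : n = i
      · subst hin
        rw [DirectSum.lof_apply]
        exact h1 n _ x.2
      · rw [h2 n i _ x.2 hin, DirectSum.lof_eq_of, DirectSum.of_eq_of_ne _ _ _ hin]
        rfl
    | add x y hx hy =>
      rw [map_add, hadd, hx, hy]
      rfl
  refine ⟨?_, ?_⟩
  · have hinj : Function.Injective (DirectSum.coeLinearMap gr) := by
      rw [injective_iff_map_eq_zero]
      intro z hz
      refine DFinsupp.ext fun n => ?_
      have h := hkey z n
      rw [hz, c0] at h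
      exact Subtype.ext h.symm
    exact hinj
  · intro x
    obtain ⟨S, hS⟩ := h3 x
    refine ⟨∑ n ∈ S, DirectSum.lof V ℤ (fun n => gr n) n ⟨c n x, h4 n x⟩, ?_⟩
    show DirectSum.coeLinearMap gr _ = x
    rw [map_sum]
    conv_rhs => rw [hS]
    refine Finset.sum_congr rfl fun n _ => ?_
    rw [DirectSum.coeLinearMap_lof]

end QUO_

open QUO_ in
theorem quo_proof (hCMP : Stmt_CMP) : Stmt_QUO := by
  classical
  intro V _ r M N hN
  obtain ⟨c1, c2, c3, c4, c5, c6, c7, c8, c9, c10⟩ := hCMP V r M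
  have hcl := (c9 N).1 hN
  obtain ⟨gr, hgr⟩ : ∃ gr : ℤ → Submodule V (M.M ⧸ N), ∀ n (y : M.M ⧸ N), y ∈ gr n ↔
      ∃ x ∈ M.gr n, N.mkQ x = y :=
    ⟨fun n => (M.gr n).map (N.mkQ.restrictScalars V), fun n x => Iff.rfl⟩
  obtain ⟨c, hc⟩ : ∃ c : ℤ → (M.M ⧸ N) → (M.M ⧸ N), ∀ n x, c n (N.mkQ x) = N.mkQ (M.cmp n x) := by
    refine ⟨fun n q => N.mkQ (M.cmp n (Function.surjInv N.mkQ_surjective q)), fun n x => ?_⟩
    have h1 : N.mkQ (Function.surjInv N.mkQ_surjective (N.mkQ x)) = N.mkQ x :=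
      Function.surjInv_eq _ _
    have h2 : Function.surjInv N.mkQ_surjective (N.mkQ x) - x ∈ N := by
      have h6 : N.mkQ (Function.surjInv N.mkQ_surjective (N.mkQ x) - x) = 0 := by
        rw [map_sub, h1, sub_self]
      exact (Submodule.Quotient.mk_eq_zero N).1 h6
    have h3 := hcl _ h2 n
    have h4 : M.cmp n (Function.surjInv N.mkQ_surjective (N.mkQ x)) =
        M.cmp n (Function.surjInv N.mkQ_surjective (N.mkQ x) - x) + M.cmp n x := by
      rw [← c4, sub_add_cancel]
    show N.mkQ (M.cmp n (Function.surjInv N.mkQ_surjective (N.mkQ x))) = _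
    rw [h4, map_add]
    have h5 : N.mkQ (M.cmp n (Function.surjInv N.mkQ_surjective (N.mkQ x) - x)) = 0 := by
      exact (Submodule.Quotient.mk_eq_zero N).2 h3
    rw [h5, zero_add]
  have hint : DirectSum.IsInternal gr := by
    refine internal gr c ?_ ?_ ?_ ?_ ?_
    · intro n x y
      obtain ⟨x, rfl⟩ := N.mkQ_surjective x
      obtain ⟨y, rfl⟩ := N.mkQ_surjective y
      rw [← map_add, hc, hc, hc, c4, map_add]
    · intro n y hy
      obtain ⟨x, hx, rfl⟩ := (hgr n y).1 hy
      rw [hc, c2 n x hx]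
    · intro m n y hy hmn
      obtain ⟨x, hx, rfl⟩ := (hgr n y).1 hy
      rw [hc, c3 m n x hx hmn, map_zero]
    · intro y
      obtain ⟨x, rfl⟩ := N.mkQ_surjective y
      obtain ⟨S, hS, -⟩ := c7 x
      refine ⟨S, ?_⟩
      conv_lhs => rw [hS]
      rw [map_sum]
      exact Finset.sum_congr rfl fun n _ => (hc n x).symm
    · intro n y
      obtain ⟨x, rfl⟩ := N.mkQ_surjective y
      rw [hc]
      exact (hgr n _).2 ⟨_, c1 n x, rfl⟩
  refine ⟨{ M := M.M ⧸ N, gr := gr, int := hint, mul_mem := ?_ }, ⟨N.mkQ, ?_⟩, ?_, ?_, ?_⟩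
  · intro i n y hy
    obtain ⟨x, hx, rfl⟩ := (hgr n y).1 hy
    exact (hgr _ _).2 ⟨_, M.mul_mem i n x hx, map_smul _ _ _⟩
  · intro n x hx
    exact (hgr n _).2 ⟨x, hx, rfl⟩
  · exact N.mkQ_surjective
  · exact N.ker_mkQ
  · intro n y hy
    exact (hgr n y).1 hy

end Pool.Agent.GML
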