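import Pool.Agent.GML.Stmts

set_option autoImplicit false

open MvPolynomial Filter

namespace Pool.Agent.GML

namespace CNT_

theorem eq_bot_of_finrank {V M : Type} [CommRing V] [IsDomain V] [AddCommGroup M] [Module V M]
    (N : Submodule V M) [Module.Free V N] [Module.Finite V N] (h : Module.finrank V N = 0) :
    N = ⊥ := by
  have h1 : Subsingleton N := by
    have b := Module.finBasis V N
    rw [h] at b
    have : Subsingleton (Fin 0 →₀ V) := inferInstance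
    exact b.repr.toEquiv.subsingleton
  exact (Submodule.subsingleton_iff_eq_bot).1 h1

/-- the arithmetic estimate -/
theorem est {H : ℚ} {r b C₀ : ℕ} (hb : 0 < b) (s : ℕ)
    (h : |H - r * ((s + 3 : ℕ) : ℚ) ^ 3 / (6 * b)| ≤ C₀ * (((s + 3 : ℕ) : ℚ) + 1) ^ 2) :
    |H - r * (s : ℚ) ^ 3 / (6 * b)| ≤ (16 * C₀ + 27 * r) * ((s : ℚ) + 1) ^ 2 := by
  have hs : (0 : ℚ) ≤ s := Nat.cast_nonneg s
  have hr : (0 : ℚ) ≤ r := Nat.cast_nonneg r
  have hC : (0 : ℚ) ≤ C₀ := Nat.cast_nonneg C₀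
  have hb1 : (1 : ℚ) ≤ b := by exact_mod_cast hb
  have hb0 : (0 : ℚ) < 6 * b := by linarith
  push_cast at h
  have e1 : (r : ℚ) * (s + 3) ^ 3 / (6 * b) - r * s ^ 3 / (6 * b)
      = r * (9 * s ^ 2 + 27 * s + 27) / (6 * b) := by
    field_simp; ring
  have e2 : (r : ℚ) * (9 * s ^ 2 + 27 * s + 27) / (6 * b) ≤ 27 * r * (s + 1) ^ 2 := by
    rw [div_le_iff₀ hb0]
    have h1 : (r : ℚ) * (9 * s ^ 2 + 27 * s + 27) ≤ 27 * r * (s + 1) ^ 2 := by
      nlinarith [mul_nonneg hr hs, mul_nonneg hr (mul_nonneg hs hs)]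
    have h2 : (0 : ℚ) ≤ 27 * r * (s + 1) ^ 2 := by positivity
    have h3 : (27 : ℚ) * r * (s + 1) ^ 2 * 1 ≤ 27 * r * (s + 1) ^ 2 * (6 * b) :=
      mul_le_mul_of_nonneg_left (by linarith) h2
    linarith
  have e3 : (0 : ℚ) ≤ r * (9 * s ^ 2 + 27 * s + 27) / (6 * b) := by positivity
  have e4 : (C₀ : ℚ) * ((s + 3) + 1) ^ 2 ≤ 16 * C₀ * (s + 1) ^ 2 := by
    nlinarith [mul_nonneg hC hs, mul_nonneg hC (mul_nonneg hs hs)]
  rw [abs_le] at h ⊢
  obtain ⟨ha, hb'⟩ := h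
  constructor
  · linarith
  · linarith

end CNT_

open CNT_ in
theorem cnt_proof (hWBD : Stmt_WBD) (hEXP : Stmt_EXP) : Stmt_CNT := by
  intro V _ _ _ _ κ _ σ t ht D W R htor a b c γ F hF
  obtain ⟨hfin, ⟨n₀, hn₀⟩, C₀, hC₀⟩ := hWBD κ W a b c γ F hF
  have hE := fun s => hEXP V κ σ t ht D W R htor s (hfin (-s - 3)).1 (hfin (-s - 3)).2
  have key : ∀ s : ℤ, Module.Free V (Om D s) ∧ Module.Finite V (Om D s) ∧
      Module.Finite κ (Om W s) ∧
      Module.finrank V (Om D s) ≤ Module.finrank κ (Om W s) := by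
    intro s
    obtain ⟨f1, f2, f3, f4, U, hU1, hU2, hU3⟩ := hE s
    exact ⟨f1, f2, f3, by rw [← hU2]; exact Submodule.finrank_le U⟩
  refine ⟨key, ⟨-3 - n₀, ?_⟩, 32 * C₀ + 27 * Module.finrank (Po κ 3) ↥(F (a - 1)), ?_⟩
  · intro s hs
    obtain ⟨f1, f2, f3, f4, U, hU1, hU2, hU3⟩ := hE s
    have h0 := (hn₀ (-s - 3) (by omega)).2
    rw [h0] at f4
    have h1 : Module.finrank κ (Om W s) = 0 := by rw [f4]; rfl
    have h2 : Module.finrank V (Om D s) = 0 := by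
      have := (key s).2.2.2
      omega
    have f5 : Module.Free κ (Om W s) := Module.Free.of_divisionRing κ (Om W s)
    exact ⟨eq_bot_of_finrank _ h1, eq_bot_of_finrank _ h2⟩
  · intro s
    obtain ⟨f1, f2, f3, f4, U, hU1, hU2, hU3⟩ := hE s
    set r := Module.finrank (Po κ 3) ↥(F (a - 1)) with hr
    obtain ⟨g1, g2⟩ := hC₀ (s + 3)
    have hcast : -((s + 3 : ℕ) : ℤ) = -(s : ℤ) - 3 := by push_cast; ring
    rw [hcast] at g1 g2
    rw [← f4] at g2
    have g3 := est hF.b_pos s g2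
    have hs : (0 : ℚ) ≤ s := Nat.cast_nonneg s
    have hC : (0 : ℚ) ≤ C₀ := Nat.cast_nonneg C₀
    have hle := (key s).2.2.2
    have g4 : Module.finrank κ (Om W s) ≤ Module.finrank κ U + 16 * C₀ * (s + 1) ^ 2 := by
      have h5 : C₀ * (s + 3 + 1) ^ 2 ≤ 16 * C₀ * (s + 1) ^ 2 := by
        have h6 : (s + 3 + 1) ^ 2 ≤ 16 * (s + 1) ^ 2 := by nlinarith
        calc C₀ * (s + 3 + 1) ^ 2 ≤ C₀ * (16 * (s + 1) ^ 2) := Nat.mul_le_mul_left _ h6
          _ = 16 * C₀ * (s + 1) ^ 2 := by ring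
      omega
    refine ⟨?_, ?_, U, hU1, ?_⟩
    · refine g3.trans ?_
      push_cast
      have : (0 : ℚ) ≤ 16 * C₀ * (s + 1) ^ 2 := by positivity
      nlinarith
    · have h6 : (Module.finrank κ (Om W s) : ℚ) ≤
          (Module.finrank V (Om D s) : ℚ) + 16 * C₀ * (s + 1) ^ 2 := by
        rw [hU2] at g4
        exact_mod_cast g4
      have h7 : (Module.finrank V (Om D s) : ℚ) ≤ Module.finrank κ (Om W s) := by
        exact_mod_cast hle
      rw [abs_le] at g3 ⊢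
      obtain ⟨ga, gb⟩ := g3
      push_cast
      have : (0 : ℚ) ≤ 16 * C₀ * (s + 1) ^ 2 := by positivity
      constructor
      · nlinarith
      · nlinarith
    · refine g4.trans ?_
      have : 16 * C₀ * (s + 1) ^ 2 ≤ (32 * C₀ + 27 * r) * (s + 1) ^ 2 :=
        Nat.mul_le_mul_right _ (by omega)
      omega

end Pool.Agent.GML
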