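import Pool.Agent.GML.Stmts

/-!
# GML, module DUA: functionals on `H²` are the graded `V[X]`-linear maps to `V[X]`
-/

set_option autoImplicit false

open MvPolynomial Filter

namespace Pool.Agent.GML

namespace DUA_

noncomputable section

variable {V : Type} [CommRing V]

/-! ### monomials -/

/-- the monomial with exponent `γ` -/
abbrev mon (V : Type) [CommRing V] (γ : Fin 3 →₀ ℕ) : MvPolynomial (Fin 3) V := monomial γ 1

/-- total degree of an exponent -/
def dg (γ : Fin 3 →₀ ℕ) : ℤ := ((γ 0 + γ 1 + γ 2 : ℕ) : ℤ)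

theorem dg_add (γ δ : Fin 3 →₀ ℕ) : dg (γ + δ) = dg γ + dg δ := by
  simp only [dg, Finsupp.add_apply]
  push_cast
  ring

theorem dg_zero : dg 0 = 0 := by simp [dg]

theorem dg_single (i : Fin 3) (k : ℕ) : dg (Finsupp.single i k) = k := by
  fin_cases i <;> simp [dg]

theorem dg_cst (m : ℕ) : dg (cst m) = 3 * m := by
  simp only [dg, cst, Finsupp.equivFunOnFinite_symm_apply_apply]
  push_cast
  ring

theorem cst_apply (m : ℕ) (i : Fin 3) : cst m i = m := by
  simp [cst]

theorem mon_add (γ δ : Fin 3 →₀ ℕ) : mon V (γ + δ) = mon V γ * mon V δ := by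
  simp [mon, monomial_mul]

theorem mon_zero : mon V 0 = 1 := rfl

theorem prod_X (s : Finset (Fin 3)) :
    (∏ i ∈ s, X i : MvPolynomial (Fin 3) V) = mon V (∑ i ∈ s, Finsupp.single i 1) := by
  rw [mon, monomial_sum_one]
  rfl

theorem X_eq (i : Fin 3) : (X i : MvPolynomial (Fin 3) V) = mon V (Finsupp.single i 1) := rfl

theorem X_pow (i : Fin 3) (a : ℕ) :
    (X i : MvPolynomial (Fin 3) V) ^ a = mon V (Finsupp.single i a) :=
  X_pow_eq_monomial

theorem sum_single (s : Finset (Fin 3)) (j : Fin 3) :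
    (∑ i ∈ s, Finsupp.single i (1 : ℕ)) j = if j ∈ s then 1 else 0 := by
  rw [Finsupp.finsetSum_apply]
  simp [Finsupp.single_apply]

theorem mon_mem (M : GMod V 3) (γ : Fin 3 →₀ ℕ) : ∀ (d : ℤ) (m : M.M), m ∈ M.gr d →
    mon V γ • m ∈ M.gr (d + dg γ) := by
  induction γ using Finsupp.induction_linear with
  | zero =>
    intro d m hm
    rw [mon_zero, one_smul, dg_zero, add_zero]
    exact hm
  | add f g hf hg =>
    intro d m hm
    have h := hf (d + dg g) _ (hg d m hm)
    rw [mon_add, mul_smul, dg_add, show d + (dg f + dg g) = d + dg g + dg f by ring]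
    exact h
  | single i k =>
    intro d m hm
    rw [← X_pow, dg_single]
    induction k with
    | zero => simpa using hm
    | succ k ih =>
      rw [pow_succ', mul_smul]
      have h := M.mul_mem i _ _ ih
      rw [show d + ((k + 1 : ℕ) : ℤ) = d + (k : ℤ) + 1 by push_cast; ring]
      exact h

theorem coeff_mon_mul (γ δ : Fin 3 →₀ ℕ) (p : MvPolynomial (Fin 3) V) :
    coeff δ (mon V γ * p) = if γ ≤ δ then coeff (δ - γ) p else 0 := by
  rw [mon, coeff_monomial_mul']
  simp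

/-! ### sequences of monomials -/

theorem seq_of (M : GMod V 3) (s : Finset (Fin 3)) (n d : ℤ) (γ : ℕ → (Fin 3 →₀ ℕ)) (m : M.M)
    (hm : m ∈ M.gr d) (a₀ : ℕ)
    (h : ∀ a, a₀ ≤ a → γ (a + 1) = γ a + ∑ i ∈ s, Finsupp.single i 1)
    (hd : ∀ a, a₀ ≤ a → d + dg (γ a) = n + s.card * (a : ℤ)) :
    (fun a => mon V (γ a) • m) ∈ Seq M s n := by
  show ∀ᶠ a : ℕ in atTop, _
  filter_upwards [eventually_ge_atTop a₀] with a ha
  refine ⟨?_, ?_⟩
  · rw [← hd a ha]
    exact mon_mem M _ _ _ hm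
  · show mon V (γ (a + 1)) • m = _
    rw [h a ha, prod_X, ← mul_smul, ← mon_add, add_comm]

/-- the exponent `(a-1, a-1, a-1) - β` -/
def ex (β : Fin 3 →₀ ℕ) (a : ℕ) : Fin 3 →₀ ℕ := cst (a - 1) - β

theorem ex_apply (β : Fin 3 →₀ ℕ) (a : ℕ) (i : Fin 3) : ex β a i = a - 1 - β i := by
  simp [ex, cst_apply]

theorem le_dg (β : Fin 3 →₀ ℕ) (i : Fin 3) : β i ≤ β 0 + β 1 + β 2 := by
  fin_cases i <;> simp <;> omega

theorem ex_succ (β : Fin 3 →₀ ℕ) (a : ℕ) (ha : 1 + (β 0 + β 1 + β 2) ≤ a) :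
    ex β (a + 1) = ex β a + ∑ i ∈ Finset.univ, Finsupp.single i 1 := by
  ext j
  rw [Finsupp.add_apply, sum_single, ex_apply, ex_apply]
  have := le_dg β j
  simp only [Finset.mem_univ, if_true]
  omega

theorem dg_ex (β : Fin 3 →₀ ℕ) (a : ℕ) (ha : 1 + (β 0 + β 1 + β 2) ≤ a) :
    dg (ex β a) = 3 * (a : ℤ) - 3 - dg β := by
  simp only [dg, ex_apply]
  omega

theorem sq_mem (M : GMod V 3) (s : ℤ) (β : Fin 3 →₀ ℕ) (m : M.M) (hm : m ∈ M.gr (dg β - s)) :
    (fun a => mon V (ex β a) • m) ∈ Seq M Finset.univ (-s - 3) := by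
  refine seq_of M Finset.univ (-s - 3) _ (ex β) m hm (1 + (β 0 + β 1 + β 2)) (ex_succ β) ?_
  intro a ha
  rw [dg_ex β a ha]
  simp only [Finset.card_univ, Fintype.card_fin]
  push_cast
  ring

/-- equality of classes for eventually equal sequences -/
theorem mk_eq_of_eventually (M : GMod V 3) (n : ℤ) (f g : ℕ → M.M)
    (hf : f ∈ Seq M Finset.univ n) (hg : g ∈ Seq M Finset.univ n)
    (h : ∀ᶠ a : ℕ in atTop, f a = g a) :
    (Submodule.Quotient.mk ⟨f, hf⟩ : H2 M n) = Submodule.Quotient.mk ⟨g, hg⟩ := by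
  rw [Submodule.Quotient.eq]
  show (f - g) ∈ B2 M n
  refine ⟨0, fun k => Submodule.zero_mem _, ?_⟩
  filter_upwards [h] with a ha
  simp [dn, ha]

/-! ### the class map -/

/-- facts of CMP which are used -/
structure Fac (M : GMod V 3) : Prop where
  mem : ∀ n x, M.cmp n x ∈ M.gr n
  self : ∀ n x, x ∈ M.gr n → M.cmp n x = x
  ne : ∀ m n x, x ∈ M.gr n → m ≠ n → M.cmp m x = 0
  add : ∀ n x y, M.cmp n (x + y) = M.cmp n x + M.cmp n y
  smul : ∀ n (v : V) x, M.cmp n (v • x) = v • M.cmp n x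
  X : ∀ n i x, M.cmp (n + 1) ((X i : Po V 3) • x) = (X i : Po V 3) • M.cmp n x
  fin : ∀ x, ∃ S : Finset ℤ, x = ∑ n ∈ S, M.cmp n x ∧ ∀ n ∉ S, M.cmp n x = 0

/-- `m ↦ [X^(a-1-β) m_(|β| - s)]` -/
def Lam {M : GMod V 3} (hM : Fac M) (s : ℤ) (β : Fin 3 →₀ ℕ) : M.M →ₗ[V] H2 M (-s - 3) where
  toFun m := Submodule.Quotient.mk ⟨fun a => mon V (ex β a) • M.cmp (dg β - s) m,
    sq_mem M s β _ (hM.mem _ _)⟩
  map_add' x y := by
    rw [← Submodule.Quotient.mk_add]
    congr 1
    apply Subtype.ext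
    funext a
    show mon V (ex β a) • M.cmp (dg β - s) (x + y) = _
    rw [hM.add, smul_add]
    rfl
  map_smul' v x := by
    rw [RingHom.id_apply, ← Submodule.Quotient.mk_smul]
    congr 1
    apply Subtype.ext
    funext a
    show mon V (ex β a) • M.cmp (dg β - s) (v • x) = _
    rw [hM.smul, smul_comm]
    rfl

theorem Lam_hom {M : GMod V 3} (hM : Fac M) (s : ℤ) (β : Fin 3 →₀ ℕ) (m : M.M)
    (hm : m ∈ M.gr (dg β - s)) :
    Lam hM s β m = Submodule.Quotient.mk ⟨fun a => mon V (ex β a) • m, sq_mem M s β m hm⟩ := by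
  show Submodule.Quotient.mk _ = _
  congr 1
  apply Subtype.ext
  funext a
  show mon V (ex β a) • M.cmp (dg β - s) m = _
  rw [hM.self _ _ hm]

theorem Lam_zero {M : GMod V 3} (hM : Fac M) (s : ℤ) (β : Fin 3 →₀ ℕ) (m : M.M)
    (hm : M.cmp (dg β - s) m = 0) : Lam hM s β m = 0 := by
  show Submodule.Quotient.mk _ = _
  rw [← Submodule.Quotient.mk_zero]
  congr 1
  apply Subtype.ext
  funext a
  show mon V (ex β a) • M.cmp (dg β - s) m = _
  rw [hm, smul_zero]
  rfl

theorem B2_of (M : GMod V 3) (n : ℤ) (i : Fin 3) (h f : ℕ → M.M)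
    (hh : h ∈ Seq M (Finset.univ.erase i) n)
    (hf : ∀ᶠ a : ℕ in atTop, f a = (X i : MvPolynomial (Fin 3) V) ^ a • h a) :
    f ∈ B2 M n := by
  have h0 : ∀ k, (0 : ℕ → M.M) ∈ Seq M (Finset.univ.erase k) n := fun k => Submodule.zero_mem _
  fin_cases i
  · refine ⟨![h, 0, 0], ?_, ?_⟩
    · intro k
      fin_cases k
      · exact hh
      · exact h0 _
      · exact h0 _
    · filter_upwards [hf] with a ha
      rw [ha]
      simp [dn]
  · refine ⟨![0, -h, 0], ?_, ?_⟩
    · intro k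
      fin_cases k
      · exact h0 _
      · exact Submodule.neg_mem _ hh
      · exact h0 _
    · filter_upwards [hf] with a ha
      rw [ha]
      simp [dn]
  · refine ⟨![0, 0, h], ?_, ?_⟩
    · intro k
      fin_cases k
      · exact h0 _
      · exact h0 _
      · exact hh
    · filter_upwards [hf] with a ha
      rw [ha]
      simp [dn]

theorem mk_eq_zero_of (M : GMod V 3) (n : ℤ) (f : ℕ → M.M) (hf : f ∈ Seq M Finset.univ n)
    (h : f ∈ B2 M n) : (Submodule.Quotient.mk ⟨f, hf⟩ : H2 M n) = 0 := by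
  rw [Submodule.Quotient.mk_eq_zero]
  exact h

theorem dg_sub_single (β : Fin 3 →₀ ℕ) (i : Fin 3) (hi : 1 ≤ β i) :
    dg (β - Finsupp.single i 1) = dg β - 1 := by
  have h1 : β = (β - Finsupp.single i 1) + Finsupp.single i 1 := by
    ext j
    rw [Finsupp.add_apply, Finsupp.tsub_apply, Finsupp.single_apply]
    by_cases hj : i = j
    · subst hj; simp; omega
    · simp [hj]
  have h2 := dg_add (β - Finsupp.single i 1) (Finsupp.single i 1)
  rw [← h1, dg_single] at h2
  push_cast at h2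
  omega

theorem Lam_X_pos {M : GMod V 3} (hM : Fac M) (s : ℤ) (β : Fin 3 →₀ ℕ) (i : Fin 3)
    (hi : 1 ≤ β i) (m : M.M) :
    Lam hM s β ((X i : Po V 3) • m) = Lam hM s (β - Finsupp.single i 1) m := by
  have hd := dg_sub_single β i hi
  show Submodule.Quotient.mk _ = Submodule.Quotient.mk _
  refine mk_eq_of_eventually M _ _ _ _ _ ?_
  filter_upwards [eventually_ge_atTop (1 + (β 0 + β 1 + β 2))] with a ha
  rw [hd, show dg β - s = (dg β - 1 - s) + 1 by ring, hM.X, X_eq, ← mul_smul, ← mon_add]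
  congr 2
  ext j
  rw [Finsupp.add_apply, ex_apply, ex_apply, Finsupp.tsub_apply]
  have := le_dg β j
  by_cases hj : i = j
  · subst hj
    simp only [Finsupp.single_eq_same]
    omega
  · simp [hj]

theorem Lam_X_zero {M : GMod V 3} (hM : Fac M) (s : ℤ) (β : Fin 3 →₀ ℕ) (i : Fin 3)
    (hi : β i = 0) (m : M.M) :
    Lam hM s β ((X i : Po V 3) • m) = 0 := by
  show Submodule.Quotient.mk _ = _
  refine mk_eq_zero_of M _ _ _ ?_
  obtain ⟨y, hy⟩ : ∃ y, y = M.cmp (dg β - 1 - s) m := ⟨_, rfl⟩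
  have hym : y ∈ M.gr (dg β - 1 - s) := by rw [hy]; exact hM.mem _ _
  obtain ⟨γ, hγ⟩ : ∃ γ : ℕ → (Fin 3 →₀ ℕ), γ = fun a => (ex β a).erase i := ⟨_, rfl⟩
  have hγa : ∀ a j, γ a j = if j = i then 0 else a - 1 - β j := by
    intro a j
    rw [hγ]
    show (ex β a).erase i j = _
    by_cases hj : j = i
    · subst hj; simp
    · rw [Finsupp.erase_ne hj, ex_apply, if_neg hj]
  have hc : (Finset.univ.erase i).card = 2 := by
    rw [Finset.card_erase_of_mem (Finset.mem_univ i)]
    simp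
  have hseq : (fun a => mon V (γ a) • y) ∈ Seq M (Finset.univ.erase i) (-s - 3) := by
    refine seq_of M _ (-s - 3) _ γ y hym (1 + (β 0 + β 1 + β 2)) ?_ ?_
    · intro a ha
      ext j
      rw [Finsupp.add_apply, sum_single, hγa, hγa]
      have := le_dg β j
      by_cases hj : j = i
      · simp [hj]
      · simp only [hj, if_false, Finset.mem_erase, Finset.mem_univ, ne_eq, not_false_eq_true,
          and_self, if_true]
        omega
    · intro a ha
      rw [hc]
      simp only [dg, hγa]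
      have h0 := le_dg β 0
      have h1 := le_dg β 1
      have h2 := le_dg β 2
      fin_cases i
      · simp only [Fin.zero_eta, Fin.isValue, if_true, Fin.reduceEq, if_false] at hi ⊢
        omega
      · simp only [Fin.mk_one, Fin.isValue, if_true, Fin.reduceEq, if_false] at hi ⊢
        omega
      · simp only [Fin.reduceFinMk, Fin.isValue, if_true, Fin.reduceEq, if_false] at hi ⊢
        omega
  refine B2_of M _ i _ _ hseq ?_
  filter_upwards [eventually_ge_atTop (1 + (β 0 + β 1 + β 2))] with a ha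
  rw [show dg β - s = (dg β - 1 - s) + 1 by ring, hM.X, ← hy, X_pow, X_eq, ← mul_smul, ← mon_add,
    ← mul_smul, ← mon_add]
  suffices hE : ex β a + Finsupp.single i 1 = Finsupp.single i a + γ a by rw [hE]
  ext j
  rw [Finsupp.add_apply, Finsupp.add_apply, ex_apply, hγa]
  have := le_dg β j
  by_cases hj : j = i
  · subst hj
    simp only [Finsupp.single_eq_same, if_true]
    omega
  · simp [hj]

/-! ### linear maps given by their coefficients -/

theorem ext_lin {M : GMod V 3} (lam : (Fin 3 →₀ ℕ) → (M.M →ₗ[V] V))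
    (hfin : ∀ m, ∃ N : ℤ, ∀ β, lam β m ≠ 0 → dg β ≤ N)
    (hX : ∀ β i m, lam β ((X i : Po V 3) • m) =
      if 1 ≤ β i then lam (β - Finsupp.single i 1) m else 0) :
    ∃ φ : M.M →ₗ[Po V 3] Po V 3, ∀ m β, coeff β (φ m) = lam β m := by
  have hex : ∀ m, ∃ p : Po V 3, ∀ β, coeff β p = lam β m := by
    intro m
    obtain ⟨N, hN⟩ := hfin m
    have hf : {β : Fin 3 →₀ ℕ | lam β m ≠ 0}.Finite := by
      refine (Set.finite_Iic (cst N.toNat)).subset ?_
      intro β hβ
      have h1 := hN β hβ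
      rw [Set.mem_Iic]
      intro i
      have := le_dg β i
      rw [cst_apply]
      simp only [dg] at h1
      omega
    refine ⟨∑ β ∈ hf.toFinset, monomial β (lam β m), fun γ => ?_⟩
    rw [coeff_sum]
    simp only [coeff_monomial]
    rw [Finset.sum_ite_eq']
    by_cases h : lam γ m = 0
    · rw [h]; simp
    · rw [if_pos]
      rw [Set.Finite.mem_toFinset]
      exact h
  choose g hg using hex
  have hadd : ∀ x y, g (x + y) = g x + g y := by
    intro x y
    ext β
    rw [coeff_add, hg, hg, hg, map_add]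
  have hsm : ∀ (v : V) x, g (v • x) = v • g x := by
    intro v x
    ext β
    rw [coeff_smul, hg, hg, map_smul]
  have hXg : ∀ i x, g ((X i : Po V 3) • x) = (X i : Po V 3) • g x := by
    intro i x
    ext β
    rw [hg, hX, smul_eq_mul, X_eq, coeff_mon_mul]
    by_cases h : 1 ≤ β i
    · rw [if_pos h, if_pos (Finsupp.single_le_iff.mpr h), hg]
    · rw [if_neg h, if_neg (fun h' => h (Finsupp.single_le_iff.mp h'))]
  refine ⟨{ toFun := g, map_add' := hadd, map_smul' := ?_ }, fun m β => hg m β⟩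
  intro p
  induction p using MvPolynomial.induction_on with
  | C a =>
    intro x
    have h1 : (C a : Po V 3) • x = a • x := by
      rw [← algebraMap_eq, algebraMap_smul]
    have h2 : (C a : Po V 3) • g x = a • g x := by
      rw [← algebraMap_eq, algebraMap_smul]
    rw [RingHom.id_apply, h1, h2, hsm]
  | add p q hp hq =>
    intro x
    rw [RingHom.id_apply] at *
    rw [add_smul, hadd, hp, hq, add_smul]
  | mul_X p i hp =>
    intro x
    rw [RingHom.id_apply, mul_smul, hp, hXg, RingHom.id_apply, mul_smul]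

/-! ### the evaluation of a functional on a class -/

theorem coeff_shift (φ : Po V 3) (a : ℕ) (ha : 1 ≤ a) :
    coeff (cst (a + 1 - 1)) ((∏ i ∈ Finset.univ, X i : MvPolynomial (Fin 3) V) * φ) =
      coeff (cst (a - 1)) φ := by
  rw [prod_X, coeff_mon_mul, if_pos]
  · congr 1
    ext j
    rw [Finsupp.tsub_apply, sum_single, cst_apply, cst_apply]
    simp only [Finset.mem_univ, if_true]
    omega
  · intro j
    rw [sum_single, cst_apply]
    simp only [Finset.mem_univ, if_true]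
    omega

theorem ev_exists (M : GMod V 3) (n : ℤ) (φ : M.M →ₗ[Po V 3] Po V 3)
    (f : ↥(Seq M Finset.univ n)) :
    ∃ v : V, ∀ᶠ a : ℕ in atTop, coeff (cst (a - 1)) (φ (f.1 a)) = v := by
  obtain ⟨a₀, h₀⟩ := Filter.eventually_atTop.mp (show ∀ᶠ a : ℕ in atTop, _ from f.2)
  refine ⟨coeff (cst (max a₀ 1 - 1)) (φ (f.1 (max a₀ 1))), ?_⟩
  filter_upwards [eventually_ge_atTop (max a₀ 1)] with a ha
  induction a, ha using Nat.le_induction with
  | base => rfl
  | succ a ha ih =>
    rw [(h₀ a (le_trans (le_max_left _ _) ha)).2, map_smul, smul_eq_mul,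
      coeff_shift _ _ (le_trans (le_max_right _ _) ha)]
    exact ih

omit [CommRing V] in
theorem ev_unique {u v : V} {c : ℕ → V} (hu : ∀ᶠ a : ℕ in atTop, c a = u)
    (hv : ∀ᶠ a : ℕ in atTop, c a = v) : u = v := by
  obtain ⟨a, h1, h2⟩ := (hu.and hv).exists
  rw [← h1, ← h2]

/-- the eventual value of `coeff (a-1,a-1,a-1) (φ (f a))` -/
def ev (M : GMod V 3) (n : ℤ) (φ : M.M →ₗ[Po V 3] Po V 3) (f : ↥(Seq M Finset.univ n)) : V :=
  (ev_exists M n φ f).choose

theorem ev_spec (M : GMod V 3) (n : ℤ) (φ : M.M →ₗ[Po V 3] Po V 3)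
    (f : ↥(Seq M Finset.univ n)) :
    ∀ᶠ a : ℕ in atTop, coeff (cst (a - 1)) (φ (f.1 a)) = ev M n φ f :=
  (ev_exists M n φ f).choose_spec

/-- bilinear version -/
def evL (M : GMod V 3) (n : ℤ) :
    (M.M →ₗ[Po V 3] Po V 3) →ₗ[V] ↥(Seq M Finset.univ n) →ₗ[V] V :=
  LinearMap.mk₂ V (ev M n)
    (by
      intro φ ψ f
      refine ev_unique (ev_spec M n (φ + ψ) f) ?_
      filter_upwards [ev_spec M n φ f, ev_spec M n ψ f] with a h1 h2
      rw [LinearMap.add_apply, coeff_add, h1, h2])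
    (by
      intro v φ f
      refine ev_unique (ev_spec M n (v • φ) f) ?_
      filter_upwards [ev_spec M n φ f] with a h1
      rw [LinearMap.smul_apply, coeff_smul, h1])
    (by
      intro φ f g
      refine ev_unique (ev_spec M n φ (f + g)) ?_
      filter_upwards [ev_spec M n φ f, ev_spec M n φ g] with a h1 h2
      show coeff (cst (a - 1)) (φ (f.1 a + g.1 a)) = _
      rw [map_add, coeff_add, h1, h2])
    (by
      intro v φ f
      refine ev_unique (ev_spec M n φ (v • f)) ?_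
      filter_upwards [ev_spec M n φ f] with a h1
      show coeff (cst (a - 1)) (φ (v • f.1 a)) = _
      rw [LinearMap.map_smul_of_tower, coeff_smul, h1])

theorem coeff_X_pow_mul (k : Fin 3) (a : ℕ) (ha : 1 ≤ a) (p : Po V 3) :
    coeff (cst (a - 1)) ((X k : Po V 3) ^ a * p) = 0 := by
  rw [X_pow, coeff_mon_mul, if_neg]
  intro h
  have h1 := Finsupp.single_le_iff.mp h
  rw [cst_apply] at h1
  omega

theorem evL_B2 (M : GMod V 3) (n : ℤ) (φ : M.M →ₗ[Po V 3] Po V 3) :
    (B2 M n).comap (Seq M Finset.univ n).subtype ≤ LinearMap.ker (evL M n φ) := by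
  intro f hf
  rw [LinearMap.mem_ker]
  obtain ⟨g, _, hg⟩ := hf
  refine ev_unique (ev_spec M n φ f) ?_
  filter_upwards [hg, eventually_ge_atTop 1] with a h1 ha
  have h2 : f.1 a = dn M g a := h1
  rw [h2]
  show coeff (cst (a - 1)) (φ ((X 0 : MvPolynomial (Fin 3) V) ^ a • g 0 a -
    (X 1 : MvPolynomial (Fin 3) V) ^ a • g 1 a + (X 2 : MvPolynomial (Fin 3) V) ^ a • g 2 a)) = 0
  rw [map_add, map_sub, map_smul, map_smul, map_smul, smul_eq_mul, smul_eq_mul, smul_eq_mul,
    coeff_add, coeff_sub, coeff_X_pow_mul 0 a ha, coeff_X_pow_mul 1 a ha, coeff_X_pow_mul 2 a ha]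
  simp

/-- the pairing -/
def Ph (M : GMod V 3) (s : ℤ) : Om M s →ₗ[V] (H2 M (-s - 3) →ₗ[V] V) where
  toFun φ := Submodule.liftQ _ (evL M (-s - 3) φ.1) (evL_B2 M (-s - 3) φ.1)
  map_add' φ ψ := by
    apply Submodule.linearMap_qext
    ext f
    show evL M (-s - 3) (φ.1 + ψ.1) f = evL M (-s - 3) φ.1 f + evL M (-s - 3) ψ.1 f
    rw [map_add, LinearMap.add_apply]
  map_smul' v φ := by
    apply Submodule.linearMap_qext
    ext f
    show evL M (-s - 3) (v • φ.1) f = v • evL M (-s - 3) φ.1 f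
    rw [map_smul, LinearMap.smul_apply]

theorem Ph_spec (M : GMod V 3) (s : ℤ) (φ : Om M s) (f : ℕ → M.M)
    (hf : f ∈ Seq M Finset.univ (-s - 3)) :
    ∀ᶠ a : ℕ in atTop, Ph M s φ (Submodule.Quotient.mk ⟨f, hf⟩) =
      coeff (cst (a - 1)) ((φ : M.M →ₗ[Po V 3] Po V 3) (f a)) := by
  filter_upwards [ev_spec M (-s - 3) φ.1 ⟨f, hf⟩] with a ha
  rw [ha]
  rfl

theorem Ph_Lam {M : GMod V 3} (hM : Fac M) (s : ℤ) (φ : Om M s) (β : Fin 3 →₀ ℕ) (m : M.M)
    (hm : m ∈ M.gr (dg β - s)) :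
    Ph M s φ (Lam hM s β m) = coeff β ((φ : M.M →ₗ[Po V 3] Po V 3) m) := by
  rw [Lam_hom hM s β m hm]
  obtain ⟨a, h1, h2⟩ := ((Ph_spec M s φ _ (sq_mem M s β m hm)).and
    (eventually_ge_atTop (1 + (β 0 + β 1 + β 2)))).exists
  rw [h1, map_smul, smul_eq_mul, coeff_mon_mul, if_pos]
  · congr 1
    ext j
    rw [Finsupp.tsub_apply, cst_apply, ex_apply]
    have := le_dg β j
    omega
  · intro j
    rw [ex_apply, cst_apply]
    omega

theorem weight_dg (β : Fin 3 →₀ ℕ) : ((Finsupp.weight (1 : Fin 3 → ℕ) β : ℕ) : ℤ) = dg β := by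
  rw [Finsupp.weight_apply, Finsupp.sum_fintype _ _ (by simp), Fin.sum_univ_three]
  simp [dg]

/-- membership in `Agr` -/
theorem coeff_Agr {d : ℤ} {p : Po V 3} (hp : p ∈ Agr V 3 d) (β : Fin 3 →₀ ℕ) (h : dg β ≠ d) :
    coeff β p = 0 := by
  unfold Agr at hp
  split_ifs at hp with hd
  · rw [mem_homogeneousSubmodule] at hp
    by_contra h1
    have h2 := hp h1
    apply h
    rw [← weight_dg, h2]
    exact Int.toNat_of_nonneg hd
  · rw [Submodule.mem_bot] at hp
    rw [hp, coeff_zero]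

theorem Agr_of {d : ℤ} {p : Po V 3} (hp : ∀ β, dg β ≠ d → coeff β p = 0) : p ∈ Agr V 3 d := by
  unfold Agr
  split_ifs with hd
  · rw [mem_homogeneousSubmodule]
    intro β hβ
    have h1 : dg β = d := by
      by_contra h
      exact hβ (hp β h)
    have h2 := weight_dg β
    rw [h1] at h2
    omega
  · rw [Submodule.mem_bot]
    ext β
    rw [coeff_zero]
    apply hp
    intro h
    apply hd
    rw [← h, dg]
    positivity

theorem Ph_injective {M : GMod V 3} (hM : Fac M) (s : ℤ) : Function.Injective (Ph M s) := by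
  intro φ ψ hφ
  have key : ∀ (d : ℤ) (m : M.M), m ∈ M.gr d →
      (φ : M.M →ₗ[Po V 3] Po V 3) m = (ψ : M.M →ₗ[Po V 3] Po V 3) m := by
    intro d m hm
    ext β
    by_cases h : dg β = d + s
    · have hm' : m ∈ M.gr (dg β - s) := by
        rw [h, add_sub_cancel_right]
        exact hm
      rw [← Ph_Lam hM s φ β m hm', ← Ph_Lam hM s ψ β m hm', hφ]
    · rw [coeff_Agr (φ.2 d m hm) β h, coeff_Agr (ψ.2 d m hm) β h]
  apply Subtype.ext
  apply LinearMap.ext
  intro x
  obtain ⟨S, hS, _⟩ := hM.fin x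
  rw [hS, map_sum, map_sum]
  refine Finset.sum_congr rfl fun n _ => ?_
  rw [key n _ (hM.mem n x)]

theorem Ph_surjective {M : GMod V 3} (hM : Fac M) (s : ℤ) : Function.Surjective (Ph M s) := by
  intro l
  obtain ⟨φ, hφ⟩ := ext_lin (M := M) (fun β => l.comp (Lam hM s β))
    (by
      intro m
      obtain ⟨S, _, hS⟩ := hM.fin m
      obtain ⟨N, hN⟩ := S.bddAbove
      refine ⟨N + s, fun β hβ => ?_⟩
      have h1 : dg β - s ∈ S := by
        by_contra h
        apply hβ
        show l (Lam hM s β m) = 0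
        rw [Lam_zero hM s β m (hS _ h), map_zero]
      have h2 := hN h1
      omega)
    (by
      intro β i m
      show l (Lam hM s β ((X i : Po V 3) • m)) = _
      split_ifs with h
      · rw [Lam_X_pos hM s β i h]
        rfl
      · rw [Lam_X_zero hM s β i (by omega), map_zero])
  have hφ' : ∀ m β, coeff β (φ m) = l (Lam hM s β m) := hφ
  have hOm : φ ∈ Om M s := by
    intro d m hm
    refine Agr_of ?_
    intro β hβ
    rw [hφ', Lam_zero hM s β m, map_zero]
    refine hM.ne _ _ _ hm ?_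
    intro h
    apply hβ
    omega
  refine ⟨⟨φ, hOm⟩, ?_⟩
  apply Submodule.linearMap_qext
  ext ⟨f, hf⟩
  show Ph M s ⟨φ, hOm⟩ (Submodule.Quotient.mk ⟨f, hf⟩) = l (Submodule.Quotient.mk ⟨f, hf⟩)
  obtain ⟨a₀, h₀⟩ := Filter.eventually_atTop.mp (show ∀ᶠ a : ℕ in atTop, _ from hf)
  obtain ⟨a, h1, h2⟩ := ((Ph_spec M s ⟨φ, hOm⟩ f hf).and
    (eventually_ge_atTop (max a₀ 1))).exists
  have ha₀ : a₀ ≤ a := le_trans (le_max_left _ _) h2
  have ha1 : 1 ≤ a := le_trans (le_max_right _ _) h2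
  have hfa : f a ∈ M.gr (dg (cst (a - 1)) - s) := by
    have h3 := (h₀ a ha₀).1
    rw [Finset.card_univ, Fintype.card_fin] at h3
    have h4 : dg (cst (a - 1)) - s = -s - 3 + ((3 : ℕ) : ℤ) * (a : ℤ) := by
      rw [dg_cst]
      omega
    rw [h4]
    exact h3
  rw [h1]
  show coeff (cst (a - 1)) (φ (f a)) = _
  rw [hφ', Lam_hom hM s _ _ hfa]
  congr 1
  refine mk_eq_of_eventually M _ _ _ _ _ ?_
  filter_upwards [eventually_ge_atTop a] with b hb
  induction b, hb using Nat.le_induction with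
  | base =>
    have h5 : ex (cst (a - 1)) a = 0 := by
      ext j
      rw [ex_apply, cst_apply]
      simp
    rw [h5, mon_zero, one_smul]
  | succ b hb ih =>
    rw [(h₀ b (le_trans ha₀ hb)).2, ← ih, prod_X, ← mul_smul, ← mon_add]
    suffices hE : ex (cst (a - 1)) (b + 1) =
        (∑ i ∈ Finset.univ, Finsupp.single i 1) + ex (cst (a - 1)) b by rw [hE]
    ext j
    rw [Finsupp.add_apply, sum_single, ex_apply, ex_apply, cst_apply]
    simp only [Finset.mem_univ, if_true]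
    omega

end

end DUA_

open DUA_ in
theorem dua_proof (_hAGR : Stmt_AGR) (hCMP : Stmt_CMP) : Stmt_DUA := by
  intro V _ M s
  obtain ⟨c1, c2, c3, c4, c5, c6, c7, -, -, -⟩ := hCMP V 3 M
  have hM : Fac M := ⟨c1, c2, c3, c4, c5, c6, c7⟩
  refine ⟨LinearEquiv.ofBijective (Ph M s) ⟨Ph_injective hM s, Ph_surjective hM s⟩, ?_⟩
  intro φ f hf
  exact Ph_spec M s φ f hf

end Pool.Agent.GML
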