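import Pool.Agent.GML.Stmts

/-!
# GML / EXP: rank of the module of functionals and codimension of its reduction
-/

set_option autoImplicit false

namespace Pool.Agent.GML

open MvPolynomial Filter

noncomputable section

namespace EXP_

lemma fin_of_length {κ H : Type} [Field κ] [AddCommGroup H] [Module κ H]
    (h : Module.length κ H ≠ ⊤) :
    Module.Finite κ H ∧ (Module.length κ H).toNat = Module.finrank κ H := by
  rw [Module.length_ne_top_iff, isFiniteLength_iff_isNoetherian_isArtinian] at h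
  have := h.1
  have : Module.Finite κ H := inferInstance
  exact ⟨this, by rw [Module.length_eq_finrank]; rfl⟩

section

variable {V κ : Type} [CommRing V] [IsDomain V] [Field κ] {σ : V →+* κ} {t : V}
  {D : GMod V 3} {W : GMod κ 3}

omit [IsDomain V] in
lemma map_smul' (v : V) (p : Po V 3) : MvPolynomial.map σ (v • p) = σ v • MvPolynomial.map σ p := by
  rw [smul_eq_C_mul, map_mul, map_C, ← smul_eq_C_mul]

omit [IsDomain V] in
lemma sig_t (R : Red σ t D W) : σ t = 0 := by
  have : t ∈ RingHom.ker σ := by rw [R.kerσ]; exact Ideal.mem_span_singleton_self t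
  exact this

omit [IsDomain V] in
lemma dvd_of_map (R : Red σ t D W) (p : Po V 3) (h : MvPolynomial.map σ p = 0) :
    ∃ q : Po V 3, p = t • q := by
  have : (C t : Po V 3) ∣ p := by
    rw [C_dvd_iff_dvd_coeff]
    intro m
    have h1 : σ (coeff m p) = 0 := by rw [← coeff_map, h, coeff_zero]
    have h2 : coeff m p ∈ RingHom.ker σ := h1
    rw [R.kerσ] at h2
    exact Ideal.mem_span_singleton.1 h2
  obtain ⟨q, hq⟩ := this
  exact ⟨q, by rw [hq, smul_eq_C_mul]⟩

omit [IsDomain V] in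
lemma q_cmp (hCMP : Stmt_CMP) (R : Red σ t D W) (n : ℤ) (x : D.M) :
    R.q (D.cmp n x) = W.cmp n (R.q x) := by
  classical
  obtain ⟨h1, -, -, -, -, -, h7, -⟩ := hCMP V 3 D
  obtain ⟨-, w2, w3, w4, w5, -⟩ := hCMP κ 3 W
  have hsum : ∀ (s : Finset ℤ) (g : ℤ → W.M) (m : ℤ),
      W.cmp m (∑ i ∈ s, g i) = ∑ i ∈ s, W.cmp m (g i) := by
    intro s g m
    induction s using Finset.induction_on with
    | empty =>
      simp only [Finset.sum_empty]
      have := w5 m 0 (0 : W.M)
      simpa using this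
    | insert a s ha ih => rw [Finset.sum_insert ha, w4, ih, Finset.sum_insert ha]
  obtain ⟨S, hS, hS'⟩ := h7 x
  conv_rhs => rw [hS, map_sum, hsum]
  by_cases hn : n ∈ S
  · rw [Finset.sum_eq_single_of_mem n hn, w2 _ _ (R.deg _ _ (h1 n x))]
    intro m _ hm
    exact w3 _ _ _ (R.deg _ _ (h1 m x)) (Ne.symm hm)
  · rw [hS' n hn, map_zero, Finset.sum_eq_zero]
    intro m hm
    refine w3 _ _ _ (R.deg _ _ (h1 m x)) ?_
    rintro rfl; exact hn hm

omit [IsDomain V] in
lemma lift_hom (hCMP : Stmt_CMP) (R : Red σ t D W) (n : ℤ) (y : W.M) (hy : y ∈ W.gr n) :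
    ∃ x ∈ D.gr n, R.q x = y := by
  obtain ⟨x, rfl⟩ := R.surj y
  exact ⟨D.cmp n x, (hCMP V 3 D).1 n x, by
    rw [q_cmp hCMP R, (hCMP κ 3 W).2.1 n _ hy]⟩

omit [IsDomain V] in
lemma exists_red (hCMP : Stmt_CMP) (R : Red σ t D W) (s : ℤ) (φ : Om D s) :
    ∃ φ' : Om W s, ∀ x, (φ' : W.M →ₗ[Po κ 3] Po κ 3) (R.q x) =
      MvPolynomial.map σ ((φ : D.M →ₗ[Po V 3] Po V 3) x) := by
  classical
  let φ₀ : D.M →ₗ[Po V 3] Po V 3 := φ
  let f : W.M → Po κ 3 := fun y => MvPolynomial.map σ (φ₀ (Function.surjInv R.surj y))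
  have hf : ∀ x, f (R.q x) = MvPolynomial.map σ (φ₀ x) := by
    intro x
    have h1 : R.q (Function.surjInv R.surj (R.q x) - x) = 0 := by
      rw [map_sub, Function.surjInv_eq R.surj (R.q x), sub_self]
    obtain ⟨y, hy⟩ := (R.ker _).1 h1
    have h2 : φ₀ (Function.surjInv R.surj (R.q x)) = φ₀ x + t • φ₀ y := by
      have h3 : Function.surjInv R.surj (R.q x) = x + t • y := by rw [← hy]; abel
      rw [h3, map_add]
      congr 1
      rw [← algebraMap_smul (Po V 3) t y, map_smul, algebraMap_smul]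
    change MvPolynomial.map σ (φ₀ (Function.surjInv R.surj (R.q x))) = _
    rw [h2, map_add, map_smul', sig_t R, zero_smul, add_zero]
  let φ' : W.M →ₗ[Po κ 3] Po κ 3 :=
    { toFun := f
      map_add' := by
        intro y z
        obtain ⟨x, rfl⟩ := R.surj y
        obtain ⟨x', rfl⟩ := R.surj z
        rw [← map_add, hf, hf, hf, map_add, map_add]
      map_smul' := by
        intro p y
        obtain ⟨x, rfl⟩ := R.surj y
        obtain ⟨p', rfl⟩ := MvPolynomial.map_surjective σ R.surjσ p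
        rw [← R.smul, hf, hf, map_smul, smul_eq_mul, map_mul, RingHom.id_apply, smul_eq_mul] }
  refine ⟨⟨φ', ?_⟩, hf⟩
  intro n y hy
  obtain ⟨x, hx, rfl⟩ := lift_hom hCMP R n y hy
  change f (R.q x) ∈ _
  rw [hf]
  have h1 : φ₀ x ∈ Agr V 3 (n + s) := φ.2 n x hx
  unfold Agr at h1 ⊢
  split_ifs at h1 ⊢ with h
  · exact (mem_homogeneousSubmodule _ _).2 (((mem_homogeneousSubmodule _ _).1 h1).map σ)
  · rw [(Submodule.mem_bot V).1 h1, map_zero]; exact Submodule.zero_mem _

lemma ker_red (R : Red σ t D W) (ht : t ≠ 0) (s : ℤ) (φ : Om D s)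
    (h : ∀ x, MvPolynomial.map σ ((φ : D.M →ₗ[Po V 3] Po V 3) x) = 0) :
    ∃ ψ : Om D s, φ = t • ψ := by
  classical
  let φ₀ : D.M →ₗ[Po V 3] Po V 3 := φ
  have h' : ∀ x, ∃ q : Po V 3, φ₀ x = t • q := fun x => dvd_of_map R _ (h x)
  choose g hg using h'
  have hinj : ∀ p q : Po V 3, t • p = t • q → p = q := by
    intro p q hpq
    rw [smul_eq_C_mul, smul_eq_C_mul] at hpq
    refine mul_left_cancel₀ ?_ hpq
    intro h0
    exact ht (C_injective _ _ (h0.trans (map_zero C).symm))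
  let ψ : D.M →ₗ[Po V 3] Po V 3 :=
    { toFun := g
      map_add' := by
        intro x y
        apply hinj
        rw [smul_add, ← hg, ← hg, ← hg, map_add]
      map_smul' := by
        intro p x
        apply hinj
        rw [← hg, map_smul, hg x, RingHom.id_apply, smul_comm] }
  refine ⟨⟨ψ, ?_⟩, ?_⟩
  · intro n x hx
    have h1 : φ₀ x ∈ Agr V 3 (n + s) := φ.2 n x hx
    rw [hg] at h1
    change g x ∈ _
    unfold Agr at h1 ⊢
    split_ifs at h1 ⊢ with h
    · rw [mem_homogeneousSubmodule] at h1 ⊢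
      intro m hm
      refine h1 ?_
      rw [coeff_smul]
      exact mul_ne_zero ht hm
    · rw [Submodule.mem_bot] at h1 ⊢
      apply hinj
      rw [h1, smul_zero]
  · apply Subtype.ext
    apply LinearMap.ext
    intro x
    exact hg x

end

end EXP_

open EXP_ in
theorem exp_proof (hDUA : Stmt_DUA) (hRED : Stmt_RED) (hRNK : Stmt_RNK) (hCMP : Stmt_CMP) :
    Stmt_EXP := by
  classical
  intro V _ _ _ _ κ _ σ t ht D W R htf s hh1 hh2
  obtain ⟨ρ, δ, -, hρs, hρk, hρv, hδv, hδ⟩ := hRED V κ σ t D W R htf (-s - 3)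
  obtain ⟨hf1, he1⟩ := fin_of_length (κ := κ) (H := H1 W (-s - 3)) hh1
  obtain ⟨hf2, he2⟩ := fin_of_length (κ := κ) (H := H2 W (-s - 3)) hh2
  obtain ⟨hfree, hfin, hle1, hle2⟩ := hRNK V κ σ t ht R.surjσ R.kerσ (H2 D (-s - 3))
    (H2 W (-s - 3)) (H1 W (-s - 3)) ρ δ hρs hρk hρv hδv hδ
  obtain ⟨Φ, -⟩ := hDUA V D s
  obtain ⟨Φ', -⟩ := hDUA κ W s
  have : Module.Free V (Om D s) := Module.Free.of_equiv Φ.symm
  have : Module.Finite V (Om D s) := Module.Finite.equiv Φ.symm
  have : Module.Finite κ (Om W s) := Module.Finite.equiv Φ'.symm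
  have hrkV : Module.finrank V (Om D s) = Module.finrank V (H2 D (-s - 3) →ₗ[V] V) :=
    Φ.finrank_eq
  have hrkW : Module.finrank κ (Om W s) = Module.finrank κ (H2 W (-s - 3)) :=
    Φ'.finrank_eq.trans Subspace.dual_finrank_eq
  -- the reduction map
  choose red hred using exists_red hCMP R s
  have huniq : ∀ φ' φ'' : Om W s, (∀ x, (φ' : W.M →ₗ[Po κ 3] Po κ 3) (R.q x) =
      (φ'' : W.M →ₗ[Po κ 3] Po κ 3) (R.q x)) → φ' = φ'' := by
    intro φ' φ'' h
    apply Subtype.ext
    apply LinearMap.ext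
    intro y
    obtain ⟨x, rfl⟩ := R.surj y
    exact h x
  let red' : Om D s →ₛₗ[σ] Om W s :=
    { toFun := red
      map_add' := by
        intro φ ψ
        apply huniq
        intro x
        rw [hred]
        change _ = (red φ : W.M →ₗ[Po κ 3] Po κ 3) (R.q x) +
          (red ψ : W.M →ₗ[Po κ 3] Po κ 3) (R.q x)
        rw [hred, hred, ← map_add]; rfl
      map_smul' := by
        intro v φ
        apply huniq
        intro x
        rw [hred]
        change _ = σ v • (red φ : W.M →ₗ[Po κ 3] Po κ 3) (R.q x)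
        rw [hred, ← EXP_.map_smul']; rfl }
  let U : Submodule κ (Om W s) :=
    { carrier := {φ' | ∃ φ : Om D s, ∀ x, (φ' : W.M →ₗ[Po κ 3] Po κ 3) (R.q x) =
          MvPolynomial.map σ ((φ : D.M →ₗ[Po V 3] Po V 3) x)}
      add_mem' := by
        rintro f g ⟨φ, hφ⟩ ⟨ψ, hψ⟩
        refine ⟨φ + ψ, fun x => ?_⟩
        change (f : W.M →ₗ[Po κ 3] Po κ 3) (R.q x) + (g : W.M →ₗ[Po κ 3] Po κ 3) (R.q x) = _
        rw [hφ, hψ, ← map_add]; rfl
      zero_mem' := ⟨0, fun x => (map_zero _).symm⟩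
      smul_mem' := by
        rintro c f ⟨φ, hφ⟩
        obtain ⟨v, rfl⟩ := R.surjσ c
        refine ⟨v • φ, fun x => ?_⟩
        change σ v • (f : W.M →ₗ[Po κ 3] Po κ 3) (R.q x) = _
        rw [hφ, ← EXP_.map_smul']; rfl }
  have hU : ∀ φ' : Om W s, φ' ∈ U ↔ ∃ φ : Om D s, ∀ x, (φ' : W.M →ₗ[Po κ 3] Po κ 3) (R.q x) =
      MvPolynomial.map σ ((φ : D.M →ₗ[Po V 3] Po V 3) x) := fun _ => Iff.rfl
  let b := Module.finBasis V (Om D s)
  let u : Fin (Module.finrank V (Om D s)) → U := fun i => ⟨red' (b i), ⟨b i, hred (b i)⟩⟩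
  have ht0 : t ≠ 0 := ht.ne_zero
  choose v hv using R.surjσ
  have hli : LinearIndependent κ u := by
    refine Fintype.linearIndependent_iffₛ.2 ?_
    intro c c' hc i
    have h0 : ∀ g : Fin (Module.finrank V (Om D s)) → κ,
        red' (∑ j, v (g j) • b j) = U.subtype (∑ j, g j • u j) := by
      intro g
      rw [map_sum, map_sum]
      refine Finset.sum_congr rfl (fun j _ => ?_)
      rw [map_smulₛₗ, hv, map_smul]; rfl
    let e : Fin (Module.finrank V (Om D s)) → V := fun j => v (c j) - v (c' j)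
    have h1 : red' (∑ j, e j • b j) + red' (∑ j, v (c' j) • b j) =
        red' (∑ j, v (c' j) • b j) := by
      rw [← map_add, ← Finset.sum_add_distrib]
      have h2 : ∀ j, e j • b j + v (c' j) • b j = v (c j) • b j := by
        intro j; rw [← add_smul, sub_add_cancel]
      simp_rw [h2]
      rw [h0, h0, hc]
    obtain ⟨ψ, hψ⟩ := ker_red R ht0 s (∑ j, e j • b j) (by
      intro x
      rw [← hred]
      have h2 := congrArg (fun φ' : Om W s => (φ' : W.M →ₗ[Po κ 3] Po κ 3) (R.q x)) h1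
      exact add_eq_right.1 h2)
    have h3 : b.repr (∑ j, e j • b j) i = e i := by rw [b.repr_sum_self]
    rw [hψ, map_smul, Finsupp.smul_apply, smul_eq_mul] at h3
    have h4 : σ (v (c i) - v (c' i)) = 0 := by
      change σ (e i) = 0
      rw [← h3, map_mul, sig_t R, zero_mul]
    rw [map_sub, hv, hv] at h4
    exact sub_eq_zero.1 h4
  have hsp : ⊤ ≤ Submodule.span κ (Set.range u) := by
    rintro ⟨φ', φ, hφ⟩ -
    have h1 : φ' = red' φ := huniq _ _ (fun x => by rw [hφ]; exact (hred φ x).symm)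
    have h2 : (⟨φ', φ, hφ⟩ : U) = ∑ j, σ (b.repr φ j) • u j := by
      apply Subtype.ext
      change φ' = U.subtype (∑ j, σ (b.repr φ j) • u j)
      rw [h1, map_sum]
      conv_lhs => rw [← b.sum_repr φ, map_sum]
      refine Finset.sum_congr rfl (fun j _ => ?_)
      rw [map_smulₛₗ, map_smul]; rfl
    rw [h2]
    exact Submodule.sum_mem _ (fun j _ => Submodule.smul_mem _ _ (Submodule.subset_span ⟨j, rfl⟩))
  have hrkU : Module.finrank κ U = Module.finrank V (Om D s) := by
    have := Module.finrank_eq_card_basis (Module.Basis.mk hli hsp)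
    rw [this, Fintype.card_fin]
  refine ⟨inferInstance, inferInstance, inferInstance, ?_, U, hU, hrkU, ?_⟩
  · rw [hrkW]; exact he2.symm
  · rw [hrkU, hrkV, hrkW]
    have : (h1 W (-s - 3)).toNat = Module.finrank κ (H1 W (-s - 3)) := he1
    rw [this]; exact hle2

end

end Pool.Agent.GML
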