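import Pool.Agent.GML.Stmts

/-!
# GML, module FGB: finitely generated modules in three variables
-/

set_option autoImplicit false

namespace Pool.Agent.GML

open MvPolynomial Filter

noncomputable section

namespace FGB_

theorem est (d : ℤ) : ∃ C : ℕ, ∀ n : ℕ,
    |(((d - -(n : ℤ) - 1).toNat.choose 2 : ℕ) : ℚ) - (n : ℚ) ^ 2 / 2| ≤ C * ((n : ℚ) + 1) := by
  refine ⟨(d.natAbs + 1) ^ 2 + 2 * (d.natAbs + 1) + 1, fun n => ?_⟩
  obtain ⟨t, ht⟩ : ∃ t, (d - -(n : ℤ) - 1).toNat = t := ⟨_, rfl⟩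
  obtain ⟨D, hD⟩ : ∃ D, d.natAbs + 1 = D := ⟨_, rfl⟩
  rw [ht, hD, Nat.cast_choose_two]
  have h1 : t ≤ n + D := by omega
  have h2 : n ≤ t + D := by omega
  have h1' : (t : ℚ) ≤ n + D := by exact_mod_cast h1
  have h2' : (n : ℚ) ≤ t + D := by exact_mod_cast h2
  obtain ⟨δ, hδ⟩ : ∃ δ : ℚ, (t : ℚ) = n + δ := ⟨t - n, by ring⟩
  have hδ1 : δ ≤ D := by linarith
  have hδ2 : -(D : ℚ) ≤ δ := by linarith
  have hn : (0 : ℚ) ≤ n := Nat.cast_nonneg n
  have hD0 : (0 : ℚ) ≤ D := Nat.cast_nonneg D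
  have e1 : (t : ℚ) * (t - 1) / 2 - (n : ℚ) ^ 2 / 2 = (2 * n * δ + δ ^ 2 - n - δ) / 2 := by
    rw [hδ]; ring
  have hsq : δ ^ 2 ≤ (D : ℚ) ^ 2 := by nlinarith
  have hnd1 : n * δ ≤ n * D := mul_le_mul_of_nonneg_left hδ1 hn
  have hnd2 : -((n : ℚ) * D) ≤ n * δ := by
    have := mul_le_mul_of_nonneg_left hδ2 hn
    linarith
  have hnn : (0 : ℚ) ≤ n * D ^ 2 := by positivity
  have hnD : (0 : ℚ) ≤ n * D := by positivity
  rw [e1, abs_le]
  push_cast
  constructor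
  · nlinarith [sq_nonneg δ]
  · nlinarith [sq_nonneg δ]

theorem est_sum (k : ℕ) (d : Fin k → ℤ) : ∃ C : ℕ, ∀ n : ℕ,
    |((∑ i, ((d i - -(n : ℤ) - 1).toNat).choose 2 : ℕ) : ℚ) - (k : ℚ) * (n : ℚ) ^ 2 / 2| ≤
      C * ((n : ℚ) + 1) := by
  choose C hC using est
  refine ⟨∑ i, C (d i), fun n => ?_⟩
  have h1 : ((∑ i, ((d i - -(n : ℤ) - 1).toNat).choose 2 : ℕ) : ℚ) - (k : ℚ) * (n : ℚ) ^ 2 / 2 =
      ∑ i, ((((d i - -(n : ℤ) - 1).toNat).choose 2 : ℕ) - (n : ℚ) ^ 2 / 2 : ℚ) := by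
    rw [Finset.sum_sub_distrib]
    simp
    ring
  rw [h1]
  refine (Finset.abs_sum_le_sum_abs _ _).trans ?_
  push_cast
  rw [Finset.sum_mul]
  exact Finset.sum_le_sum fun i _ => hC (d i) n

end FGB_

open FGB_ in
theorem fgb_proof (hFRE : Stmt_FRE) (hFRA : Stmt_FRA) (hTOR : Stmt_TOR) (hTFG : Stmt_TFG)
    (hLES : Stmt_LES) (hSUB : Stmt_SUB) (hQUO : Stmt_QUO) (hDEG : Stmt_DEG) : Stmt_FGB := by
  intro κ _ M hM
  obtain ⟨k, b, d, p, e, hli, hb, hp, -, hpb, hk⟩ := hFRE κ 3 M hM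
  have hhom : IsHom M (Submodule.span (Po κ 3) (Set.range b)) := by
    refine (hDEG κ 3 M M ⟨LinearMap.id, fun _ _ h => h⟩).2.2.2.2.2.2.2 _ ?_
    rintro _ ⟨i, rfl⟩
    exact ⟨d i, hb i⟩
  obtain ⟨N, f, hf, hfr, hfd⟩ := hSUB κ 3 M _ hhom
  obtain ⟨Q, g, hg, hgk, -⟩ := hQUO κ 3 M _ hhom
  have hses : SES f g := by
    refine ⟨hf, ?_, hg⟩
    rw [LinearMap.exact_iff, hgk, hfr]
  -- the basis of `N`
  have hx : ∀ i, ∃ x, f.f x = b i := by
    intro i
    have h1 : b i ∈ LinearMap.range f.f := by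
      rw [hfr]; exact Submodule.subset_span ⟨i, rfl⟩
    exact h1
  choose x hx using hx
  have hxli : LinearIndependent (Po κ 3) x := by
    apply LinearIndependent.of_comp f.f
    have h1 : (f.f ∘ x) = b := funext hx
    rw [h1]; exact hli
  have hxsp : ⊤ ≤ Submodule.span (Po κ 3) (Set.range x) := by
    intro y _
    have h1 : f.f y ∈ (Submodule.span (Po κ 3) (Set.range x)).map f.f := by
      rw [Submodule.map_span, ← Set.range_comp]
      have h2 : (f.f ∘ x) = b := funext hx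
      rw [h2, ← hfr]
      exact ⟨y, rfl⟩
    obtain ⟨z, hz, hzy⟩ := h1
    rw [← hf hzy]
    exact hz
  have hfra := hFRA κ N (Fin k) (Module.Basis.mk hxli hxsp) d (fun i => by
    rw [Module.Basis.mk_apply]
    apply hfd
    rw [hx]; exact hb i)
  -- the quotient
  have hQf : Module.Finite (Po κ 3) Q.M := Module.Finite.of_surjective g.f hg
  have hQt : ∀ y : Q.M, ∃ q : Po κ 3, q ≠ 0 ∧ q • y = 0 := by
    intro y
    obtain ⟨z, rfl⟩ := hg y
    refine ⟨p, hp, ?_⟩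
    rw [← map_smul]
    have h1 : p • z ∈ LinearMap.ker g.f := by rw [hgk]; exact hpb z
    exact h1
  have hQ2 := hTOR κ Q hQt
  obtain ⟨hQ1, ⟨n₀, hn₀⟩, C, hC⟩ := hTFG κ Q hQf hQt
  have hles := fun n => hLES κ N M Q f g hses n
  have i1 : ∀ n, h1 M n ≤ h1 Q n := by
    intro n
    have h := (hles n).1
    rwa [(hfra n).1, zero_add] at h
  have i2 : ∀ n, h2 M n ≤ h2 N n := by
    intro n
    have h := (hles n).2.1
    rwa [hQ2 n, add_zero] at h
  have i3 : ∀ n, h2 N n ≤ h2 M n + h1 Q n := by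
    intro n
    have h := (hles n).2.2.1
    rwa [hQ2 n, add_zero] at h
  have t1 : ∀ n, h1 M n ≠ ⊤ := fun n => ne_top_of_le_ne_top (hQ1 n) (i1 n)
  have tN : ∀ n, h2 N n ≠ ⊤ := by
    intro n
    rw [(hfra n).2]
    exact ENat.coe_ne_top _
  have t2 : ∀ n, h2 M n ≠ ⊤ := fun n => ne_top_of_le_ne_top (tN n) (i2 n)
  refine ⟨fun n => ⟨t1 n, t2 n⟩, ?_, ?_⟩
  · refine ⟨max n₀ (∑ i, |d i|), fun n hn => ⟨?_, ?_⟩⟩
    · have h := i1 n
      rw [hn₀ n ((le_max_left _ _).trans hn)] at h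
      exact le_antisymm h bot_le
    · have h := i2 n
      rw [(hfra n).2] at h
      have h0 : ∑ i, ((d i - n - 1).toNat).choose 2 = 0 := by
        refine Finset.sum_eq_zero fun i _ => ?_
        have h3 : d i ≤ n := by
          have h4 := Finset.single_le_sum (f := fun i => |d i|) (fun i _ => abs_nonneg _)
            (Finset.mem_univ i)
          have h5 := le_abs_self (d i)
          have h6 := (le_max_right n₀ (∑ i, |d i|)).trans hn
          linarith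
        have h7 : (d i - n - 1).toNat = 0 := by omega
        rw [h7]; rfl
      rw [h0] at h
      exact le_antisymm h bot_le
  · obtain ⟨C', hC'⟩ := est_sum k d
    refine ⟨C + C', fun n => ⟨?_, ?_⟩⟩
    · have h := (i1 (-(n : ℤ))).trans (hC n)
      have h3 := ENat.toNat_le_toNat h (ENat.coe_ne_top _)
      rw [ENat.toNat_coe] at h3
      exact h3.trans (Nat.mul_le_mul_right _ (Nat.le_add_right _ _))
    · have hN : h2 N (-(n : ℤ)) = ((∑ i, ((d i - -(n : ℤ) - 1).toNat).choose 2 : ℕ) : ℕ∞) :=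
        (hfra _).2
      obtain ⟨s, hs⟩ := ENat.ne_top_iff_exists.1 (t2 (-(n : ℤ)))
      obtain ⟨q, hq⟩ := ENat.ne_top_iff_exists.1 (hQ1 (-(n : ℤ)))
      have h1 := i2 (-(n : ℤ))
      have h2' := i3 (-(n : ℤ))
      have h3 := hC n
      rw [hN, ← hs] at h1 h2'
      rw [← hq] at h2' h3
      rw [← hs, ENat.toNat_coe]
      have h1' : s ≤ ∑ i, ((d i - -(n : ℤ) - 1).toNat).choose 2 := by exact_mod_cast h1
      have h2'' : ∑ i, ((d i - -(n : ℤ) - 1).toNat).choose 2 ≤ s + q := by exact_mod_cast h2'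
      have h3' : q ≤ C * (n + 1) := by exact_mod_cast h3
      have h4 := hC' n
      rw [← hk]
      have h5 : (s : ℚ) ≤ ((∑ i, ((d i - -(n : ℤ) - 1).toNat).choose 2 : ℕ) : ℚ) := by
        exact_mod_cast h1'
      have h6 : ((∑ i, ((d i - -(n : ℤ) - 1).toNat).choose 2 : ℕ) : ℚ) ≤ s + q := by
        exact_mod_cast h2''
      have h7 : (q : ℚ) ≤ C * (n + 1) := by exact_mod_cast h3'
      rw [abs_le] at h4 ⊢
      push_cast at h4 h5 h6 h7 ⊢
      have hq0 : (0 : ℚ) ≤ C * ((n : ℚ) + 1) := by positivity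
      constructor
      · linarith [h4.1]
      · linarith [h4.2]

end

end Pool.Agent.GML
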