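import Pool.Agent.GML.Stmts

/-!
# GML, module FIL: dimensions along a filtration
-/

set_option autoImplicit false

open MvPolynomial Filter

namespace Pool.Agent.GML

namespace FIL_

/-- `T` realises the submodule `P` of `X` -/
def Rl {V : Type} [CommRing V] (X : GMod V 3) (P : Submodule (Po V 3) X.M) (T : GMod V 3)
    (e : GHom T X) : Prop := Function.Injective e.f ∧ LinearMap.range e.f = P

theorem fac_inj {R E T X : Type} [CommRing R] [AddCommGroup E] [Module R E] [AddCommGroup T]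
    [Module R T] [AddCommGroup X] [Module R X] (e : T →ₗ[R] X) (he : Function.Injective e)
    (t : E →ₗ[R] X) (ht : LinearMap.range t ≤ LinearMap.range e) :
    ∃ s : E →ₗ[R] T, ∀ x, e (s x) = t x := by
  let q : E →ₗ[R] LinearMap.range e := t.codRestrict _ fun x => ht ⟨x, rfl⟩
  refine ⟨(LinearEquiv.ofInjective e he).symm.toLinearMap.comp q, fun x => ?_⟩
  have h1 := (LinearEquiv.ofInjective e he).apply_symm_apply (q x)
  have h2 := congrArg Subtype.val h1
  exact h2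

theorem fac_surj {R E T G : Type} [CommRing R] [AddCommGroup E] [Module R E] [AddCommGroup T]
    [Module R T] [AddCommGroup G] [Module R G] (s : E →ₗ[R] T) (hs : Function.Surjective s)
    (t : E →ₗ[R] G) (ht : LinearMap.ker s ≤ LinearMap.ker t) :
    ∃ u : T →ₗ[R] G, ∀ x, u (s x) = t x := by
  refine ⟨((LinearMap.ker s).liftQ t ht).comp (s.quotKerEquivOfSurjective hs).symm.toLinearMap,
    fun x => ?_⟩
  have h1 : (s.quotKerEquivOfSurjective hs).symm (s x) = Submodule.Quotient.mk x := by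
    rw [LinearEquiv.symm_apply_eq]
    rfl
  change ((LinearMap.ker s).liftQ t ht) ((s.quotKerEquivOfSurjective hs).symm (s x)) = t x
  rw [h1]
  rfl

theorem step (hSUB : Stmt_SUB) (hDEG : Stmt_DEG) {V : Type} [CommRing V]
    (W X G T1 T2 : GMod V 3) (D E : Submodule (Po V 3) W.M) (hDE : D ≤ E) (hE : IsHom W E)
    (h : GHom W X) (hker : LinearMap.ker h.f ≤ D) (p : E →ₗ[Po V 3] G.M)
    (hp : Function.Surjective p) (hpk : ∀ x : E, p x = 0 ↔ (x : W.M) ∈ D)
    (hpd : ∀ (n : ℤ) (x : E), (x : W.M) ∈ W.gr n → p x ∈ G.gr n)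
    (e1 : GHom T1 X) (e2 : GHom T2 X) (h1 : Rl X (D.map h.f) T1 e1)
    (h2 : Rl X (E.map h.f) T2 e2) : ∃ (i : GHom T1 T2) (u : GHom T2 G), SES i u := by
  obtain ⟨i, hi⟩ := fac_inj e2.f h2.1 e1.f (by
    rw [h1.2, h2.2]; exact Submodule.map_mono hDE)
  obtain ⟨s, hs⟩ := fac_inj e2.f h2.1 (h.f.comp E.subtype) (by
    rw [h2.2]
    rintro _ ⟨x, rfl⟩
    exact Submodule.mem_map_of_mem x.2)
  have hss : Function.Surjective s := by
    intro y
    have h3 : e2.f y ∈ E.map h.f := by rw [← h2.2]; exact ⟨y, rfl⟩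
    obtain ⟨x, hx, hxy⟩ := h3
    refine ⟨⟨x, hx⟩, h2.1 ?_⟩
    rw [hs]; exact hxy
  have hks : ∀ x : E, s x = 0 → (x : W.M) ∈ D := by
    intro x hx
    apply hker
    rw [LinearMap.mem_ker]
    have := hs x
    rw [hx, map_zero] at this
    exact this.symm
  obtain ⟨u, hu⟩ := fac_surj s hss p (fun x hx => (hpk x).2 (hks x hx))
  obtain ⟨NE, fE, hfi, hfr, -⟩ := hSUB V 3 W E hE
  have hud : ∀ (n : ℤ) (y : T2.M), y ∈ T2.gr n → u y ∈ G.gr n := by
    intro n y hy
    have h3 : e2.f y ∈ X.gr n := e2.deg n y hy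
    let c : GHom NE X := ⟨h.f.comp fE.f, fun n x hx => h.deg n _ (fE.deg n x hx)⟩
    obtain ⟨z, hz, hzy⟩ := (hDEG V 3 NE X c).1 n (e2.f y) h3 (by
      have h4 : e2.f y ∈ E.map h.f := by rw [← h2.2]; exact ⟨y, rfl⟩
      obtain ⟨x, hx, hxy⟩ := h4
      rw [← hfr] at hx
      obtain ⟨z, rfl⟩ := hx
      exact ⟨z, hxy⟩)
    have hxE : fE.f z ∈ E := by rw [← hfr]; exact ⟨z, rfl⟩
    have h5 : y = s ⟨fE.f z, hxE⟩ := by
      apply h2.1
      rw [hs]
      exact hzy.symm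
    rw [h5, hu]
    exact hpd n _ (fE.deg n z hz)
  refine ⟨⟨i, fun n x hx => (hDEG V 3 T2 X e2).2.1 h2.1 n _ ?_⟩, ⟨u, hud⟩, ?_, ?_, ?_⟩
  · rw [hi]; exact e1.deg n x hx
  · intro x y hxy
    apply h1.1
    rw [← hi, ← hi]
    exact congrArg e2.f hxy
  · intro y
    change u y = 0 ↔ y ∈ Set.range i
    obtain ⟨x, rfl⟩ := hss y
    rw [hu, hpk]
    constructor
    · intro hx
      have h3 : h.f x ∈ LinearMap.range e1.f := by
        rw [h1.2]; exact Submodule.mem_map_of_mem hx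
      obtain ⟨z, hz⟩ := h3
      refine ⟨z, h2.1 ?_⟩
      rw [hi, hz, hs]
      rfl
    · rintro ⟨z, hz⟩
      have h3 : e1.f z ∈ D.map h.f := by rw [← h1.2]; exact ⟨z, rfl⟩
      obtain ⟨d, hd, hdz⟩ := h3
      have h4 : h.f (x : W.M) = h.f d := by
        rw [hdz, ← hi, hz, hs]
        rfl
      have h5 : (x : W.M) - d ∈ D := hker (by rw [LinearMap.mem_ker, map_sub, h4, sub_self])
      have := D.add_mem h5 hd
      rwa [sub_add_cancel] at this
  · intro g
    obtain ⟨x, rfl⟩ := hp g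
    exact ⟨s x, hu x⟩

theorem h_sub {V : Type} [CommRing V] (T : GMod V 3) (hT : Subsingleton T.M) (n : ℤ) :
    h1 T n = 0 ∧ h2 T n = 0 := by
  constructor
  · rw [h1, Module.length_eq_zero_iff]
    exact (Submodule.Quotient.mk_surjective _).subsingleton
  · rw [h2, Module.length_eq_zero_iff]
    exact (Submodule.Quotient.mk_surjective _).subsingleton

theorem isHom_Fm (hDEG : Stmt_DEG) {V : Type} [CommRing V] (W : GMod V 3)
    (F : ℕ → Submodule (Po V 3) W.M) (hF : ∀ j, IsHom W (F j)) (j : ℕ) : IsHom W (Fm F j) := by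
  unfold Fm
  split_ifs with hj
  · have := (hDEG V 3 W W ⟨LinearMap.id, fun _ _ h => h⟩).2.2.2.2.2.2.2 ∅
      (fun x hx => absurd hx (Set.notMem_empty x))
    rwa [Submodule.span_empty] at this
  · exact hF _

theorem Fm_succ {R M : Type} [Ring R] [AddCommGroup M] [Module R M] (F : ℕ → Submodule R M)
    (j : ℕ) : Fm F (j + 1) = F j := by
  rw [Fm, if_neg (Nat.succ_ne_zero j), Nat.add_sub_cancel]

theorem Fm_le {R M : Type} [Ring R] [AddCommGroup M] [Module R M] (F : ℕ → Submodule R M)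
    (hF : Monotone F) (j : ℕ) : Fm F j ≤ F j := by
  unfold Fm
  split_ifs with hj
  · exact bot_le
  · exact hF (Nat.sub_le _ _)

theorem Fm_mono {R M : Type} [Ring R] [AddCommGroup M] [Module R M] (F : ℕ → Submodule R M)
    (hF : Monotone F) : Monotone (Fm F) :=
  monotone_nat_of_le_succ fun j => by rw [Fm_succ]; exact Fm_le F hF j

/-- induction along the filtration, started at `j0` -/
theorem along (hLES : Stmt_LES) (hSUB : Stmt_SUB) (hDEG : Stmt_DEG) {κ : Type} [Field κ]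
    (W : GMod κ 3) (F : ℕ → Submodule (Po κ 3) W.M) (hF : Monotone F) (hH : ∀ j, IsHom W (F j))
    (G : ℕ → GMod κ 3) (p : ∀ J, ↥(F J) →ₗ[Po κ 3] (G J).M) (hG : ∀ J, IsGr F J (G J) (p J))
    (X : GMod κ 3) (h : GHom W X) (j0 : ℕ) (hk : LinearMap.ker h.f = Fm F j0) (n : ℤ) :
    ∀ j, j0 ≤ j → ∃ (T : GMod κ 3) (e : GHom T X), Rl X ((Fm F j).map h.f) T e ∧
      h1 T n ≤ ∑ J ∈ Finset.Ico j0 j, h1 (G J) n ∧
      h2 T n ≤ ∑ J ∈ Finset.Ico j0 j, h2 (G J) n ∧
      ∑ J ∈ Finset.Ico j0 j, h2 (G J) n ≤ h2 T n + ∑ J ∈ Finset.Ico j0 j, h1 (G J) n := by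
  intro j hj
  induction j, hj using Nat.le_induction with
  | base =>
    have hb : (Fm F j0).map h.f = ⊥ := by
      rw [← hk]; exact (LinearMap.le_ker_iff_map).1 le_rfl
    obtain ⟨T, e, he, her, -⟩ := hSUB κ 3 X _
      ((hDEG κ 3 W X h).2.2.2.2.1 _ (isHom_Fm hDEG W F hH j0))
    have hT : Subsingleton T.M := by
      refine ⟨fun x y => he ?_⟩
      have h0 : ∀ z : T.M, e.f z = 0 := fun z => by
        have : e.f z ∈ LinearMap.range e.f := ⟨z, rfl⟩
        rw [her, hb] at this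
        exact (Submodule.mem_bot _).1 this
      rw [h0, h0]
    obtain ⟨a1, a2⟩ := h_sub T hT n
    refine ⟨T, e, ⟨he, her⟩, ?_, ?_, ?_⟩
    · rw [a1]; exact zero_le
    · rw [a2]; exact zero_le
    · rw [Finset.Ico_self, Finset.sum_empty]; exact zero_le
  | succ j hj ih =>
    obtain ⟨T1, e1, r1, b1, b2, b3⟩ := ih
    obtain ⟨T2, e2, he2, her2, -⟩ := hSUB κ 3 X _
      ((hDEG κ 3 W X h).2.2.2.2.1 _ (isHom_Fm hDEG W F hH (j + 1)))
    have her2' : LinearMap.range e2.f = (F j).map h.f := by rw [her2, Fm_succ]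
    obtain ⟨i, u, hiu⟩ := step hSUB hDEG W X (G j) T1 T2 (Fm F j) (F j) (Fm_le F hF j) (hH j) h
      (hk ▸ Fm_mono F hF hj) (p j) (hG j).surj (hG j).ker (hG j).deg e1 e2 r1 ⟨he2, her2'⟩
    obtain ⟨c1, c2, c3, -⟩ := hLES κ T1 T2 (G j) i u hiu n
    refine ⟨T2, e2, ⟨he2, her2⟩, ?_, ?_, ?_⟩
    · rw [Finset.sum_Ico_succ_top hj]
      exact c1.trans (by gcongr)
    · rw [Finset.sum_Ico_succ_top hj]
      exact c2.trans (by gcongr)
    · rw [Finset.sum_Ico_succ_top hj, Finset.sum_Ico_succ_top hj]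
      calc ∑ J ∈ Finset.Ico j0 j, h2 (G J) n + h2 (G j) n
          ≤ (h2 T1 n + ∑ J ∈ Finset.Ico j0 j, h1 (G J) n) + h2 (G j) n := by gcongr
        _ = (h2 T1 n + h2 (G j) n) + ∑ J ∈ Finset.Ico j0 j, h1 (G J) n := by
          rw [add_right_comm]
        _ ≤ (h2 T2 n + h1 (G j) n) + ∑ J ∈ Finset.Ico j0 j, h1 (G J) n := by gcongr
        _ = _ := by rw [add_assoc, add_comm (h1 (G j) n)]

theorem sum_bd {f : ℕ → ℕ∞} {K : ℕ} (hf : ∀ J, K ≤ J → f J = 0) (j : ℕ) :
    ∑ J ∈ Finset.Ico 0 j, f J ≤ ∑ J ∈ Finset.range K, f J := by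
  have h1 : ∑ J ∈ Finset.Ico 0 j, f J = ∑ J ∈ (Finset.Ico 0 j).filter (· < K), f J := by
    symm
    refine Finset.sum_subset (Finset.filter_subset _ _) fun J hJ hJ' => ?_
    apply hf
    by_contra hc
    exact hJ' (Finset.mem_filter.2 ⟨hJ, not_le.1 hc⟩)
  rw [h1]
  refine Finset.sum_le_sum_of_subset fun J hJ => ?_
  exact Finset.mem_range.2 (Finset.mem_filter.1 hJ).2

end FIL_

open FIL_ in
theorem fil_proof (hLES : Stmt_LES) (hUNI : Stmt_UNI) (hSUB : Stmt_SUB) (hQUO : Stmt_QUO)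
    (hDEG : Stmt_DEG) (_hISO : Stmt_ISO) : Stmt_FIL := by
  intro κ _ W F hF hu hH G p hG n K hK
  let idW : GHom W W := ⟨LinearMap.id, fun _ _ h => h⟩
  have hkid : LinearMap.ker idW.f = Fm F 0 := by
    change LinearMap.ker (LinearMap.id) = _
    rw [LinearMap.ker_id]; rfl
  have hmid : ∀ P : Submodule (Po κ 3) W.M, P.map idW.f = P := fun P => Submodule.map_id P
  have hA := along hLES hSUB hDEG W F hF hH G p hG W idW 0 hkid n
  refine ⟨?_, ?_, ?_⟩
  · refine (hUNI κ W F hF hu n _).1 fun j => ?_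
    obtain ⟨T, e, r, b1, -⟩ := hA (j + 1) (Nat.zero_le _)
    refine ⟨T, e, r.1, ?_, b1.trans (sum_bd (fun J hJ => (hK J hJ).1) _)⟩
    rw [r.2, hmid, Fm_succ]
  · refine (hUNI κ W F hF hu n _).2 fun j => ?_
    obtain ⟨T, e, r, -, b2, -⟩ := hA (j + 1) (Nat.zero_le _)
    refine ⟨T, e, r.1, ?_, b2.trans (sum_bd (fun J hJ => (hK J hJ).2) _)⟩
    rw [r.2, hmid, Fm_succ]
  · obtain ⟨T, e, r, -, -, b3⟩ := hA K (Nat.zero_le _)
    rw [Nat.Ico_zero_eq_range] at b3
    refine b3.trans ?_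
    have hrange : LinearMap.range e.f = Fm F K := by rw [r.2, hmid]
    obtain ⟨Q, g, hgs, hgk, -⟩ := hQUO κ 3 W (Fm F K) (isHom_Fm hDEG W F hH K)
    have hses : SES e g := by
      refine ⟨r.1, fun x => ?_, hgs⟩
      rw [← LinearMap.mem_ker, hgk, ← hrange]
      rfl
    have hQ : h1 Q n = 0 := by
      have hB := along hLES hSUB hDEG W F hF hH G p hG Q g K hgk n
      refine le_zero_iff.1 ((hUNI κ Q (fun j => (F j).map g.f)
        (fun i j hij => Submodule.map_mono (hF hij)) ?_ n 0).1 fun j => ?_)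
      · intro y
        obtain ⟨x, rfl⟩ := hgs y
        obtain ⟨j, hj⟩ := hu x
        exact ⟨j, Submodule.mem_map_of_mem hj⟩
      · have hz : ∀ j, ∑ J ∈ Finset.Ico K j, h1 (G J) n = 0 := fun j =>
          Finset.sum_eq_zero fun J hJ => (hK J (Finset.mem_Ico.1 hJ).1).1
        by_cases hj : K ≤ j + 1
        · obtain ⟨T', e', r', b1', -⟩ := hB (j + 1) hj
          refine ⟨T', e', r'.1, ?_, ?_⟩
          · rw [r'.2, Fm_succ]
          · rw [hz] at b1'; exact b1'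
        · obtain ⟨T', e', r', b1', -⟩ := hB K le_rfl
          refine ⟨T', e', r'.1, ?_, ?_⟩
          · have hb : (Fm F K).map g.f = ⊥ := by
              rw [← hgk]; exact (LinearMap.le_ker_iff_map).1 le_rfl
            have hj' : F j ≤ Fm F K := by
              rw [← Fm_succ F j]
              exact Fm_mono F hF (by omega)
            rw [r'.2, hb]
            exact (le_bot_iff.1 (hb ▸ Submodule.map_mono hj')).symm
          · rw [hz] at b1'; exact b1'
    have hl := (hLES κ T W Q e g hses n).2.2.1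
    rw [hQ, add_zero] at hl
    gcongr
    exact le_self_add.trans hl

end Pool.Agent.GML
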