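import Pool.Agent.GML.Stmts

set_option autoImplicit false

open MvPolynomial Filter

noncomputable section

namespace Pool.Agent.GML

namespace FRA_

open Classical in
section

variable {κ : Type} [Field κ] {M : GMod κ 3} {ι : Type} [Fintype ι]
  (b : Module.Basis ι (Po κ 3) M.M)

/-- coefficients with respect to the basis -/
def co (x : M.M) (i : ι) (m : Fin 3 →₀ ℕ) : κ := coeff m (b.repr x i)

lemma co_add (x y : M.M) (i : ι) (m : Fin 3 →₀ ℕ) :
    co b (x + y) i m = co b x i m + co b y i m := by simp [co]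

lemma co_sub (x y : M.M) (i : ι) (m : Fin 3 →₀ ℕ) :
    co b (x - y) i m = co b x i m - co b y i m := by simp [co]

lemma co_zero (i : ι) (m : Fin 3 →₀ ℕ) : co b (0 : M.M) i m = 0 := by simp [co]

lemma co_sum {α : Type} (s : Finset α) (f : α → M.M) (i : ι) (m : Fin 3 →₀ ℕ) :
    co b (∑ a ∈ s, f a) i m = ∑ a ∈ s, co b (f a) i m := by
  induction s using Finset.induction_on with
  | empty => simp [co]
  | insert a s ha ih => rw [Finset.sum_insert ha, Finset.sum_insert ha, co_add, ih]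

lemma co_smulV (v : κ) (x : M.M) (i : ι) (m : Fin 3 →₀ ℕ) :
    co b (v • x) i m = v * co b x i m := by
  have h : v • x = (C v : Po κ 3) • x := (algebraMap_smul (Po κ 3) v x).symm
  rw [h]
  unfold co
  rw [map_smul, Finsupp.smul_apply, smul_eq_mul, coeff_C_mul]

lemma co_ext {x y : M.M} (h : ∀ i m, co b x i m = co b y i m) : x = y :=
  b.repr.injective (Finsupp.ext fun i => MvPolynomial.ext _ _ fun m => h i m)

lemma co_mon (s : Fin 3 →₀ ℕ) (x : M.M) (i : ι) (m : Fin 3 →₀ ℕ) :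
    co b ((monomial s (1 : κ) : Po κ 3) • x) i m = if s ≤ m then co b x i (m - s) else 0 := by
  unfold co
  rw [map_smul, Finsupp.smul_apply, smul_eq_mul, coeff_monomial_mul']
  simp

lemma co_monb (s : Fin 3 →₀ ℕ) (j i : ι) (m : Fin 3 →₀ ℕ) :
    co b ((monomial s (1 : κ) : Po κ 3) • b j) i m = if i = j ∧ m = s then 1 else 0 := by
  unfold co
  rw [map_smul, Finsupp.smul_apply, smul_eq_mul, Module.Basis.repr_self]
  by_cases h : i = j
  · subst h
    rw [Finsupp.single_eq_same, mul_one, coeff_monomial]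
    by_cases h2 : m = s
    · subst h2; simp
    · rw [if_neg (fun h' => h2 h'.symm), if_neg (fun h' => h2 h'.2)]
  · rw [Finsupp.single_eq_of_ne h, mul_zero, coeff_zero, if_neg (fun h' => h h'.1)]

lemma co_X_lt (l : Fin 3) (a : ℕ) (x : M.M) (i : ι) (m : Fin 3 →₀ ℕ) (h : m l < a) :
    co b ((X l : Po κ 3) ^ a • x) i m = 0 := by
  rw [X_pow_eq_monomial, co_mon, if_neg]
  rw [Finsupp.single_le_iff]
  omega

lemma co_X_add (l : Fin 3) (a : ℕ) (x : M.M) (i : ι) (m : Fin 3 →₀ ℕ) :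
    co b ((X l : Po κ 3) ^ a • x) i (m + Finsupp.single l a) = co b x i m := by
  rw [X_pow_eq_monomial, co_mon, if_pos le_add_self, add_tsub_cancel_right]

include b in
lemma X_inj (l : Fin 3) (a : ℕ) {x y : M.M} (h : (X l : Po κ 3) ^ a • x = (X l : Po κ 3) ^ a • y) :
    x = y := by
  apply co_ext b
  intro i m
  rw [← co_X_add b l a x, h, co_X_add]

/-- division by a power of a variable -/
lemma divi (l : Fin 3) (a : ℕ) (x : M.M) : ∃ q r : M.M, x = (X l : Po κ 3) ^ a • q + r ∧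
    ∀ i m, co b r i m = if a ≤ m l then 0 else co b x i m := by
  let q : M.M := b.equivFun.symm (fun i => (b.repr x i).divMonomial (Finsupp.single l a))
  let r : M.M := b.equivFun.symm (fun i => (b.repr x i).modMonomial (Finsupp.single l a))
  have hq : ∀ i, b.repr q i = (b.repr x i).divMonomial (Finsupp.single l a) := fun i => by
    have := congrFun (b.equivFun.apply_symm_apply
      (fun i => (b.repr x i).divMonomial (Finsupp.single l a))) i
    exact this
  have hr : ∀ i, b.repr r i = (b.repr x i).modMonomial (Finsupp.single l a) := fun i => by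
    have := congrFun (b.equivFun.apply_symm_apply
      (fun i => (b.repr x i).modMonomial (Finsupp.single l a))) i
    exact this
  refine ⟨q, r, ?_, fun i m => ?_⟩
  · apply b.repr.injective
    ext1 i
    rw [map_add, map_smul, Finsupp.add_apply, Finsupp.smul_apply, smul_eq_mul, hq, hr,
      X_pow_eq_monomial, divMonomial_add_modMonomial]
  · unfold co
    rw [hr]
    by_cases h : a ≤ m l
    · rw [if_pos h, coeff_modMonomial_of_le]
      rwa [Finsupp.single_le_iff]
    · rw [if_neg h, coeff_modMonomial_of_not_le]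
      rwa [Finsupp.single_le_iff]

lemma div1 (l : Fin 3) (a : ℕ) (x : M.M) (h : ∀ i m, m l < a → co b x i m = 0) :
    ∃ q : M.M, x = (X l : Po κ 3) ^ a • q := by
  obtain ⟨q, r, e, hr⟩ := divi b l a x
  refine ⟨q, ?_⟩
  have : r = 0 := by
    apply co_ext b
    intro i m
    rw [hr, co_zero]
    by_cases h' : a ≤ m l
    · rw [if_pos h']
    · rw [if_neg h', h i m (not_le.1 h')]
  rw [e, this, add_zero]

lemma div2 (a : ℕ) (x : M.M) (h : ∀ i m, m 0 < a → m 1 < a → co b x i m = 0) :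
    ∃ p q : M.M, x = (X 0 : Po κ 3) ^ a • p - (X 1 : Po κ 3) ^ a • q := by
  obtain ⟨p, r, e, hr⟩ := divi b 0 a x
  obtain ⟨q, hq⟩ := div1 b 1 a r (fun i m hm => by
    rw [hr]
    by_cases h' : a ≤ m 0
    · rw [if_pos h']
    · rw [if_neg h', h i m (not_le.1 h') hm])
  refine ⟨p, -q, ?_⟩
  rw [e, hq, smul_neg, sub_neg_eq_add]

lemma div3 (a : ℕ) (x : M.M)
    (h : ∀ i m, m 0 < a → m 1 < a → m 2 < a → co b x i m = 0) :
    ∃ p q s : M.M, x = (X 0 : Po κ 3) ^ a • p - (X 1 : Po κ 3) ^ a • q +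
      (X 2 : Po κ 3) ^ a • s := by
  obtain ⟨s, r, e, hr⟩ := divi b 2 a x
  obtain ⟨p, q, hq⟩ := div2 b a r (fun i m h0 h1 => by
    rw [hr]
    by_cases h' : a ≤ m 2
    · rw [if_pos h']
    · rw [if_neg h', h i m h0 h1 (not_le.1 h')])
  refine ⟨p, q, s, ?_⟩
  rw [e, hq]
  abel

include b in
/-- exactness of the Koszul complex of `X_0^a, X_1^a, X_2^a` -/
lemma koszul (a : ℕ) (g0 g1 g2 : M.M)
    (h : (X 0 : Po κ 3) ^ a • g0 - (X 1 : Po κ 3) ^ a • g1 + (X 2 : Po κ 3) ^ a • g2 = 0) :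
    ∃ u v w : M.M, g0 = (X 1 : Po κ 3) ^ a • w - (X 2 : Po κ 3) ^ a • u ∧
      g1 = (X 0 : Po κ 3) ^ a • w - (X 2 : Po κ 3) ^ a • v ∧
      g2 = (X 0 : Po κ 3) ^ a • u - (X 1 : Po κ 3) ^ a • v := by
  obtain ⟨u, v, huv⟩ := div2 b a g2 (fun i m h0 h1 => by
    have h2 := congrArg (fun x => co b x i (m + Finsupp.single 2 a)) h
    simp only [co_add, co_sub, co_zero, co_X_add] at h2
    rw [co_X_lt b 0 a g0, co_X_lt b 1 a g1] at h2
    · simpa using h2
    · rw [Finsupp.add_apply, Finsupp.single_eq_of_ne (by decide), add_zero]; exact h1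
    · rw [Finsupp.add_apply, Finsupp.single_eq_of_ne (by decide), add_zero]; exact h0)
  have h2 : (X 0 : Po κ 3) ^ a • (g0 + (X 2 : Po κ 3) ^ a • u) =
      (X 1 : Po κ 3) ^ a • (g1 + (X 2 : Po κ 3) ^ a • v) := by
    rw [huv] at h
    rw [← sub_eq_zero, ← h]
    simp only [smul_add, smul_sub, smul_smul]
    rw [mul_comm ((X 0 : Po κ 3) ^ a) ((X 2 : Po κ 3) ^ a),
      mul_comm ((X 1 : Po κ 3) ^ a) ((X 2 : Po κ 3) ^ a)]
    abel
  obtain ⟨w, hw⟩ := div1 b 1 a (g0 + (X 2 : Po κ 3) ^ a • u) (fun i m hm => by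
    rw [← co_X_add b 0 a, h2, co_X_lt]
    rw [Finsupp.add_apply, Finsupp.single_eq_of_ne (by decide), add_zero]; exact hm)
  have hw' : g1 + (X 2 : Po κ 3) ^ a • v = (X 0 : Po κ 3) ^ a • w := by
    apply X_inj b 1 a
    rw [← h2, hw, smul_smul, smul_smul, mul_comm]
  exact ⟨u, v, w, eq_sub_of_add_eq hw, eq_sub_of_add_eq hw', huv⟩

end

/-! ### grading -/

section grading

variable {κ : Type} [Field κ] {M : GMod κ 3}

lemma pow_mem (l : Fin 3) (k : ℕ) (n : ℤ) (x : M.M) (hx : x ∈ M.gr n) :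
    (X l : Po κ 3) ^ k • x ∈ M.gr (n + k) := by
  induction k with
  | zero => simpa using hx
  | succ k ih =>
    rw [pow_succ', mul_smul]
    have := M.mul_mem l _ _ ih
    rw [Nat.cast_succ, ← add_assoc]
    exact this

lemma mon_mem (s : Fin 3 →₀ ℕ) : ∀ (n : ℤ) (x : M.M), x ∈ M.gr n →
    (monomial s (1 : κ) : Po κ 3) • x ∈ M.gr (n + s.degree) := by
  induction s using Finsupp.induction_linear with
  | zero =>
    intro n x hx
    have : (monomial (0 : Fin 3 →₀ ℕ) (1 : κ) : Po κ 3) = 1 := rfl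
    rw [this, one_smul]
    simpa using hx
  | add f g hf hg =>
    intro n x hx
    have h1 : (monomial (f + g) (1 : κ) : Po κ 3) = monomial f 1 * monomial g 1 := by
      rw [monomial_mul, one_mul]
    rw [h1, mul_smul, map_add]
    have := hf _ _ (hg n x hx)
    rw [Nat.cast_add, add_comm (f.degree : ℤ), ← add_assoc]
    exact this
  | single l k =>
    intro n x hx
    rw [← X_pow_eq_monomial, Finsupp.degree_single]
    exact pow_mem l k n x hx

lemma prod_mem (s : Finset (Fin 3)) (n : ℤ) (x : M.M) (hx : x ∈ M.gr n) :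
    (∏ i ∈ s, X i : Po κ 3) • x ∈ M.gr (n + s.card) := by
  classical
  induction s using Finset.induction_on with
  | empty => simpa using hx
  | insert a s ha ih =>
    rw [Finset.prod_insert ha, mul_smul, Finset.card_insert_of_notMem ha]
    have := M.mul_mem a _ _ ih
    rw [Nat.cast_succ, ← add_assoc]
    exact this

lemma prodpow_mem (s : Finset (Fin 3)) (t : ℕ) (n : ℤ) (x : M.M) (hx : x ∈ M.gr n) :
    (∏ i ∈ s, X i : Po κ 3) ^ t • x ∈ M.gr (n + s.card * t) := by
  induction t with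
  | zero => simpa using hx
  | succ t ih =>
    rw [pow_succ', mul_smul]
    have := prod_mem s _ _ ih
    rw [add_assoc] at this
    have e : (s.card : ℤ) * ((t + 1 : ℕ) : ℤ) = s.card * t + s.card := by push_cast; ring
    rw [e]
    exact this

lemma cmp_pow (hCMP : Stmt_CMP) (l : Fin 3) (k : ℕ) (n : ℤ) (x : M.M) :
    M.cmp (n + k) ((X l : Po κ 3) ^ k • x) = (X l : Po κ 3) ^ k • M.cmp n x := by
  obtain ⟨-, -, -, -, -, h6, -⟩ := hCMP κ 3 M
  induction k with
  | zero => simp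
  | succ k ih =>
    rw [pow_succ', mul_smul, mul_smul, ← ih, ← h6, Nat.cast_succ, ← add_assoc]

/-- a sequence extended from one value -/
def ext (s : Finset (Fin 3)) (a0 : ℕ) (x : M.M) (a : ℕ) : M.M :=
  (∏ i ∈ s, X i : Po κ 3) ^ (a - a0) • x

lemma ext_mem (s : Finset (Fin 3)) (a0 : ℕ) (n : ℤ) (x : M.M) (hx : x ∈ M.gr (n + s.card * (a0 : ℤ))) :
    ext s a0 x ∈ Seq M s n := by
  change ∀ᶠ a : ℕ in atTop, _
  filter_upwards [eventually_ge_atTop a0] with a ha
  constructor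
  · unfold ext
    have := prodpow_mem s (a - a0) _ _ hx
    have e : n + s.card * (a0 : ℤ) + s.card * ((a - a0 : ℕ) : ℤ) = n + s.card * (a : ℤ) := by
      rw [Nat.cast_sub ha]; ring
    rw [e] at this
    exact this
  · unfold ext
    have e : a + 1 - a0 = (a - a0) + 1 := by omega
    rw [e, pow_succ', mul_smul]

lemma ext_of_rec (s : Finset (Fin 3)) (a0 : ℕ) (f : ℕ → M.M)
    (h : ∀ a, a0 ≤ a → f (a + 1) = (∏ i ∈ s, X i : Po κ 3) • f a) (a : ℕ) (ha : a0 ≤ a) :
    f a = ext s a0 (f a0) a := by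
  obtain ⟨t, rfl⟩ := Nat.exists_eq_add_of_le ha
  unfold ext
  rw [Nat.add_sub_cancel_left]
  induction t with
  | zero => simp
  | succ t ih =>
    rw [← add_assoc, h _ (Nat.le_add_right _ _), ih (Nat.le_add_right _ _), pow_succ', mul_smul]

lemma ext_sub (s : Finset (Fin 3)) (a0 : ℕ) (x y : M.M) (a : ℕ) :
    ext s a0 (x - y) a = ext s a0 x a - ext s a0 y a := by
  unfold ext
  rw [smul_sub]

lemma prod_er0 : (∏ i ∈ (Finset.univ.erase (0 : Fin 3)), X i : Po κ 3) = X 1 * X 2 := by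
  have : (Finset.univ.erase (0 : Fin 3)) = {1, 2} := by decide
  rw [this, Finset.prod_insert (by decide), Finset.prod_singleton]

lemma prod_er1 : (∏ i ∈ (Finset.univ.erase (1 : Fin 3)), X i : Po κ 3) = X 0 * X 2 := by
  have : (Finset.univ.erase (1 : Fin 3)) = {0, 2} := by decide
  rw [this, Finset.prod_insert (by decide), Finset.prod_singleton]

lemma prod_er2 : (∏ i ∈ (Finset.univ.erase (2 : Fin 3)), X i : Po κ 3) = X 0 * X 1 := by
  have : (Finset.univ.erase (2 : Fin 3)) = {0, 1} := by decide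
  rw [this, Finset.prod_insert (by decide), Finset.prod_singleton]

lemma card_er (k : Fin 3) : (Finset.univ.erase k).card = 2 := by
  revert k; decide

end grading

section main

variable {κ : Type} [Field κ] {M : GMod κ 3} {ι : Type} [Fintype ι]
  (b : Module.Basis ι (Po κ 3) M.M) (d : ι → ℤ)

open Classical in
/-- components and coefficients -/
lemma co_cmp (hCMP : Stmt_CMP) (hb : ∀ i, b i ∈ M.gr (d i)) (x : M.M) (N : ℤ) (i : ι)
    (m : Fin 3 →₀ ℕ) : co b (M.cmp N x) i m =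
      if (m.degree : ℤ) + d i = N then co b x i m else 0 := by
  obtain ⟨-, c2, c3, c4, c5, -, -, -, -, -⟩ := hCMP κ 3 M
  have hz : M.cmp N 0 = 0 := by
    have := c5 N 0 0
    simpa using this
  have hadd : ∀ x y : M.M,
      (co b (M.cmp N x) i m = if (m.degree : ℤ) + d i = N then co b x i m else 0) →
      (co b (M.cmp N y) i m = if (m.degree : ℤ) + d i = N then co b y i m else 0) →
      (co b (M.cmp N (x + y)) i m = if (m.degree : ℤ) + d i = N then co b (x + y) i m else 0) := by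
    intro x y hx hy
    rw [c4, co_add, hx, hy, co_add]
    split_ifs
    · rfl
    · rw [add_zero]
  have hmon : ∀ (j : ι) (p : Po κ 3),
      co b (M.cmp N (p • b j)) i m = if (m.degree : ℤ) + d i = N then co b (p • b j) i m else 0 := by
    intro j p
    induction p using MvPolynomial.induction_on' with
    | monomial s v =>
      have e1 : (monomial s v : Po κ 3) • b j = v • ((monomial s (1 : κ) : Po κ 3) • b j) := by
        rw [← smul_assoc, smul_monomial, smul_eq_mul, mul_one]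
      rw [e1, c5, co_smulV, co_smulV]
      have h1 : (monomial s (1 : κ) : Po κ 3) • b j ∈ M.gr (d j + s.degree) := mon_mem s _ _ (hb j)
      by_cases hN : d j + (s.degree : ℤ) = N
      · rw [← hN, c2 _ _ h1, co_monb]
        by_cases hc : i = j ∧ m = s
        · obtain ⟨rfl, rfl⟩ := hc
          rw [if_pos (add_comm _ _)]
        · rw [if_neg hc, mul_zero]
          split_ifs <;> rfl
      · rw [c3 N _ _ h1 (fun h => hN h.symm), co_zero, mul_zero, co_monb]
        by_cases hc : i = j ∧ m = s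
        · obtain ⟨rfl, rfl⟩ := hc
          rw [if_neg (fun h => hN (by rw [add_comm]; exact h))]
        · rw [if_neg hc, mul_zero]
          split_ifs <;> rfl
    | add p q hp hq =>
      rw [add_smul]
      exact hadd _ _ hp hq
  have hsum : ∀ s : Finset ι, co b (M.cmp N (∑ j ∈ s, b.repr x j • b j)) i m =
      if (m.degree : ℤ) + d i = N then co b (∑ j ∈ s, b.repr x j • b j) i m else 0 := by
    intro s
    induction s using Finset.induction_on with
    | empty =>
      rw [Finset.sum_empty, hz, co_zero]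
      split_ifs <;> rfl
    | insert a s ha ih =>
      rw [Finset.sum_insert ha]
      exact hadd _ _ (hmon _ _) ih
  have := hsum Finset.univ
  rw [b.sum_repr] at this
  exact this

lemma co_gr (hCMP : Stmt_CMP) (hb : ∀ i, b i ∈ M.gr (d i)) (x : M.M) (N : ℤ) (hx : x ∈ M.gr N)
    (i : ι) (m : Fin 3 →₀ ℕ) (h : (m.degree : ℤ) + d i ≠ N) : co b x i m = 0 := by
  have h1 := co_cmp b d hCMP hb x N i m
  obtain ⟨-, c2, -⟩ := hCMP κ 3 M
  rw [c2 _ _ hx, if_neg h] at h1
  exact h1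

theorem h1_zero (hCMP : Stmt_CMP) (b : Module.Basis ι (Po κ 3) M.M) (n : ℤ) : h1 M n = 0 := by
  unfold h1
  rw [Module.length_eq_zero_iff]
  rw [Submodule.Quotient.subsingleton_iff, eq_top_iff]
  rintro ⟨g, hg⟩ -
  rw [Submodule.mem_comap]
  change g ∈ B1 M n
  obtain ⟨hg1, hg2⟩ := hg
  have hev : ∀ᶠ a : ℕ in atTop, (∀ k : Fin 3, g k a ∈ M.gr (n + ((Finset.univ.erase k).card : ℤ) * (a : ℤ)) ∧
      g k (a + 1) = (∏ i ∈ Finset.univ.erase k, X i : Po κ 3) • g k a) ∧ dn M g a = 0 := by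
    have h1 : ∀ k, ∀ᶠ a : ℕ in atTop, g k a ∈ M.gr (n + ((Finset.univ.erase k).card : ℤ) * (a : ℤ)) ∧
      g k (a + 1) = (∏ i ∈ Finset.univ.erase k, X i : Po κ 3) • g k a := fun k => hg1 k
    have h2 := Filter.eventually_all.2 h1
    exact h2.and hg2
  obtain ⟨a0, ha0⟩ := eventually_atTop.1 hev
  obtain ⟨hk, hd⟩ := ha0 a0 le_rfl
  obtain ⟨c1, c2, -, c4, c5, -⟩ := hCMP κ 3 M
  have csub : ∀ N x y, M.cmp N (x - y) = M.cmp N x - M.cmp N y := by
    intro N x y
    have h1 : x - y = x + (-1 : κ) • y := by rw [neg_one_smul, sub_eq_add_neg]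
    rw [h1, c4, c5, neg_one_smul, sub_eq_add_neg]
  obtain ⟨u, v, w, e0, e1, e2⟩ := koszul b a0 (g 0 a0) (g 1 a0) (g 2 a0) hd
  -- homogenise
  have hdeg : ∀ k, g k a0 ∈ M.gr (n + a0 + a0) := fun k => by
    have := (hk k).1
    rw [card_er] at this
    have e : n + ((2 : ℕ) : ℤ) * (a0 : ℤ) = n + a0 + a0 := by push_cast; ring
    rwa [e] at this
  let u' := M.cmp (n + a0) u
  let v' := M.cmp (n + a0) v
  let w' := M.cmp (n + a0) w
  have e0' : g 0 a0 = (X 1 : Po κ 3) ^ a0 • w' - (X 2 : Po κ 3) ^ a0 • u' := by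
    have := congrArg (M.cmp (n + a0 + a0)) e0
    rw [c2 _ _ (hdeg 0), csub, cmp_pow hCMP, cmp_pow hCMP] at this
    exact this
  have e1' : g 1 a0 = (X 0 : Po κ 3) ^ a0 • w' - (X 2 : Po κ 3) ^ a0 • v' := by
    have := congrArg (M.cmp (n + a0 + a0)) e1
    rw [c2 _ _ (hdeg 1), csub, cmp_pow hCMP, cmp_pow hCMP] at this
    exact this
  have e2' : g 2 a0 = (X 0 : Po κ 3) ^ a0 • u' - (X 1 : Po κ 3) ^ a0 • v' := by
    have := congrArg (M.cmp (n + a0 + a0)) e2
    rw [c2 _ _ (hdeg 2), csub, cmp_pow hCMP, cmp_pow hCMP] at this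
    exact this
  let f : Fin 3 → ℕ → M.M := ![ext {0} a0 v', ext {1} a0 u', ext {2} a0 w']
  refine ⟨f, ?_, ?_⟩
  · intro i
    fin_cases i
    · exact ext_mem {0} a0 n v' (by simpa using c1 (n + a0) v)
    · exact ext_mem {1} a0 n u' (by simpa using c1 (n + a0) u)
    · exact ext_mem {2} a0 n w' (by simpa using c1 (n + a0) w)
  · filter_upwards [eventually_ge_atTop a0] with a ha k
    have hrec : ∀ k, g k a = ext (Finset.univ.erase k) a0 (g k a0) a := fun k =>
      ext_of_rec _ a0 (g k) (fun a' ha' => ((ha0 a' ha').1 k).2) a ha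
    obtain ⟨t, rfl⟩ := Nat.exists_eq_add_of_le ha
    have f0 : f 0 (a0 + t) = (X 0 : Po κ 3) ^ t • v' := by
      change ext {0} a0 v' (a0 + t) = _
      unfold ext
      rw [Finset.prod_singleton, Nat.add_sub_cancel_left]
    have f1 : f 1 (a0 + t) = (X 1 : Po κ 3) ^ t • u' := by
      change ext {1} a0 u' (a0 + t) = _
      unfold ext
      rw [Finset.prod_singleton, Nat.add_sub_cancel_left]
    have f2 : f 2 (a0 + t) = (X 2 : Po κ 3) ^ t • w' := by
      change ext {2} a0 w' (a0 + t) = _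
      unfold ext
      rw [Finset.prod_singleton, Nat.add_sub_cancel_left]
    fin_cases k
    · change g 0 (a0 + t) = (X 1 : Po κ 3) ^ (a0 + t) • f 2 (a0 + t) -
        (X 2 : Po κ 3) ^ (a0 + t) • f 1 (a0 + t)
      rw [hrec, f1, f2, e0']
      unfold ext
      rw [prod_er0, Nat.add_sub_cancel_left, smul_sub, smul_smul, smul_smul, smul_smul, smul_smul]
      congr 2 <;> ring
    · change g 1 (a0 + t) = (X 0 : Po κ 3) ^ (a0 + t) • f 2 (a0 + t) -
        (X 2 : Po κ 3) ^ (a0 + t) • f 0 (a0 + t)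
      rw [hrec, f0, f2, e1']
      unfold ext
      rw [prod_er1, Nat.add_sub_cancel_left, smul_sub, smul_smul, smul_smul, smul_smul, smul_smul]
      congr 2 <;> ring
    · change g 2 (a0 + t) = (X 0 : Po κ 3) ^ (a0 + t) • f 1 (a0 + t) -
        (X 1 : Po κ 3) ^ (a0 + t) • f 0 (a0 + t)
      rw [hrec, f0, f1, e2']
      unfold ext
      rw [prod_er2, Nat.add_sub_cancel_left, smul_sub, smul_smul, smul_smul, smul_smul, smul_smul]
      congr 2 <;> ring

end main

/-! ### H2 -/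

/-- exponent of the inverse monomial -/
def em (a : ℕ) (k : Fin 3 →₀ ℕ) : Fin 3 →₀ ℕ :=
  Finsupp.equivFunOnFinite.symm (fun l => a - 1 - k l)

lemma em_apply (a : ℕ) (k : Fin 3 →₀ ℕ) (l : Fin 3) : em a k l = a - 1 - k l := rfl

lemma em_inj {a : ℕ} {k k' : Fin 3 →₀ ℕ} (h : ∀ l, k l < a) (h' : ∀ l, k' l < a)
    (e : em a k = em a k') : k = k' := by
  ext l
  have h1 := DFunLike.congr_fun e l
  rw [em_apply, em_apply] at h1
  have h2 := h l
  have h3 := h' l
  omega

lemma em_degree {a : ℕ} {k : Fin 3 →₀ ℕ} (h : ∀ l, k l < a) :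
    ((em a k).degree : ℤ) = 3 * a - 3 - k.degree := by
  rw [Finsupp.degree_eq_sum, Finsupp.degree_eq_sum, Fin.sum_univ_three, Fin.sum_univ_three,
    em_apply, em_apply, em_apply]
  have h0 := h 0
  have h1 := h 1
  have h2 := h 2
  omega

lemma em_succ {a : ℕ} {k : Fin 3 →₀ ℕ} (h : ∀ l, k l < a) :
    em (a + 1) k = (Finsupp.single 0 1 + Finsupp.single 1 1 + Finsupp.single 2 1) + em a k := by
  ext l
  have hl := h l
  rw [em_apply, Finsupp.add_apply, em_apply, Finsupp.add_apply, Finsupp.add_apply]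
  fin_cases l
  · simp; simp at hl; omega
  · simp; simp at hl; omega
  · simp; simp at hl; omega

lemma prod_univ {κ : Type} [Field κ] : (∏ i ∈ (Finset.univ : Finset (Fin 3)), X i : Po κ 3) =
    monomial (Finsupp.single 0 1 + Finsupp.single 1 1 + Finsupp.single 2 1) 1 := by
  rw [Fin.prod_univ_three]
  have h1 : ∀ i : Fin 3, (X i : Po κ 3) = monomial (Finsupp.single i 1) 1 := fun i => rfl
  rw [h1, h1, h1, monomial_mul, monomial_mul, one_mul, one_mul]

/-- exponents of the inverse monomials -/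
def J {ι : Type} (d : ι → ℤ) (n : ℤ) (i : ι) : Finset (Fin 3 →₀ ℕ) :=
  if 0 ≤ d i - n - 3 then Finset.finsuppAntidiag Finset.univ (d i - n - 3).toNat else ∅

lemma mem_J {ι : Type} (d : ι → ℤ) (n : ℤ) (i : ι) (k : Fin 3 →₀ ℕ) :
    k ∈ J d n i ↔ (k.degree : ℤ) = d i - n - 3 := by
  unfold J
  split_ifs with h
  · rw [Finset.mem_finsuppAntidiag, Finsupp.degree_eq_sum]
    constructor
    · rintro ⟨h1, -⟩
      rw [h1]
      exact Int.toNat_of_nonneg h
    · intro h1
      refine ⟨?_, Finset.subset_univ _⟩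
      rw [← h1, Int.toNat_natCast]
  · constructor
    · intro h1
      exact absurd h1 (Finset.notMem_empty _)
    · intro h1
      exfalso
      omega

lemma card_J {ι : Type} (d : ι → ℤ) (n : ℤ) (i : ι) :
    (J d n i).card = ((d i - n - 1).toNat).choose 2 := by
  unfold J
  split_ifs with h
  · rw [Finset.card_finsuppAntidiag_nat_eq_choose, Finset.card_univ, Fintype.card_fin]
    have e : (d i - n - 1).toNat = (d i - n - 3).toNat + 2 := by omega
    rw [e]
    have e2 : 3 + (d i - n - 3).toNat - 1 = (d i - n - 3).toNat + 2 := by omega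
    rw [e2]
    exact Nat.choose_symm_add
  · rw [Finset.card_empty]
    symm
    apply Nat.choose_eq_zero_of_lt
    omega

/-- index set -/
abbrev Jt {ι : Type} (d : ι → ℤ) (n : ℤ) : Type := Σ i : ι, {k // k ∈ J d n i}

section main2

variable {κ : Type} [Field κ] {M : GMod κ 3} {ι : Type} [Fintype ι]
  (b : Module.Basis ι (Po κ 3) M.M) (d : ι → ℤ) (n : ℤ)

/-- the sequences of inverse monomials -/
def Lam : (Jt d n → κ) →ₗ[κ] (ℕ → M.M) where
  toFun φ := fun a => ∑ j : Jt d n, φ j • ((monomial (em a j.2.1) (1 : κ) : Po κ 3) • b j.1)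
  map_add' φ ψ := by
    funext a
    rw [Pi.add_apply, ← Finset.sum_add_distrib]
    exact Finset.sum_congr rfl fun j _ => by rw [Pi.add_apply, add_smul]
  map_smul' v φ := by
    funext a
    rw [RingHom.id_apply, Pi.smul_apply, Finset.smul_sum]
    exact Finset.sum_congr rfl fun j _ => by rw [Pi.smul_apply, smul_eq_mul, mul_smul]

lemma Lam_apply (φ : Jt d n → κ) (a : ℕ) : Lam b d n φ a =
    ∑ j : Jt d n, φ j • ((monomial (em a j.2.1) (1 : κ) : Po κ 3) • b j.1) := rfl

lemma bound : ∃ E : ℕ, ∀ (j : Jt d n) (l : Fin 3), j.2.1 l < E := by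
  obtain ⟨E, hE⟩ := (Set.finite_range (fun j : Jt d n × Fin 3 => j.1.2.1 j.2)).bddAbove
  refine ⟨E + 1, fun j l => ?_⟩
  have := hE ⟨(j, l), rfl⟩
  exact Nat.lt_succ_of_le this

lemma Lam_rec (φ : Jt d n → κ) (a : ℕ) (ha : ∀ (j : Jt d n) (l : Fin 3), j.2.1 l < a) :
    Lam b d n φ (a + 1) = (∏ i ∈ (Finset.univ : Finset (Fin 3)), X i : Po κ 3) • Lam b d n φ a := by
  rw [Lam_apply, Lam_apply, Finset.smul_sum]
  refine Finset.sum_congr rfl fun j _ => ?_
  have h1 : (∏ i ∈ (Finset.univ : Finset (Fin 3)), X i : Po κ 3) •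
      (φ j • ((monomial (em a j.2.1) (1 : κ) : Po κ 3) • b j.1)) =
      φ j • ((∏ i ∈ (Finset.univ : Finset (Fin 3)), X i : Po κ 3) •
        ((monomial (em a j.2.1) (1 : κ) : Po κ 3) • b j.1)) := smul_comm _ _ _
  rw [h1, smul_smul (∏ i ∈ (Finset.univ : Finset (Fin 3)), X i : Po κ 3), prod_univ, monomial_mul,
    one_mul, em_succ (ha j)]

lemma Lam_gr (hb : ∀ i, b i ∈ M.gr (d i)) (φ : Jt d n → κ) (a : ℕ)
    (ha : ∀ (j : Jt d n) (l : Fin 3), j.2.1 l < a) : Lam b d n φ a ∈ M.gr (n + 3 * a) := by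
  rw [Lam_apply]
  refine Submodule.sum_mem _ fun j _ => Submodule.smul_mem _ _ ?_
  have h1 := mon_mem (κ := κ) (em a j.2.1) _ _ (hb j.1)
  have h2 := (mem_J d n j.1 j.2.1).1 j.2.2
  have h3 := em_degree (ha j)
  have e : d j.1 + ((em a j.2.1).degree : ℤ) = n + 3 * a := by rw [h3, h2]; ring
  rwa [e] at h1

lemma Lam_mem (hb : ∀ i, b i ∈ M.gr (d i)) (φ : Jt d n → κ) : Lam b d n φ ∈ Seq M Finset.univ n := by
  obtain ⟨E, hE⟩ := bound d n
  change ∀ᶠ a : ℕ in atTop, _
  filter_upwards [eventually_ge_atTop E] with a ha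
  have ha' : ∀ (j : Jt d n) (l : Fin 3), j.2.1 l < a := fun j l => lt_of_lt_of_le (hE j l) ha
  refine ⟨?_, Lam_rec b d n φ a ha'⟩
  rw [Finset.card_univ, Fintype.card_fin]
  exact Lam_gr b d n hb φ a ha'

lemma Lam_co (φ : Jt d n → κ) (a : ℕ) (ha : ∀ (j : Jt d n) (l : Fin 3), j.2.1 l < a)
    (j : Jt d n) : co b (Lam b d n φ a) j.1 (em a j.2.1) = φ j := by
  classical
  rw [Lam_apply, co_sum, Finset.sum_eq_single j]
  · rw [co_smulV, co_monb, if_pos ⟨rfl, rfl⟩, mul_one]
  · intro j' _ hne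
    rw [co_smulV, co_monb, if_neg, mul_zero]
    rintro ⟨h1, h2⟩
    apply hne
    obtain ⟨i, k, hk⟩ := j
    obtain ⟨i', k', hk'⟩ := j'
    have h1' : i = i' := h1
    subst h1'
    have h3 : k = k' := em_inj (ha ⟨i, k, hk⟩) (ha ⟨i, k', hk'⟩) h2
    subst h3
    rfl
  · intro h; exact absurd (Finset.mem_univ j) h

lemma Lam_co0 (φ : Jt d n → κ) (a : ℕ) (i : ι) (m : Fin 3 →₀ ℕ)
    (h : ∀ j : Jt d n, j.1 = i → m ≠ em a j.2.1) : co b (Lam b d n φ a) i m = 0 := by
  classical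
  rw [Lam_apply, co_sum]
  refine Finset.sum_eq_zero fun j _ => ?_
  rw [co_smulV, co_monb, if_neg, mul_zero]
  rintro ⟨h1, h2⟩
  exact h j h1.symm h2

/-- the comparison map -/
def Lq (hb : ∀ i, b i ∈ M.gr (d i)) : (Jt d n → κ) →ₗ[κ] H2 M n :=
  (Submodule.mkQ _).comp ((Lam b d n).codRestrict (Seq M Finset.univ n) (Lam_mem b d n hb))

lemma Lq_inj (hb : ∀ i, b i ∈ M.gr (d i)) : Function.Injective (Lq b d n hb) := by
  rw [injective_iff_map_eq_zero]
  intro φ hφ
  have h1 : Lam b d n φ ∈ B2 M n := by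
    have h2 : (Submodule.mkQ ((B2 M n).comap (Seq M Finset.univ n).subtype))
      ((Lam b d n).codRestrict (Seq M Finset.univ n) (Lam_mem b d n hb) φ) = 0 := hφ
    rw [Submodule.mkQ_apply, Submodule.Quotient.mk_eq_zero, Submodule.mem_comap] at h2
    exact h2
  obtain ⟨g, -, hg⟩ := h1
  obtain ⟨E, hE⟩ := bound d n
  obtain ⟨a, ha, haE⟩ := (hg.and (eventually_ge_atTop E)).exists
  have ha' : ∀ (j : Jt d n) (l : Fin 3), j.2.1 l < a := fun j l => lt_of_lt_of_le (hE j l) haE
  funext j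
  rw [← Lam_co b d n φ a ha' j, ha]
  have hlt : ∀ l, em a j.2.1 l < a := fun l => by
    rw [em_apply]
    have := ha' j l
    omega
  unfold dn
  rw [co_add, co_sub, co_X_lt b 0 a _ _ _ (hlt 0), co_X_lt b 1 a _ _ _ (hlt 1),
    co_X_lt b 2 a _ _ _ (hlt 2)]
  simp

lemma Lq_surj (hCMP : Stmt_CMP) (hb : ∀ i, b i ∈ M.gr (d i)) :
    Function.Surjective (Lq b d n hb) := by
  intro z
  obtain ⟨⟨u, hu⟩, rfl⟩ := Submodule.mkQ_surjective _ z
  obtain ⟨E, hE⟩ := bound d n
  have hu' : ∀ᶠ a : ℕ in atTop, u a ∈ M.gr (n + ((Finset.univ : Finset (Fin 3)).card : ℤ) * (a : ℤ)) ∧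
    u (a + 1) = (∏ i ∈ (Finset.univ : Finset (Fin 3)), X i : Po κ 3) • u a := hu
  obtain ⟨a0, ha0⟩ := eventually_atTop.1 (hu'.and (eventually_ge_atTop E))
  have haE : ∀ a, a0 ≤ a → ∀ (j : Jt d n) (l : Fin 3), j.2.1 l < a := fun a ha j l =>
    lt_of_lt_of_le (hE j l) (ha0 a ha).2
  let φ : Jt d n → κ := fun j => co b (u a0) j.1 (em a0 j.2.1)
  obtain ⟨c1, c2, -, c4, c5, -⟩ := hCMP κ 3 M
  have csub : ∀ N x y, M.cmp N (x - y) = M.cmp N x - M.cmp N y := by
    intro N x y
    have h1 : x - y = x + (-1 : κ) • y := by rw [neg_one_smul, sub_eq_add_neg]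
    rw [h1, c4, c5, neg_one_smul, sub_eq_add_neg]
  have hudeg : u a0 ∈ M.gr (n + 3 * a0) := by
    have := (ha0 a0 le_rfl).1.1
    rw [Finset.card_univ, Fintype.card_fin] at this
    exact this
  have hLdeg := Lam_gr b d n hb φ a0 (haE a0 le_rfl)
  have hw : u a0 - Lam b d n φ a0 ∈ M.gr (n + 3 * a0) := Submodule.sub_mem _ hudeg hLdeg
  obtain ⟨p, q, s, hpqs⟩ := div3 b a0 (u a0 - Lam b d n φ a0) (by
    intro i m h0 h1 h2
    have hlt : ∀ l, m l < a0 := by
      intro l
      fin_cases l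
      · exact h0
      · exact h1
      · exact h2
    have hk : em a0 (em a0 m) = m := by
      ext l
      rw [em_apply, em_apply]
      have := hlt l
      omega
    have hklt : ∀ l, em a0 m l < a0 := fun l => by
      rw [em_apply]
      have := hlt l
      omega
    rw [co_sub]
    by_cases hJ : em a0 m ∈ J d n i
    · have h3 := Lam_co b d n φ a0 (haE a0 le_rfl) ⟨i, em a0 m, hJ⟩
      have h4 : φ ⟨i, em a0 m, hJ⟩ = co b (u a0) i m := by
        change co b (u a0) i (em a0 (em a0 m)) = co b (u a0) i m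
        rw [hk]
      have h5 : co b (Lam b d n φ a0) i (em a0 (em a0 m)) = φ ⟨i, em a0 m, hJ⟩ := h3
      rw [hk] at h5
      rw [h5, h4, sub_self]
    · rw [Lam_co0, sub_zero]
      · apply co_gr b d hCMP hb _ _ hudeg
        intro hdeg
        apply hJ
        rw [mem_J, em_degree hlt]
        linarith
      · intro j hj he
        apply hJ
        have h3 : em a0 m = j.2.1 := by
          rw [he]
          apply em_inj (a := a0) _ (haE a0 le_rfl j)
          · ext l
            have := haE a0 le_rfl j l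
            rw [em_apply, em_apply, em_apply]
            omega
          · intro l
            rw [em_apply]
            have := haE a0 le_rfl j l
            omega
        rw [h3, ← hj]
        exact j.2.2)
  have e3 : n + 3 * (a0 : ℤ) = n + a0 + a0 + a0 := by ring
  let p' := M.cmp (n + a0 + a0) p
  let q' := M.cmp (n + a0 + a0) q
  let s' := M.cmp (n + a0 + a0) s
  have hpqs' : u a0 - Lam b d n φ a0 = (X 0 : Po κ 3) ^ a0 • p' - (X 1 : Po κ 3) ^ a0 • q' +
      (X 2 : Po κ 3) ^ a0 • s' := by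
    rw [e3] at hw
    have := congrArg (M.cmp (n + a0 + a0 + a0)) hpqs
    rw [c2 _ _ hw, c4, csub, cmp_pow hCMP, cmp_pow hCMP, cmp_pow hCMP] at this
    exact this
  refine ⟨φ, ?_⟩
  change (Submodule.mkQ ((B2 M n).comap (Seq M Finset.univ n).subtype))
      ((Lam b d n).codRestrict (Seq M Finset.univ n) (Lam_mem b d n hb) φ) = _
  symm
  rw [← sub_eq_zero, ← map_sub, Submodule.mkQ_apply, Submodule.Quotient.mk_eq_zero,
    Submodule.mem_comap]
  change u - Lam b d n φ ∈ B2 M n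
  let g : Fin 3 → ℕ → M.M := ![ext (Finset.univ.erase 0) a0 p', ext (Finset.univ.erase 1) a0 q',
    ext (Finset.univ.erase 2) a0 s']
  have e2 : ∀ k : Fin 3, n + ((Finset.univ.erase k).card : ℤ) * (a0 : ℤ) = n + a0 + a0 := by
    intro k
    rw [card_er]
    push_cast
    ring
  refine ⟨g, ?_, ?_⟩
  · intro k
    fin_cases k
    · exact ext_mem (Finset.univ.erase 0) a0 n p' (by rw [e2]; exact c1 _ _)
    · exact ext_mem (Finset.univ.erase 1) a0 n q' (by rw [e2]; exact c1 _ _)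
    · exact ext_mem (Finset.univ.erase 2) a0 n s' (by rw [e2]; exact c1 _ _)
  · filter_upwards [eventually_ge_atTop a0] with a ha
    have h1 : u a = ext Finset.univ a0 (u a0) a :=
      ext_of_rec _ a0 u (fun a' ha' => (ha0 a' ha').1.2) a ha
    have h2 : Lam b d n φ a = ext Finset.univ a0 (Lam b d n φ a0) a :=
      ext_of_rec _ a0 _ (fun a' ha' => Lam_rec b d n φ a' (haE a' ha')) a ha
    rw [Pi.sub_apply, h1, h2, ← ext_sub, hpqs']
    obtain ⟨t, rfl⟩ := Nat.exists_eq_add_of_le ha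
    change _ = (X 0 : Po κ 3) ^ (a0 + t) • ext (Finset.univ.erase 0) a0 p' (a0 + t) -
      (X 1 : Po κ 3) ^ (a0 + t) • ext (Finset.univ.erase 1) a0 q' (a0 + t) +
      (X 2 : Po κ 3) ^ (a0 + t) • ext (Finset.univ.erase 2) a0 s' (a0 + t)
    unfold ext
    rw [prod_er0, prod_er1, prod_er2, Fin.prod_univ_three, Nat.add_sub_cancel_left]
    have k0 : (X 0 * X 1 * X 2 : Po κ 3) ^ t * X 0 ^ a0 = X 0 ^ (a0 + t) * (X 1 * X 2) ^ t := by ring
    have k1 : (X 0 * X 1 * X 2 : Po κ 3) ^ t * X 1 ^ a0 = X 1 ^ (a0 + t) * (X 0 * X 2) ^ t := by ring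
    have k2 : (X 0 * X 1 * X 2 : Po κ 3) ^ t * X 2 ^ a0 = X 2 ^ (a0 + t) * (X 0 * X 1) ^ t := by ring
    rw [smul_add, smul_sub, smul_smul, smul_smul, smul_smul, smul_smul, smul_smul, smul_smul,
      k0, k1, k2]

theorem h2_eq (hCMP : Stmt_CMP) (hb : ∀ i, b i ∈ M.gr (d i)) :
    h2 M n = ((∑ i, ((d i - n - 1).toNat).choose 2 : ℕ) : ℕ∞) := by
  have e : (Jt d n → κ) ≃ₗ[κ] H2 M n :=
    LinearEquiv.ofBijective (Lq b d n hb) ⟨Lq_inj b d n hb, Lq_surj b d n hCMP hb⟩
  unfold h2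
  rw [← e.length_eq, Module.length_of_free_of_finite, Module.finrank_fintype_fun_eq_card,
    Module.length_eq_one, mul_one]
  congr 1
  rw [Fintype.card_sigma]
  exact Finset.sum_congr rfl fun i _ => by rw [Fintype.card_coe, card_J]

end main2

end FRA_

theorem fra_proof (_hAGR : Stmt_AGR) (hCMP : Stmt_CMP) : Stmt_FRA := by
  intro κ _ M ι _ b d hb n
  exact ⟨FRA_.h1_zero hCMP b n, FRA_.h2_eq b d n hCMP hb⟩

end Pool.Agent.GML
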