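import Pool.Agent.GML.Stmts

/-!
# GML: FRX
-/

set_option autoImplicit false

open MvPolynomial Filter

namespace Pool.Agent.GML

noncomputable section

namespace FRX_

variable (V : Type) [CommRing V] (r k : ℕ) (d : Fin k → ℤ)

/-- graded pieces of a free module -/
def gr (n : ℤ) : Submodule V (Fin k → Po V r) :=
  Submodule.pi Set.univ fun i => Agr V r (n - d i)

lemma mem_gr (n : ℤ) (v : Fin k → Po V r) : v ∈ gr V r k d n ↔ ∀ i, v i ∈ Agr V r (n - d i) := by
  simp [gr, Submodule.mem_pi]

lemma one_mem : (1 : Po V r) ∈ Agr V r 0 := by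
  simp only [Agr, le_refl, if_true]
  exact MvPolynomial.isHomogeneous_one _ _

lemma X_mem (i : Fin r) : (X i : Po V r) ∈ Agr V r 1 := by
  simp only [Agr, zero_le_one, if_true]
  exact MvPolynomial.isHomogeneous_X _ _

lemma indep (h : DirectSum.IsInternal (Agr V r)) : iSupIndep (gr V r k d) := by
  intro n
  rw [Submodule.disjoint_def]
  intro x hx hx'
  funext i
  have hA : iSupIndep (fun m : ℤ => Agr V r (m - d i)) := by
    have := h.submodule_iSupIndep
    exact this.comp (f := fun m : ℤ => m - d i) (sub_left_injective)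
  have h1 := hA n
  rw [Submodule.disjoint_def] at h1
  apply h1 (x i)
  · exact (mem_gr V r k d n x).mp hx i
  · have h2 : (⨆ j, ⨆ (_ : j ≠ n), gr V r k d j) ≤
        (⨆ j, ⨆ (_ : j ≠ n), Agr V r (j - d i)).comap (LinearMap.proj i) := by
      refine iSup_le fun j => iSup_le fun hj => ?_
      intro y hy
      have h3 : y i ∈ Agr V r (j - d i) := (mem_gr V r k d j y).mp hy i
      exact Submodule.mem_iSup_of_mem j (Submodule.mem_iSup_of_mem hj h3)
    exact h2 hx'

lemma top (h : DirectSum.IsInternal (Agr V r)) : iSup (gr V r k d) = ⊤ := by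
  rw [eq_top_iff]
  intro x _
  have h1 : ∀ (i : Fin k) (p : Po V r), Pi.single i p ∈ iSup (gr V r k d) := by
    intro i p
    have hp : p ∈ iSup (Agr V r) := by
      rw [h.submodule_iSup_eq_top]
      trivial
    have h2 : iSup (Agr V r) ≤ (iSup (gr V r k d)).comap (LinearMap.single V (fun _ => Po V r) i) := by
      refine iSup_le fun m => ?_
      intro y hy
      have h3 : Pi.single i y ∈ gr V r k d (m + d i) := by
        rw [mem_gr]
        intro j
        by_cases hj : j = i
        · subst hj
          simpa using hy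
        · simp [hj]
      exact Submodule.mem_iSup_of_mem (m + d i) h3
    exact h2 hp
  have h4 : x = ∑ i, Pi.single i (x i) := by
    funext j
    simp
  rw [h4]
  exact Submodule.sum_mem _ fun i _ => h1 i (x i)

end FRX_

open FRX_ in
theorem frx_proof (hAGR : Stmt_AGR) : Stmt_FRX := by
  obtain ⟨hI, hM, -⟩ := hAGR
  intro V _ r k d
  let M : GMod V r :=
    { M := Fin k → Po V r
      gr := gr V r k d
      int := DirectSum.isInternal_submodule_of_iSupIndep_of_iSup_eq_top (indep V r k d (hI V r))
        (top V r k d (hI V r))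
      mul_mem := by
        intro i n x hx
        rw [mem_gr] at hx ⊢
        intro j
        have := hM V r 1 (n - d j) (X i) (x j) (X_mem V r i) (hx j)
        have e : 1 + (n - d j) = n + 1 - d j := by ring
        rw [e] at this
        exact this }
  refine ⟨M, Pi.basisFun (Po V r) (Fin k), ?_⟩
  intro i
  have hb : (Pi.basisFun (Po V r) (Fin k) i : Fin k → Po V r) = Pi.single i 1 :=
    Pi.basisFun_apply _ _ _
  have h : (Pi.single i 1 : Fin k → Po V r) ∈ gr V r k d (d i) := by
    rw [mem_gr]
    intro j
    by_cases hj : j = i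
    · subst hj
      simpa using one_mem V r
    · simp [hj]
  rw [← hb] at h
  exact h

end

end Pool.Agent.GML
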