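import Pool.Agent.GML.Stmts

/-!
# GML, module GRS: the graded pieces of a balanced filtration
-/

set_option autoImplicit false

open MvPolynomial Filter

namespace Pool.Agent.GML

noncomputable section

namespace GRS_

variable {κ : Type} [Field κ] {W : GMod κ 3}

theorem Fm_le (F : ℕ → Submodule (Po κ 3) W.M) (hF : Monotone F) (J : ℕ) : Fm F J ≤ F J := by
  unfold Fm
  split_ifs with h
  · exact bot_le
  · exact hF (by omega)

theorem Fm_hom (F : ℕ → Submodule (Po κ 3) W.M) (hF : ∀ j, IsHom W (F j)) (J : ℕ) :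
    IsHom W (Fm F J) := by
  unfold Fm
  split_ifs with h
  · unfold IsHom
    rw [eq_bot_iff, Submodule.span_le]
    rintro x ⟨hx, -⟩
    exact hx
  · exact hF _

/-- a realisation of one graded piece -/
theorem exists_gr (hQUO : Stmt_QUO) (hSUB : Stmt_SUB) (hDEG : Stmt_DEG)
    (F : ℕ → Submodule (Po κ 3) W.M) (hF : ∀ j, IsHom W (F j)) (J : ℕ) :
    ∃ (G : GMod κ 3) (p : ↥(F J) →ₗ[Po κ 3] G.M), IsGr F J G p := by
  obtain ⟨N', f, hf1, hf2, hf3⟩ := hSUB κ 3 W (F J) (hF J)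
  obtain ⟨-, -, -, -, -, hcom, -, -⟩ := hDEG κ 3 N' W f
  obtain ⟨Q, g, hg1, hg2, hg3⟩ := hQUO κ 3 N' ((Fm F J).comap f.f) (hcom _ (Fm_hom F hF J))
  let e : N'.M ≃ₗ[Po κ 3] ↥(F J) :=
    (LinearEquiv.ofInjective f.f hf1).trans (LinearEquiv.ofEq _ _ hf2)
  have he : ∀ x : N'.M, ((e x : F J) : W.M) = f.f x := fun _ => rfl
  refine ⟨Q, g.f ∘ₗ e.symm.toLinearMap, ?_⟩
  constructor
  · exact hg1.comp e.symm.surjective
  · intro x
    obtain ⟨y, rfl⟩ := e.surjective x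
    change g.f (e.symm (e y)) = 0 ↔ _
    rw [LinearEquiv.symm_apply_apply, he, ← LinearMap.mem_ker, hg2, Submodule.mem_comap]
  · intro n x hx
    obtain ⟨y, rfl⟩ := e.surjective x
    change g.f (e.symm (e y)) ∈ _
    rw [LinearEquiv.symm_apply_apply]
    exact g.deg n y (hf3 n y hx)

/-- homogeneous elements of the graded piece lift to homogeneous elements -/
theorem lift_hom (hSUB : Stmt_SUB) (hDEG : Stmt_DEG)
    (F : ℕ → Submodule (Po κ 3) W.M) (hF : ∀ j, IsHom W (F j)) (J : ℕ) (G : GMod κ 3)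
    (p : ↥(F J) →ₗ[Po κ 3] G.M) (hG : IsGr F J G p) (n : ℤ) (y : G.M) (hy : y ∈ G.gr n) :
    ∃ x : F J, (x : W.M) ∈ W.gr n ∧ p x = y := by
  obtain ⟨N', f, hf1, hf2, hf3⟩ := hSUB κ 3 W (F J) (hF J)
  let e : N'.M ≃ₗ[Po κ 3] ↥(F J) :=
    (LinearEquiv.ofInjective f.f hf1).trans (LinearEquiv.ofEq _ _ hf2)
  let q : GHom N' G :=
    { f := p ∘ₗ e.toLinearMap
      deg := fun n x hx => hG.deg n (e x) (f.deg n x hx) }
  obtain ⟨h1, -⟩ := hDEG κ 3 N' G q
  obtain ⟨z, hz⟩ := hG.surj y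
  obtain ⟨x, hx1, hx2⟩ := h1 n y hy ⟨e.symm z, by
    change p (e (e.symm z)) = y
    rw [LinearEquiv.apply_symm_apply, hz]⟩
  exact ⟨e x, f.deg n x hx1, hx2⟩

theorem Fm_map {a b c : ℕ} {γ : Fin 3 → (W.M →ₗ[Po κ 3] W.M)}
    {F : ℕ → Submodule (Po κ 3) W.M} (h : BalM W a b c γ F) (i : Fin 3) (J : ℕ) (x : W.M)
    (hx : x ∈ Fm F J) : γ i x ∈ Fm F (J + a) := by
  have ha := h.a_pos
  unfold Fm at hx ⊢
  rw [if_neg (by omega)]
  split_ifs at hx with hJ
  · rw [(Submodule.mem_bot _).1 hx, map_zero]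
    exact Submodule.zero_mem _
  · have h1 := h.gF i (J - 1) x hx
    have h2 : J - 1 + a = J + a - 1 := by omega
    rw [h2] at h1
    exact h1

theorem shift (hSUB : Stmt_SUB) (hDEG : Stmt_DEG) (hSHI : Stmt_SHI) {a b c : ℕ}
    {γ : Fin 3 → (W.M →ₗ[Po κ 3] W.M)} {F : ℕ → Submodule (Po κ 3) W.M} (h : BalM W a b c γ F)
    (J : ℕ) (G G' : GMod κ 3) (p : ↥(F J) →ₗ[Po κ 3] G.M) (hG : IsGr F J G p)
    (p' : ↥(F (J + a)) →ₗ[Po κ 3] G'.M) (hG' : IsGr F (J + a) G' p') (n : ℤ) :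
    h1 G' n = h1 G (n + b) ∧ h2 G' n = h2 G (n + b) := by
  let g0 : ∀ i : Fin 3, ↥(F J) →ₗ[Po κ 3] ↥(F (J + a)) := fun i =>
    (γ i).restrict (fun x hx => h.gF i J x hx)
  have hg0 : ∀ i x, ((g0 i x : F (J + a)) : W.M) = γ i x := fun _ _ => rfl
  have hker : ∀ i, LinearMap.ker p ≤ LinearMap.ker (p' ∘ₗ g0 i) := by
    intro i x hx
    rw [LinearMap.mem_ker] at hx ⊢
    rw [LinearMap.comp_apply, hG'.ker, hg0]
    exact Fm_map h i J x ((hG.ker x).1 hx)
  let e : (↥(F J) ⧸ LinearMap.ker p) ≃ₗ[Po κ 3] G.M := p.quotKerEquivOfSurjective hG.surj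
  let γ' : Fin 3 → (G.M →ₗ[Po κ 3] G'.M) := fun i =>
    (LinearMap.ker p).liftQ (p' ∘ₗ g0 i) (hker i) ∘ₗ e.symm.toLinearMap
  have hγ' : ∀ i x, γ' i (p x) = p' (g0 i x) := by
    intro i x
    have h1 : e ((LinearMap.ker p).mkQ x) = p x := rfl
    change (LinearMap.ker p).liftQ (p' ∘ₗ g0 i) (hker i) (e.symm (p x)) = _
    rw [← h1, LinearEquiv.symm_apply_apply]
    rfl
  refine hSHI κ G G' b c γ' ?_ ?_ ?_ ?_ n
  · intro i m y hy
    obtain ⟨x, hx1, rfl⟩ := lift_hom hSUB hDEG F h.hom J G p hG m y hy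
    rw [hγ']
    exact hG'.deg _ _ (h.gdeg i m x hx1)
  · intro i k y
    obtain ⟨x, rfl⟩ := hG.surj y
    rw [hγ', hγ', ← map_smul p', ← map_smul p', ← sub_eq_zero, ← map_sub, hG'.ker]
    exact h.coc i k J x x.2
  · intro i y hy
    obtain ⟨x, rfl⟩ := hG.surj y
    rw [hγ', hG'.ker] at hy
    obtain ⟨N, hN⟩ := h.inj i J x x.2 hy
    refine ⟨N, ?_⟩
    rw [← map_smul, hG.ker]
    exact hN
  · intro i y
    obtain ⟨x, rfl⟩ := hG'.surj y
    obtain ⟨N, z, hz, hN⟩ := h.surj i J x x.2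
    refine ⟨N, p ⟨z, hz⟩, ?_⟩
    rw [hγ', ← map_smul, ← sub_eq_zero, ← map_sub, hG'.ker]
    exact hN

theorem rank_step (F : ℕ → Submodule (Po κ 3) W.M) (hF : Monotone F) (J : ℕ)
    (hfin : Module.Finite (Po κ 3) ↥(F J)) (G : GMod κ 3) (p : ↥(F J) →ₗ[Po κ 3] G.M)
    (hG : IsGr F J G p) :
    Module.finrank (Po κ 3) ↥(Fm F J) + Module.finrank (Po κ 3) G.M =
      Module.finrank (Po κ 3) ↥(F J) := by
  have h1 := Submodule.finrank_quotient_add_finrank (LinearMap.ker p)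
  have h2 : Module.finrank (Po κ 3) (↥(F J) ⧸ LinearMap.ker p) = Module.finrank (Po κ 3) G.M :=
    (p.quotKerEquivOfSurjective hG.surj).finrank_eq
  have h3 : LinearMap.ker p = (Fm F J).comap (F J).subtype := by
    ext x
    rw [LinearMap.mem_ker, hG.ker]
    rfl
  have h4 : Module.finrank (Po κ 3) ↥(LinearMap.ker p) = Module.finrank (Po κ 3) ↥(Fm F J) := by
    rw [h3]
    exact (Submodule.comapSubtypeEquivOfLe (Fm_le F hF J)).finrank_eq
  rw [h2, h4] at h1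
  omega

end GRS_

theorem grs_proof (hQUO : Stmt_QUO) (hSUB : Stmt_SUB) (hDEG : Stmt_DEG) (hSHI : Stmt_SHI)
    (_hISO : Stmt_ISO) : Stmt_GRS := by
  intro κ _ W a b c γ F h
  refine ⟨?_, ?_⟩
  · choose G p hG using GRS_.exists_gr hQUO hSUB hDEG F h.hom
    exact ⟨G, p, hG⟩
  · intro G p hG
    have hfin : ∀ J, J < a → Module.Finite (Po κ 3) ↥(F J) := fun J hJ =>
      Module.Finite.of_fg (h.fg J hJ)
    refine ⟨?_, ?_, ?_⟩
    · intro J hJ
      have := hfin J hJ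
      exact Module.Finite.of_surjective (p J) (hG J).surj
    · intro J n
      exact GRS_.shift hSUB hDEG hSHI h J (G J) (G (J + a)) (p J) (hG J) (p (J + a)) (hG (J + a)) n
    · have key : ∀ K, K ≤ a → ∑ J ∈ Finset.range K, Module.finrank (Po κ 3) (G J).M =
          Module.finrank (Po κ 3) ↥(Fm F K) := by
        intro K
        induction K with
        | zero =>
          intro _
          have h0 : Fm F 0 = ⊥ := rfl
          rw [h0, Finset.range_zero, Finset.sum_empty, finrank_bot]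
        | succ K ih =>
          intro hK
          rw [Finset.sum_range_succ, ih (by omega),
            GRS_.rank_step F h.mono K (hfin K (by omega)) (G K) (p K) (hG K)]
          rfl
      rw [key a le_rfl]
      have h1 : Fm F a = F (a - 1) := by
        unfold Fm
        rw [if_neg h.a_pos.ne']
      rw [h1]

end

end Pool.Agent.GML
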