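import Pool.Agent.GML.Stmts

/-!
# GML, module ISO: isomorphic graded modules have the same cohomology
-/

set_option autoImplicit false

namespace Pool.Agent.GML

open MvPolynomial Filter

noncomputable section

namespace ISO_

variable {V : Type} [CommRing V] {M N : GMod V 3}

lemma seq_map (f : GHom M N) (s : Finset (Fin 3)) (n : ℤ) (u : ℕ → M.M) (hu : u ∈ Seq M s n) :
    (fun a => f.f (u a)) ∈ Seq N s n := by
  have hu' : ∀ᶠ a : ℕ in atTop, u a ∈ M.gr (n + s.card * (a : ℤ)) ∧
    u (a + 1) = (∏ i ∈ s, X i : MvPolynomial (Fin 3) V) • u a := hu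
  show ∀ᶠ a : ℕ in atTop, f.f (u a) ∈ N.gr (n + s.card * (a : ℤ)) ∧
    f.f (u (a + 1)) = (∏ i ∈ s, X i : MvPolynomial (Fin 3) V) • f.f (u a)
  filter_upwards [hu'] with a ha
  exact ⟨f.deg _ _ ha.1, by rw [ha.2, map_smul]⟩

lemma dn_map (f : GHom M N) (g : Fin 3 → ℕ → M.M) (a : ℕ) :
    dn N (fun k a => f.f (g k a)) a = f.f (dn M g a) := by
  unfold dn
  simp only [map_add, map_sub, map_smul]

lemma dz_map (f : GHom M N) (g : Fin 3 → ℕ → M.M) (k : Fin 3) (a : ℕ) :
    dz N (fun k a => f.f (g k a)) k a = f.f (dz M g k a) := by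
  unfold dz
  fin_cases k <;> simp [map_sub, map_smul]

lemma z1_map (f : GHom M N) (n : ℤ) (g : Fin 3 → ℕ → M.M) (hg : g ∈ Z1 M n) :
    (fun k a => f.f (g k a)) ∈ Z1 N n := by
  refine ⟨fun k => seq_map f _ n _ (hg.1 k), ?_⟩
  filter_upwards [hg.2] with a ha
  rw [dn_map, ha, map_zero]

lemma b1_map (f : GHom M N) (n : ℤ) (g : Fin 3 → ℕ → M.M) (hg : g ∈ B1 M n) :
    (fun k a => f.f (g k a)) ∈ B1 N n := by
  obtain ⟨u, hu, hu'⟩ := hg
  refine ⟨fun k a => f.f (u k a), fun k => seq_map f _ n _ (hu k), ?_⟩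
  filter_upwards [hu'] with a ha
  intro k
  rw [dz_map, ha k]

lemma b2_map (f : GHom M N) (n : ℤ) (g : ℕ → M.M) (hg : g ∈ B2 M n) :
    (fun a => f.f (g a)) ∈ B2 N n := by
  obtain ⟨u, hu, hu'⟩ := hg
  refine ⟨fun k a => f.f (u k a), fun k => seq_map f _ n _ (hu k), ?_⟩
  filter_upwards [hu'] with a ha
  rw [dn_map, ha]

lemma fV (f : GHom M N) (v : V) (x : M.M) : f.f (v • x) = v • f.f x :=
  (f.f.restrictScalars V).map_smul v x

/-- the map on cocycles -/
def zmap (f : GHom M N) (n : ℤ) : Z1 M n →ₗ[V] Z1 N n where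
  toFun g := ⟨fun k a => f.f ((g : Fin 3 → ℕ → M.M) k a), z1_map f n g g.2⟩
  map_add' g g' := by
    apply Subtype.ext
    funext k a
    exact map_add f.f _ _
  map_smul' v g := by
    apply Subtype.ext
    funext k a
    exact fV f v _

/-- the map on the cochains of degree two -/
def smap (f : GHom M N) (n : ℤ) : Seq M Finset.univ n →ₗ[V] Seq N Finset.univ n where
  toFun g := ⟨fun a => f.f ((g : ℕ → M.M) a), seq_map f _ n g g.2⟩
  map_add' g g' := by
    apply Subtype.ext
    funext a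
    exact map_add f.f _ _
  map_smul' v g := by
    apply Subtype.ext
    funext a
    exact fV f v _

lemma le (f : GHom M N) (g : GHom N M) (hfg : ∀ y, f.f (g.f y) = y) (n : ℤ) :
    h1 N n ≤ h1 M n ∧ h2 N n ≤ h2 M n := by
  constructor
  · unfold h1
    refine Module.length_le_of_surjective (Submodule.mapQ ((B1 M n).comap (Z1 M n).subtype)
      ((B1 N n).comap (Z1 N n).subtype) (zmap f n) ?_) ?_
    · intro z hz
      exact b1_map f n z hz
    · intro q
      obtain ⟨z, rfl⟩ := Submodule.Quotient.mk_surjective _ q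
      refine ⟨Submodule.Quotient.mk (zmap g n z), ?_⟩
      exact congrArg Submodule.Quotient.mk (Subtype.ext (funext fun k => funext fun a => hfg _) :
        zmap f n (zmap g n z) = z)
  · unfold h2
    refine Module.length_le_of_surjective (Submodule.mapQ ((B2 M n).comap (Seq M Finset.univ n).subtype)
      ((B2 N n).comap (Seq N Finset.univ n).subtype) (smap f n) ?_) ?_
    · intro z hz
      exact b2_map f n z hz
    · intro q
      obtain ⟨z, rfl⟩ := Submodule.Quotient.mk_surjective _ q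
      refine ⟨Submodule.Quotient.mk (smap g n z), ?_⟩
      exact congrArg Submodule.Quotient.mk (Subtype.ext (funext fun a => hfg _) :
        smap f n (smap g n z) = z)

end ISO_

open ISO_ in
theorem iso_proof (hDEG : Stmt_DEG) : Stmt_ISO := by
  intro V _ M N f hf n
  have hd := (hDEG V 3 M N f).2.1 hf.1
  let e := LinearEquiv.ofBijective f.f hf
  have he : ∀ y, f.f (e.symm y) = y := fun y => e.apply_symm_apply y
  have he' : ∀ x, e.symm (f.f x) = x := fun x => e.symm_apply_apply x
  let g : GHom N M := ⟨e.symm.toLinearMap, fun k y hy => hd k _ (by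
    show f.f (e.symm y) ∈ N.gr k
    rw [he]
    exact hy)⟩
  obtain ⟨a1, a2⟩ := le f g he n
  obtain ⟨b1, b2⟩ := le g f he' n
  exact ⟨le_antisymm a1 b1, le_antisymm a2 b2⟩

end

end Pool.Agent.GML
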