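import Pool.Agent.GML.Stmts

/-!
# GML, module LES: the six-term sequence
-/

set_option autoImplicit false

open MvPolynomial Filter

namespace Pool.Agent.GML

noncomputable section

namespace LES_

/-! ## lengths -/

section len

variable {V : Type} [CommRing V]

theorem len_map {A B : Type} [AddCommGroup A] [Module V A] [AddCommGroup B] [Module V B]
    (φ : A →ₗ[V] B) :
    Module.length V A = Module.length V (LinearMap.ker φ) + Module.length V (LinearMap.range φ) := by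
  refine Module.length_eq_add_of_exact (LinearMap.ker φ).subtype φ.rangeRestrict
    (Submodule.subtype_injective _) (LinearMap.surjective_rangeRestrict φ) ?_
  rw [LinearMap.exact_iff, LinearMap.ker_rangeRestrict, Submodule.range_subtype]

theorem len_le {A : Type} [AddCommGroup A] [Module V A] {P Q : Submodule V A} (h : P ≤ Q) :
    Module.length V P ≤ Module.length V Q :=
  Module.length_le_of_injective (Submodule.inclusion h) (Submodule.inclusion_injective h)

theorem len_sub {A : Type} [AddCommGroup A] [Module V A] (P : Submodule V A) :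
    Module.length V P ≤ Module.length V A :=
  Module.length_le_of_injective P.subtype P.subtype_injective

theorem len_range {A B : Type} [AddCommGroup A] [Module V A] [AddCommGroup B] [Module V B]
    (φ : A →ₗ[V] B) : Module.length V (LinearMap.range φ) ≤ Module.length V A :=
  Module.length_le_of_surjective φ.rangeRestrict (LinearMap.surjective_rangeRestrict φ)

theorem six {A1 A2 A3 B1 B2 B3 : Type} [AddCommGroup A1] [Module V A1] [AddCommGroup A2]
    [Module V A2] [AddCommGroup A3] [Module V A3] [AddCommGroup B1] [Module V B1]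
    [AddCommGroup B2] [Module V B2] [AddCommGroup B3] [Module V B3]
    (α1 : A1 →ₗ[V] A2) (α2 : A2 →ₗ[V] A3) (δ : A3 →ₗ[V] B1) (β1 : B1 →ₗ[V] B2)
    (β2 : B2 →ₗ[V] B3) (h1 : LinearMap.ker α2 ≤ LinearMap.range α1)
    (h2 : LinearMap.ker δ ≤ LinearMap.range α2) (h3 : LinearMap.range δ = LinearMap.ker β1)
    (h4 : LinearMap.ker β2 = LinearMap.range β1) (h5 : Function.Surjective β2) :
    Module.length V A2 ≤ Module.length V A1 + Module.length V A3 ∧
    Module.length V B2 ≤ Module.length V B1 + Module.length V B3 ∧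
    Module.length V B1 + Module.length V B3 ≤ Module.length V B2 + Module.length V A3 ∧
    Module.length V A3 + Module.length V B2 ≤
      Module.length V A2 + Module.length V B1 + Module.length V B3 := by
  have e5 : Module.length V (LinearMap.range β2) = Module.length V B3 := by
    rw [LinearMap.range_eq_top.2 h5]
    exact LinearEquiv.length_eq Submodule.topEquiv
  have eA2 := len_map α2
  have eA3 := len_map δ
  have eB1 := len_map β1
  have eB2 := len_map β2
  rw [e5, h4] at eB2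
  rw [h3] at eA3
  have l1 := (len_le h1).trans (len_range α1)
  have l2 := (len_le h2).trans (len_range α2)
  have l3 := len_sub (LinearMap.range α2)
  have l4 := len_range β1
  have l5 : Module.length V (LinearMap.ker β1) ≤ Module.length V A3 := h3 ▸ len_range δ
  refine ⟨?_, ?_, ?_, ?_⟩
  · rw [eA2]
    exact add_le_add l1 l3
  · rw [eB2]
    exact add_le_add l4 le_rfl
  · rw [eB1, eB2]
    calc Module.length V (LinearMap.ker β1) + Module.length V (LinearMap.range β1) +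
          Module.length V B3
        ≤ Module.length V A3 + Module.length V (LinearMap.range β1) + Module.length V B3 := by
          gcongr
      _ = Module.length V (LinearMap.range β1) + Module.length V B3 + Module.length V A3 := by
          ring
  · rw [eA3, eB2, eB1]
    calc Module.length V (LinearMap.ker δ) + Module.length V (LinearMap.ker β1) +
          (Module.length V (LinearMap.range β1) + Module.length V B3)
        ≤ Module.length V A2 + Module.length V (LinearMap.ker β1) +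
          (Module.length V (LinearMap.range β1) + Module.length V B3) := by
          gcongr
      _ = _ := by ring

/-- factorisation through a surjection -/
theorem factor {D A C : Type} [AddCommGroup D] [Module V D] [AddCommGroup A] [Module V A]
    [AddCommGroup C] [Module V C] (p1 : D →ₗ[V] A) (p2 : D →ₗ[V] C)
    (hs : Function.Surjective p1) (hk : LinearMap.ker p1 ≤ LinearMap.ker p2) :
    ∃ δ : A →ₗ[V] C, ∀ d, δ (p1 d) = p2 d := by
  refine ⟨((LinearMap.ker p1).liftQ p2 hk) ∘ₗ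
    (p1.quotKerEquivOfSurjective hs).symm.toLinearMap, fun d => ?_⟩
  have h1 : (p1.quotKerEquivOfSurjective hs).symm (p1 d) = Submodule.Quotient.mk d := by
    rw [LinearEquiv.symm_apply_eq]
    rfl
  rw [LinearMap.comp_apply, LinearEquiv.coe_coe, h1, Submodule.liftQ_apply]

end len

variable {V : Type} [CommRing V] {M N : GMod V 3}

theorem gr_cast (M : GMod V 3) {m n : ℤ} (h : m = n) {x : M.M} (hx : x ∈ M.gr m) :
    x ∈ M.gr n := h ▸ hx

theorem X_smul_gr (M : GMod V 3) (i : Fin 3) (k : ℕ) (n : ℤ) (x : M.M) (hx : x ∈ M.gr n) :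
    ((X i : Po V 3) ^ k) • x ∈ M.gr (n + k) := by
  induction k with
  | zero => simpa using hx
  | succ k ih =>
    rw [pow_succ', mul_smul]
    refine gr_cast M ?_ (M.mul_mem i _ _ ih)
    push_cast
    ring

theorem prod_smul_gr (M : GMod V 3) (s : Finset (Fin 3)) (k : ℕ) (n : ℤ) (x : M.M)
    (hx : x ∈ M.gr n) :
    ((∏ i ∈ s, (X i : Po V 3)) ^ k) • x ∈ M.gr (n + s.card * k) := by
  induction s using Finset.induction_on generalizing n x with
  | empty => simpa using hx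
  | insert i s hi ih =>
    rw [Finset.prod_insert hi, mul_pow, mul_smul]
    refine gr_cast M ?_ (X_smul_gr M i k _ _ (ih n x hx))
    rw [Finset.card_insert_of_notMem hi]
    push_cast
    ring

/-- a sequence is determined by one value -/
theorem seq_val {s : Finset (Fin 3)} {n : ℤ} {u : ℕ → M.M} (hu : u ∈ Seq M s n) :
    ∃ a0 : ℕ, (∀ a, a0 ≤ a → u a ∈ M.gr (n + s.card * (a : ℤ))) ∧
      ∀ a k, a0 ≤ a → u (a + k) = (∏ i ∈ s, (X i : Po V 3)) ^ k • u a := by
  obtain ⟨a0, h0⟩ := eventually_atTop.1 hu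
  refine ⟨a0, fun a ha => (h0 a ha).1, ?_⟩
  intro a k ha
  induction k with
  | zero => simp
  | succ k ih =>
    rw [← add_assoc, (h0 (a + k) (by omega)).2, ih, pow_succ', mul_smul]

/-- the sequence with a given value -/
def mk (s : Finset (Fin 3)) (a0 : ℕ) (m : M.M) : ℕ → M.M :=
  fun a => (∏ i ∈ s, (X i : Po V 3)) ^ (a - a0) • m

theorem mk_mem (s : Finset (Fin 3)) (a0 : ℕ) (m : M.M) (n : ℤ)
    (hm : m ∈ M.gr (n + s.card * (a0 : ℤ))) : mk s a0 m ∈ Seq M s n := by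
  refine eventually_atTop.2 ⟨a0, fun a ha => ⟨?_, ?_⟩⟩
  · unfold mk
    refine gr_cast M ?_ (prod_smul_gr M s (a - a0) _ m hm)
    push_cast [ha]
    ring
  · unfold mk
    rw [smul_smul, ← pow_succ']
    congr 2
    omega

theorem res_mem {s s' : Finset (Fin 3)} {m : Fin 3} (hs : s' = insert m s) (hm : m ∉ s) (n : ℤ)
    (u : ℕ → M.M) (hu : u ∈ Seq M s n) : (fun a => (X m : Po V 3) ^ a • u a) ∈ Seq M s' n := by
  subst hs
  filter_upwards [hu] with a ha
  refine ⟨?_, ?_⟩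
  · refine gr_cast M ?_ (X_smul_gr M m a _ _ ha.1)
    rw [Finset.card_insert_of_notMem hm]
    push_cast
    ring
  · rw [ha.2, Finset.prod_insert hm, smul_smul, smul_smul]
    congr 1
    ring

theorem dz_mem (n : ℤ) (f : Fin 3 → ℕ → M.M) (hf : ∀ i, f i ∈ Seq M {i} n) (k : Fin 3) :
    dz M f k ∈ Seq M (Finset.univ.erase k) n := by
  fin_cases k
  · exact Submodule.sub_mem _ (res_mem (by decide) (by decide) n _ (hf 2))
      (res_mem (by decide) (by decide) n _ (hf 1))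
  · exact Submodule.sub_mem _ (res_mem (by decide) (by decide) n _ (hf 2))
      (res_mem (by decide) (by decide) n _ (hf 0))
  · exact Submodule.sub_mem _ (res_mem (by decide) (by decide) n _ (hf 1))
      (res_mem (by decide) (by decide) n _ (hf 0))

theorem dn_mem (n : ℤ) (g : Fin 3 → ℕ → M.M) (hg : ∀ k, g k ∈ Seq M (Finset.univ.erase k) n) :
    dn M g ∈ Seq M Finset.univ n :=
  Submodule.add_mem _ (Submodule.sub_mem _ (res_mem (by decide) (by decide) n _ (hg 0))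
    (res_mem (by decide) (by decide) n _ (hg 1))) (res_mem (by decide) (by decide) n _ (hg 2))

theorem dn_dz (f : Fin 3 → ℕ → M.M) (a : ℕ) : dn M (dz M f) a = 0 := by
  simp only [dn, dz, Matrix.cons_val_zero, Matrix.cons_val_one, Matrix.cons_val, smul_sub,
    smul_smul]
  rw [mul_comm ((X 1 : MvPolynomial (Fin 3) V) ^ a) (X 0 ^ a),
    mul_comm ((X 2 : MvPolynomial (Fin 3) V) ^ a) (X 0 ^ a),
    mul_comm ((X 2 : MvPolynomial (Fin 3) V) ^ a) (X 1 ^ a)]
  abel

theorem dz_congr (f f' : Fin 3 → ℕ → M.M) (a : ℕ) (h : ∀ i, f i a = f' i a) (k : Fin 3) :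
    dz M f k a = dz M f' k a := by
  fin_cases k <;> simp [dz, h 0, h 1, h 2]

theorem dn_congr (g g' : Fin 3 → ℕ → M.M) (a : ℕ) (h : ∀ i, g i a = g' i a) :
    dn M g a = dn M g' a := by
  simp [dn, h 0, h 1, h 2]

theorem dn_sub (g g' : Fin 3 → ℕ → M.M) (a : ℕ) : dn M (g - g') a = dn M g a - dn M g' a := by
  simp only [dn, Pi.sub_apply, smul_sub]
  abel

/-- composition with a homomorphism -/
def ps (φ : GHom M N) : (ℕ → M.M) →ₗ[V] (ℕ → N.M) where
  toFun u a := φ.f (u a)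
  map_add' _ _ := funext fun _ => map_add φ.f _ _
  map_smul' v u := funext fun a => (φ.f.restrictScalars V).map_smul v (u a)

/-- composition with a homomorphism -/
def pF (φ : GHom M N) : (Fin 3 → ℕ → M.M) →ₗ[V] (Fin 3 → ℕ → N.M) where
  toFun u k a := φ.f (u k a)
  map_add' _ _ := funext fun _ => funext fun _ => map_add φ.f _ _
  map_smul' v u := funext fun k => funext fun a => (φ.f.restrictScalars V).map_smul v (u k a)

theorem ps_mem (φ : GHom M N) (s : Finset (Fin 3)) (n : ℤ) (u : ℕ → M.M) (hu : u ∈ Seq M s n) :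
    ps φ u ∈ Seq N s n := by
  have hu' : ∀ᶠ a : ℕ in atTop, u a ∈ M.gr (n + s.card * (a : ℤ)) ∧
    u (a + 1) = (∏ i ∈ s, X i : MvPolynomial (Fin 3) V) • u a := hu
  change ∀ᶠ a : ℕ in atTop, φ.f (u a) ∈ N.gr (n + s.card * (a : ℤ)) ∧
    φ.f (u (a + 1)) = (∏ i ∈ s, X i : MvPolynomial (Fin 3) V) • φ.f (u a)
  filter_upwards [hu'] with a ha
  exact ⟨φ.deg _ _ ha.1, by rw [ha.2, map_smul]⟩

theorem dn_pF (φ : GHom M N) (g : Fin 3 → ℕ → M.M) (a : ℕ) :
    dn N (pF φ g) a = φ.f (dn M g a) := by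
  change dn N (fun k a => φ.f (g k a)) a = _
  unfold dn
  simp only [map_add, map_sub, map_smul]

theorem dz_pF (φ : GHom M N) (g : Fin 3 → ℕ → M.M) (k : Fin 3) (a : ℕ) :
    dz N (pF φ g) k a = φ.f (dz M g k a) := by
  change dz N (fun k a => φ.f (g k a)) k a = _
  unfold dz
  fin_cases k <;> simp [map_sub, map_smul]

theorem z1_map (φ : GHom M N) (n : ℤ) (g : Fin 3 → ℕ → M.M) (hg : g ∈ Z1 M n) :
    pF φ g ∈ Z1 N n := by
  refine ⟨fun k => ps_mem φ _ n _ (hg.1 k), ?_⟩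
  filter_upwards [hg.2] with a ha
  rw [dn_pF, ha, map_zero]

theorem b1_map (φ : GHom M N) (n : ℤ) (g : Fin 3 → ℕ → M.M) (hg : g ∈ B1 M n) :
    pF φ g ∈ B1 N n := by
  obtain ⟨u, hu, hu'⟩ := hg
  refine ⟨pF φ u, fun k => ps_mem φ _ n _ (hu k), ?_⟩
  filter_upwards [hu'] with a ha
  intro k
  rw [dz_pF, ← ha k]
  rfl

theorem b2_map (φ : GHom M N) (n : ℤ) (g : ℕ → M.M) (hg : g ∈ B2 M n) :
    ps φ g ∈ B2 N n := by
  obtain ⟨u, hu, hu'⟩ := hg
  refine ⟨pF φ u, fun k => ps_mem φ _ n _ (hu k), ?_⟩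
  filter_upwards [hu'] with a ha
  rw [dn_pF, ← ha]
  rfl

/-- sequences which are eventually zero are coboundaries -/
theorem b1_zero (n : ℤ) (g : Fin 3 → ℕ → M.M) (hg : ∀ᶠ a in atTop, ∀ k, g k a = 0) :
    g ∈ B1 M n := by
  refine ⟨0, fun k => Submodule.zero_mem _, ?_⟩
  filter_upwards [hg] with a ha
  intro k
  rw [ha k]
  fin_cases k <;> simp [dz]

theorem b2_zero (n : ℤ) (g : ℕ → M.M) (hg : ∀ᶠ a in atTop, g a = 0) : g ∈ B2 M n := by
  refine ⟨0, fun k => Submodule.zero_mem _, ?_⟩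
  filter_upwards [hg] with a ha
  rw [ha]
  simp [dn]

section ses

variable {M' M'' : GMod V 3} (f : GHom M' M) (g : GHom M M'') (hS : SES f g) (hDEG : Stmt_DEG)

include hS hDEG in
/-- lifting of sequences -/
theorem lift {s : Finset (Fin 3)} {n : ℤ} {u'' : ℕ → M''.M} (hu : u'' ∈ Seq M'' s n) :
    ∃ u ∈ Seq M s n, ∀ᶠ a in atTop, g.f (u a) = u'' a := by
  obtain ⟨a0, h0, h1⟩ := seq_val hu
  obtain ⟨x, hx, hx'⟩ := (hDEG V 3 M M'' g).1 _ (u'' a0) (h0 a0 le_rfl) (hS.2.2 (u'' a0))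
  refine ⟨mk s a0 x, mk_mem s a0 x n hx, eventually_atTop.2 ⟨a0, fun a ha => ?_⟩⟩
  have h2 := h1 a0 (a - a0) le_rfl
  rw [Nat.add_sub_of_le ha] at h2
  rw [h2]
  unfold mk
  rw [map_smul, hx']

include hS hDEG in
/-- sequences which are killed by `g` come from `M'` -/
theorem lker {s : Finset (Fin 3)} {n : ℤ} {u : ℕ → M.M} (hu : u ∈ Seq M s n)
    (h : ∀ᶠ a in atTop, g.f (u a) = 0) :
    ∃ u' ∈ Seq M' s n, ∀ᶠ a in atTop, f.f (u' a) = u a := by
  obtain ⟨a0, h0, h1⟩ := seq_val hu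
  obtain ⟨a1, h2⟩ := eventually_atTop.1 h
  have h3 : u (max a0 a1) ∈ LinearMap.range f.f :=
    (hS.2.1 (u (max a0 a1))).1 (h2 _ (le_max_right _ _))
  obtain ⟨x, hx, hx'⟩ := (hDEG V 3 M' M f).1 _ (u (max a0 a1)) (h0 _ (le_max_left _ _)) h3
  refine ⟨mk s (max a0 a1) x, mk_mem s _ x n hx,
    eventually_atTop.2 ⟨max a0 a1, fun a ha => ?_⟩⟩
  have h4 := h1 (max a0 a1) (a - max a0 a1) (le_max_left _ _)
  rw [Nat.add_sub_of_le ha] at h4
  rw [h4]
  unfold mk
  rw [map_smul, hx']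

include hS hDEG in
theorem liftF {t : Fin 3 → Finset (Fin 3)} {n : ℤ} {c'' : Fin 3 → ℕ → M''.M}
    (hc : ∀ k, c'' k ∈ Seq M'' (t k) n) :
    ∃ c : Fin 3 → ℕ → M.M, (∀ k, c k ∈ Seq M (t k) n) ∧
      ∀ᶠ a in atTop, ∀ k, g.f (c k a) = c'' k a := by
  choose c hc1 hc2 using fun k => lift f g hS hDEG (hc k)
  exact ⟨c, hc1, eventually_all.2 hc2⟩

include hS hDEG in
theorem lkerF {t : Fin 3 → Finset (Fin 3)} {n : ℤ} {c : Fin 3 → ℕ → M.M}
    (hc : ∀ k, c k ∈ Seq M (t k) n) (h : ∀ᶠ a in atTop, ∀ k, g.f (c k a) = 0) :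
    ∃ c' : Fin 3 → ℕ → M'.M, (∀ k, c' k ∈ Seq M' (t k) n) ∧
      ∀ᶠ a in atTop, ∀ k, f.f (c' k a) = c k a := by
  choose c' hc1 hc2 using fun k => lker f g hS hDEG (hc k) (eventually_all.1 h k)
  exact ⟨c', hc1, eventually_all.2 hc2⟩

theorem gf_zero (x : M'.M) (hS : SES f g) : g.f (f.f x) = 0 :=
  (hS.2.1 (f.f x)).2 ⟨x, rfl⟩

include hS hDEG in
/-- exactness at `H¹ M` -/
theorem ex1 {n : ℤ} (z : Fin 3 → ℕ → M.M) (hz : z ∈ Z1 M n) (h : pF g z ∈ B1 M'' n) :
    ∃ z' ∈ Z1 M' n, pF f z' - z ∈ B1 M n := by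
  obtain ⟨e'', he, he'⟩ := h
  obtain ⟨e, he1, he2⟩ := liftF f g hS hDEG he
  have h1 : ∀ k, (z - dz M e) k ∈ Seq M (Finset.univ.erase k) n := fun k =>
    Submodule.sub_mem _ (hz.1 k) (dz_mem n e he1 k)
  have h2 : ∀ᶠ a in atTop, ∀ k, g.f ((z - dz M e) k a) = 0 := by
    filter_upwards [he', he2] with a h3 h4
    intro k
    rw [Pi.sub_apply, Pi.sub_apply, map_sub, ← dz_pF,
      dz_congr (pF g e) e'' a (fun i => h4 i) k, ← h3 k]
    exact sub_self _
  obtain ⟨z', hz1, hz2⟩ := lkerF f g hS hDEG h1 h2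
  refine ⟨z', ⟨hz1, ?_⟩, ?_⟩
  · filter_upwards [hz2, hz.2] with a h3 h4
    apply hS.1
    rw [map_zero, ← dn_pF, dn_congr (pF f z') (z - dz M e) a (fun i => h3 i), dn_sub, h4, dn_dz,
      sub_zero]
  · refine ⟨-e, fun i => Submodule.neg_mem _ (he1 i), ?_⟩
    filter_upwards [hz2] with a h3
    intro k
    have h4 : dz M (-e) k a = - dz M e k a := by
      fin_cases k <;> simp [dz] <;> abel
    have h5 : pF f z' k a = f.f (z' k a) := rfl
    rw [h4, Pi.sub_apply, Pi.sub_apply, h5, h3 k, Pi.sub_apply, Pi.sub_apply]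
    abel

include hS hDEG in
/-- exactness at `H² M` -/
theorem ex2 {n : ℤ} (w : ℕ → M.M) (hw : w ∈ Seq M Finset.univ n) (h : ps g w ∈ B2 M'' n) :
    ∃ w' ∈ Seq M' Finset.univ n, ps f w' - w ∈ B2 M n := by
  obtain ⟨c'', hc, hc'⟩ := h
  obtain ⟨c, hc1, hc2⟩ := liftF f g hS hDEG hc
  have h1 : w - dn M c ∈ Seq M Finset.univ n := Submodule.sub_mem _ hw (dn_mem n c hc1)
  have h2 : ∀ᶠ a in atTop, g.f ((w - dn M c) a) = 0 := by
    filter_upwards [hc', hc2] with a h3 h4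
    rw [Pi.sub_apply, map_sub, ← dn_pF, dn_congr (pF g c) c'' a (fun i => h4 i), ← h3]
    exact sub_self _
  obtain ⟨w', hw1, hw2⟩ := lker f g hS hDEG h1 h2
  refine ⟨w', hw1, -c, fun i => Submodule.neg_mem _ (hc1 i), ?_⟩
  filter_upwards [hw2] with a h3
  have h4 : dn M (-c) a = - dn M c a := by
    simp only [dn, Pi.neg_apply, smul_neg]
    abel
  have h5 : ps f w' a = f.f (w' a) := rfl
  rw [h4, Pi.sub_apply, h5, h3, Pi.sub_apply]
  abel

/-- the relation of the connecting homomorphism -/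
def Dl (n : ℤ) : Submodule V (↥(Z1 M'' n) × ↥(Seq M' Finset.univ n)) where
  carrier := {q | ∃ c : Fin 3 → ℕ → M.M, (∀ k, c k ∈ Seq M (Finset.univ.erase k) n) ∧
    (∀ᶠ a in atTop, ∀ k, g.f (c k a) = q.1.1 k a) ∧ ∀ᶠ a in atTop, f.f (q.2.1 a) = dn M c a}
  add_mem' := by
    rintro ⟨z, w⟩ ⟨z1, w1⟩ ⟨c, hc, h1, h2⟩ ⟨d, hd, h3, h4⟩
    refine ⟨c + d, fun k => Submodule.add_mem _ (hc k) (hd k), ?_, ?_⟩
    · filter_upwards [h1, h3] with a e1 e3
      intro k
      change g.f (c k a + d k a) = z.1 k a + z1.1 k a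
      rw [map_add, e1 k, e3 k]
    · filter_upwards [h2, h4] with a e2 e4
      change f.f (w.1 a + w1.1 a) = dn M (c + d) a
      rw [map_add, e2, e4]
      simp only [dn, Pi.add_apply, smul_add]
      abel
  zero_mem' := by
    refine ⟨0, fun k => Submodule.zero_mem _, ?_, ?_⟩
    · refine Eventually.of_forall fun a k => ?_
      exact map_zero g.f
    · refine Eventually.of_forall fun a => ?_
      change f.f 0 = dn M 0 a
      rw [map_zero]
      simp [dn]
  smul_mem' := by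
    rintro v ⟨z, w⟩ ⟨c, hc, h1, h2⟩
    refine ⟨v • c, fun k => Submodule.smul_mem _ _ (hc k), ?_, ?_⟩
    · filter_upwards [h1] with a e1
      intro k
      change g.f (v • c k a) = v • z.1 k a
      rw [← e1 k]
      exact (g.f.restrictScalars V).map_smul v (c k a)
    · filter_upwards [h2] with a e2
      change f.f (v • w.1 a) = dn M (v • c) a
      have h3 : dn M (v • c) a = v • dn M c a := by
        simp only [dn, Pi.smul_apply, smul_add, smul_sub]
        simp only [smul_comm v]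
      rw [h3, ← e2]
      exact (f.f.restrictScalars V).map_smul v (w.1 a)

include hS hDEG in
/-- the relation is defined everywhere -/
theorem dl_total {n : ℤ} (z : Z1 M'' n) : ∃ w, (z, w) ∈ Dl f g n := by
  obtain ⟨c, hc1, hc2⟩ := liftF f g hS hDEG z.2.1
  have h1 : ∀ᶠ a in atTop, g.f (dn M c a) = 0 := by
    filter_upwards [z.2.2, hc2] with a h3 h4
    rw [← dn_pF, dn_congr (pF g c) z.1 a (fun i => h4 i), h3]
  obtain ⟨w, hw1, hw2⟩ := lker f g hS hDEG (dn_mem n c hc1) h1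
  exact ⟨⟨w, hw1⟩, c, hc1, hc2, hw2⟩

include hS hDEG in
/-- the relation is well defined -/
theorem dl_zero {n : ℤ} (q : ↥(Z1 M'' n) × ↥(Seq M' Finset.univ n)) (hq : q ∈ Dl f g n)
    (h : q.1.1 ∈ B1 M'' n) : q.2.1 ∈ B2 M' n := by
  obtain ⟨c, hc, h1, h2⟩ := hq
  obtain ⟨e'', he, he'⟩ := h
  obtain ⟨e, he1, he2⟩ := liftF f g hS hDEG he
  have h3 : ∀ k, (c - dz M e) k ∈ Seq M (Finset.univ.erase k) n := fun k =>
    Submodule.sub_mem _ (hc k) (dz_mem n e he1 k)
  have h4 : ∀ᶠ a in atTop, ∀ k, g.f ((c - dz M e) k a) = 0 := by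
    filter_upwards [h1, he', he2] with a e1 e2 e3
    intro k
    rw [Pi.sub_apply, Pi.sub_apply, map_sub, ← dz_pF,
      dz_congr (pF g e) e'' a (fun i => e3 i) k, ← e2 k, e1 k]
    exact sub_self _
  obtain ⟨c', hc1, hc2⟩ := lkerF f g hS hDEG h3 h4
  refine ⟨c', hc1, ?_⟩
  filter_upwards [h2, hc2] with a e1 e2
  apply hS.1
  rw [e1, ← dn_pF, dn_congr (pF f c') (c - dz M e) a (fun i => e2 i), dn_sub, dn_dz, sub_zero]

/-- the range is in the kernel of `H² M' → H² M` -/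
theorem dl_range {n : ℤ} (q : ↥(Z1 M'' n) × ↥(Seq M' Finset.univ n)) (hq : q ∈ Dl f g n) :
    ps f q.2.1 ∈ B2 M n := by
  obtain ⟨c, hc, _, h2⟩ := hq
  exact ⟨c, hc, h2⟩

include hS in
/-- the kernel of `H² M' → H² M` is in the range -/
theorem dl_ker {n : ℤ} (w : Seq M' Finset.univ n) (h : ps f w.1 ∈ B2 M n) :
    ∃ z, (z, w) ∈ Dl f g n := by
  obtain ⟨c, hc, h2⟩ := h
  refine ⟨⟨pF g c, fun k => ps_mem g _ n _ (hc k), ?_⟩, c, hc, Eventually.of_forall fun a k => rfl,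
    h2⟩
  filter_upwards [h2] with a e1
  rw [dn_pF, ← e1]
  exact gf_zero f g _ hS

include hS in
/-- the kernel of the connecting homomorphism comes from `H¹ M` -/
theorem dl_one {n : ℤ} (q : ↥(Z1 M'' n) × ↥(Seq M' Finset.univ n)) (hq : q ∈ Dl f g n)
    (h : q.2.1 ∈ B2 M' n) : ∃ z ∈ Z1 M n, pF g z - q.1.1 ∈ B1 M'' n := by
  obtain ⟨c, hc, h1, h2⟩ := hq
  obtain ⟨c', hc', h3⟩ := h
  refine ⟨c - pF f c', ⟨fun k => Submodule.sub_mem _ (hc k) (ps_mem f _ n _ (hc' k)), ?_⟩, ?_⟩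
  · filter_upwards [h2, h3] with a e2 e3
    rw [dn_sub, dn_pF, ← e3, e2, sub_self]
  · apply b1_zero
    filter_upwards [h1] with a e1
    intro k
    change g.f (c k a - f.f (c' k a)) - q.1.1 k a = 0
    rw [map_sub, gf_zero f g _ hS, sub_zero, e1 k, sub_self]

end ses

/-- the map on `H¹` -/
def hm1 (φ : GHom M N) (n : ℤ) : H1 M n →ₗ[V] H1 N n :=
  Submodule.mapQ _ _ ((pF φ).restrict (z1_map φ n)) fun z hz => b1_map φ n z.1 hz

/-- the map on `H²` -/
def hm2 (φ : GHom M N) (n : ℤ) : H2 M n →ₗ[V] H2 N n :=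
  Submodule.mapQ _ _ ((ps φ).restrict (ps_mem φ Finset.univ n)) fun z hz => b2_map φ n z.1 hz

theorem q1_eq {n : ℤ} (z w : Z1 M n) :
    (Submodule.Quotient.mk z : H1 M n) = Submodule.Quotient.mk w ↔ z.1 - w.1 ∈ B1 M n := by
  rw [Submodule.Quotient.eq]
  rfl

theorem q2_eq {n : ℤ} (z w : Seq M Finset.univ n) :
    (Submodule.Quotient.mk z : H2 M n) = Submodule.Quotient.mk w ↔ z.1 - w.1 ∈ B2 M n := by
  rw [Submodule.Quotient.eq]
  rfl

theorem q1_zero {n : ℤ} (z : Z1 M n) :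
    (Submodule.Quotient.mk z : H1 M n) = 0 ↔ z.1 ∈ B1 M n := by
  rw [Submodule.Quotient.mk_eq_zero]
  rfl

theorem q2_zero {n : ℤ} (z : Seq M Finset.univ n) :
    (Submodule.Quotient.mk z : H2 M n) = 0 ↔ z.1 ∈ B2 M n := by
  rw [Submodule.Quotient.mk_eq_zero]
  rfl

/-- projection of the relation -/
def p1 {M' M'' : GMod V 3} (f : GHom M' M) (g : GHom M M'') (n : ℤ) :
    Dl f g n →ₗ[V] H1 M'' n :=
  (Submodule.mkQ _) ∘ₗ (LinearMap.fst V _ _) ∘ₗ (Dl f g n).subtype

/-- projection of the relation -/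
def p2 {M' M'' : GMod V 3} (f : GHom M' M) (g : GHom M M'') (n : ℤ) :
    Dl f g n →ₗ[V] H2 M' n :=
  (Submodule.mkQ _) ∘ₗ (LinearMap.snd V _ _) ∘ₗ (Dl f g n).subtype

theorem p1_eq {M' M'' : GMod V 3} (f : GHom M' M) (g : GHom M M'') (n : ℤ) (d : Dl f g n) :
    p1 f g n d = Submodule.Quotient.mk d.1.1 := rfl

theorem p2_eq {M' M'' : GMod V 3} (f : GHom M' M) (g : GHom M M'') (n : ℤ) (d : Dl f g n) :
    p2 f g n d = Submodule.Quotient.mk d.1.2 := rfl

/-- the connecting homomorphism -/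
theorem exists_delta {M' M'' : GMod V 3} (f : GHom M' M) (g : GHom M M'') (hS : SES f g)
    (hDEG : Stmt_DEG) (n : ℤ) : Function.Surjective (p1 f g n) ∧
    ∃ δ : H1 M'' n →ₗ[V] H2 M' n, ∀ d, δ (p1 f g n d) = p2 f g n d := by
  have hs : Function.Surjective (p1 f g n) := by
    intro q
    obtain ⟨z, rfl⟩ := Submodule.Quotient.mk_surjective _ q
    obtain ⟨w, hw⟩ := dl_total f g hS hDEG z
    exact ⟨⟨(z, w), hw⟩, rfl⟩
  refine ⟨hs, @factor V _ (Dl f g n) (H1 M'' n) (H2 M' n) _ _ _ _ _ _ (p1 f g n) (p2 f g n) hs ?_⟩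
  intro d hd
  rw [LinearMap.mem_ker, p1_eq, q1_zero] at hd
  rw [LinearMap.mem_ker, p2_eq, q2_zero]
  exact dl_zero f g hS hDEG d.1 d.2 hd

end LES_

open LES_ in
theorem les_proof (hDEG : Stmt_DEG) : Stmt_LES := by
  intro V _ M' M M'' f g hS n
  obtain ⟨hs, δ, hδ⟩ := exists_delta f g hS hDEG n
  refine six (hm1 f n) (hm1 g n) δ (hm2 f n) (hm2 g n) ?_ ?_ ?_ ?_ ?_
  · intro q hq
    obtain ⟨z, rfl⟩ := Submodule.Quotient.mk_surjective _ q
    have h1 : (Submodule.Quotient.mk (⟨pF g z.1, z1_map g n z.1 z.2⟩ : Z1 M'' n) : H1 M'' n) = 0 :=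
      hq
    rw [q1_zero] at h1
    obtain ⟨z', hz', h2⟩ := ex1 f g hS hDEG z.1 z.2 h1
    refine ⟨Submodule.Quotient.mk ⟨z', hz'⟩, ?_⟩
    change (Submodule.Quotient.mk (⟨pF f z', z1_map f n z' hz'⟩ : Z1 M n) : H1 M n) = _
    rw [q1_eq]
    exact h2
  · intro q hq
    obtain ⟨d, rfl⟩ := hs q
    rw [LinearMap.mem_ker, hδ, p2_eq, q2_zero] at hq
    obtain ⟨z, hz, h1⟩ := dl_one f g hS d.1 d.2 hq
    refine ⟨Submodule.Quotient.mk ⟨z, hz⟩, ?_⟩
    change (Submodule.Quotient.mk (⟨pF g z, z1_map g n z hz⟩ : Z1 M'' n) : H1 M'' n) = _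
    rw [p1_eq, q1_eq]
    exact h1
  · apply le_antisymm
    · rintro _ ⟨q, rfl⟩
      obtain ⟨d, rfl⟩ := hs q
      rw [hδ, p2_eq]
      change (Submodule.Quotient.mk (⟨ps f d.1.2.1, ps_mem f _ n _ d.1.2.2⟩ :
        Seq M Finset.univ n) : H2 M n) = 0
      rw [q2_zero]
      exact dl_range f g d.1 d.2
    · intro q hq
      obtain ⟨w, rfl⟩ := Submodule.Quotient.mk_surjective _ q
      have h1 : (Submodule.Quotient.mk (⟨ps f w.1, ps_mem f _ n _ w.2⟩ :
        Seq M Finset.univ n) : H2 M n) = 0 := hq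
      rw [q2_zero] at h1
      obtain ⟨z, hz⟩ := dl_ker f g hS w h1
      exact ⟨p1 f g n ⟨(z, w), hz⟩, by rw [hδ]; rfl⟩
  · apply le_antisymm
    · intro q hq
      obtain ⟨w, rfl⟩ := Submodule.Quotient.mk_surjective _ q
      have h1 : (Submodule.Quotient.mk (⟨ps g w.1, ps_mem g _ n _ w.2⟩ :
        Seq M'' Finset.univ n) : H2 M'' n) = 0 := hq
      rw [q2_zero] at h1
      obtain ⟨w', hw', h2⟩ := ex2 f g hS hDEG w.1 w.2 h1
      refine ⟨Submodule.Quotient.mk ⟨w', hw'⟩, ?_⟩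
      change (Submodule.Quotient.mk (⟨ps f w', ps_mem f _ n _ hw'⟩ :
        Seq M Finset.univ n) : H2 M n) = _
      rw [q2_eq]
      exact h2
    · rintro _ ⟨q, rfl⟩
      obtain ⟨w, rfl⟩ := Submodule.Quotient.mk_surjective _ q
      change (Submodule.Quotient.mk (⟨ps g (ps f w.1), _⟩ :
        Seq M'' Finset.univ n) : H2 M'' n) = 0
      rw [q2_zero]
      exact b2_zero n _ (Eventually.of_forall fun a => gf_zero f g _ hS)
  · intro q
    obtain ⟨w'', rfl⟩ := Submodule.Quotient.mk_surjective _ q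
    obtain ⟨w, hw, hw'⟩ := lift f g hS hDEG w''.2
    refine ⟨Submodule.Quotient.mk ⟨w, hw⟩, ?_⟩
    change (Submodule.Quotient.mk (⟨ps g w, ps_mem g _ n _ hw⟩ :
      Seq M'' Finset.univ n) : H2 M'' n) = _
    rw [q2_eq]
    apply b2_zero
    filter_upwards [hw'] with a h1
    change g.f (w a) - w''.1 a = 0
    rw [h1, sub_self]

end

end Pool.Agent.GML
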