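import Pool.Agent.GML.Stmts

set_option autoImplicit false

open MvPolynomial Filter

namespace Pool.Agent.GML

noncomputable section

namespace RED_

section basic

variable {V : Type} [CommRing V]

lemma prod_mul_mem (M : GMod V 3) (s : Finset (Fin 3)) (m : ℤ) (x : M.M) (hx : x ∈ M.gr m) :
    (∏ i ∈ s, X i : MvPolynomial (Fin 3) V) • x ∈ M.gr (m + s.card) := by
  induction s using Finset.induction_on with
  | empty => simpa using hx
  | insert i s hi ih =>
    rw [Finset.prod_insert hi, mul_smul, Finset.card_insert_of_notMem hi]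
    push_cast
    rw [← add_assoc]
    exact M.mul_mem i _ _ ih

lemma pow_mul_mem (M : GMod V 3) (s : Finset (Fin 3)) (m : ℤ) (x : M.M) (hx : x ∈ M.gr m)
    (j : ℕ) :
    (∏ i ∈ s, X i : MvPolynomial (Fin 3) V) ^ j • x ∈ M.gr (m + s.card * (j : ℤ)) := by
  induction j with
  | zero => simpa using hx
  | succ j ih =>
    have h := prod_mul_mem M s _ _ ih
    rw [smul_smul, ← pow_succ'] at h
    convert h using 2
    push_cast
    ring

lemma seq_mul (M : GMod V 3) (s : Finset (Fin 3)) (n : ℤ) (k : Fin 3) (hk : k ∉ s)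
    (u : ℕ → M.M) (hu : u ∈ Seq M s n) :
    (fun a => (X k : MvPolynomial (Fin 3) V) ^ a • u a) ∈ Seq M (insert k s) n := by
  have hu' : ∀ᶠ a : ℕ in atTop, u a ∈ M.gr (n + s.card * (a : ℤ)) ∧
    u (a + 1) = (∏ i ∈ s, X i : MvPolynomial (Fin 3) V) • u a := hu
  change ∀ᶠ a : ℕ in atTop, _ ∧ _
  filter_upwards [hu'] with a ha
  constructor
  · rw [Finset.card_insert_of_notMem hk]
    have h := pow_mul_mem M {k} _ _ ha.1 a
    rw [Finset.prod_singleton, Finset.card_singleton] at h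
    convert h using 2
    push_cast
    ring
  · rw [ha.2, Finset.prod_insert hk, smul_smul, smul_smul]
    congr 1
    ring

lemma dn_mem (M : GMod V 3) (n : ℤ) (g : Fin 3 → ℕ → M.M)
    (hg : ∀ k, g k ∈ Seq M (Finset.univ.erase k) n) : dn M g ∈ Seq M Finset.univ n := by
  have h : ∀ k, (fun a => (X k : MvPolynomial (Fin 3) V) ^ a • g k a) ∈ Seq M Finset.univ n := by
    intro k
    have := seq_mul M (Finset.univ.erase k) n k (by simp) (g k) (hg k)
    rwa [Finset.insert_erase (Finset.mem_univ k)] at this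
  exact Submodule.add_mem _ (Submodule.sub_mem _ (h 0) (h 1)) (h 2)

lemma dz_mem (M : GMod V 3) (n : ℤ) (f : Fin 3 → ℕ → M.M)
    (hf : ∀ i, f i ∈ Seq M {i} n) : ∀ k, dz M f k ∈ Seq M (Finset.univ.erase k) n := by
  intro k
  fin_cases k
  · have h1 := seq_mul M {2} n 1 (by decide) (f 2) (hf 2)
    have h2 := seq_mul M {1} n 2 (by decide) (f 1) (hf 1)
    have e1 : (insert 1 {2} : Finset (Fin 3)) = Finset.univ.erase 0 := by decide
    have e2 : (insert 2 {1} : Finset (Fin 3)) = Finset.univ.erase 0 := by decide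
    rw [e1] at h1
    rw [e2] at h2
    exact Submodule.sub_mem _ h1 h2
  · have h1 := seq_mul M {2} n 0 (by decide) (f 2) (hf 2)
    have h2 := seq_mul M {0} n 2 (by decide) (f 0) (hf 0)
    have e1 : (insert 0 {2} : Finset (Fin 3)) = Finset.univ.erase 1 := by decide
    have e2 : (insert 2 {0} : Finset (Fin 3)) = Finset.univ.erase 1 := by decide
    rw [e1] at h1
    rw [e2] at h2
    exact Submodule.sub_mem _ h1 h2
  · have h1 := seq_mul M {1} n 0 (by decide) (f 1) (hf 1)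
    have h2 := seq_mul M {0} n 1 (by decide) (f 0) (hf 0)
    have e1 : (insert 0 {1} : Finset (Fin 3)) = Finset.univ.erase 2 := by decide
    have e2 : (insert 1 {0} : Finset (Fin 3)) = Finset.univ.erase 2 := by decide
    rw [e1] at h1
    rw [e2] at h2
    exact Submodule.sub_mem _ h1 h2

lemma dn_dz (M : GMod V 3) (f : Fin 3 → ℕ → M.M) (a : ℕ) : dn M (dz M f) a = 0 := by
  simp only [dn, dz, Matrix.cons_val_zero, Matrix.cons_val_one, Matrix.cons_val]
  module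

lemma dn_add (M : GMod V 3) (f g : Fin 3 → ℕ → M.M) (a : ℕ) :
    dn M (f + g) a = dn M f a + dn M g a := by
  simp only [dn, Pi.add_apply, smul_add]
  abel

lemma dn_sub (M : GMod V 3) (f g : Fin 3 → ℕ → M.M) (a : ℕ) :
    dn M (f - g) a = dn M f a - dn M g a := by
  simp only [dn, Pi.sub_apply, smul_sub]
  abel

lemma dn_smul (M : GMod V 3) (v : V) (f : Fin 3 → ℕ → M.M) (a : ℕ) :
    dn M (v • f) a = v • dn M f a := by
  simp only [dn, Pi.smul_apply, smul_add, smul_sub]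
  simp only [smul_comm v]

lemma dn_congr (M : GMod V 3) (f g : Fin 3 → ℕ → M.M) (a : ℕ) (h : ∀ k, f k a = g k a) :
    dn M f a = dn M g a := by
  simp only [dn, h]

lemma B2_of_ev (M : GMod V 3) (n : ℤ) (f : ℕ → M.M) (h : ∀ᶠ a : ℕ in atTop, f a = 0) :
    f ∈ B2 M n := by
  refine ⟨0, fun k => Submodule.zero_mem _, ?_⟩
  filter_upwards [h] with a ha
  simp [dn, ha]

/-- the class -/
def cl (M : GMod V 3) (n : ℤ) (f : ℕ → M.M) (hf : f ∈ Seq M Finset.univ n) : H2 M n :=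
  Submodule.Quotient.mk ⟨f, hf⟩

lemma cl_eq (M : GMod V 3) (n : ℤ) (f g : ℕ → M.M) (hf : f ∈ Seq M Finset.univ n)
    (hg : g ∈ Seq M Finset.univ n) : cl M n f hf = cl M n g hg ↔ f - g ∈ B2 M n := by
  unfold cl
  rw [Submodule.Quotient.eq]
  rfl

lemma cl_zero (M : GMod V 3) (n : ℤ) (f : ℕ → M.M) (hf : f ∈ Seq M Finset.univ n) :
    cl M n f hf = 0 ↔ f ∈ B2 M n := by
  unfold cl
  rw [Submodule.Quotient.mk_eq_zero]
  rfl

lemma cl_surj (M : GMod V 3) (n : ℤ) (y : H2 M n) : ∃ f hf, cl M n f hf = y := by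
  obtain ⟨⟨f, hf⟩, h⟩ := Submodule.Quotient.mk_surjective _ y
  exact ⟨f, hf, h⟩

lemma cl_smul (M : GMod V 3) (n : ℤ) (v : V) (f : ℕ → M.M) (hf : f ∈ Seq M Finset.univ n) :
    v • cl M n f hf = cl M n (v • f) (Submodule.smul_mem _ v hf) := rfl

lemma cl_add (M : GMod V 3) (n : ℤ) (f g : ℕ → M.M) (hf : f ∈ Seq M Finset.univ n)
    (hg : g ∈ Seq M Finset.univ n) :
    cl M n f hf + cl M n g hg = cl M n (f + g) (Submodule.add_mem _ hf hg) := rfl

end basic

section red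

variable {V κ : Type} [CommRing V] [CommRing κ] {σ : V →+* κ} {t : V} {D : GMod V 3}
  {W : GMod κ 3}

lemma q_smulV (R : Red σ t D W) (v : V) (x : D.M) : R.q (v • x) = σ v • R.q x := by
  have h := R.smul (C v) x
  rw [MvPolynomial.map_C] at h
  have h1 : (C v : MvPolynomial (Fin 3) V) • x = v • x := by
    rw [← MvPolynomial.algebraMap_eq, algebraMap_smul]
  have h2 : (C (σ v) : MvPolynomial (Fin 3) κ) • R.q x = σ v • R.q x := by
    rw [← MvPolynomial.algebraMap_eq, algebraMap_smul]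
  rw [h1, h2] at h
  exact h

lemma σt (R : Red σ t D W) : σ t = 0 := by
  have h : t ∈ RingHom.ker σ := by
    rw [R.kerσ]
    exact Ideal.mem_span_singleton_self t
  exact h

lemma q_prod (R : Red σ t D W) (s : Finset (Fin 3)) (x : D.M) :
    R.q ((∏ i ∈ s, X i : MvPolynomial (Fin 3) V) • x) =
      (∏ i ∈ s, X i : MvPolynomial (Fin 3) κ) • R.q x := by
  rw [R.smul, map_prod]
  simp only [MvPolynomial.map_X]

lemma q_pow (R : Red σ t D W) (k : Fin 3) (a : ℕ) (x : D.M) :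
    R.q ((X k : MvPolynomial (Fin 3) V) ^ a • x) =
      (X k : MvPolynomial (Fin 3) κ) ^ a • R.q x := by
  rw [R.smul, map_pow, MvPolynomial.map_X]

lemma q_seq (R : Red σ t D W) (s : Finset (Fin 3)) (n : ℤ) (f : ℕ → D.M)
    (hf : f ∈ Seq D s n) : (fun a => R.q (f a)) ∈ Seq W s n := by
  have hf' : ∀ᶠ a : ℕ in atTop, f a ∈ D.gr (n + s.card * (a : ℤ)) ∧
    f (a + 1) = (∏ i ∈ s, X i : MvPolynomial (Fin 3) V) • f a := hf
  change ∀ᶠ a : ℕ in atTop, _ ∧ _
  filter_upwards [hf'] with a ha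
  refine ⟨R.deg _ _ ha.1, ?_⟩
  rw [ha.2, q_prod]

lemma q_dn (R : Red σ t D W) (g : Fin 3 → ℕ → D.M) (a : ℕ) :
    R.q (dn D g a) = dn W (fun k b => R.q (g k b)) a := by
  simp only [dn, map_add, map_sub, q_pow]

lemma q_dz (R : Red σ t D W) (f : Fin 3 → ℕ → D.M) (a : ℕ) (k : Fin 3) :
    R.q (dz D f k a) = dz W (fun k b => R.q (f k b)) k a := by
  fin_cases k <;> simp [dz, q_pow]

lemma q_cmp (R : Red σ t D W) (hCMP : Stmt_CMP) (n : ℤ) (x : D.M) :
    R.q (D.cmp n x) = W.cmp n (R.q x) := by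
  obtain ⟨c1, -, -, -, -, -, c7, -⟩ := hCMP V 3 D
  obtain ⟨-, w2, w3, w4, w5, -, -, -⟩ := hCMP κ 3 W
  obtain ⟨S, hS, hS'⟩ := c7 x
  let φ : W.M →+ W.M := AddMonoidHom.mk' (W.cmp n) (w4 n)
  have h1 : W.cmp n (R.q x) = ∑ m ∈ S, W.cmp n (R.q (D.cmp m x)) := by
    have : φ (R.q x) = ∑ m ∈ S, φ (R.q (D.cmp m x)) := by
      rw [← map_sum, ← map_sum, ← hS]
    exact this
  rw [h1]
  by_cases hn : n ∈ S
  · rw [Finset.sum_eq_single n]
    · rw [w2 n _ (R.deg _ _ (c1 n x))]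
    · intro m _ hm
      exact w3 n m _ (R.deg _ _ (c1 m x)) hm.symm
    · intro h
      exact absurd hn h
  · rw [hS' n hn, map_zero]
    symm
    apply Finset.sum_eq_zero
    intro m hm
    have hmn : n ≠ m := by
      rintro rfl
      exact hn hm
    exact w3 n m _ (R.deg _ _ (c1 m x)) hmn

lemma gr_lift (R : Red σ t D W) (hCMP : Stmt_CMP) (n : ℤ) (y : W.M) (hy : y ∈ W.gr n) :
    ∃ x ∈ D.gr n, R.q x = y := by
  obtain ⟨x, hx⟩ := R.surj y
  refine ⟨D.cmp n x, (hCMP V 3 D).1 n x, ?_⟩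
  rw [q_cmp R hCMP, hx]
  exact (hCMP κ 3 W).2.1 n y hy

lemma seq_lift (R : Red σ t D W) (hCMP : Stmt_CMP) (s : Finset (Fin 3)) (n : ℤ) (g : ℕ → W.M)
    (hg : g ∈ Seq W s n) : ∃ f ∈ Seq D s n, ∀ᶠ a in atTop, R.q (f a) = g a := by
  have hg' : ∀ᶠ a : ℕ in atTop, g a ∈ W.gr (n + s.card * (a : ℤ)) ∧
    g (a + 1) = (∏ i ∈ s, X i : MvPolynomial (Fin 3) κ) • g a := hg
  obtain ⟨a0, ha0⟩ := eventually_atTop.1 hg'
  obtain ⟨x, hx, hqx⟩ := gr_lift R hCMP _ (g a0) (ha0 a0 le_rfl).1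
  refine ⟨fun a => (∏ i ∈ s, X i : MvPolynomial (Fin 3) V) ^ (a - a0) • x, ?_, ?_⟩
  · change ∀ᶠ a : ℕ in atTop, _ ∧ _
    filter_upwards [eventually_ge_atTop a0] with a ha
    constructor
    · have h := pow_mul_mem D s _ _ hx (a - a0)
      convert h using 2
      push_cast [ha]
      ring
    · have h : a + 1 - a0 = (a - a0) + 1 := by omega
      rw [h, pow_succ', mul_smul]
  · filter_upwards [eventually_ge_atTop a0] with a ha
    induction a, ha using Nat.le_induction with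
    | base => simp [hqx]
    | succ a ha ih =>
      have h : a + 1 - a0 = (a - a0) + 1 := by omega
      rw [h, pow_succ', mul_smul, q_prod, ih, (ha0 a ha).2]

lemma seq_ker (R : Red σ t D W) (hCMP : Stmt_CMP) (htf : ∀ x : D.M, t • x = 0 → x = 0)
    (s : Finset (Fin 3)) (n : ℤ) (f : ℕ → D.M) (hf : f ∈ Seq D s n)
    (h0 : ∀ᶠ a in atTop, R.q (f a) = 0) : ∃ y ∈ Seq D s n, ∀ᶠ a in atTop, f a = t • y a := by
  classical
  have hinj : ∀ x y : D.M, t • x = t • y → x = y := by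
    intro x y h
    have := htf (x - y) (by rw [smul_sub, h, sub_self])
    exact sub_eq_zero.1 this
  have hf' : ∀ᶠ a : ℕ in atTop, f a ∈ D.gr (n + s.card * (a : ℤ)) ∧
    f (a + 1) = (∏ i ∈ s, X i : MvPolynomial (Fin 3) V) • f a := hf
  let y : ℕ → D.M := fun a => if h : ∃ y, f a = t • y then h.choose else 0
  have hy : ∀ᶠ a in atTop, f a = t • y a := by
    filter_upwards [h0] with a ha
    have h : ∃ y, f a = t • y := (R.ker _).1 ha
    change f a = t • (if h : ∃ y, f a = t • y then h.choose else 0)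
    rw [dif_pos h]
    exact h.choose_spec
  refine ⟨y, ?_, hy⟩
  change ∀ᶠ a : ℕ in atTop, _ ∧ _
  filter_upwards [hf', hy, (tendsto_add_atTop_nat 1).eventually hy] with a h1 h2 h3
  constructor
  · obtain ⟨c1, c2, -, -, c5, -, -, -⟩ := hCMP V 3 D
    have h4 := c2 _ _ h1.1
    rw [h2, c5] at h4
    rw [← hinj _ _ h4]
    exact c1 _ _
  · apply hinj
    rw [← h3, h1.2, h2, smul_comm]

/-- the induced map, semilinear -/
def qs (R : Red σ t D W) (n : ℤ) : ↥(Seq D Finset.univ n) →ₛₗ[σ] H2 W n where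
  toFun f := cl W n (fun a => R.q (f.1 a)) (q_seq R _ n f.1 f.2)
  map_add' f g := by
    rw [cl_add]
    congr 1
    funext a
    exact map_add R.q _ _
  map_smul' v f := by
    rw [cl_smul]
    congr 1
    funext a
    exact q_smulV R _ _

lemma qs_ker (R : Red σ t D W) (n : ℤ) :
    (B2 D n).comap (Seq D Finset.univ n).subtype ≤ LinearMap.ker (qs R n) := by
  rintro ⟨f, hf⟩ ⟨g, hg, hfg⟩
  rw [LinearMap.mem_ker]
  change cl W n (fun a => R.q (f a)) _ = 0
  rw [cl_zero]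
  refine ⟨fun k b => R.q (g k b), fun k => q_seq R _ n _ (hg k), ?_⟩
  filter_upwards [hfg] with a ha
  rw [← q_dn]
  exact congrArg R.q ha

/-- the reduction on cohomology -/
def rho (R : Red σ t D W) (n : ℤ) : H2 D n →ₛₗ[σ] H2 W n :=
  Submodule.liftQ _ (qs R n) (qs_ker R n)

lemma rho_cl (R : Red σ t D W) (n : ℤ) (f : ℕ → D.M) (hf : f ∈ Seq D Finset.univ n) :
    rho R n (cl D n f hf) = cl W n (fun a => R.q (f a)) (q_seq R _ n f hf) := rfl

/-- the relation defining the connecting map -/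
def Rel (R : Red σ t D W) (n : ℤ) (x : H1 W n) (y : H2 D n) : Prop :=
  ∃ (g' : Fin 3 → ℕ → W.M) (hg' : g' ∈ Z1 W n), Submodule.Quotient.mk ⟨g', hg'⟩ = x ∧
    ∃ g : Fin 3 → ℕ → D.M, (∀ k, g k ∈ Seq D (Finset.univ.erase k) n) ∧
      (∀ᶠ a in atTop, ∀ k, R.q (g k a) = g' k a) ∧
      ∃ (h : ℕ → D.M) (hh : h ∈ Seq D Finset.univ n), cl D n h hh = y ∧
        ∀ᶠ a in atTop, dn D g a = t • h a

lemma ev_all {M : Type} (P : Fin 3 → ℕ → M → Prop) (g : Fin 3 → ℕ → M)
    (h : ∀ k, ∀ᶠ a in atTop, P k a (g k a)) : ∀ᶠ a in atTop, ∀ k, P k a (g k a) :=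
  eventually_all.2 h

lemma C1_lift (R : Red σ t D W) (hCMP : Stmt_CMP) (n : ℤ) (S : Fin 3 → Finset (Fin 3))
    (g' : Fin 3 → ℕ → W.M)
    (hg' : ∀ k, g' k ∈ Seq W (S k) n) : ∃ g : Fin 3 → ℕ → D.M,
      (∀ k, g k ∈ Seq D (S k) n) ∧
      (∀ᶠ a in atTop, ∀ k, R.q (g k a) = g' k a) := by
  choose g hg hg2 using fun k => seq_lift R hCMP _ n _ (hg' k)
  exact ⟨g, hg, eventually_all.2 hg2⟩

lemma C1_ker (R : Red σ t D W) (hCMP : Stmt_CMP) (htf : ∀ x : D.M, t • x = 0 → x = 0) (n : ℤ)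
    (S : Fin 3 → Finset (Fin 3)) (g : Fin 3 → ℕ → D.M)
    (hg : ∀ k, g k ∈ Seq D (S k) n) (h0 : ∀ᶠ a in atTop, ∀ k, R.q (g k a) = 0) :
    ∃ u : Fin 3 → ℕ → D.M, (∀ k, u k ∈ Seq D (S k) n) ∧
      (∀ᶠ a in atTop, ∀ k, g k a = t • u k a) := by
  choose u hu hu2 using fun k => seq_ker R hCMP htf (S k) n (g k) (hg k) (eventually_all.1 h0 k)
  exact ⟨u, hu, eventually_all.2 hu2⟩

lemma rel_ex (R : Red σ t D W) (hCMP : Stmt_CMP) (htf : ∀ x : D.M, t • x = 0 → x = 0) (n : ℤ)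
    (x : H1 W n) : ∃ y, Rel R n x y := by
  obtain ⟨⟨g', hg'⟩, rfl⟩ := Submodule.Quotient.mk_surjective _ x
  obtain ⟨g, hg, hg2⟩ := C1_lift R hCMP n _ g' hg'.1
  have h0 : ∀ᶠ a in atTop, R.q (dn D g a) = 0 := by
    filter_upwards [hg2, hg'.2] with a h1 h2
    rw [q_dn, dn_congr W _ g' a h1, h2]
  obtain ⟨h, hh, hh2⟩ := seq_ker R hCMP htf _ n _ (dn_mem D n g hg) h0
  exact ⟨cl D n h hh, g', hg', rfl, g, hg, hg2, h, hh, rfl, hh2⟩

lemma rel_add (R : Red σ t D W) (n : ℤ) {x x' : H1 W n} {y y' : H2 D n} (h : Rel R n x y)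
    (h' : Rel R n x' y') : Rel R n (x + x') (y + y') := by
  obtain ⟨g', hg', rfl, g, hg, hg2, h, hh, rfl, hh2⟩ := h
  obtain ⟨f', hf', rfl, f, hf, hf2, k, hk, rfl, hk2⟩ := h'
  refine ⟨g' + f', Submodule.add_mem _ hg' hf', rfl, g + f,
    fun k => Submodule.add_mem _ (hg k) (hf k), ?_, h + k, Submodule.add_mem _ hh hk, rfl, ?_⟩
  · filter_upwards [hg2, hf2] with a h1 h2
    intro k
    simp only [Pi.add_apply, map_add, h1, h2]
  · filter_upwards [hh2, hk2] with a h1 h2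
    rw [dn_add, h1, h2, Pi.add_apply, smul_add]

lemma rel_smul (R : Red σ t D W) (n : ℤ) (v : V) {x : H1 W n} {y : H2 D n} (h : Rel R n x y) :
    Rel R n (σ v • x) (v • y) := by
  obtain ⟨g', hg', rfl, g, hg, hg2, h, hh, rfl, hh2⟩ := h
  refine ⟨σ v • g', Submodule.smul_mem _ _ hg', rfl, v • g,
    fun k => Submodule.smul_mem _ _ (hg k), ?_, v • h, Submodule.smul_mem _ _ hh, rfl, ?_⟩
  · filter_upwards [hg2] with a h1
    intro k
    simp only [Pi.smul_apply, q_smulV, h1]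
  · filter_upwards [hh2] with a h1
    rw [dn_smul, h1, Pi.smul_apply, smul_comm]

lemma rel_zero (R : Red σ t D W) (hCMP : Stmt_CMP) (htf : ∀ x : D.M, t • x = 0 → x = 0) (n : ℤ)
    {y : H2 D n} (h : Rel R n 0 y) : y = 0 := by
  obtain ⟨g', hg', h0, g, hg, hg2, h, hh, rfl, hh2⟩ := h
  rw [Submodule.Quotient.mk_eq_zero] at h0
  obtain ⟨f', hf', hf2⟩ := h0
  obtain ⟨f, hf, hf3⟩ := C1_lift R hCMP n (fun i => {i}) f' hf'
  have h1 : ∀ᶠ a in atTop, ∀ k, R.q ((g - dz D f) k a) = 0 := by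
    filter_upwards [hg2, hf2, hf3] with a h1 h2 h3
    intro k
    have h4 : R.q (dz D f k a) = dz W f' k a := by
      rw [q_dz]
      fin_cases k <;> simp [dz, h3]
    have h5 : g' k a = dz W f' k a := h2 k
    rw [Pi.sub_apply, Pi.sub_apply, map_sub, h1, h4, h5, sub_self]
  obtain ⟨u, hu, hu2⟩ := C1_ker R hCMP htf n _ (g - dz D f)
    (fun k => Submodule.sub_mem _ (hg k) (dz_mem D n f hf k)) h1
  rw [cl_zero]
  refine ⟨u, hu, ?_⟩
  filter_upwards [hh2, hu2] with a h1 h2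
  have h3 : dn D (g - dz D f) a = t • dn D u a := by
    rw [dn_congr D _ (t • u) a (fun k => by rw [h2]; rfl), dn_smul]
  rw [dn_sub, dn_dz, sub_zero, h1] at h3
  have h4 := htf (h a - dn D u a) (by rw [smul_sub, h3, sub_self])
  exact sub_eq_zero.1 h4

lemma rel_uniq (R : Red σ t D W) (hCMP : Stmt_CMP) (htf : ∀ x : D.M, t • x = 0 → x = 0) (n : ℤ)
    {x : H1 W n} {y y' : H2 D n} (h : Rel R n x y) (h' : Rel R n x y') : y = y' := by
  have h1 := rel_add R n h (rel_smul R n (-1) h')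
  rw [map_neg, map_one, neg_smul, one_smul, neg_smul, one_smul, add_neg_cancel] at h1
  have h2 := rel_zero R hCMP htf n h1
  rw [← sub_eq_add_neg] at h2
  exact sub_eq_zero.1 h2

end red

end RED_

open RED_ in
theorem red_proof (hCMP : Stmt_CMP) : Stmt_RED := by
  intro V κ _ _ σ t D W R htf n
  choose dl hdl using rel_ex R hCMP htf n
  have un : ∀ {x : H1 W n} {y : H2 D n}, Rel R n x y → dl x = y :=
    fun h => rel_uniq R hCMP htf n (hdl _) h
  refine ⟨(rho R n).toAddMonoidHom, AddMonoidHom.mk' dl fun x x' => un (rel_add R n (hdl x) (hdl x')),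
    ?_, ?_, ?_, ?_, ?_, ?_⟩
  · intro f hf hf'
    rfl
  · intro y
    obtain ⟨g, hg, rfl⟩ := cl_surj W n y
    obtain ⟨f, hf, hfg⟩ := seq_lift R hCMP _ n g hg
    refine ⟨cl D n f hf, ?_⟩
    change rho R n (cl D n f hf) = _
    rw [rho_cl, cl_eq]
    apply B2_of_ev
    filter_upwards [hfg] with a ha
    rw [Pi.sub_apply, ha, sub_self]
  · intro y
    constructor
    · intro h
      obtain ⟨f, hf, rfl⟩ := cl_surj D n y
      change rho R n (cl D n f hf) = 0 at h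
      rw [rho_cl, cl_zero] at h
      obtain ⟨g', hg', hfg⟩ := h
      obtain ⟨g, hg, hg2⟩ := C1_lift R hCMP n _ g' hg'
      have h1 : ∀ᶠ a in atTop, R.q ((f - dn D g) a) = 0 := by
        filter_upwards [hfg, hg2] with a h1 h2
        rw [Pi.sub_apply, map_sub, q_dn, dn_congr W _ g' a h2, ← h1, sub_self]
      obtain ⟨h, hh, hh2⟩ := seq_ker R hCMP htf _ n _
        (Submodule.sub_mem _ hf (dn_mem D n g hg)) h1
      refine ⟨cl D n h hh, ?_⟩
      rw [cl_smul, cl_eq]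
      refine ⟨g, hg, ?_⟩
      filter_upwards [hh2] with a ha
      rw [Pi.sub_apply] at ha
      rw [Pi.sub_apply, Pi.smul_apply, ← ha]
      abel
    · rintro ⟨z, rfl⟩
      change rho R n (t • z) = 0
      rw [map_smulₛₗ, σt R, zero_smul]
  · intro v y
    exact map_smulₛₗ (rho R n) v y
  · intro v x
    exact un (rel_smul R n v (hdl x))
  · intro y
    constructor
    · intro h
      obtain ⟨f, hf, rfl⟩ := cl_surj D n y
      rw [cl_smul, cl_zero] at h
      obtain ⟨g, hg, hg2⟩ := h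
      refine ⟨Submodule.Quotient.mk ⟨fun k b => R.q (g k b), fun k => q_seq R _ n _ (hg k), ?_⟩,
        ?_⟩
      · filter_upwards [hg2] with a ha
        rw [← q_dn, ← ha, Pi.smul_apply, q_smulV, σt R, zero_smul]
      · apply un
        refine ⟨_, _, rfl, g, hg, Eventually.of_forall fun a k => rfl, f, hf, rfl, ?_⟩
        filter_upwards [hg2] with a ha
        rw [← ha]
        rfl
    · rintro ⟨x, rfl⟩
      change t • dl x = 0
      obtain ⟨g', hg', -, g, hg, hg2, h, hh, h3, hh2⟩ := hdl x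
      rw [← h3, cl_smul, cl_zero]
      refine ⟨g, hg, ?_⟩
      filter_upwards [hh2] with a ha
      rw [ha]
      rfl

end

end Pool.Agent.GML
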