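import Pool.Agent.GML.Stmts

/-!
# GML, module SHI: chartwise isomorphisms shift the cohomology
-/

set_option autoImplicit false

open MvPolynomial Filter

namespace Pool.Agent.GML

noncomputable section

namespace SHI_

variable {V : Type} [CommRing V] {M N : GMod V 3}

theorem X_smul_gr (M : GMod V 3) (i : Fin 3) (k : ℕ) (n : ℤ) (x : M.M) (hx : x ∈ M.gr n) :
    ((X i : Po V 3) ^ k) • x ∈ M.gr (n + k) := by
  induction k with
  | zero => simpa using hx
  | succ k ih =>
    rw [pow_succ', mul_smul]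
    have := M.mul_mem i _ _ ih
    convert this using 2
    push_cast
    ring

theorem prod_smul_gr (M : GMod V 3) (s : Finset (Fin 3)) (k : ℕ) (n : ℤ) (x : M.M)
    (hx : x ∈ M.gr n) :
    ((∏ i ∈ s, (X i : Po V 3)) ^ k) • x ∈ M.gr (n + s.card * k) := by
  induction s using Finset.induction_on generalizing n x with
  | empty => simpa using hx
  | insert i s hi ih =>
    rw [Finset.prod_insert hi, mul_pow, mul_smul]
    have h1 := X_smul_gr M i k _ _ (ih n x hx)
    rw [Finset.card_insert_of_notMem hi]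
    convert h1 using 2
    push_cast
    ring

/-- a sequence is determined by one value -/
theorem seq_val {s : Finset (Fin 3)} {n : ℤ} {u : ℕ → M.M} (hu : u ∈ Seq M s n) :
    ∃ a0 : ℕ, (∀ a, a0 ≤ a → u a ∈ M.gr (n + s.card * (a : ℤ))) ∧
      ∀ a k, a0 ≤ a → u (a + k) = (∏ i ∈ s, (X i : Po V 3)) ^ k • u a := by
  obtain ⟨a0, h0⟩ := eventually_atTop.1 hu
  refine ⟨a0, fun a ha => (h0 a ha).1, ?_⟩
  intro a k ha
  induction k with
  | zero => simp
  | succ k ih =>
    rw [← add_assoc, (h0 (a + k) (by omega)).2, ih, pow_succ', mul_smul]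

/-- the sequence with a given value -/
def mk (s : Finset (Fin 3)) (a0 : ℕ) (m : M.M) : ℕ → M.M :=
  fun a => (∏ i ∈ s, (X i : Po V 3)) ^ (a - a0) • m

theorem mk_mem (s : Finset (Fin 3)) (a0 : ℕ) (m : M.M) (n : ℤ)
    (hm : m ∈ M.gr (n + s.card * (a0 : ℤ))) : mk s a0 m ∈ Seq M s n := by
  refine eventually_atTop.2 ⟨a0, fun a ha => ⟨?_, ?_⟩⟩
  · have h1 := prod_smul_gr M s (a - a0) _ m hm
    unfold mk
    convert h1 using 2
    push_cast [ha]
    ring
  · unfold mk
    rw [smul_smul, ← pow_succ']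
    congr 2
    omega

variable (b c : ℕ) (γ : Fin 3 → (M.M →ₗ[Po V 3] N.M))

/-- the comparison map -/
def Th (s : Finset (Fin 3)) (i : Fin 3) : (ℕ → M.M) →ₗ[V] (ℕ → N.M) where
  toFun u a := if a < c then 0 else (∏ l ∈ s.erase i, (X l : Po V 3)) ^ c • γ i (u (a - c))
  map_add' u v := by
    funext a
    by_cases h : a < c
    · simp [h]
    · simp [h]
  map_smul' r u := by
    funext a
    by_cases h : a < c
    · simp [h]
    · have h1 : γ i (r • u (a - c)) = r • γ i (u (a - c)) := by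
        rw [← IsScalarTower.algebraMap_smul (Po V 3) r (u (a - c)), map_smul,
          IsScalarTower.algebraMap_smul]
      simp only [h, if_false, Pi.smul_apply, h1, RingHom.id_apply]
      rw [smul_comm]

theorem Th_apply (s : Finset (Fin 3)) (i : Fin 3) (u : ℕ → M.M) (a : ℕ) :
    Th c γ s i u a = if a < c then 0 else
      (∏ l ∈ s.erase i, (X l : Po V 3)) ^ c • γ i (u (a - c)) := rfl

theorem Th_add (s : Finset (Fin 3)) (i : Fin 3) (u : ℕ → M.M) (a : ℕ) :
    Th c γ s i u (a + c) = (∏ l ∈ s.erase i, (X l : Po V 3)) ^ c • γ i (u a) := by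
  rw [Th_apply, if_neg (by omega), Nat.add_sub_cancel]

variable (hdeg : ∀ i (n : ℤ) x, x ∈ M.gr n → γ i x ∈ N.gr (n + c - b))
  (coc : ∀ i k x, (X k : Po V 3) ^ c • γ i x = (X i : Po V 3) ^ c • γ k x)
  (inj : ∀ i x, γ i x = 0 → ∃ j : ℕ, (X i : Po V 3) ^ j • x = 0)
  (surj : ∀ i y, ∃ (j : ℕ) (x : M.M), (X i : Po V 3) ^ j • y = γ i x)

include coc in
theorem indep {s : Finset (Fin 3)} {i k : Fin 3} (hi : i ∈ s) (hk : k ∈ s) (x : M.M) :
    (∏ l ∈ s.erase i, (X l : Po V 3)) ^ c • γ i x =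
      (∏ l ∈ s.erase k, (X l : Po V 3)) ^ c • γ k x := by
  by_cases hik : i = k
  · rw [hik]
  · have h1 : ∏ l ∈ s.erase i, (X l : Po V 3) =
        X k * ∏ l ∈ (s.erase i).erase k, (X l : Po V 3) :=
      (Finset.mul_prod_erase _ _ (Finset.mem_erase.2 ⟨fun h => hik h.symm, hk⟩)).symm
    have h2 : ∏ l ∈ s.erase k, (X l : Po V 3) =
        X i * ∏ l ∈ (s.erase i).erase k, (X l : Po V 3) := by
      rw [Finset.erase_right_comm]
      exact (Finset.mul_prod_erase _ _ (Finset.mem_erase.2 ⟨hik, hi⟩)).symm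
    rw [h1, h2, mul_pow, mul_pow, mul_comm, mul_comm (X i ^ c), mul_smul, mul_smul, coc]

include hdeg in
theorem Th_seq {s : Finset (Fin 3)} {i : Fin 3} (hi : i ∈ s) (n : ℤ) (u : ℕ → M.M)
    (hu : u ∈ Seq M s (n + b)) : Th c γ s i u ∈ Seq N s n := by
  obtain ⟨a0, h0, h1⟩ := seq_val hu
  refine eventually_atTop.2 ⟨a0 + c, fun a ha => ?_⟩
  obtain ⟨k, rfl⟩ := Nat.exists_eq_add_of_le ha
  have h2 : a0 + c + k = (a0 + k) + c := by omega
  have h3 : a0 + c + k + 1 = (a0 + k + 1) + c := by omega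
  rw [h3, h2, Th_add, Th_add]
  constructor
  · have h4 := prod_smul_gr N (s.erase i) c _ _ (hdeg i _ _ (h0 (a0 + k) (by omega)))
    have h5 : 1 ≤ s.card := Finset.card_pos.2 ⟨i, hi⟩
    rw [Finset.card_erase_of_mem hi] at h4
    convert h4 using 2
    push_cast [h5]
    ring
  · have h6 := h1 (a0 + k) 1 (by omega)
    rw [h6, pow_one, map_smul, smul_comm]

include inj in
theorem Th_inj {s : Finset (Fin 3)} {i : Fin 3} (hi : i ∈ s) (n : ℤ) (u : ℕ → M.M)
    (hu : u ∈ Seq M s n) (h : ∀ᶠ a in atTop, Th c γ s i u a = 0) :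
    ∀ᶠ a in atTop, u a = 0 := by
  obtain ⟨a0, h0, h1⟩ := seq_val hu
  obtain ⟨a1, h2⟩ := eventually_atTop.1 h
  have h3 := h2 (max a0 a1 + c) (by omega)
  rw [Th_add, ← map_smul] at h3
  obtain ⟨j, hj⟩ := inj i _ h3
  refine eventually_atTop.2 ⟨max a0 a1 + (c + j), fun a ha => ?_⟩
  obtain ⟨k, rfl⟩ := Nat.exists_eq_add_of_le ha
  rw [add_assoc, h1 _ (c + j + k) (le_max_left _ _)]
  have h4 : (∏ l ∈ s, (X l : Po V 3)) ^ (c + j + k) =
      ((X i : Po V 3) ^ (c + k) * (∏ l ∈ s.erase i, (X l : Po V 3)) ^ (j + k)) *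
        (X i ^ j * (∏ l ∈ s.erase i, (X l : Po V 3)) ^ c) := by
    rw [← Finset.mul_prod_erase _ _ hi, mul_pow]
    ring
  rw [h4, mul_smul, mul_smul (X i ^ j), hj, smul_zero]

include hdeg surj in
theorem Th_surj (hCMP : Stmt_CMP) {s : Finset (Fin 3)} {i : Fin 3} (hi : i ∈ s) (n : ℤ)
    (w : ℕ → N.M) (hw : w ∈ Seq N s n) :
    ∃ u ∈ Seq M s (n + b), ∀ᶠ a in atTop, Th c γ s i u a = w a := by
  obtain ⟨a0, h0, h1⟩ := seq_val hw
  obtain ⟨j, x, hx⟩ := surj i (w a0)
  obtain ⟨m1, m2, m3, m4, m5, m6, m7, m8, m9, m10⟩ := hCMP V 3 M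
  obtain ⟨n1, n2, n3, n4, n5, n6, n7, n8, n9, n10⟩ := hCMP V 3 N
  set d : ℤ := n + s.card * (a0 : ℤ) + j - c + b with hd
  have h2 : γ i (M.cmp d x) = (X i : Po V 3) ^ j • w a0 := by
    have h3 : N.cmp (d + c - b) (γ i x) = γ i (M.cmp d x) := by
      obtain ⟨S, hS1, hS2⟩ := m7 x
      let ch : N.M →+ N.M := AddMonoidHom.mk' (N.cmp (d + c - b)) (n4 (d + c - b))
      have h5 : ∀ k, k ≠ d → ch (γ i (M.cmp k x)) = 0 := by
        intro k hk
        exact n3 _ _ _ (hdeg i k _ (m1 k x)) (by omega)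
      have h6 : ch (γ i (M.cmp d x)) = γ i (M.cmp d x) := n2 _ _ (hdeg i d _ (m1 d x))
      change ch (γ i x) = _
      conv_lhs => rw [hS1]
      rw [map_sum, map_sum]
      by_cases hdS : d ∈ S
      · rw [Finset.sum_eq_single d (fun k _ hk => h5 k hk) (fun h => absurd hdS h), h6]
      · rw [hS2 d hdS, map_zero]
        exact Finset.sum_eq_zero fun k hk => h5 k (fun h => hdS (h ▸ hk))
    rw [← h3, ← hx]
    apply n2
    have h4 := X_smul_gr N i j _ _ (h0 a0 le_rfl)
    convert h4 using 2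
    rw [hd]
    ring
  set x' := M.cmp d x with hx'
  have hx'' : x' ∈ M.gr d := m1 d x
  have hcard : 1 ≤ s.card := Finset.card_pos.2 ⟨i, hi⟩
  refine ⟨mk s (a0 + j) ((∏ l ∈ s.erase i, (X l : Po V 3)) ^ j • (X i : Po V 3) ^ c • x'),
    mk_mem _ _ _ _ ?_, ?_⟩
  · have h5 := prod_smul_gr M (s.erase i) j _ _ (X_smul_gr M i c _ _ hx'')
    rw [Finset.card_erase_of_mem hi] at h5
    convert h5 using 2
    rw [hd]
    push_cast [hcard]
    ring
  · refine eventually_atTop.2 ⟨a0 + j + c, fun a ha => ?_⟩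
    obtain ⟨k, rfl⟩ := Nat.exists_eq_add_of_le ha
    have h6 : a0 + j + c + k = (a0 + j + k) + c := by omega
    have h7 : a0 + j + k + c = a0 + (j + k + c) := by omega
    rw [h6, Th_add, h7, h1 a0 _ le_rfl]
    unfold mk
    have h8 : a0 + j + k - (a0 + j) = k := by omega
    rw [h8, map_smul, map_smul, map_smul, h2, smul_smul, smul_smul, smul_smul, smul_smul]
    congr 1
    rw [← Finset.mul_prod_erase _ _ hi, mul_pow, mul_pow]
    ring

include coc in
theorem Th_res {s : Finset (Fin 3)} {i m i' : Fin 3} (hi : i ∈ s) (hm : m ∉ s)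
    (hi' : i' ∈ insert m s) (u : ℕ → M.M) (a : ℕ) :
    Th c γ (insert m s) i' (fun a => (X m : Po V 3) ^ a • u a) a =
      (X m : Po V 3) ^ a • Th c γ s i u a := by
  rw [Th_apply, Th_apply]
  by_cases h : a < c
  · rw [if_pos h, if_pos h, smul_zero]
  · rw [if_neg h, if_neg h, indep c γ coc hi' (Finset.mem_insert_of_mem hi)]
    have h1 : i ≠ m := fun h => hm (h ▸ hi)
    have h2 : (insert m s).erase i = insert m (s.erase i) := by
      rw [Finset.erase_insert_of_ne h1.symm]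
    rw [h2, Finset.prod_insert (fun h => hm (Finset.mem_of_mem_erase h)), map_smul, smul_smul,
      smul_smul, mul_pow]
    congr 1
    have h3 : a = c + (a - c) := by omega
    conv_rhs => rw [h3, pow_add]
    ring

/-- `Θ` on `C⁰` -/
def T0 (f : Fin 3 → ℕ → M.M) : Fin 3 → ℕ → N.M := fun i => Th c γ {i} i (f i)

/-- an element of `univ.erase k` -/
def e1 : Fin 3 → Fin 3 := ![1, 0, 0]

/-- `Θ` on `C¹` -/
def T1 : (Fin 3 → ℕ → M.M) →ₗ[V] (Fin 3 → ℕ → N.M) :=
  LinearMap.pi fun k => Th c γ (Finset.univ.erase k) (e1 k) ∘ₗ LinearMap.proj k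

theorem T1_apply (g : Fin 3 → ℕ → M.M) (k : Fin 3) :
    T1 c γ g k = Th c γ (Finset.univ.erase k) (e1 k) (g k) := rfl

theorem e1_mem (k : Fin 3) : e1 k ∈ Finset.univ.erase k := by
  fin_cases k <;> decide

/-- `Θ` on `C²` -/
def T2 : (ℕ → M.M) →ₗ[V] (ℕ → N.M) := Th c γ Finset.univ 0

include coc in
theorem Th_res' {s s' : Finset (Fin 3)} {i m i' : Fin 3} (hs : s' = insert m s) (hi : i ∈ s)
    (hm : m ∉ s) (hi' : i' ∈ s') (u : ℕ → M.M) (a : ℕ) :
    Th c γ s' i' (fun a => (X m : Po V 3) ^ a • u a) a = (X m : Po V 3) ^ a • Th c γ s i u a := by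
  subst hs
  exact Th_res c γ coc hi hm hi' u a

include coc in
theorem T_dz (f : Fin 3 → ℕ → M.M) (k : Fin 3) (a : ℕ) :
    T1 c γ (dz M f) k a = dz N (T0 c γ f) k a := by
  rw [T1_apply]
  fin_cases k
  · change Th c γ (Finset.univ.erase 0) 1 ((fun a => (X 1 : Po V 3) ^ a • f 2 a) -
      (fun a => (X 2 : Po V 3) ^ a • f 1 a)) a =
      (X 1 : Po V 3) ^ a • Th c γ {2} 2 (f 2) a - (X 2 : Po V 3) ^ a • Th c γ {1} 1 (f 1) a
    rw [map_sub, Pi.sub_apply,
      Th_res' c γ coc (s := {2}) (i := 2) (by decide) (by decide) (by decide) (by decide),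
      Th_res' c γ coc (s := {1}) (i := 1) (by decide) (by decide) (by decide) (by decide)]
  · change Th c γ (Finset.univ.erase 1) 0 ((fun a => (X 0 : Po V 3) ^ a • f 2 a) -
      (fun a => (X 2 : Po V 3) ^ a • f 0 a)) a =
      (X 0 : Po V 3) ^ a • Th c γ {2} 2 (f 2) a - (X 2 : Po V 3) ^ a • Th c γ {0} 0 (f 0) a
    rw [map_sub, Pi.sub_apply,
      Th_res' c γ coc (s := {2}) (i := 2) (by decide) (by decide) (by decide) (by decide),
      Th_res' c γ coc (s := {0}) (i := 0) (by decide) (by decide) (by decide) (by decide)]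
  · change Th c γ (Finset.univ.erase 2) 0 ((fun a => (X 0 : Po V 3) ^ a • f 1 a) -
      (fun a => (X 1 : Po V 3) ^ a • f 0 a)) a =
      (X 0 : Po V 3) ^ a • Th c γ {1} 1 (f 1) a - (X 1 : Po V 3) ^ a • Th c γ {0} 0 (f 0) a
    rw [map_sub, Pi.sub_apply,
      Th_res' c γ coc (s := {1}) (i := 1) (by decide) (by decide) (by decide) (by decide),
      Th_res' c γ coc (s := {0}) (i := 0) (by decide) (by decide) (by decide) (by decide)]

include coc in
theorem T_dn (g : Fin 3 → ℕ → M.M) (a : ℕ) : T2 c γ (dn M g) a = dn N (T1 c γ g) a := by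
  change Th c γ Finset.univ 0 ((fun a => (X 0 : Po V 3) ^ a • g 0 a) -
      (fun a => (X 1 : Po V 3) ^ a • g 1 a) + (fun a => (X 2 : Po V 3) ^ a • g 2 a)) a =
      (X 0 : Po V 3) ^ a • Th c γ (Finset.univ.erase 0) 1 (g 0) a -
        (X 1 : Po V 3) ^ a • Th c γ (Finset.univ.erase 1) 0 (g 1) a +
        (X 2 : Po V 3) ^ a • Th c γ (Finset.univ.erase 2) 0 (g 2) a
  rw [map_add, map_sub, Pi.add_apply, Pi.sub_apply,
    Th_res' c γ coc (s := Finset.univ.erase 0) (i := 1) (by decide) (by decide) (by decide)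
      (by decide),
    Th_res' c γ coc (s := Finset.univ.erase 1) (i := 0) (by decide) (by decide) (by decide)
      (by decide),
    Th_res' c γ coc (s := Finset.univ.erase 2) (i := 0) (by decide) (by decide) (by decide)
      (by decide)]

theorem Th_congr (s : Finset (Fin 3)) (i : Fin 3) (u v : ℕ → M.M)
    (h : ∀ᶠ a in atTop, u a = v a) : ∀ᶠ a in atTop, Th c γ s i u a = Th c γ s i v a := by
  obtain ⟨a0, h0⟩ := eventually_atTop.1 h
  refine eventually_atTop.2 ⟨a0 + c, fun a ha => ?_⟩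
  obtain ⟨k, rfl⟩ := Nat.exists_eq_add_of_le ha
  have h2 : a0 + c + k = (a0 + k) + c := by omega
  rw [h2, Th_add, Th_add, h0 _ (by omega)]

theorem res_mem {s s' : Finset (Fin 3)} {m : Fin 3} (hs : s' = insert m s) (hm : m ∉ s) (n : ℤ)
    (u : ℕ → M.M) (hu : u ∈ Seq M s n) : (fun a => (X m : Po V 3) ^ a • u a) ∈ Seq M s' n := by
  subst hs
  filter_upwards [hu] with a ha
  refine ⟨?_, ?_⟩
  · have h1 := X_smul_gr M m a _ _ ha.1
    convert h1 using 2
    rw [Finset.card_insert_of_notMem hm]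
    push_cast
    ring
  · rw [ha.2, Finset.prod_insert hm, smul_smul, smul_smul]
    congr 1
    ring

theorem dz_mem (n : ℤ) (f : Fin 3 → ℕ → M.M) (hf : ∀ i, f i ∈ Seq M {i} n) (k : Fin 3) :
    dz M f k ∈ Seq M (Finset.univ.erase k) n := by
  fin_cases k
  · exact Submodule.sub_mem _ (res_mem (by decide) (by decide) n _ (hf 2))
      (res_mem (by decide) (by decide) n _ (hf 1))
  · exact Submodule.sub_mem _ (res_mem (by decide) (by decide) n _ (hf 2))
      (res_mem (by decide) (by decide) n _ (hf 0))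
  · exact Submodule.sub_mem _ (res_mem (by decide) (by decide) n _ (hf 1))
      (res_mem (by decide) (by decide) n _ (hf 0))

theorem dn_mem (n : ℤ) (g : Fin 3 → ℕ → M.M) (hg : ∀ k, g k ∈ Seq M (Finset.univ.erase k) n) :
    dn M g ∈ Seq M Finset.univ n :=
  Submodule.add_mem _ (Submodule.sub_mem _ (res_mem (by decide) (by decide) n _ (hg 0))
    (res_mem (by decide) (by decide) n _ (hg 1))) (res_mem (by decide) (by decide) n _ (hg 2))

theorem dz_congr (f f' : Fin 3 → ℕ → M.M) (h : ∀ i, ∀ᶠ a in atTop, f i a = f' i a) (k : Fin 3) :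
    ∀ᶠ a in atTop, dz M f k a = dz M f' k a := by
  filter_upwards [h 0, h 1, h 2] with a h0 h1 h2
  fin_cases k <;> simp [dz, h0, h1, h2]

theorem dn_congr (g g' : Fin 3 → ℕ → M.M) (h : ∀ i, ∀ᶠ a in atTop, g i a = g' i a) :
    ∀ᶠ a in atTop, dn M g a = dn M g' a := by
  filter_upwards [h 0, h 1, h 2] with a h0 h1 h2
  simp [dn, h0, h1, h2]

theorem quot_len {A B : Type} [AddCommGroup A] [Module V A] [AddCommGroup B] [Module V B]
    (Φ : A →ₗ[V] B) (P : Submodule V A) (Q : Submodule V B) (h1 : ∀ x, Φ x ∈ Q ↔ x ∈ P)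
    (h2 : ∀ y, ∃ x, y - Φ x ∈ Q) : Module.length V (B ⧸ Q) = Module.length V (A ⧸ P) := by
  have e : (A ⧸ P) ≃ₗ[V] (B ⧸ Q) := by
    refine LinearEquiv.ofBijective (P.mapQ Q Φ (fun x hx => (h1 x).2 hx)) ⟨?_, ?_⟩
    · rw [← LinearMap.ker_eq_bot, LinearMap.ker_eq_bot']
      intro z hz
      obtain ⟨x, rfl⟩ := Submodule.mkQ_surjective P z
      rw [Submodule.mkQ_apply, Submodule.mapQ_apply, Submodule.Quotient.mk_eq_zero, h1] at hz
      rw [Submodule.mkQ_apply, Submodule.Quotient.mk_eq_zero]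
      exact hz
    · intro z
      obtain ⟨y, rfl⟩ := Submodule.mkQ_surjective Q z
      obtain ⟨x, hx⟩ := h2 y
      refine ⟨P.mkQ x, ?_⟩
      rw [Submodule.mkQ_apply, Submodule.mapQ_apply, Submodule.mkQ_apply]
      exact ((Submodule.Quotient.eq Q).2 hx).symm
  exact e.length_eq.symm

include hdeg coc inj surj in
theorem main (hCMP : Stmt_CMP) (n : ℤ) : h1 N n = h1 M (n + b) ∧ h2 N n = h2 M (n + b) := by
  have hT1 : ∀ g ∈ Z1 M (n + b), T1 c γ g ∈ Z1 N n := by
    rintro g ⟨hg1, hg2⟩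
    refine ⟨fun k => Th_seq b c γ hdeg (e1_mem k) n _ (hg1 k), ?_⟩
    have h := Th_congr c γ Finset.univ 0 (dn M g) 0 hg2
    filter_upwards [h] with a ha
    rw [← T_dn c γ coc]
    rw [map_zero] at ha
    exact ha
  have hT2 : ∀ f ∈ Seq M Finset.univ (n + b), T2 c γ f ∈ Seq N Finset.univ n := by
    intro f hf
    exact Th_seq b c γ hdeg (Finset.mem_univ 0) n _ hf
  refine ⟨?_, ?_⟩
  · let Φ : Z1 M (n + b) →ₗ[V] Z1 N n := (T1 c γ).restrict hT1
    refine quot_len Φ _ _ ?_ ?_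
    · rintro ⟨g, hg⟩
      change T1 c γ g ∈ B1 N n ↔ g ∈ B1 M (n + b)
      constructor
      · rintro ⟨f', hf1, hf2⟩
        choose f hf3 hf4 using fun i => Th_surj b c γ hdeg surj hCMP
          (Finset.mem_singleton_self i) n (f' i) (hf1 i)
        refine ⟨f, hf3, ?_⟩
        rw [eventually_all]
        intro k
        have h5 := dz_congr (T0 c γ f) f' hf4 k
        have h6 : ∀ᶠ a in atTop, Th c γ (Finset.univ.erase k) (e1 k) (g k - dz M f k) a = 0 := by
          filter_upwards [h5, hf2] with a h7 h8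
          rw [map_sub, Pi.sub_apply, sub_eq_zero, ← T1_apply, ← T1_apply, T_dz c γ coc, h7]
          exact h8 k
        have h9 := Th_inj c γ inj (e1_mem k) (n + b) _
          (Submodule.sub_mem _ (hg.1 k) (dz_mem (n + b) f hf3 k)) h6
        filter_upwards [h9] with a ha
        exact sub_eq_zero.1 ha
      · rintro ⟨f, hf1, hf2⟩
        refine ⟨T0 c γ f, fun i => Th_seq b c γ hdeg (Finset.mem_singleton_self i) n _ (hf1 i),
          ?_⟩
        rw [eventually_all] at hf2 ⊢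
        intro k
        have h5 := Th_congr c γ (Finset.univ.erase k) (e1 k) (g k) (dz M f k) (hf2 k)
        filter_upwards [h5] with a ha
        rw [← T_dz c γ coc]
        exact ha
    · rintro ⟨g', hg1, hg2⟩
      choose g hg3 hg4 using fun k => Th_surj b c γ hdeg surj hCMP (e1_mem k) n (g' k) (hg1 k)
      have h5 : ∀ᶠ a in atTop, Th c γ Finset.univ 0 (dn M g) a = 0 := by
        have h6 := dn_congr (T1 c γ g) g' hg4
        filter_upwards [h6, hg2] with a h7 h8
        have h9 := T_dn c γ coc g a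
        rw [h7, h8] at h9
        exact h9
      have h10 := Th_inj c γ inj (Finset.mem_univ 0) (n + b) _ (dn_mem (n + b) g hg3) h5
      refine ⟨⟨g, hg3, h10⟩, ?_⟩
      change g' - T1 c γ g ∈ B1 N n
      refine ⟨0, fun i => Submodule.zero_mem _, ?_⟩
      rw [eventually_all]
      intro k
      filter_upwards [hg4 k] with a ha
      have h11 : dz N 0 k a = 0 := by
        fin_cases k <;> simp [dz]
      rw [h11, Pi.sub_apply, Pi.sub_apply, sub_eq_zero]
      exact ha.symm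
  · let Φ : Seq M Finset.univ (n + b) →ₗ[V] Seq N Finset.univ n := (T2 c γ).restrict hT2
    refine quot_len Φ _ _ ?_ ?_
    · rintro ⟨f, hf⟩
      change T2 c γ f ∈ B2 N n ↔ f ∈ B2 M (n + b)
      constructor
      · rintro ⟨g', hg1, hg2⟩
        choose g hg3 hg4 using fun k => Th_surj b c γ hdeg surj hCMP (e1_mem k) n (g' k) (hg1 k)
        refine ⟨g, hg3, ?_⟩
        have h6 := dn_congr (T1 c γ g) g' hg4
        have h5 : ∀ᶠ a in atTop, Th c γ Finset.univ 0 (f - dn M g) a = 0 := by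
          filter_upwards [h6, hg2] with a h7 h8
          rw [map_sub, Pi.sub_apply, sub_eq_zero]
          have h9 := T_dn c γ coc g a
          rw [h7, ← h8] at h9
          exact h9.symm
        have h10 := Th_inj c γ inj (Finset.mem_univ 0) (n + b) _
          (Submodule.sub_mem _ hf (dn_mem (n + b) g hg3)) h5
        filter_upwards [h10] with a ha
        exact sub_eq_zero.1 ha
      · rintro ⟨g, hg1, hg2⟩
        refine ⟨T1 c γ g, fun k => Th_seq b c γ hdeg (e1_mem k) n _ (hg1 k), ?_⟩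
        have h5 := Th_congr c γ Finset.univ 0 f (dn M g) hg2
        filter_upwards [h5] with a ha
        rw [← T_dn c γ coc]
        exact ha
    · rintro ⟨f', hf⟩
      obtain ⟨f, hf1, hf2⟩ := Th_surj b c γ hdeg surj hCMP (Finset.mem_univ 0) n f' hf
      refine ⟨⟨f, hf1⟩, ?_⟩
      change f' - T2 c γ f ∈ B2 N n
      refine ⟨0, fun k => Submodule.zero_mem _, ?_⟩
      filter_upwards [hf2] with a ha
      have h11 : dn N 0 a = 0 := by simp [dn]
      rw [h11, Pi.sub_apply, sub_eq_zero]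
      exact ha.symm

end SHI_

theorem shi_proof (hCMP : Stmt_CMP) (_hDEG : Stmt_DEG) : Stmt_SHI := by
  intro V _ M N b c γ hdeg coc inj surj n
  exact SHI_.main b c γ hdeg coc inj surj hCMP n

end

end Pool.Agent.GML
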