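import Pool.Agent.GML.Stmts

/-!
# GML, module SUB: homogeneous submodules are graded modules
-/

set_option autoImplicit false

namespace Pool.Agent.GML

open MvPolynomial Filter

namespace SUB_

lemma internal {V M' : Type} [CommRing V] [AddCommGroup M'] [Module V M']
    (gr : ℤ → Submodule V M') (c : ℤ → M' → M') (hadd : ∀ n x y, c n (x + y) = c n x + c n y)
    (h1 : ∀ n x, x ∈ gr n → c n x = x) (h2 : ∀ m n x, x ∈ gr n → m ≠ n → c m x = 0)
    (h3 : ∀ x, ∃ S : Finset ℤ, x = ∑ n ∈ S, c n x) (h4 : ∀ n x, c n x ∈ gr n) :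
    DirectSum.IsInternal gr := by
  classical
  have c0 : ∀ n, c n 0 = 0 := by
    intro n
    have h := hadd n 0 0
    rw [add_zero] at h
    have h' := congrArg (fun t => t - c n 0) h
    simpa using h'.symm
  have hkey : ∀ (z : DirectSum ℤ fun n => gr n) (n : ℤ),
      c n (DirectSum.coeLinearMap gr z) = (z n : M') := by
    intro z n
    induction z using DirectSum.induction_on with
    | zero =>
      rw [map_zero, c0]
      rfl
    | of i x =>
      rw [← DirectSum.lof_eq_of V, DirectSum.coeLinearMap_lof]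
      by_cases hin : n = i
      · subst hin
        rw [DirectSum.lof_apply]
        exact h1 n _ x.2
      · rw [h2 n i _ x.2 hin, DirectSum.lof_eq_of, DirectSum.of_eq_of_ne _ _ _ hin]
        rfl
    | add x y hx hy =>
      rw [map_add, hadd, hx, hy]
      rfl
  refine ⟨?_, ?_⟩
  · have hinj : Function.Injective (DirectSum.coeLinearMap gr) := by
      rw [injective_iff_map_eq_zero]
      intro z hz
      refine DFinsupp.ext fun n => ?_
      have h := hkey z n
      rw [hz, c0] at h
      exact Subtype.ext h.symm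
    exact hinj
  · intro x
    obtain ⟨S, hS⟩ := h3 x
    refine ⟨∑ n ∈ S, DirectSum.lof V ℤ (fun n => gr n) n ⟨c n x, h4 n x⟩, ?_⟩
    show DirectSum.coeLinearMap gr _ = x
    rw [map_sum]
    conv_rhs => rw [hS]
    refine Finset.sum_congr rfl fun n _ => ?_
    rw [DirectSum.coeLinearMap_lof]

end SUB_

open SUB_ in
theorem sub_proof (hCMP : Stmt_CMP) : Stmt_SUB := by
  classical
  intro V _ r M N hN
  obtain ⟨c1, c2, c3, c4, c5, c6, c7, c8, c9, c10⟩ := hCMP V r M
  have hcl := (c9 N).1 hN
  obtain ⟨gr, hgr⟩ : ∃ gr : ℤ → Submodule V N, ∀ n (x : N), x ∈ gr n ↔ (x : M.M) ∈ M.gr n :=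
    ⟨fun n => (M.gr n).comap (N.subtype.restrictScalars V), fun n x => Iff.rfl⟩
  have hint : DirectSum.IsInternal gr := by
    refine internal gr (fun n x => ⟨M.cmp n x, hcl x x.2 n⟩) ?_ ?_ ?_ ?_ ?_
    · intro n x y
      exact Subtype.ext (c4 n x y)
    · intro n x hx
      exact Subtype.ext (c2 n x ((hgr n x).1 hx))
    · intro m n x hx hmn
      exact Subtype.ext (c3 m n x ((hgr n x).1 hx) hmn)
    · intro x
      obtain ⟨S, hS, -⟩ := c7 (x : M.M)
      refine ⟨S, Subtype.ext ?_⟩
      rw [AddSubmonoidClass.coe_finsetSum]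
      exact hS
    · intro n x
      exact (hgr n _).2 (c1 n x)
  refine ⟨{ M := N, gr := gr, int := hint, mul_mem := ?_ }, ⟨N.subtype, ?_⟩, ?_, ?_, ?_⟩
  · intro i n x hx
    exact (hgr _ _).2 (M.mul_mem i n x ((hgr n x).1 hx))
  · intro n x hx
    exact (hgr n x).1 hx
  · exact N.injective_subtype
  · exact N.range_subtype
  · intro n x hx
    exact (hgr n x).2 hx

end Pool.Agent.GML
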