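import Pool.Agent.GML.Stmts

namespace Pool.Agent.GML

open MvPolynomial Filter

noncomputable section

namespace TFG_

variable {κ : Type} [Field κ] {r : ℕ}

lemma C_smul' (M : GMod κ r) (a : κ) (y : M.M) : (C a : Po κ r) • y = a • y := by
  rw [← MvPolynomial.algebraMap_eq, algebraMap_smul]

lemma X_pow_mem (M : GMod κ r) (i : Fin r) (k : ℕ) : ∀ (m : ℤ) (x : M.M), x ∈ M.gr m →
    ((X i : Po κ r) ^ k) • x ∈ M.gr (m + k) := by
  induction k with
  | zero => intro m x hx; simpa using hx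
  | succ k ih =>
    intro m x hx
    have h1 := M.mul_mem i _ _ (ih m x hx)
    rw [smul_smul, ← pow_succ'] at h1
    have e : m + (k : ℤ) + 1 = m + ((k + 1 : ℕ) : ℤ) := by push_cast; ring
    rw [e] at h1
    exact h1

lemma prod_mem (M : GMod κ r) (s : Fin r → ℕ) (T : Finset (Fin r)) :
    ∀ (m : ℤ) (x : M.M), x ∈ M.gr m →
    ((∏ i ∈ T, (X i : Po κ r) ^ (s i))) • x ∈ M.gr (m + ((∑ i ∈ T, s i : ℕ) : ℤ)) := by
  classical
  induction T using Finset.induction_on with
  | empty => intro m x hx; simpa using hx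
  | insert i T hi ih =>
    intro m x hx
    rw [Finset.prod_insert hi, Finset.sum_insert hi, mul_smul]
    have h1 := X_pow_mem M i (s i) _ _ (ih m x hx)
    have e : m + ((∑ i ∈ T, s i : ℕ) : ℤ) + (s i : ℤ) = m + ((s i + ∑ i ∈ T, s i : ℕ) : ℤ) := by
      push_cast; ring
    rw [e] at h1
    exact h1

lemma hom_mem (M : GMod κ r) (p : Po κ r) (j : ℕ) (hp : p.IsHomogeneous j) (m : ℤ) (x : M.M)
    (hx : x ∈ M.gr m) : p • x ∈ M.gr (m + j) := by
  rw [p.as_sum, Finset.sum_smul]
  apply Submodule.sum_mem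
  intro s hs
  have h1 : coeff s p ≠ 0 := by simpa using hs
  have h2 : s.degree = j := by
    have := hp h1
    rw [← this, Finsupp.degree_eq_weight_one]
    rfl
  rw [MvPolynomial.monomial_eq, mul_smul, C_smul']
  apply Submodule.smul_mem
  have h3 := prod_mem M s s.support m x hx
  rw [← h2]
  exact h3

lemma deg_of_gen (hCMP : Stmt_CMP) (M N : GMod κ r) {ι : Type} (x : ι → M.M) (d : ι → ℤ)
    (hx : ∀ i, x i ∈ M.gr (d i)) (hspan : Submodule.span (Po κ r) (Set.range x) = ⊤)
    (g : M.M →ₗ[Po κ r] N.M) (hg : ∀ i, g (x i) ∈ N.gr (d i)) :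
    ∀ n y, y ∈ M.gr n → g y ∈ N.gr n := by
  obtain ⟨-, c2, c3, c4, c5, c6, -, -, -, -⟩ := hCMP κ r M
  obtain ⟨e1, e2, e3, e4, e5, e6, -, -, -, -⟩ := hCMP κ r N
  have c0 : ∀ n, M.cmp n 0 = 0 := fun n => by
    have := c4 n 0 0
    rw [add_zero] at this
    exact left_eq_add.1 this
  have e0 : ∀ n, N.cmp n 0 = 0 := fun n => by
    have := e4 n 0 0
    rw [add_zero] at this
    exact left_eq_add.1 this
  have key : ∀ y : M.M, ∀ n, N.cmp n (g y) = g (M.cmp n y) := by
    have hX : ∀ (p : Po κ r) (y : M.M), (∀ n, N.cmp n (g y) = g (M.cmp n y)) →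
        ∀ n, N.cmp n (g (p • y)) = g (M.cmp n (p • y)) := by
      intro p
      induction p using MvPolynomial.induction_on with
      | C a =>
        intro y hy n
        rw [C_smul', c5, ← C_smul', map_smul, C_smul', e5, hy, ← C_smul', ← map_smul, ← C_smul']
      | add p q hp hq =>
        intro y hy n
        rw [add_smul, map_add, e4, c4, map_add, hp y hy, hq y hy]
      | mul_X p i hp =>
        intro y hy n
        rw [mul_comm, mul_smul, map_smul]
        obtain ⟨m, rfl⟩ : ∃ m, n = m + 1 := ⟨n - 1, by ring⟩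
        rw [e6, c6, LinearMap.map_smul g (X i) (M.cmp m (p • y)), hp y hy]
    intro y
    have hy : y ∈ Submodule.span (Po κ r) (Set.range x) := by rw [hspan]; trivial
    induction hy using Submodule.span_induction with
    | mem y hy =>
      obtain ⟨i, rfl⟩ := hy
      intro n
      by_cases h : n = d i
      · rw [h, c2 _ _ (hx i), e2 _ _ (hg i)]
      · rw [c3 _ _ _ (hx i) h, e3 _ _ _ (hg i) h, map_zero]
    | zero => intro n; rw [map_zero, c0, e0, map_zero]
    | add y z _ _ hy hz => intro n; rw [map_add, e4, c4, map_add, hy, hz]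
    | smul p y _ hy => exact hX p y hy
  intro n y hy
  have := key y n
  rw [c2 _ _ hy] at this
  rw [← this]
  exact e1 _ _

/-- homogeneous generators -/
lemma gens (hCMP : Stmt_CMP) (M : GMod κ r) (hM : Module.Finite (Po κ r) M.M) :
    ∃ (k : ℕ) (x : Fin k → M.M) (d : Fin k → ℤ), (∀ i, x i ∈ M.gr (d i)) ∧
      Submodule.span (Po κ r) (Set.range x) = ⊤ := by
  classical
  obtain ⟨c1, -, -, -, -, -, c7, -, -, -⟩ := hCMP κ r M
  obtain ⟨S, hS⟩ := hM.fg_top
  choose T hT _ using c7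
  set W : Finset (Σ _ : M.M, ℤ) := S.sigma T with hW
  set e := W.equivFin with he
  refine ⟨W.card, fun i => M.cmp (e.symm i).1.2 (e.symm i).1.1, fun i => (e.symm i).1.2,
    fun i => c1 _ _, ?_⟩
  rw [eq_top_iff, ← hS, Submodule.span_le]
  intro s hs
  show s ∈ _
  rw [hT s]
  apply Submodule.sum_mem
  intro n hn
  apply Submodule.subset_span
  have hw : (⟨s, n⟩ : Σ _ : M.M, ℤ) ∈ W := Finset.mem_sigma.2 ⟨hs, hn⟩
  refine ⟨e ⟨_, hw⟩, ?_⟩
  simp

/-- homogeneous annihilator of a homogeneous torsion element -/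
lemma ann (hCMP : Stmt_CMP) (M : GMod κ r) (x : M.M) (d : ℤ) (hx : x ∈ M.gr d) (f : Po κ r)
    (hf : f ≠ 0) (hfx : f • x = 0) :
    ∃ (e : ℕ) (h : Po κ r), h ≠ 0 ∧ h.IsHomogeneous e ∧ h • x = 0 := by
  classical
  obtain ⟨-, c2, c3, c4, -, -, -, -, -, -⟩ := hCMP κ r M
  have c0 : ∀ n, M.cmp n 0 = 0 := fun n => by
    have := c4 n 0 0
    rw [add_zero] at this
    exact left_eq_add.1 this
  have csum : ∀ n (T : Finset ℕ) (y : ℕ → M.M), M.cmp n (∑ j ∈ T, y j) = ∑ j ∈ T, M.cmp n (y j) := by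
    intro n T y
    induction T using Finset.induction_on with
    | empty => simpa using c0 n
    | insert a T ha ih => rw [Finset.sum_insert ha, Finset.sum_insert ha, c4, ih]
  have hex : ∃ j, homogeneousComponent j f ≠ 0 := by
    by_contra h
    push Not at h
    apply hf
    rw [← sum_homogeneousComponent f]
    exact Finset.sum_eq_zero fun j _ => h j
  obtain ⟨j, hj⟩ := hex
  refine ⟨j, homogeneousComponent j f, hj, homogeneousComponent_isHomogeneous j f, ?_⟩
  have h1 : ∑ i ∈ Finset.range (f.totalDegree + 1), homogeneousComponent i f • x = 0 := by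
    rw [← Finset.sum_smul, sum_homogeneousComponent, hfx]
  have h2 := congrArg (M.cmp (d + j)) h1
  rw [csum, c0] at h2
  have hmem : ∀ i : ℕ, homogeneousComponent i f • x ∈ M.gr (d + i) := fun i =>
    hom_mem M _ i (homogeneousComponent_isHomogeneous i f) d x hx
  have h3 : ∀ i : ℕ, i ≠ j → M.cmp (d + j) (homogeneousComponent i f • x) = 0 := fun i hi =>
    c3 _ _ _ (hmem i) (by
      intro h
      apply hi
      have : (j : ℤ) = i := by linarith
      exact_mod_cast this.symm)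
  by_cases hjr : j ∈ Finset.range (f.totalDegree + 1)
  · rw [Finset.sum_eq_single j (fun i _ hi => h3 i hi) (fun h => absurd hjr h), c2 _ _ (hmem j)] at h2
    exact h2
  · exfalso
    apply hj
    apply homogeneousComponent_eq_zero
    simpa using hjr

lemma choose_bd (a e : ℕ) : (a + e).choose 2 ≤ a.choose 2 + a * e + e ^ 2 := by
  induction e with
  | zero => simp
  | succ e ih =>
    have h1 : (a + (e + 1)).choose 2 = (a + e) + (a + e).choose 2 := by
      rw [← add_assoc, Nat.choose_succ_succ' (a + e) 1, Nat.choose_one_right]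
    rw [h1]
    nlinarith

end TFG_

open TFG_

theorem tfg_proof (hFRX : Stmt_FRX) (hFRA : Stmt_FRA) (hTOR : Stmt_TOR) (hLES : Stmt_LES)
    (hQUO : Stmt_QUO) (hSUB : Stmt_SUB) (hDEG : Stmt_DEG) (hCMP : Stmt_CMP) : Stmt_TFG := by
  classical
  intro κ _ M hM htor
  obtain ⟨k, x, d, hx, hspan⟩ := gens hCMP M hM
  have hann : ∀ i, ∃ (e : ℕ) (h : Po κ 3), h ≠ 0 ∧ h.IsHomogeneous e ∧ h • x i = 0 := by
    intro i
    obtain ⟨f, hf, hfx⟩ := htor (x i)
    exact ann hCMP M (x i) (d i) (hx i) f hf hfx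
  choose e' h' hh0 hhh hhx using hann
  set f : Po κ 3 := ∏ i, h' i with hf
  set e : ℕ := ∑ i, e' i with he
  have hf0 : f ≠ 0 := Finset.prod_ne_zero_iff.2 fun i _ => hh0 i
  have hfh : f.IsHomogeneous e := MvPolynomial.IsHomogeneous.prod _ _ _ fun i _ => hhh i
  have hfx : ∀ i, f • x i = 0 := by
    intro i
    obtain ⟨q, hq⟩ := Finset.dvd_prod_of_mem h' (Finset.mem_univ i)
    rw [hf, hq, mul_comm, mul_smul, hhx, smul_zero]
  have hfM : ∀ y : M.M, f • y = 0 := by
    intro y
    have hy : y ∈ Submodule.span (Po κ 3) (Set.range x) := by rw [hspan]; trivial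
    induction hy using Submodule.span_induction with
    | mem y hy => obtain ⟨i, rfl⟩ := hy; exact hfx i
    | zero => exact smul_zero _
    | add y z _ _ hy hz => rw [smul_add, hy, hz, add_zero]
    | smul p y _ hy => rw [smul_comm, hy, smul_zero]
  -- the free modules
  obtain ⟨P0, b, hb⟩ := hFRX κ 3 k d
  obtain ⟨P1, b', hb'⟩ := hFRX κ 3 k (fun i => d i + e)
  set φ : P1.M →ₗ[Po κ 3] P0.M := b'.constr (Po κ 3) (fun i => f • b i) with hφ
  have hφb : ∀ i, φ (b' i) = f • b i := fun i => by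
    rw [hφ, Module.Basis.constr_basis]
  have hφd : ∀ n y, y ∈ P1.gr n → φ y ∈ P0.gr n :=
    deg_of_gen hCMP P1 P0 b' (fun i => d i + e) hb' b'.span_eq φ (fun i => by
      rw [hφb]; exact hom_mem P0 f e hfh _ _ (hb i))
  set Φ : GHom P1 P0 := ⟨φ, hφd⟩ with hΦ
  have hφi : Function.Injective φ := by
    rw [injective_iff_map_eq_zero]
    intro y hy
    rw [hφ, Module.Basis.constr_apply_fintype] at hy
    have hy' : ∑ i, (b'.equivFun y i * f) • b i = 0 := by
      rw [← hy]
      apply Finset.sum_congr rfl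
      intro i _
      rw [mul_smul]
    have h1 := (Fintype.linearIndependent_iff.1 b.linearIndependent) _ hy'
    have h2 : b'.equivFun y = 0 := by
      funext i
      rcases mul_eq_zero.1 (h1 i) with h | h
      · exact h
      · exact absurd h hf0
    exact b'.equivFun.map_eq_zero_iff.1 h2
  have hΦhom := (hDEG κ 3 P1 P0 Φ).2.2.2.1
  obtain ⟨P, π, hπs, hπk, hπd⟩ := hQUO κ 3 P0 (LinearMap.range Φ.f) hΦhom
  have hSES : SES Φ π := ⟨hφi, LinearMap.exact_iff.2 hπk, hπs⟩
  have hfP : ∀ y : P.M, f • y = 0 := by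
    intro y
    obtain ⟨z, rfl⟩ := hπs y
    rw [← map_smul]
    have hz : f • z ∈ LinearMap.ker π.f := by
      rw [hπk]
      refine ⟨∑ i, b.equivFun z i • b' i, ?_⟩
      show φ _ = _
      rw [map_sum]
      conv_rhs => rw [← b.sum_equivFun z]
      rw [Finset.smul_sum]
      apply Finset.sum_congr rfl
      intro i _
      rw [map_smul, hφb, smul_comm]
    exact hz
  have hP2 : ∀ n, h2 P n = 0 := hTOR κ P fun y => ⟨f, hf0, hfP y⟩
  have hM2 : ∀ n, h2 M n = 0 := hTOR κ M htor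
  -- the map P → M
  set g0 : P0.M →ₗ[Po κ 3] M.M := b.constr (Po κ 3) x with hg0
  have hg0b : ∀ i, g0 (b i) = x i := fun i => by rw [hg0, Module.Basis.constr_basis]
  have hg0d : ∀ n y, y ∈ P0.gr n → g0 y ∈ M.gr n :=
    deg_of_gen hCMP P0 M b d hb b.span_eq g0 (fun i => by rw [hg0b]; exact hx i)
  have hg0k : LinearMap.ker π.f ≤ LinearMap.ker g0 := by
    rw [hπk]
    rintro _ ⟨y, rfl⟩
    show g0 (φ y) = 0
    have hφy : φ y = ∑ i, b'.equivFun y i • (f • b i) := by
      rw [hφ, Module.Basis.constr_apply_fintype]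
    rw [hφy, map_sum]
    apply Finset.sum_eq_zero
    intro i _
    rw [map_smul, map_smul, hfM, smul_zero]
  set ψ : P.M →ₗ[Po κ 3] M.M :=
    ((LinearMap.ker π.f).liftQ g0 hg0k).comp
      (π.f.quotKerEquivOfSurjective hπs).symm.toLinearMap with hψ
  have hψπ : ∀ y, ψ (π.f y) = g0 y := by
    intro y
    rw [hψ]
    have : (π.f.quotKerEquivOfSurjective hπs).symm (π.f y) = Submodule.Quotient.mk y := by
      rw [LinearEquiv.symm_apply_eq]
      rfl
    rw [LinearMap.comp_apply, LinearEquiv.coe_coe, this]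
    rfl
  have hψd : ∀ n y, y ∈ P.gr n → ψ y ∈ M.gr n := by
    intro n y hy
    obtain ⟨z, hz, rfl⟩ := hπd n y hy
    rw [hψπ]
    exact hg0d n z hz
  have hψs : Function.Surjective ψ := by
    intro y
    have hy : y ∈ LinearMap.range g0 := by
      have : Submodule.span (Po κ 3) (Set.range x) ≤ LinearMap.range g0 := by
        rw [Submodule.span_le]
        rintro _ ⟨i, rfl⟩
        exact ⟨b i, hg0b i⟩
      rw [hspan] at this
      exact this trivial
    obtain ⟨z, rfl⟩ := hy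
    exact ⟨π.f z, hψπ z⟩
  set Ψ : GHom P M := ⟨ψ, hψd⟩ with hΨ
  obtain ⟨N, ι, hιi, hιr, -⟩ := hSUB κ 3 P (LinearMap.ker Ψ.f) (hDEG κ 3 P M Ψ).2.2.1
  have hSES2 : SES ι Ψ := ⟨hιi, LinearMap.exact_iff.2 hιr.symm, hψs⟩
  have hN2 : ∀ n, h2 N n = 0 := hTOR κ N fun y => ⟨f, hf0, hιi (by
    rw [map_smul, hfP, map_zero])⟩
  have hMP : ∀ n, h1 M n ≤ h1 P n := by
    intro n
    have := (hLES κ N P M ι Ψ hSES2 n).2.2.2
    rw [hP2, hN2, hM2, add_zero, add_zero, add_zero] at this
    exact this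
  have hPP : ∀ n, h1 P n + h2 P0 n ≤ h2 P1 n := by
    intro n
    have := (hLES κ P1 P0 P Φ π hSES n).2.2.2
    rw [hP2, add_zero, (hFRA κ P0 (Fin k) b d hb n).1, zero_add] at this
    exact this
  have hv0 : ∀ n, h2 P0 n = ((∑ i, ((d i - n - 1).toNat).choose 2 : ℕ) : ℕ∞) := fun n =>
    (hFRA κ P0 (Fin k) b d hb n).2
  have hv1 : ∀ n, h2 P1 n = ((∑ i, ((d i + e - n - 1).toNat).choose 2 : ℕ) : ℕ∞) := fun n =>
    (hFRA κ P1 (Fin k) b' (fun i => d i + e) hb' n).2
  have hle : ∀ n, h1 M n ≤ h2 P1 n := fun n => (hMP n).trans (le_self_add.trans (hPP n))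
  refine ⟨?_, ?_, ?_⟩
  · intro n h
    have := hle n
    rw [h, hv1, top_le_iff] at this
    exact ENat.natCast_ne_top _ this
  · obtain ⟨n₀, hn₀⟩ : ∃ n₀ : ℤ, ∀ i, d i + e ≤ n₀ := by
      obtain ⟨B, hB⟩ := (Set.finite_range (fun i => d i + (e : ℤ))).bddAbove
      exact ⟨B, fun i => hB ⟨i, rfl⟩⟩
    refine ⟨n₀, fun n hn => ?_⟩
    have h1' := hle n
    have h2' : h2 P1 n = 0 := by
      rw [hv1]
      have : ∑ i, ((d i + e - n - 1).toNat).choose 2 = 0 := by
        apply Finset.sum_eq_zero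
        intro i _
        have h3 := hn₀ i
        have h4 : (d i + e - n - 1).toNat = 0 := by
          apply Int.toNat_of_nonpos
          linarith
        rw [h4]
        rfl
      rw [this]
      rfl
    rw [h2'] at h1'
    exact le_antisymm h1' bot_le
  · set C : ℕ := ∑ i, (((d i).natAbs + 1) * e + e ^ 2) with hC
    refine ⟨C, fun n => ?_⟩
    have h1' := hPP (-(n : ℤ))
    have h2' := hMP (-(n : ℤ))
    rw [hv0, hv1] at h1'
    -- numeric bound
    have hnum : (∑ i, ((d i + e - (-(n : ℤ)) - 1).toNat).choose 2) ≤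
        (∑ i, ((d i - (-(n : ℤ)) - 1).toNat).choose 2) + C * (n + 1) := by
      rw [hC, Finset.sum_mul, ← Finset.sum_add_distrib]
      apply Finset.sum_le_sum
      intro i _
      set u : ℕ := (d i - (-(n : ℤ)) - 1).toNat with hu
      have hu1 : (d i + e - (-(n : ℤ)) - 1).toNat ≤ u + e := by
        rw [hu]; omega
      have hu2 : u ≤ (d i).natAbs + n := by
        rw [hu]; omega
      calc ((d i + e - (-(n : ℤ)) - 1).toNat).choose 2 ≤ (u + e).choose 2 :=
            Nat.choose_le_choose 2 hu1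
        _ ≤ u.choose 2 + u * e + e ^ 2 := choose_bd u e
        _ ≤ u.choose 2 + (((d i).natAbs + 1) * e + e ^ 2) * (n + 1) := by
          have h5 : u * e ≤ ((d i).natAbs + n) * e := Nat.mul_le_mul_right _ hu2
          have h6 : ((d i).natAbs + n) * e ≤ (((d i).natAbs + 1) * e) * (n + 1) := by
            have : ((d i).natAbs + n) ≤ ((d i).natAbs + 1) * (n + 1) := by
              nlinarith [Nat.zero_le ((d i).natAbs * n)]
            calc ((d i).natAbs + n) * e ≤ (((d i).natAbs + 1) * (n + 1)) * e :=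
                  Nat.mul_le_mul_right _ this
              _ = (((d i).natAbs + 1) * e) * (n + 1) := by ring
          have h7 : e ^ 2 ≤ e ^ 2 * (n + 1) := Nat.le_mul_of_pos_right _ (Nat.succ_pos n)
          have h8 : (((d i).natAbs + 1) * e + e ^ 2) * (n + 1) =
            (((d i).natAbs + 1) * e) * (n + 1) + e ^ 2 * (n + 1) := by ring
          rw [h8]
          omega
    set A : ℕ := ∑ i, ((d i - (-(n : ℤ)) - 1).toNat).choose 2 with hA
    have h3 : h1 P (-(n : ℤ)) + (A : ℕ∞) ≤ ((A + C * (n + 1) : ℕ) : ℕ∞) :=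
      h1'.trans (by exact_mod_cast hnum)
    have h4 : h1 P (-(n : ℤ)) ≤ ((C * (n + 1) : ℕ) : ℕ∞) := by
      rw [Nat.cast_add, add_comm (A : ℕ∞)] at h3
      exact (ENat.add_le_add_iff_right (ENat.natCast_ne_top A)).1 h3
    exact h2'.trans h4

end

end Pool.Agent.GML
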