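import Pool.Agent.GML.Stmts

/-!
# GML, module TOR: `H² = 0` for torsion modules
-/

set_option autoImplicit false

namespace Pool.Agent.GML

open MvPolynomial Filter

noncomputable section

namespace TOR_

/-- products of power series: a small nonzero coefficient -/
lemma small {κ : Type} [Field κ] (p z : MvPowerSeries (Fin 3) κ) (α β : Fin 3 →₀ ℕ)
    (hp : MvPowerSeries.coeff α p ≠ 0) (hz : MvPowerSeries.coeff β z ≠ 0) :
    ∃ δ : Fin 3 →₀ ℕ, MvPowerSeries.coeff δ (p * z) ≠ 0 ∧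
      Finsupp.degree δ ≤ Finsupp.degree α + Finsupp.degree β := by
  have h1 := MvPowerSeries.order_le hp
  have h2 := MvPowerSeries.order_le hz
  obtain ⟨i, hi⟩ : ∃ i : ℕ, (i : ℕ∞) = p.order := by
    have : p.order ≠ ⊤ := ne_top_of_le_ne_top (by simp) h1
    exact ENat.ne_top_iff_exists.1 this
  obtain ⟨j, hj⟩ : ∃ j : ℕ, (j : ℕ∞) = z.order := by
    have : z.order ≠ ⊤ := ne_top_of_le_ne_top (by simp) h2
    exact ENat.ne_top_iff_exists.1 this
  have h3 := MvPowerSeries.homogeneousComponent_mul_of_le_order (f := p) (g := z) hi.le hj.le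
  have h4 : MvPowerSeries.homogeneousComponent (i + j) (p * z) ≠ 0 := by
    rw [h3]
    exact mul_ne_zero (MvPowerSeries.homogeneousComponent_of_order hi)
      (MvPowerSeries.homogeneousComponent_of_order hj)
  have h5 : ∃ δ, MvPowerSeries.coeff δ (MvPowerSeries.homogeneousComponent (i + j) (p * z)) ≠ 0 := by
    by_contra hcon
    push Not at hcon
    exact h4 (MvPowerSeries.ext hcon)
  obtain ⟨δ, hδ⟩ := h5
  rw [MvPowerSeries.coeff_homogeneousComponent] at hδ
  by_cases h6 : Finsupp.degree δ = i + j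
  · rw [if_pos h6] at hδ
    refine ⟨δ, hδ, ?_⟩
    rw [← hi] at h1
    rw [← hj] at h2
    have h7 : i ≤ Finsupp.degree α := by exact_mod_cast h1
    have h8 : j ≤ Finsupp.degree β := by exact_mod_cast h2
    omega
  · rw [if_neg h6] at hδ
    exact absurd rfl hδ

/-- the constant exponent -/
def cs (m : ℕ) : Fin 3 →₀ ℕ := Finsupp.equivFunOnFinite.symm fun _ => m

lemma cs_apply (m : ℕ) (i : Fin 3) : cs m i = m := rfl

lemma deg_cs (m : ℕ) : Finsupp.degree (cs m) = 3 * m := by
  rw [Finsupp.degree_eq_sum]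
  simp [cs_apply]

lemma le_of_deg {δ : Fin 3 →₀ ℕ} {m : ℕ} (h : Finsupp.degree δ ≤ m) : δ ≤ cs m := by
  intro i
  rw [cs_apply]
  exact (Finsupp.le_degree i δ).trans h

lemma prodX (κ : Type) [Field κ] (m : ℕ) :
    (∏ i : Fin 3, X i : MvPolynomial (Fin 3) κ) ^ m = monomial (cs m) 1 := by
  rw [MvPolynomial.monomial_eq, Finsupp.prod_fintype _ _ (fun i => pow_zero _), map_one, one_mul,
    ← Finset.prod_pow]
  rfl

/-- the ideal -/
def II {κ : Type} [Field κ] (p : MvPolynomial (Fin 3) κ) (N : ℕ) :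
    Ideal (MvPolynomial (Fin 3) κ) :=
  Ideal.span {p} ⊔ Ideal.span (Set.range fun l : Fin 3 => (X l : MvPolynomial (Fin 3) κ) ^ N)

lemma mono_mem {κ : Type} [Field κ] (p : MvPolynomial (Fin 3) κ) (N : ℕ) (m : Fin 3 →₀ ℕ)
    (i : Fin 3) (h : N ≤ m i) (c : κ) : monomial m c ∈ II p N := by
  classical
  refine Ideal.mem_sup_right ?_
  have h1 : Finsupp.single i N ≤ m := by
    rw [Finsupp.single_le_iff]
    exact h
  have h2 : monomial m c = monomial (m - Finsupp.single i N) c *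
      (X i : MvPolynomial (Fin 3) κ) ^ N := by
    rw [MvPolynomial.X_pow_eq_monomial, monomial_mul, mul_one, tsub_add_cancel_of_le h1]
  rw [h2]
  exact Ideal.mul_mem_left _ _ (Ideal.subset_span ⟨i, rfl⟩)

lemma key {κ : Type} [Field κ] (p : MvPolynomial (Fin 3) κ) (hp : p ≠ 0) (a : ℕ) (ha : 1 ≤ a) :
    ∃ N, a ≤ N ∧ (∏ i : Fin 3, X i : MvPolynomial (Fin 3) κ) ^ (N - a) ∈ II p N := by
  classical
  obtain ⟨α, hα⟩ := MvPolynomial.exists_coeff_ne_zero hp
  obtain ⟨N, hN⟩ : ∃ N, N = Finsupp.degree α + 3 * a := ⟨_, rfl⟩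
  refine ⟨N, by omega, ?_⟩
  by_contra hcon
  obtain ⟨lam, hl1, hl2⟩ := Submodule.exists_le_ker_of_notMem
    (p := (II p N).restrictScalars κ) (v := (∏ i : Fin 3, X i : MvPolynomial (Fin 3) κ) ^ (N - a))
    (by exact hcon)
  have hker : ∀ q ∈ II p N, lam q = 0 := fun q hq => LinearMap.mem_ker.1 (hl2 hq)
  -- the power series
  obtain ⟨z, hz⟩ : ∃ z : MvPowerSeries (Fin 3) κ, ∀ k, MvPowerSeries.coeff k z =
      if k ≤ cs (N - 1) then lam (monomial (cs (N - 1) - k) 1) else 0 :=
    ⟨fun k => if k ≤ cs (N - 1) then lam (monomial (cs (N - 1) - k) 1) else 0, fun k => rfl⟩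
  have hβ : MvPowerSeries.coeff (cs (a - 1)) z ≠ 0 := by
    have h1 : cs (a - 1) ≤ cs (N - 1) := by
      intro i
      rw [cs_apply, cs_apply]
      omega
    have h2 : cs (N - 1) - cs (a - 1) = cs (N - a) := by
      ext i
      rw [Finsupp.tsub_apply, cs_apply, cs_apply, cs_apply]
      omega
    rw [hz, if_pos h1, h2, ← prodX]
    exact hl1
  obtain ⟨δ, hδ, hdeg⟩ := small (p : MvPowerSeries (Fin 3) κ) z α (cs (a - 1))
    (by rw [MvPolynomial.coeff_coe]; exact hα) hβ
  rw [deg_cs] at hdeg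
  have hδc : δ ≤ cs (N - 1) := le_of_deg (by omega)
  apply hδ
  -- the coefficient is a value of the functional on a multiple of `p`
  have hF : MvPowerSeries.coeff δ ((p : MvPowerSeries (Fin 3) κ) * z) =
      ∑ x ∈ Finset.HasAntidiagonal.antidiagonal δ,
        coeff x.1 p * lam (monomial ((cs (N - 1) - δ) + x.1) 1) := by
    rw [MvPowerSeries.coeff_mul]
    refine Finset.sum_congr rfl fun x hx => ?_
    rw [Finset.HasAntidiagonal.mem_antidiagonal] at hx
    rw [MvPolynomial.coeff_coe, hz]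
    have h1 : x.2 ≤ cs (N - 1) := (by rw [← hx]; exact le_add_self : x.2 ≤ δ).trans hδc
    rw [if_pos h1]
    congr 2
    have h2 : cs (N - 1) - x.2 = (cs (N - 1) - δ) + x.1 := by
      ext i
      have h3 := congrArg (fun f : Fin 3 →₀ ℕ => f i) hx
      have h4 := hδc i
      simp only [Finsupp.add_apply] at h3
      simp only [Finsupp.tsub_apply, Finsupp.add_apply]
      omega
    rw [h2]
  have hG : lam (monomial (cs (N - 1) - δ) 1 * p) =
      ∑ i ∈ p.support, coeff i p * lam (monomial ((cs (N - 1) - δ) + i) 1) := by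
    conv_lhs => rw [p.as_sum, Finset.mul_sum, map_sum]
    refine Finset.sum_congr rfl fun i _ => ?_
    rw [monomial_mul, one_mul, ← smul_eq_mul (a := coeff i p), ← map_smul,
      MvPolynomial.smul_monomial, smul_eq_mul, mul_one]
  have hG0 : lam (monomial (cs (N - 1) - δ) 1 * p) = 0 := by
    refine hker _ (Ideal.mem_sup_left ?_)
    exact Ideal.mul_mem_left _ _ (Ideal.mem_span_singleton_self p)
  rw [hF]
  have h1 : ∑ x ∈ Finset.HasAntidiagonal.antidiagonal δ,
      coeff x.1 p * lam (monomial ((cs (N - 1) - δ) + x.1) 1) =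
      ∑ i ∈ (Finset.HasAntidiagonal.antidiagonal δ).image Prod.fst,
        coeff i p * lam (monomial ((cs (N - 1) - δ) + i) 1) := by
    rw [Finset.sum_image]
    intro x hx y hy hxy
    rw [Finset.mem_coe, Finset.HasAntidiagonal.mem_antidiagonal] at hx hy
    have h2 : x.1 + x.2 = x.1 + y.2 := by rw [hx, hxy, hy]
    exact Prod.ext hxy (add_left_cancel h2)
  rw [h1]
  have h2 : ∑ i ∈ (Finset.HasAntidiagonal.antidiagonal δ).image Prod.fst,
        coeff i p * lam (monomial ((cs (N - 1) - δ) + i) 1) =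
      ∑ i ∈ p.support ∪ (Finset.HasAntidiagonal.antidiagonal δ).image Prod.fst,
        coeff i p * lam (monomial ((cs (N - 1) - δ) + i) 1) := by
    refine Finset.sum_subset Finset.subset_union_right fun i _ hi => ?_
    -- `i` is not below `δ`
    have h3 : ¬ i ≤ δ := by
      intro h4
      apply hi
      rw [Finset.mem_image]
      exact ⟨(i, δ - i), Finset.HasAntidiagonal.mem_antidiagonal.2 (add_tsub_cancel_of_le h4), rfl⟩
    obtain ⟨l, hl⟩ : ∃ l, ¬ i l ≤ δ l := by
      by_contra h4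
      push Not at h4
      exact h3 h4
    rw [hker _ (mono_mem p N _ l ?_ 1), mul_zero]
    have h5 := hδc l
    simp only [Finsupp.tsub_apply, Finsupp.add_apply]
    rw [cs_apply] at h5 ⊢
    omega
  have h3 : ∑ i ∈ p.support, coeff i p * lam (monomial ((cs (N - 1) - δ) + i) 1) =
      ∑ i ∈ p.support ∪ (Finset.HasAntidiagonal.antidiagonal δ).image Prod.fst,
        coeff i p * lam (monomial ((cs (N - 1) - δ) + i) 1) := by
    refine Finset.sum_subset Finset.subset_union_left fun i _ hi => ?_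
    rw [MvPolynomial.notMem_support_iff.1 hi, zero_mul]
  rw [h2, ← h3, ← hG, hG0]

/-- multiplication by products of variables -/
lemma grow {V : Type} [CommRing V] (M : GMod V 3) (s : Finset (Fin 3)) (n : ℤ) (x : M.M)
    (hx : x ∈ M.gr n) (j : ℕ) : (∏ i ∈ s, X i : Po V 3) ^ j • x ∈ M.gr (n + s.card * (j : ℤ)) := by
  classical
  have h1 : ∀ (s : Finset (Fin 3)) (n : ℤ) (x : M.M), x ∈ M.gr n →
      (∏ i ∈ s, X i : Po V 3) • x ∈ M.gr (n + s.card) := by
    intro s
    induction s using Finset.induction_on with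
    | empty =>
      intro n x hx
      simpa using hx
    | insert i s hi ih =>
      intro n x hx
      rw [Finset.prod_insert hi, mul_smul, Finset.card_insert_of_notMem hi]
      have h2 := M.mul_mem i _ _ (ih n x hx)
      push_cast
      rw [← add_assoc]
      exact h2
  induction j with
  | zero => simpa using hx
  | succ j ih =>
    rw [pow_succ', mul_smul]
    have h2 := h1 s _ _ ih
    have h3 : n + (s.card : ℤ) * ((j + 1 : ℕ) : ℤ) = n + s.card * (j : ℤ) + s.card := by
      push_cast; ring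
    rw [h3]
    exact h2

end TOR_

open TOR_ in
theorem tor_proof (_hAGR : Stmt_AGR) (hCMP : Stmt_CMP) : Stmt_TOR := by
  classical
  intro κ _ M hM n
  obtain ⟨c1, c2, c3, c4, c5, c6, c7, c8, c9, c10⟩ := hCMP κ 3 M
  -- components of powers of a variable
  have cpow : ∀ (k : ℤ) (i : Fin 3) (j : ℕ) (x : M.M),
      M.cmp (k + j) ((X i : Po κ 3) ^ j • x) = (X i : Po κ 3) ^ j • M.cmp k x := by
    intro k i j
    induction j with
    | zero => intro x; simp
    | succ j ih =>
      intro x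
      rw [pow_succ', mul_smul, mul_smul]
      have h1 : k + ((j + 1 : ℕ) : ℤ) = (k + j) + 1 := by push_cast; ring
      rw [h1, c6, ih]
  unfold h2
  rw [Module.length_eq_zero_iff, Submodule.Quotient.subsingleton_iff, eq_top_iff]
  rintro ⟨u, hu⟩ -
  show u ∈ B2 M n
  have hu' : ∀ᶠ a : ℕ in atTop, u a ∈ M.gr (n + (Finset.univ : Finset (Fin 3)).card * (a : ℤ)) ∧
    u (a + 1) = (∏ i ∈ (Finset.univ : Finset (Fin 3)), X i : MvPolynomial (Fin 3) κ) • u a := hu
  rw [eventually_atTop] at hu'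
  obtain ⟨a₁, ha₁⟩ := hu'
  obtain ⟨a₀, ha₀, ha01⟩ : ∃ a₀, 1 ≤ a₀ ∧ a₁ ≤ a₀ := ⟨a₁ + 1, by omega, by omega⟩
  have hgr : ∀ a, a₀ ≤ a → u a ∈ M.gr (n + 3 * (a : ℤ)) := by
    intro a ha
    have h := (ha₁ a (by omega)).1
    simpa using h
  have hstep : ∀ a, a₀ ≤ a → ∀ j : ℕ, u (a + j) =
      (∏ i : Fin 3, X i : MvPolynomial (Fin 3) κ) ^ j • u a := by
    intro a ha j
    induction j with
    | zero => simp
    | succ j ih =>
      have h := (ha₁ (a + j) (by omega)).2
      rw [← add_assoc, h, ih, pow_succ', mul_smul]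
  obtain ⟨p, hp, hpx⟩ := hM (u a₀)
  obtain ⟨N, haN, hN⟩ := key p hp a₀ ha₀
  -- write the power
  obtain ⟨r, hr⟩ : ∃ r : Fin 3 → Po κ 3, u N = ∑ l, (X l : Po κ 3) ^ N • (r l • u a₀) := by
    unfold II at hN
    obtain ⟨y, hy, w, hw, hyw⟩ := Submodule.mem_sup.1 hN
    obtain ⟨q, hq⟩ := Ideal.mem_span_singleton'.1 hy
    obtain ⟨r, hr⟩ := (Ideal.mem_span_range_iff_exists_fun).1 hw
    refine ⟨r, ?_⟩
    have h1 : u N = (∏ i : Fin 3, X i : MvPolynomial (Fin 3) κ) ^ (N - a₀) • u a₀ := by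
      have := hstep a₀ le_rfl (N - a₀)
      rwa [Nat.add_sub_cancel' haN] at this
    rw [h1, ← hyw, add_smul, ← hq, mul_smul, hpx, smul_zero, zero_add, ← hr, Finset.sum_smul]
    refine Finset.sum_congr rfl fun l _ => ?_
    rw [smul_smul, mul_comm]
  obtain ⟨m, hm⟩ : ∃ m : Fin 3 → M.M, m = fun l => M.cmp (n + 2 * (N : ℤ)) (r l • u a₀) := ⟨_, rfl⟩
  have hmgr : ∀ l, m l ∈ M.gr (n + 2 * (N : ℤ)) := by
    intro l
    rw [hm]
    exact c1 _ _
  have hum : u N = ∑ l, (X l : Po κ 3) ^ N • m l := by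
    have h1 := c2 _ _ (hgr N haN)
    have cz : ∀ k, M.cmp k 0 = 0 := by
      intro k
      have := c4 k 0 0
      rw [add_zero] at this
      have h2 := congrArg (fun t => t - M.cmp k 0) this
      simpa using h2.symm
    have csum : ∀ (k : ℤ) (f : Fin 3 → M.M), M.cmp k (∑ l, f l) = ∑ l, M.cmp k (f l) := by
      intro k f
      rw [Fin.sum_univ_three, Fin.sum_univ_three, c4, c4]
    rw [← h1, hr, csum]
    refine Finset.sum_congr rfl fun l _ => ?_
    have h2 := cpow (n + 2 * (N : ℤ)) l N (r l • u a₀)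
    have h3 : n + 2 * (N : ℤ) + N = n + 3 * N := by ring
    rw [h3] at h2
    rw [h2, hm]
  -- the cochain
  obtain ⟨sg, hsg⟩ : ∃ sg : Fin 3 → κ, sg = ![1, -1, 1] := ⟨_, rfl⟩
  obtain ⟨g, hg⟩ : ∃ g : Fin 3 → ℕ → M.M, g = fun k a => if a < N then 0 else
      sg k • ((∏ i ∈ Finset.univ.erase k, X i : Po κ 3) ^ (a - N) • m k) := ⟨_, rfl⟩
  refine ⟨g, ?_, ?_⟩
  · intro k
    show ∀ᶠ a : ℕ in atTop, g k a ∈ M.gr (n + (Finset.univ.erase k).card * (a : ℤ)) ∧
      g k (a + 1) = (∏ i ∈ Finset.univ.erase k, X i : MvPolynomial (Fin 3) κ) • g k a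
    rw [eventually_atTop]
    refine ⟨N, fun a ha => ?_⟩
    have hc : ((Finset.univ.erase k).card : ℤ) = 2 := by
      rw [Finset.card_erase_of_mem (Finset.mem_univ k)]
      simp
    constructor
    · rw [hg]
      simp only
      rw [if_neg (by omega)]
      refine Submodule.smul_mem _ _ ?_
      have h1 := grow M (Finset.univ.erase k) _ _ (hmgr k) (a - N)
      have h2 : n + 2 * (N : ℤ) + ((Finset.univ.erase k).card : ℤ) * ((a - N : ℕ) : ℤ) =
          n + ((Finset.univ.erase k).card : ℤ) * (a : ℤ) := by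
        rw [hc]
        push_cast [Nat.cast_sub ha]
        ring
      rw [h2] at h1
      exact h1
    · rw [hg]
      simp only
      rw [if_neg (by omega), if_neg (by omega), smul_comm _ (sg k)]
      have h3 : a + 1 - N = (a - N) + 1 := by omega
      rw [h3, pow_succ', mul_smul]
  · rw [eventually_atTop]
    refine ⟨N, fun a ha => ?_⟩
    obtain ⟨b, rfl⟩ : ∃ b, a = N + b := ⟨a - N, by omega⟩
    have hgk : ∀ k, g k (N + b) =
        sg k • ((∏ i ∈ Finset.univ.erase k, X i : Po κ 3) ^ b • m k) := by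
      intro k
      rw [hg]
      simp only
      rw [if_neg (by omega), Nat.add_sub_cancel_left]
    have hprod : ∀ k : Fin 3, (X k : Po κ 3) ^ (N + b) * (∏ i ∈ Finset.univ.erase k, X i : Po κ 3) ^ b
        = (∏ i : Fin 3, X i : Po κ 3) ^ b * (X k : Po κ 3) ^ N := by
      intro k
      rw [← Finset.mul_prod_erase Finset.univ _ (Finset.mem_univ k), pow_add, mul_pow]
      ring
    have hk : ∀ k : Fin 3, (X k : Po κ 3) ^ (N + b) • g k (N + b) =
        sg k • ((∏ i : Fin 3, X i : Po κ 3) ^ b • ((X k : Po κ 3) ^ N • m k)) := by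
      intro k
      rw [hgk, smul_comm _ (sg k), smul_smul, hprod, smul_smul]
    unfold dn
    rw [hk 0, hk 1, hk 2, hstep N haN b, hum, Fin.sum_univ_three, smul_add, smul_add, hsg]
    simp

end

end Pool.Agent.GML
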