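import Pool.Agent.GML.Stmts

/-!
# GML, module UNI: increasing unions
-/

set_option autoImplicit false

namespace Pool.Agent.GML

open MvPolynomial Filter

noncomputable section

namespace UNI_

variable {V : Type} [CommRing V] {M N : GMod V 3}

lemma seq_map (f : GHom M N) (s : Finset (Fin 3)) (n : ℤ) (u : ℕ → M.M) (hu : u ∈ Seq M s n) :
    (fun a => f.f (u a)) ∈ Seq N s n := by
  have hu' : ∀ᶠ a : ℕ in atTop, u a ∈ M.gr (n + s.card * (a : ℤ)) ∧
    u (a + 1) = (∏ i ∈ s, X i : MvPolynomial (Fin 3) V) • u a := hu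
  show ∀ᶠ a : ℕ in atTop, f.f (u a) ∈ N.gr (n + s.card * (a : ℤ)) ∧
    f.f (u (a + 1)) = (∏ i ∈ s, X i : MvPolynomial (Fin 3) V) • f.f (u a)
  filter_upwards [hu'] with a ha
  exact ⟨f.deg _ _ ha.1, by rw [ha.2, map_smul]⟩

lemma dn_map (f : GHom M N) (g : Fin 3 → ℕ → M.M) (a : ℕ) :
    dn N (fun k a => f.f (g k a)) a = f.f (dn M g a) := by
  unfold dn
  simp only [map_add, map_sub, map_smul]

lemma dz_map (f : GHom M N) (g : Fin 3 → ℕ → M.M) (k : Fin 3) (a : ℕ) :
    dz N (fun k a => f.f (g k a)) k a = f.f (dz M g k a) := by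
  unfold dz
  fin_cases k <;> simp [map_sub, map_smul]

lemma z1_map (f : GHom M N) (n : ℤ) (g : Fin 3 → ℕ → M.M) (hg : g ∈ Z1 M n) :
    (fun k a => f.f (g k a)) ∈ Z1 N n := by
  refine ⟨fun k => seq_map f _ n _ (hg.1 k), ?_⟩
  filter_upwards [hg.2] with a ha
  rw [dn_map, ha, map_zero]

lemma b1_map (f : GHom M N) (n : ℤ) (g : Fin 3 → ℕ → M.M) (hg : g ∈ B1 M n) :
    (fun k a => f.f (g k a)) ∈ B1 N n := by
  obtain ⟨u, hu, hu'⟩ := hg
  refine ⟨fun k a => f.f (u k a), fun k => seq_map f _ n _ (hu k), ?_⟩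
  filter_upwards [hu'] with a ha
  intro k
  rw [dz_map, ha k]

lemma b2_map (f : GHom M N) (n : ℤ) (g : ℕ → M.M) (hg : g ∈ B2 M n) :
    (fun a => f.f (g a)) ∈ B2 N n := by
  obtain ⟨u, hu, hu'⟩ := hg
  refine ⟨fun k a => f.f (u k a), fun k => seq_map f _ n _ (hu k), ?_⟩
  filter_upwards [hu'] with a ha
  rw [dn_map, ha]

lemma fV (f : GHom M N) (v : V) (x : M.M) : f.f (v • x) = v • f.f x :=
  (f.f.restrictScalars V).map_smul v x

/-- the map on cocycles -/
def zmap (f : GHom M N) (n : ℤ) : Z1 M n →ₗ[V] Z1 N n where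
  toFun g := ⟨fun k a => f.f ((g : Fin 3 → ℕ → M.M) k a), z1_map f n g g.2⟩
  map_add' g g' := by
    apply Subtype.ext
    funext k a
    exact map_add f.f _ _
  map_smul' v g := by
    apply Subtype.ext
    funext k a
    exact fV f v _

/-- the map on the cochains of degree two -/
def smap (f : GHom M N) (n : ℤ) : Seq M Finset.univ n →ₗ[V] Seq N Finset.univ n where
  toFun g := ⟨fun a => f.f ((g : ℕ → M.M) a), seq_map f _ n g g.2⟩
  map_add' g g' := by
    apply Subtype.ext
    funext a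
    exact map_add f.f _ _
  map_smul' v g := by
    apply Subtype.ext
    funext a
    exact fV f v _

/-- the map on `H¹` -/
def m1 (f : GHom M N) (n : ℤ) : H1 M n →ₗ[V] H1 N n :=
  Submodule.mapQ ((B1 M n).comap (Z1 M n).subtype)
      ((B1 N n).comap (Z1 N n).subtype) (zmap f n) fun z hz => b1_map f n z hz

/-- the map on `H²` -/
def m2 (f : GHom M N) (n : ℤ) : H2 M n →ₗ[V] H2 N n :=
  Submodule.mapQ ((B2 M n).comap (Seq M Finset.univ n).subtype)
      ((B2 N n).comap (Seq N Finset.univ n).subtype) (smap f n) fun z hz => b2_map f n z hz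

/-- the sequence with value `x` at `a0` -/
def ext (M : GMod V 3) (s : Finset (Fin 3)) (a0 : ℕ) (x : M.M) (a : ℕ) : M.M :=
  if a0 ≤ a then (∏ i ∈ s, X i : MvPolynomial (Fin 3) V) ^ (a - a0) • x else 0

/-- the property of sequences from `a0` on -/
def From (M : GMod V 3) (s : Finset (Fin 3)) (n : ℤ) (a0 : ℕ) (u : ℕ → M.M) : Prop :=
  ∀ a, a0 ≤ a → u a ∈ M.gr (n + s.card * (a : ℤ)) ∧
    u (a + 1) = (∏ i ∈ s, X i : MvPolynomial (Fin 3) V) • u a

lemma exists_from {s : Finset (Fin 3)} {n : ℤ} {u : ℕ → M.M} (hu : u ∈ Seq M s n) :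
    ∃ a0, From M s n a0 u := by
  have hu' : ∀ᶠ a : ℕ in atTop, u a ∈ M.gr (n + s.card * (a : ℤ)) ∧
    u (a + 1) = (∏ i ∈ s, X i : MvPolynomial (Fin 3) V) • u a := hu
  exact eventually_atTop.1 hu'

lemma From.mono {s : Finset (Fin 3)} {n : ℤ} {u : ℕ → M.M} {a0 a1 : ℕ} (h : From M s n a0 u)
    (h01 : a0 ≤ a1) : From M s n a1 u := fun a ha => h a (h01.trans ha)

lemma ext_lift (hd : ∀ (f : GHom M N), Function.Injective f.f → ∀ n (x : M.M),
    f.f x ∈ N.gr n → x ∈ M.gr n) (f : GHom M N) (hf : Function.Injective f.f)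
    {s : Finset (Fin 3)} {n : ℤ} {u : ℕ → N.M} {a0 : ℕ} (h : From N s n a0 u) (x : M.M)
    (hx : f.f x = u a0) :
    (∀ a, a0 ≤ a → f.f (ext M s a0 x a) = u a) ∧ ext M s a0 x ∈ Seq M s n := by
  have h1 : ∀ j, f.f (ext M s a0 x (a0 + j)) = u (a0 + j) := by
    intro j
    induction j with
    | zero => simp [ext, hx]
    | succ j ih =>
      have h2 := (h (a0 + j) (Nat.le_add_right _ _)).2
      rw [← add_assoc, h2, ← ih]
      unfold ext
      rw [if_pos (by omega), if_pos (by omega), ← map_smul, ← mul_smul, ← pow_succ']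
      congr 3
      omega
  have h2 : ∀ a, a0 ≤ a → f.f (ext M s a0 x a) = u a := by
    intro a ha
    have h3 := h1 (a - a0)
    rwa [Nat.add_sub_cancel' ha] at h3
  refine ⟨h2, ?_⟩
  show ∀ᶠ a : ℕ in atTop, ext M s a0 x a ∈ M.gr (n + s.card * (a : ℤ)) ∧
    ext M s a0 x (a + 1) = (∏ i ∈ s, X i : MvPolynomial (Fin 3) V) • ext M s a0 x a
  rw [eventually_atTop]
  refine ⟨a0, fun a ha => ⟨hd f hf _ _ ?_, ?_⟩⟩
  · rw [h2 a ha]; exact (h a ha).1
  · unfold ext
    rw [if_pos (by omega), if_pos ha, ← mul_smul, ← pow_succ']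
    congr 2
    omega

theorem length_le_of_finset {R H : Type} [Ring R] [AddCommGroup H] [Module R H] (b : ℕ∞)
    (h : ∀ S : Finset H, ∃ I : Submodule R H, (∀ x ∈ S, x ∈ I) ∧ Module.length R I ≤ b) :
    Module.length R H ≤ b := by
  classical
  rw [← WithBot.coe_le_coe, Module.coe_length]
  refine iSup_le fun p => ?_
  have hx : ∀ i : Fin p.length, ∃ x, x ∈ p i.succ ∧ x ∉ p i.castSucc :=
    fun i => SetLike.exists_of_lt (p.step i)
  choose x hx1 hx2 using hx
  obtain ⟨I, hI, hb⟩ := h (Finset.univ.image x)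
  let q : LTSeries (Submodule R I) :=
    { length := p.length
      toFun := fun i => (p i).comap I.subtype
      step := fun i => by
        refine lt_of_le_of_ne (Submodule.comap_mono (p.step i).le) fun heq => hx2 i ?_
        have h1 : (⟨x i, hI _ (by simp)⟩ : I) ∈ (p i.succ).comap I.subtype := hx1 i
        rw [← heq] at h1
        exact h1 }
  have h1 := Order.LTSeries.length_le_krullDim q
  rw [← Module.coe_length] at h1
  exact h1.trans (WithBot.coe_le_coe.2 hb)

end UNI_

open UNI_ in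
theorem uni_proof (hDEG : Stmt_DEG) : Stmt_UNI := by
  intro V _ M N hmono hN n b
  have hd : ∀ (M' : GMod V 3) (f : GHom M' M), Function.Injective f.f → ∀ n (x : M'.M),
      f.f x ∈ M.gr n → x ∈ M'.gr n := fun M' f => (hDEG V 3 M' M f).2.1
  constructor
  · intro hj
    -- every class comes from the realisations
    have key : ∀ c : H1 M n, ∃ j0, ∀ j, j0 ≤ j → ∀ (M' : GMod V 3) (f : GHom M' M),
        Function.Injective f.f → LinearMap.range f.f = N j → c ∈ LinearMap.range (m1 f n) := by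
      intro c
      obtain ⟨g, rfl⟩ := Submodule.Quotient.mk_surjective _ c
      choose ak hak using fun k => exists_from (g.2.1 k)
      have ha0 : ∀ k, ak k ≤ ∑ k, ak k := fun k =>
        Finset.single_le_sum (fun _ _ => Nat.zero_le _) (Finset.mem_univ k)
      set a0 := ∑ k, ak k
      choose jk hjk using fun k => hN ((g : Fin 3 → ℕ → M.M) k a0)
      refine ⟨∑ k, jk k, fun j hj M' f hf hr => ?_⟩
      have hj0 : ∀ k, jk k ≤ j := fun k =>
        (Finset.single_le_sum (fun _ _ => Nat.zero_le _) (Finset.mem_univ k)).trans hj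
      have hx : ∀ k, ∃ x, f.f x = (g : Fin 3 → ℕ → M.M) k a0 := by
        intro k
        have h1 : (g : Fin 3 → ℕ → M.M) k a0 ∈ LinearMap.range f.f := by
          rw [hr]; exact hmono (hj0 k) (hjk k)
        exact h1
      choose x hx using hx
      have hl := fun k => ext_lift (hd M') f hf ((hak k).mono (ha0 k)) (x k) (hx k)
      let g' : Fin 3 → ℕ → M'.M := fun k => ext M' (Finset.univ.erase k) a0 (x k)
      have hg' : g' ∈ Z1 M' n := by
        refine ⟨fun k => (hl k).2, ?_⟩
        filter_upwards [g.2.2, eventually_ge_atTop a0] with a ha ha'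
        apply hf
        rw [← dn_map, map_zero, ← ha]
        unfold dn
        simp only [g', (hl _).1 a ha']
      refine ⟨Submodule.Quotient.mk ⟨g', hg'⟩, ?_⟩
      refine (Submodule.Quotient.eq _).2 ?_
      show _ ∈ B1 M n
      refine ⟨fun _ => 0, fun i => Submodule.zero_mem _, ?_⟩
      filter_upwards [eventually_ge_atTop a0] with a ha k
      have h1 : dz M (fun _ => 0) k a = 0 := by
        unfold dz
        fin_cases k <;> simp
      rw [h1]
      show f.f (g' k a) - (g : Fin 3 → ℕ → M.M) k a = 0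
      rw [(hl k).1 a ha, sub_self]
    choose j0 hj0 using key
    refine length_le_of_finset b fun S => ?_
    obtain ⟨M', f, hf, hr, hb⟩ := hj (∑ c ∈ S, j0 c)
    refine ⟨LinearMap.range (m1 f n), fun c hc => ?_, ?_⟩
    · exact hj0 c _ (Finset.single_le_sum (fun _ _ => Nat.zero_le _) hc) M' f hf hr
    · exact (Module.length_le_of_surjective _ (LinearMap.surjective_rangeRestrict (m1 f n))).trans
        hb
  · intro hj
    have key : ∀ c : H2 M n, ∃ j0, ∀ j, j0 ≤ j → ∀ (M' : GMod V 3) (f : GHom M' M),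
        Function.Injective f.f → LinearMap.range f.f = N j → c ∈ LinearMap.range (m2 f n) := by
      intro c
      obtain ⟨g, rfl⟩ := Submodule.Quotient.mk_surjective _ c
      obtain ⟨a0, ha0⟩ := exists_from g.2
      obtain ⟨j0, hj0⟩ := hN ((g : ℕ → M.M) a0)
      refine ⟨j0, fun j hj M' f hf hr => ?_⟩
      obtain ⟨x, hx⟩ : (g : ℕ → M.M) a0 ∈ LinearMap.range f.f := by
        rw [hr]; exact hmono hj hj0
      have hl := ext_lift (hd M') f hf ha0 x hx
      refine ⟨Submodule.Quotient.mk ⟨ext M' Finset.univ a0 x, hl.2⟩, ?_⟩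
      refine (Submodule.Quotient.eq _).2 ?_
      show _ ∈ B2 M n
      refine ⟨fun _ => 0, fun i => Submodule.zero_mem _, ?_⟩
      filter_upwards [eventually_ge_atTop a0] with a ha
      have h1 : dn M (fun _ => 0) a = 0 := by
        unfold dn
        simp
      rw [h1]
      show f.f (ext M' Finset.univ a0 x a) - (g : ℕ → M.M) a = 0
      rw [hl.1 a ha, sub_self]
    choose j0 hj0 using key
    refine length_le_of_finset b fun S => ?_
    obtain ⟨M', f, hf, hr, hb⟩ := hj (∑ c ∈ S, j0 c)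
    refine ⟨LinearMap.range (m2 f n), fun c hc => ?_, ?_⟩
    · exact hj0 c _ (Finset.single_le_sum (fun _ _ => Nat.zero_le _) hc) M' f hf hr
    · exact (Module.length_le_of_surjective _ (LinearMap.surjective_rangeRestrict (m2 f n))).trans
        hb

end

end Pool.Agent.GML
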