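import Pool.Agent.GML.Stmts

/-!
# WBD: the two-sided bounds for a balanced filtration
-/

set_option autoImplicit false

open MvPolynomial Filter

namespace Pool.Agent.GML

noncomputable section

namespace WBD_

/-- one step of the telescoping sum -/
theorem step (x b : ℚ) (hb : 0 < b) :
    3 * b * (max (x - b) 0) ^ 2 ≤ (max x 0) ^ 3 - (max (x - b) 0) ^ 3 ∧
      (max x 0) ^ 3 - (max (x - b) 0) ^ 3 ≤ 3 * b * (max x 0) ^ 2 := by
  rcases le_total x 0 with hx | hx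
  · rw [max_eq_right hx, max_eq_right (by linarith : x - b ≤ 0)]
    simp
  rcases le_total x b with hxb | hxb
  · rw [max_eq_left hx, max_eq_right (by linarith : x - b ≤ 0)]
    constructor
    · simp only [ne_eq, OfNat.ofNat_ne_zero, not_false_eq_true, zero_pow, mul_zero, sub_zero]
      positivity
    · nlinarith [mul_nonneg (sq_nonneg x) (sub_nonneg.2 hxb), mul_nonneg (sq_nonneg x) hb.le]
  · rw [max_eq_left hx, max_eq_left (by linarith : 0 ≤ x - b)]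
    have h0 : 0 ≤ x - b := by linarith
    constructor
    · nlinarith [mul_nonneg hb.le (mul_nonneg h0 hb.le), mul_nonneg hb.le (mul_nonneg hb.le hb.le)]
    · nlinarith [mul_nonneg hb.le (mul_nonneg h0 hb.le), mul_nonneg hb.le (mul_nonneg hb.le hb.le)]

theorem sumsq (m b Q : ℕ) (hb : 0 < b) (hQ : m ≤ Q) :
    (m : ℚ) ^ 3 / (3 * b) ≤ ∑ q ∈ Finset.range Q, (max ((m : ℚ) - q * b) 0) ^ 2 ∧
      ∑ q ∈ Finset.range Q, (max ((m : ℚ) - q * b) 0) ^ 2 ≤ (m : ℚ) ^ 3 / (3 * b) + (m : ℚ) ^ 2 := by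
  have hbq : (0 : ℚ) < b := by exact_mod_cast hb
  have hlast : max ((m : ℚ) - (Q : ℕ) * b) 0 = 0 := by
    refine max_eq_right ?_
    have h1 : (m : ℚ) ≤ Q := by exact_mod_cast hQ
    have h2 : (1 : ℚ) ≤ b := by exact_mod_cast hb
    nlinarith [(Nat.cast_nonneg Q : (0 : ℚ) ≤ Q)]
  have hfirst : max ((m : ℚ) - (0 : ℕ) * b) 0 = m := by
    rw [Nat.cast_zero, zero_mul, sub_zero]
    exact max_eq_left (Nat.cast_nonneg m)
  have htel : ∑ q ∈ Finset.range Q, ((max ((m : ℚ) - (q : ℕ) * b) 0) ^ 3 -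
      (max ((m : ℚ) - ((q + 1 : ℕ) : ℚ) * b) 0) ^ 3) = (m : ℚ) ^ 3 := by
    rw [Finset.sum_range_sub' (fun q : ℕ => (max ((m : ℚ) - (q : ℚ) * b) 0) ^ 3) Q, hlast, hfirst]
    ring
  have hst : ∀ q : ℕ, (m : ℚ) - ((q + 1 : ℕ) : ℚ) * b = ((m : ℚ) - q * b) - b := fun q => by
    push_cast
    ring
  have hup : (m : ℚ) ^ 3 ≤ 3 * b * ∑ q ∈ Finset.range Q, (max ((m : ℚ) - q * b) 0) ^ 2 := by
    rw [← htel, Finset.mul_sum]
    refine Finset.sum_le_sum fun q _ => ?_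
    rw [hst]
    exact (step _ _ hbq).2
  have hlo : 3 * b * ∑ q ∈ Finset.range Q, (max ((m : ℚ) - ((q + 1 : ℕ) : ℚ) * b) 0) ^ 2 ≤
      (m : ℚ) ^ 3 := by
    rw [← htel, Finset.mul_sum]
    refine Finset.sum_le_sum fun q _ => ?_
    rw [hst]
    exact (step _ _ hbq).1
  have hshift : ∑ q ∈ Finset.range Q, (max ((m : ℚ) - ((q + 1 : ℕ) : ℚ) * b) 0) ^ 2 =
      ∑ q ∈ Finset.range Q, (max ((m : ℚ) - q * b) 0) ^ 2 - (m : ℚ) ^ 2 := by
    have h1 := Finset.sum_range_succ (fun q : ℕ => (max ((m : ℚ) - (q : ℚ) * b) 0) ^ 2) Q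
    have h2 := Finset.sum_range_succ' (fun q : ℕ => (max ((m : ℚ) - (q : ℚ) * b) 0) ^ 2) Q
    rw [hlast] at h1
    rw [hfirst] at h2
    rw [h1] at h2
    linarith
  rw [hshift] at hlo
  constructor
  · rw [div_le_iff₀ (by positivity)]
    linarith
  · have h3 : ∑ q ∈ Finset.range Q, (max ((m : ℚ) - q * b) 0) ^ 2 - (m : ℚ) ^ 2 ≤
        (m : ℚ) ^ 3 / (3 * b) := by
      rw [le_div_iff₀ (by positivity)]
      linarith
    linarith

/-- the bound of one term -/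
theorem term (a b : ℕ) (u v : ℕ → ℤ → ℕ) (r M₀ C₀ : ℕ → ℕ)
    (h0 : ∀ j < a, ∀ n : ℤ, (M₀ j : ℤ) ≤ n → u j n = 0 ∧ v j n = 0)
    (h1 : ∀ j < a, ∀ n : ℕ, u j (-(n : ℤ)) ≤ C₀ j * (n + 1) ∧
      |(v j (-(n : ℤ)) : ℚ) - r j * (n : ℚ) ^ 2 / 2| ≤ C₀ j * ((n : ℚ) + 1)) :
    ∃ M C : ℕ, (∀ j < a, ∀ n : ℤ, (M : ℤ) ≤ n → u j n = 0 ∧ v j n = 0) ∧
      ∀ j < a, ∀ m q : ℕ, u j (-(m : ℤ) + q * b) ≤ C * (m + 1) ∧
        |(v j (-(m : ℤ) + q * b) : ℚ) - r j * (max ((m : ℚ) - q * b) 0) ^ 2 / 2| ≤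
          C * ((m : ℚ) + 1) := by
  have hM : ∀ j < a, M₀ j ≤ ∑ j ∈ Finset.range a, M₀ j := fun j hj =>
    Finset.single_le_sum (f := M₀) (fun _ _ => Nat.zero_le _) (Finset.mem_range.2 hj)
  have hC : ∀ j < a, C₀ j ≤ ∑ j ∈ Finset.range a, C₀ j := fun j hj =>
    Finset.single_le_sum (f := C₀) (fun _ _ => Nat.zero_le _) (Finset.mem_range.2 hj)
  set M := ∑ j ∈ Finset.range a, M₀ j with hMdef
  set C₁ := ∑ j ∈ Finset.range a, C₀ j with hC₁
  set D := ∑ j ∈ Finset.range a, ∑ i ∈ Finset.range M, (u j i + v j i) with hD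
  have hDle : ∀ j < a, ∀ i < M, u j (i : ℤ) + v j (i : ℤ) ≤ D := fun j hj i hi =>
    le_trans (Finset.single_le_sum (f := fun i : ℕ => u j (i : ℤ) + v j (i : ℤ))
      (fun _ _ => Nat.zero_le _) (Finset.mem_range.2 hi))
      (Finset.single_le_sum (f := fun j => ∑ i ∈ Finset.range M, (u j (i : ℤ) + v j (i : ℤ)))
      (fun _ _ => Nat.zero_le _) (Finset.mem_range.2 hj))
  refine ⟨M, C₁ + D, fun j hj n hn => h0 j hj n (le_trans (by exact_mod_cast hM j hj) hn), ?_⟩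
  intro j hj m q
  rcases Nat.lt_or_ge m (q * b) with hlt | hle
  · obtain ⟨i, hi⟩ := Nat.exists_eq_add_of_lt hlt
    have e1 : -(m : ℤ) + q * b = ((i + 1 : ℕ) : ℤ) := by
      have : ((q * b : ℕ) : ℤ) = ((m + i + 1 : ℕ) : ℤ) := by rw [hi]
      push_cast at this ⊢
      linarith
    have e2 : max ((m : ℚ) - q * b) 0 = 0 := by
      refine max_eq_right ?_
      have : ((q * b : ℕ) : ℚ) = ((m + i + 1 : ℕ) : ℚ) := by rw [hi]
      push_cast at this
      have h5 : (0 : ℚ) ≤ i := Nat.cast_nonneg i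
      linarith
    have huv : u j (-(m : ℤ) + q * b) + v j (-(m : ℤ) + q * b) ≤ D := by
      rw [e1]
      rcases Nat.lt_or_ge (i + 1) M with h | h
      · exact hDle j hj (i + 1) h
      · have h6 : ((M₀ j : ℕ) : ℤ) ≤ ((i + 1 : ℕ) : ℤ) := by
          exact_mod_cast le_trans (hM j hj) h
        rw [(h0 j hj _ h6).1, (h0 j hj _ h6).2]
        exact Nat.zero_le _
    constructor
    · calc u j (-(m : ℤ) + q * b) ≤ D := by omega
        _ ≤ (C₁ + D) * (m + 1) := by nlinarith [Nat.zero_le C₁, Nat.zero_le D, Nat.zero_le m]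
    · rw [e2]
      have h7 : (v j (-(m : ℤ) + q * b) : ℚ) ≤ D := by
        have : v j (-(m : ℤ) + q * b) ≤ D := by omega
        exact_mod_cast this
      have h8 : (0 : ℚ) ≤ v j (-(m : ℤ) + q * b) := Nat.cast_nonneg _
      have h9 : (v j (-(m : ℤ) + q * b) : ℚ) - r j * 0 ^ 2 / 2 = v j (-(m : ℤ) + q * b) := by ring
      rw [h9, abs_of_nonneg h8]
      push_cast
      have h10 : (0 : ℚ) ≤ C₁ := Nat.cast_nonneg _
      have h11 : (0 : ℚ) ≤ D := Nat.cast_nonneg _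
      have h12 : (0 : ℚ) ≤ m := Nat.cast_nonneg _
      nlinarith [mul_nonneg h10 h12, mul_nonneg h11 h12]
  · obtain ⟨i, hi⟩ := Nat.exists_eq_add_of_le hle
    have e1 : -(m : ℤ) + q * b = -(i : ℤ) := by
      have : ((m : ℕ) : ℤ) = ((q * b + i : ℕ) : ℤ) := by rw [hi]
      push_cast at this ⊢
      linarith
    have e2 : (m : ℚ) - q * b = i := by
      have : ((m : ℕ) : ℚ) = ((q * b + i : ℕ) : ℚ) := by rw [hi]
      push_cast at this
      linarith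
    have him : i ≤ m := by omega
    have himq : (i : ℚ) ≤ m := by exact_mod_cast him
    rw [e1, e2, max_eq_left (Nat.cast_nonneg i)]
    obtain ⟨h5, h6⟩ := h1 j hj i
    have h7 := hC j hj
    constructor
    · calc u j (-(i : ℤ)) ≤ C₀ j * (i + 1) := h5
        _ ≤ (C₁ + D) * (m + 1) := Nat.mul_le_mul (by omega) (by omega)
    · refine le_trans h6 ?_
      refine mul_le_mul ?_ (by linarith) (by positivity) (Nat.cast_nonneg _)
      exact_mod_cast (by omega : C₀ j ≤ C₁ + D)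

/-- the sums -/
theorem core (a b : ℕ) (hb : 0 < b) (u v : ℕ → ℤ → ℕ) (r M₀ C₀ : ℕ → ℕ)
    (h0 : ∀ j < a, ∀ n : ℤ, (M₀ j : ℤ) ≤ n → u j n = 0 ∧ v j n = 0)
    (h1 : ∀ j < a, ∀ n : ℕ, u j (-(n : ℤ)) ≤ C₀ j * (n + 1) ∧
      |(v j (-(n : ℤ)) : ℚ) - r j * (n : ℚ) ^ 2 / 2| ≤ C₀ j * ((n : ℚ) + 1)) :
    ∃ M C : ℕ, (∀ j < a, ∀ n : ℤ, (M : ℤ) ≤ n → u j n = 0 ∧ v j n = 0) ∧
      ∀ m : ℕ, ∑ q ∈ Finset.range (m + M), ∑ j ∈ Finset.range a, u j (-(m : ℤ) + q * b) ≤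
          C * (m + 1) ^ 2 ∧
        |((∑ q ∈ Finset.range (m + M), ∑ j ∈ Finset.range a, v j (-(m : ℤ) + q * b) : ℕ) : ℚ) -
          ((∑ j ∈ Finset.range a, r j : ℕ) : ℚ) * (m : ℚ) ^ 3 / (6 * b)| ≤
            C * ((m : ℚ) + 1) ^ 2 := by
  obtain ⟨M, C, hM, hC⟩ := term a b u v r M₀ C₀ h0 h1
  set R := ∑ j ∈ Finset.range a, r j with hR
  refine ⟨M, a * C * (M + 1) + R, hM, fun m => ⟨?_, ?_⟩⟩
  · calc ∑ q ∈ Finset.range (m + M), ∑ j ∈ Finset.range a, u j (-(m : ℤ) + q * b)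
        ≤ ∑ q ∈ Finset.range (m + M), ∑ j ∈ Finset.range a, C * (m + 1) :=
          Finset.sum_le_sum fun q _ => Finset.sum_le_sum fun j hj =>
            (hC j (Finset.mem_range.1 hj) m q).1
      _ = (m + M) * (a * (C * (m + 1))) := by
          simp only [Finset.sum_const, Finset.card_range, smul_eq_mul]
      _ ≤ ((m + 1) * (M + 1)) * (a * (C * (m + 1))) := by
          refine Nat.mul_le_mul_right _ ?_
          nlinarith [Nat.zero_le (m * M)]
      _ = a * C * (M + 1) * (m + 1) ^ 2 := by ring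
      _ ≤ (a * C * (M + 1) + R) * (m + 1) ^ 2 :=
          Nat.mul_le_mul_right _ (Nat.le_add_right _ _)
  · have hsq := sumsq m b (m + M) hb (Nat.le_add_right _ _)
    set T := ∑ q ∈ Finset.range (m + M), (max ((m : ℚ) - q * b) 0) ^ 2 with hT
    have hA : |((∑ q ∈ Finset.range (m + M), ∑ j ∈ Finset.range a,
        v j (-(m : ℤ) + q * b) : ℕ) : ℚ) - R * T / 2| ≤ a * C * (M + 1) * ((m : ℚ) + 1) ^ 2 := by
      have hsplit : ((∑ q ∈ Finset.range (m + M), ∑ j ∈ Finset.range a,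
          v j (-(m : ℤ) + q * b) : ℕ) : ℚ) - R * T / 2 =
          ∑ q ∈ Finset.range (m + M), ∑ j ∈ Finset.range a,
            ((v j (-(m : ℤ) + q * b) : ℚ) - r j * (max ((m : ℚ) - q * b) 0) ^ 2 / 2) := by
        simp only [Finset.sum_sub_distrib]
        push_cast
        congr 1
        rw [hT, hR, Nat.cast_sum, Finset.mul_sum, Finset.sum_div]
        refine Finset.sum_congr rfl fun q _ => ?_
        rw [Finset.sum_mul, Finset.sum_div]
      rw [hsplit]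
      calc |∑ q ∈ Finset.range (m + M), ∑ j ∈ Finset.range a,
            ((v j (-(m : ℤ) + q * b) : ℚ) - r j * (max ((m : ℚ) - q * b) 0) ^ 2 / 2)|
          ≤ ∑ q ∈ Finset.range (m + M), |∑ j ∈ Finset.range a,
            ((v j (-(m : ℤ) + q * b) : ℚ) - r j * (max ((m : ℚ) - q * b) 0) ^ 2 / 2)| :=
            Finset.abs_sum_le_sum_abs _ _
        _ ≤ ∑ q ∈ Finset.range (m + M), ∑ j ∈ Finset.range a,
            |((v j (-(m : ℤ) + q * b) : ℚ) - r j * (max ((m : ℚ) - q * b) 0) ^ 2 / 2)| :=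
            Finset.sum_le_sum fun q _ => Finset.abs_sum_le_sum_abs _ _
        _ ≤ ∑ q ∈ Finset.range (m + M), ∑ j ∈ Finset.range a, C * ((m : ℚ) + 1) :=
            Finset.sum_le_sum fun q _ => Finset.sum_le_sum fun j hj =>
              (hC j (Finset.mem_range.1 hj) m q).2
        _ = ((m : ℚ) + M) * (a * (C * ((m : ℚ) + 1))) := by
            simp only [Finset.sum_const, Finset.card_range, nsmul_eq_mul]
            push_cast
            ring
        _ ≤ (((m : ℚ) + 1) * (M + 1)) * (a * (C * ((m : ℚ) + 1))) := by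
            refine mul_le_mul_of_nonneg_right ?_ (by positivity)
            nlinarith [mul_nonneg (Nat.cast_nonneg m : (0 : ℚ) ≤ m) (Nat.cast_nonneg M : (0 : ℚ) ≤ M)]
        _ = a * C * (M + 1) * ((m : ℚ) + 1) ^ 2 := by ring
    have hB : |(R : ℚ) * T / 2 - R * (m : ℚ) ^ 3 / (6 * b)| ≤ R * ((m : ℚ) + 1) ^ 2 := by
      have hbq : (0 : ℚ) < b := by exact_mod_cast hb
      have e : (R : ℚ) * T / 2 - R * (m : ℚ) ^ 3 / (6 * b) =
          R * ((T - (m : ℚ) ^ 3 / (3 * b)) / 2) := by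
        field_simp
        ring
      rw [e, abs_of_nonneg (mul_nonneg (Nat.cast_nonneg _) (by linarith [hsq.1]))]
      refine mul_le_mul_of_nonneg_left ?_ (Nat.cast_nonneg _)
      have hm : (0 : ℚ) ≤ m := Nat.cast_nonneg _
      nlinarith [hsq.2]
    have hfin := abs_sub_le ((∑ q ∈ Finset.range (m + M), ∑ j ∈ Finset.range a,
        v j (-(m : ℤ) + q * b) : ℕ) : ℚ) ((R : ℚ) * T / 2) (R * (m : ℚ) ^ 3 / (6 * b))
    push_cast at hfin hA ⊢
    linarith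

theorem sum_blocks {A : Type} [AddCommMonoid A] (a : ℕ) (f : ℕ → A) (Q : ℕ) :
    ∑ J ∈ Finset.range (a * Q), f J =
      ∑ q ∈ Finset.range Q, ∑ j ∈ Finset.range a, f (a * q + j) := by
  induction Q with
  | zero => simp
  | succ Q ih => rw [Nat.mul_succ, Finset.sum_range_add, ih, Finset.sum_range_succ]

end WBD_

open WBD_

theorem wbd_proof (hGRS : Stmt_GRS) (hFIL : Stmt_FIL) (hFGB : Stmt_FGB) : Stmt_WBD := by
  intro κ _ W a b c γ F hB
  obtain ⟨⟨G, p, hG⟩, hall⟩ := hGRS κ W a b c γ F hB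
  obtain ⟨hfin, hsh, hrk⟩ := hall G p hG
  have ha := hB.a_pos
  have hb := hB.b_pos
  have hfgb : ∀ j, ∃ M C : ℕ, j < a → (∀ n : ℤ, h1 (G j) n ≠ ⊤ ∧ h2 (G j) n ≠ ⊤) ∧
      (∀ n : ℤ, (M : ℤ) ≤ n → h1 (G j) n = 0 ∧ h2 (G j) n = 0) ∧
      ∀ n : ℕ, (h1 (G j) (-(n : ℤ))).toNat ≤ C * (n + 1) ∧
      |((h2 (G j) (-(n : ℤ))).toNat : ℚ) - Module.finrank (Po κ 3) (G j).M * (n : ℚ) ^ 2 / 2| ≤
        C * ((n : ℚ) + 1) := by
    intro j
    by_cases hj : j < a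
    · obtain ⟨k1, ⟨n₀, k2⟩, C, k3⟩ := hFGB κ (G j) (hfin j hj)
      exact ⟨n₀.toNat, C, fun _ => ⟨k1, fun n hn => k2 n (le_trans (Int.self_le_toNat n₀) hn), k3⟩⟩
    · exact ⟨0, 0, fun h => absurd h hj⟩
  choose M₀ C₀ h₀ using hfgb
  have hfinite : ∀ j < a, ∀ n : ℤ, h1 (G j) n ≠ ⊤ ∧ h2 (G j) n ≠ ⊤ := fun j hj => (h₀ j hj).1
  obtain ⟨M, C, hM, hC⟩ := core a b hb (fun j n => (h1 (G j) n).toNat)
    (fun j n => (h2 (G j) n).toNat) (fun j => Module.finrank (Po κ 3) (G j).M) M₀ C₀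
    (fun j hj n hn => by
      obtain ⟨k1, k2⟩ := (h₀ j hj).2.1 n hn
      simp [k1, k2])
    (fun j hj n => (h₀ j hj).2.2 n)
  have hM' : ∀ j < a, ∀ n : ℤ, (M : ℤ) ≤ n → h1 (G j) n = 0 ∧ h2 (G j) n = 0 := by
    intro j hj n hn
    obtain ⟨k1, k2⟩ := hM j hj n hn
    obtain ⟨l1, l2⟩ := hfinite j hj n
    constructor
    · rw [← ENat.natCast_toNat l1]
      exact_mod_cast k1
    · rw [← ENat.natCast_toNat l2]
      exact_mod_cast k2
  -- the shift
  have hshift : ∀ q j n, h1 (G (a * q + j)) n = h1 (G j) (n + q * b) ∧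
      h2 (G (a * q + j)) n = h2 (G j) (n + q * b) := by
    intro q
    induction q with
    | zero => intro j n; simp
    | succ q ih =>
      intro j n
      have e : a * (q + 1) + j = (a * q + j) + a := by ring
      rw [e, (hsh _ n).1, (hsh _ n).2, (ih j _).1, (ih j _).2]
      have e2 : n + (b : ℤ) + q * b = n + ((q + 1 : ℕ) : ℤ) * b := by push_cast; ring
      rw [e2]
      exact ⟨rfl, rfl⟩
  have hvan : ∀ (n : ℤ) (Q : ℕ), (M : ℤ) ≤ n + Q * b → ∀ J, a * Q ≤ J →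
      h1 (G J) n = 0 ∧ h2 (G J) n = 0 := by
    intro n Q hQ J hJ
    have e : a * (J / a) + J % a = J := Nat.div_add_mod J a
    have hq : Q ≤ J / a := (Nat.le_div_iff_mul_le ha).2 (by rw [mul_comm]; exact hJ)
    have hlt : J % a < a := Nat.mod_lt _ ha
    have h5 : (M : ℤ) ≤ n + ((J / a : ℕ) : ℤ) * b := by
      refine le_trans hQ ?_
      have : (Q : ℤ) * b ≤ ((J / a : ℕ) : ℤ) * b :=
        mul_le_mul_of_nonneg_right (by exact_mod_cast hq) (by positivity)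
      linarith
    have h6 := hshift (J / a) (J % a) n
    rw [e] at h6
    rw [h6.1, h6.2]
    exact hM' _ hlt _ h5
  have hfil := hFIL κ W F hB.mono hB.uni hB.hom G p hG
  -- sums
  have hsum1 : ∀ (n : ℤ) (Q : ℕ), ∑ J ∈ Finset.range (a * Q), h1 (G J) n =
      ((∑ q ∈ Finset.range Q, ∑ j ∈ Finset.range a, (h1 (G j) (n + q * b)).toNat : ℕ) : ℕ∞) := by
    intro n Q
    rw [sum_blocks]
    push_cast
    refine Finset.sum_congr rfl fun q _ => Finset.sum_congr rfl fun j hj => ?_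
    rw [(hshift q j n).1, ENat.natCast_toNat (hfinite j (Finset.mem_range.1 hj) _).1]
  have hsum2 : ∀ (n : ℤ) (Q : ℕ), ∑ J ∈ Finset.range (a * Q), h2 (G J) n =
      ((∑ q ∈ Finset.range Q, ∑ j ∈ Finset.range a, (h2 (G j) (n + q * b)).toNat : ℕ) : ℕ∞) := by
    intro n Q
    rw [sum_blocks]
    push_cast
    refine Finset.sum_congr rfl fun q _ => Finset.sum_congr rfl fun j hj => ?_
    rw [(hshift q j n).2, ENat.natCast_toNat (hfinite j (Finset.mem_range.1 hj) _).2]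
  refine ⟨fun n => ?_, ⟨M, fun n hn => ?_⟩, C + C, fun m => ?_⟩
  · obtain ⟨f1, f2, -⟩ := hfil n (a * ((-n).toNat + M)) fun J hJ => hvan n _ (by
      have h1 : -n ≤ (-n).toNat := Int.self_le_toNat _
      have h2 : (1 : ℤ) ≤ b := by exact_mod_cast hb
      have h3 : (0 : ℤ) ≤ (((-n).toNat + M : ℕ) : ℤ) := by positivity
      push_cast at h3 ⊢
      nlinarith) J hJ
    rw [hsum1] at f1
    rw [hsum2] at f2
    exact ⟨ne_top_of_le_ne_top (ENat.natCast_ne_top _) f1, ne_top_of_le_ne_top (ENat.natCast_ne_top _) f2⟩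
  · obtain ⟨f1, f2, -⟩ := hfil n (a * 0) fun J hJ => hvan n 0 (by simpa using hn) J hJ
    simp only [mul_zero, Finset.range_zero, Finset.sum_empty, nonpos_iff_eq_zero] at f1 f2
    exact ⟨f1, f2⟩
  · obtain ⟨f1, f2, f3⟩ := hfil (-(m : ℤ)) (a * (m + M)) fun J hJ => hvan _ _ (by
      have h2 : (1 : ℤ) ≤ b := by exact_mod_cast hb
      have h3 : (0 : ℤ) ≤ ((m + M : ℕ) : ℤ) := by positivity
      push_cast at h3 ⊢
      nlinarith) J hJ
    rw [hsum1] at f1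
    rw [hsum2] at f2
    rw [hsum1, hsum2] at f3
    obtain ⟨c1, c2⟩ := hC m
    set S1 := ∑ q ∈ Finset.range (m + M), ∑ j ∈ Finset.range a,
      (h1 (G j) (-(m : ℤ) + q * b)).toNat with hS1
    set S2 := ∑ q ∈ Finset.range (m + M), ∑ j ∈ Finset.range a,
      (h2 (G j) (-(m : ℤ) + q * b)).toNat with hS2
    have hne : h2 W (-(m : ℤ)) ≠ ⊤ := ne_top_of_le_ne_top (ENat.natCast_ne_top _) f2
    have g1 : (h1 W (-(m : ℤ))).toNat ≤ S1 := ENat.toNat_le_of_le_natCast f1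
    have g2 : (h2 W (-(m : ℤ))).toNat ≤ S2 := ENat.toNat_le_of_le_natCast f2
    have g3 : S2 ≤ (h2 W (-(m : ℤ))).toNat + S1 := by
      rw [← ENat.natCast_toNat hne] at f3
      exact_mod_cast f3
    constructor
    · calc (h1 W (-(m : ℤ))).toNat ≤ S1 := g1
        _ ≤ C * (m + 1) ^ 2 := c1
        _ ≤ (C + C) * (m + 1) ^ 2 := Nat.mul_le_mul_right _ (Nat.le_add_right _ _)
    · rw [hrk] at c2
      have g2' : ((h2 W (-(m : ℤ))).toNat : ℚ) ≤ S2 := by exact_mod_cast g2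
      have g3' : (S2 : ℚ) ≤ (h2 W (-(m : ℤ))).toNat + S1 := by exact_mod_cast g3
      have c1' : (S1 : ℚ) ≤ C * ((m : ℚ) + 1) ^ 2 := by exact_mod_cast c1
      have c2' := abs_le.1 c2
      push_cast
      rw [abs_le]
      constructor <;> nlinarith [c2'.1, c2'.2, (by positivity : (0 : ℚ) ≤ C * ((m : ℚ) + 1) ^ 2)]

end

end Pool.Agent.GML
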