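import Pool.Agent.GML.AGR
import Pool.Agent.GML.CMP
import Pool.Agent.GML.CNT
import Pool.Agent.GML.DEG
import Pool.Agent.GML.DIM
import Pool.Agent.GML.DUA
import Pool.Agent.GML.EXP
import Pool.Agent.GML.FGB
import Pool.Agent.GML.FIL
import Pool.Agent.GML.FRA
import Pool.Agent.GML.FRE
import Pool.Agent.GML.FRX
import Pool.Agent.GML.GRO
import Pool.Agent.GML.GRS
import Pool.Agent.GML.ISO
import Pool.Agent.GML.LES
import Pool.Agent.GML.QUO
import Pool.Agent.GML.RED
import Pool.Agent.GML.RNK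
import Pool.Agent.GML.SHI
import Pool.Agent.GML.SUB
import Pool.Agent.GML.TFG
import Pool.Agent.GML.TOR
import Pool.Agent.GML.UNI
import Pool.Agent.GML.WBD

/-!
# GML: all statements, without hypotheses
-/

namespace Pool.Agent.GML

theorem a_cmp : Stmt_CMP := cmp_proof
theorem a_agr : Stmt_AGR := agr_proof
theorem a_deg : Stmt_DEG := deg_proof a_cmp
theorem a_sub : Stmt_SUB := sub_proof a_cmp
theorem a_quo : Stmt_QUO := quo_proof a_cmp
theorem a_frx : Stmt_FRX := frx_proof a_agr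
theorem a_les : Stmt_LES := les_proof a_deg
theorem a_uni : Stmt_UNI := uni_proof a_deg
theorem a_shi : Stmt_SHI := shi_proof a_cmp a_deg
theorem a_iso : Stmt_ISO := iso_proof a_deg
theorem a_fra : Stmt_FRA := fra_proof a_agr a_cmp
theorem a_tor : Stmt_TOR := tor_proof a_agr a_cmp
theorem a_fre : Stmt_FRE := fre_proof a_cmp a_deg
theorem a_dim : Stmt_DIM := dim_proof a_agr a_cmp
theorem a_gro : Stmt_GRO := gro_proof a_agr a_cmp a_fre a_dim a_deg a_quo
theorem a_tfg : Stmt_TFG := tfg_proof a_frx a_fra a_tor a_les a_quo a_sub a_deg a_cmp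
theorem a_fgb : Stmt_FGB := fgb_proof a_fre a_fra a_tor a_tfg a_les a_sub a_quo a_deg
theorem a_fil : Stmt_FIL := fil_proof a_les a_uni a_sub a_quo a_deg a_iso
theorem a_grs : Stmt_GRS := grs_proof a_quo a_sub a_deg a_shi a_iso
theorem a_wbd : Stmt_WBD := wbd_proof a_grs a_fil a_fgb
theorem a_dua : Stmt_DUA := dua_proof a_agr a_cmp
theorem a_red : Stmt_RED := red_proof a_cmp
theorem a_rnk : Stmt_RNK := rnk_proof
theorem a_exp : Stmt_EXP := exp_proof a_dua a_red a_rnk a_cmp
/-- **count of functionals** -/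
theorem a_cnt : Stmt_CNT := cnt_proof a_wbd a_exp

end Pool.Agent.GML
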