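import Mathlib

/-!
# GML: graded modules over `V[X_0, ..., X_(r-1)]`, three-chart cohomology, duality

Everything in universe 0.  `GMod V r` = `ℤ`-graded module over `MvPolynomial (Fin r) V`
(every variable of degree one), NOT assumed finitely generated.
-/

namespace Pool.Agent.GML

open MvPolynomial Filter

noncomputable section

/-- a `ℤ`-graded module over the polynomial ring `V[X_0, …, X_(r-1)]`, `deg X_i = 1` -/
structure GMod (V : Type) [CommRing V] (r : ℕ) where
  M : Type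
  [acg : AddCommGroup M]
  [mdV : Module V M]
  [mdA : Module (MvPolynomial (Fin r) V) M]
  [tow : IsScalarTower V (MvPolynomial (Fin r) V) M]
  gr : ℤ → Submodule V M
  int : DirectSum.IsInternal gr
  mul_mem : ∀ (i : Fin r) (n : ℤ) (x : M), x ∈ gr n →
    (X i : MvPolynomial (Fin r) V) • x ∈ gr (n + 1)

attribute [instance] GMod.acg GMod.mdV GMod.mdA GMod.tow

variable {V : Type} [CommRing V] {r : ℕ}

/-- the homogeneous component of degree `n` -/
def GMod.cmp (M : GMod V r) (n : ℤ) (x : M.M) : M.M :=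
  (((LinearEquiv.ofBijective (DirectSum.coeLinearMap M.gr) M.int).symm x) n : M.gr n)

/-- homomorphism of degree zero -/
structure GHom (M N : GMod V r) where
  f : M.M →ₗ[MvPolynomial (Fin r) V] N.M
  deg : ∀ (n : ℤ) (x : M.M), x ∈ M.gr n → f x ∈ N.gr n

/-- `0 → M' → M → M'' → 0` is exact -/
def SES {M' M M'' : GMod V r} (f : GHom M' M) (g : GHom M M'') : Prop :=
  Function.Injective f.f ∧ Function.Exact f.f g.f ∧ Function.Surjective g.f

/-- homogeneous submodule: generated by its homogeneous elements -/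
def IsHom (M : GMod V r) (N : Submodule (MvPolynomial (Fin r) V) M.M) : Prop :=
  Submodule.span (MvPolynomial (Fin r) V) {x | x ∈ N ∧ ∃ n : ℤ, x ∈ M.gr n} = N

/-- the polynomials of degree `d` (`0` for `d < 0`) -/
def Agr (V : Type) [CommRing V] (r : ℕ) (d : ℤ) : Submodule V (MvPolynomial (Fin r) V) :=
  if 0 ≤ d then homogeneousSubmodule (Fin r) V d.toNat else ⊥

/-! ## the Čech complex of the three charts `X_0 ≠ 0`, `X_1 ≠ 0`, `X_2 ≠ 0` -/

/-- Germs at infinity of sequences `f` with `f (a+1) = X_s f a`, `f a` of degree `n + |s| a`: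
the element `f a / X_s ^ a` of the localisation of `M` at `X_s = ∏_{i ∈ s} X_i`, in degree `n`. -/
def Seq (M : GMod V 3) (s : Finset (Fin 3)) (n : ℤ) : Submodule V (ℕ → M.M) where
  carrier := {f | ∀ᶠ a : ℕ in atTop, f a ∈ M.gr (n + s.card * (a : ℤ)) ∧
    f (a + 1) = (∏ i ∈ s, X i : MvPolynomial (Fin 3) V) • f a}
  add_mem' := by
    intro f g hf hg
    filter_upwards [hf, hg] with a h1 h2
    exact ⟨Submodule.add_mem _ h1.1 h2.1, by simp [h1.2, h2.2, smul_add]⟩
  zero_mem' := by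
    refine Eventually.of_forall fun a => ⟨Submodule.zero_mem _, by simp⟩
  smul_mem' := by
    intro v f hf
    filter_upwards [hf] with a h1
    refine ⟨Submodule.smul_mem _ _ h1.1, ?_⟩
    simp only [Pi.smul_apply, h1.2]
    rw [smul_comm]

/-- `d₀ : C⁰ → C¹`; index `k` stands for the double intersection of the two charts `≠ k` -/
def dz (M : GMod V 3) (f : Fin 3 → ℕ → M.M) : Fin 3 → ℕ → M.M :=
  ![fun a => (X 1 : MvPolynomial (Fin 3) V) ^ a • f 2 a - (X 2 : MvPolynomial (Fin 3) V) ^ a • f 1 a,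
    fun a => (X 0 : MvPolynomial (Fin 3) V) ^ a • f 2 a - (X 2 : MvPolynomial (Fin 3) V) ^ a • f 0 a,
    fun a => (X 0 : MvPolynomial (Fin 3) V) ^ a • f 1 a - (X 1 : MvPolynomial (Fin 3) V) ^ a • f 0 a]

/-- `d₁ : C¹ → C²` -/
def dn (M : GMod V 3) (g : Fin 3 → ℕ → M.M) : ℕ → M.M := fun a =>
  (X 0 : MvPolynomial (Fin 3) V) ^ a • g 0 a - (X 1 : MvPolynomial (Fin 3) V) ^ a • g 1 a
    + (X 2 : MvPolynomial (Fin 3) V) ^ a • g 2 a

/-- cocycles in degree one -/
def Z1 (M : GMod V 3) (n : ℤ) : Submodule V (Fin 3 → ℕ → M.M) where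
  carrier := {g | (∀ k, g k ∈ Seq M (Finset.univ.erase k) n) ∧ ∀ᶠ a : ℕ in atTop, dn M g a = 0}
  add_mem' := by
    rintro f g ⟨hf, hf'⟩ ⟨hg, hg'⟩
    refine ⟨fun k => Submodule.add_mem _ (hf k) (hg k), ?_⟩
    filter_upwards [hf', hg'] with a h1 h2
    have : dn M (f + g) a = dn M f a + dn M g a := by
      simp only [dn, Pi.add_apply, smul_add]; abel
    rw [this, h1, h2, add_zero]
  zero_mem' := by
    refine ⟨fun k => Submodule.zero_mem _, Eventually.of_forall fun a => ?_⟩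
    simp [dn]
  smul_mem' := by
    rintro v f ⟨hf, hf'⟩
    refine ⟨fun k => Submodule.smul_mem _ _ (hf k), ?_⟩
    filter_upwards [hf'] with a h1
    have : dn M (v • f) a = v • dn M f a := by
      simp only [dn, Pi.smul_apply, smul_add, smul_sub]
      simp only [smul_comm v]
    rw [this, h1, smul_zero]

/-- coboundaries in degree one -/
def B1 (M : GMod V 3) (n : ℤ) : Submodule V (Fin 3 → ℕ → M.M) where
  carrier := {g | ∃ f : Fin 3 → ℕ → M.M, (∀ i, f i ∈ Seq M {i} n) ∧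
    ∀ᶠ a : ℕ in atTop, ∀ k, g k a = dz M f k a}
  add_mem' := by
    rintro f g ⟨f', hf, hf'⟩ ⟨g', hg, hg'⟩
    refine ⟨f' + g', fun k => Submodule.add_mem _ (hf k) (hg k), ?_⟩
    filter_upwards [hf', hg'] with a h1 h2
    intro k
    have : dz M (f' + g') k a = dz M f' k a + dz M g' k a := by
      fin_cases k <;> simp [dz, smul_add] <;> abel
    rw [this, ← h1, ← h2]; rfl
  zero_mem' := by
    refine ⟨0, fun k => Submodule.zero_mem _, Eventually.of_forall fun a k => ?_⟩
    fin_cases k <;> simp [dz]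
  smul_mem' := by
    rintro v f ⟨f', hf, hf'⟩
    refine ⟨v • f', fun k => Submodule.smul_mem _ _ (hf k), ?_⟩
    filter_upwards [hf'] with a h1
    intro k
    have : dz M (v • f') k a = v • dz M f' k a := by
      fin_cases k <;> simp [dz, smul_sub] <;> simp only [smul_comm v]
    rw [this, ← h1]; rfl

/-- coboundaries in degree two -/
def B2 (M : GMod V 3) (n : ℤ) : Submodule V (ℕ → M.M) where
  carrier := {f | ∃ g : Fin 3 → ℕ → M.M, (∀ k, g k ∈ Seq M (Finset.univ.erase k) n) ∧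
    ∀ᶠ a : ℕ in atTop, f a = dn M g a}
  add_mem' := by
    rintro f g ⟨f', hf, hf'⟩ ⟨g', hg, hg'⟩
    refine ⟨f' + g', fun k => Submodule.add_mem _ (hf k) (hg k), ?_⟩
    filter_upwards [hf', hg'] with a h1 h2
    have : dn M (f' + g') a = dn M f' a + dn M g' a := by
      simp only [dn, Pi.add_apply, smul_add]; abel
    rw [this, ← h1, ← h2]; rfl
  zero_mem' := by
    refine ⟨0, fun k => Submodule.zero_mem _, Eventually.of_forall fun a => ?_⟩
    simp [dn]
  smul_mem' := by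
    rintro v f ⟨f', hf, hf'⟩
    refine ⟨v • f', fun k => Submodule.smul_mem _ _ (hf k), ?_⟩
    filter_upwards [hf'] with a h1
    have : dn M (v • f') a = v • dn M f' a := by
      simp only [dn, Pi.smul_apply, smul_add, smul_sub]
      simp only [smul_comm v]
    rw [this, ← h1]; rfl

/-- `H¹` of the three charts in degree `n` -/
abbrev H1 (M : GMod V 3) (n : ℤ) : Type := ↥(Z1 M n) ⧸ (B1 M n).comap (Z1 M n).subtype

/-- `H²` of the three charts in degree `n` -/
abbrev H2 (M : GMod V 3) (n : ℤ) : Type :=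
  ↥(Seq M Finset.univ n) ⧸ (B2 M n).comap (Seq M Finset.univ n).subtype

/-- lengths over the base ring -/
def h1 (M : GMod V 3) (n : ℤ) : ℕ∞ := Module.length V (H1 M n)

def h2 (M : GMod V 3) (n : ℤ) : ℕ∞ := Module.length V (H2 M n)

/-! ## functionals -/

/-- graded `A`-linear maps `M → A = V[X_0..X_(r-1)]` of degree `s` -/
def Om (M : GMod V r) (s : ℤ) :
    Submodule V (M.M →ₗ[MvPolynomial (Fin r) V] MvPolynomial (Fin r) V) where
  carrier := {φ | ∀ (n : ℤ) (x : M.M), x ∈ M.gr n → φ x ∈ Agr V r (n + s)}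
  add_mem' := fun hf hg n x hx => Submodule.add_mem _ (hf n x hx) (hg n x hx)
  zero_mem' := fun _ _ _ => Submodule.zero_mem _
  smul_mem' := fun v _ hf n x hx => Submodule.smul_mem _ v (hf n x hx)

/-! ## reduction modulo a uniformiser -/

/-- `W` is the reduction of `D` modulo `t`; `σ : V → κ` is the residue map -/
structure Red {V κ : Type} [CommRing V] [CommRing κ] (σ : V →+* κ) (t : V) {r : ℕ}
    (D : GMod V r) (W : GMod κ r) where
  surjσ : Function.Surjective σ
  kerσ : RingHom.ker σ = Ideal.span {t}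
  q : D.M →+ W.M
  smul : ∀ (p : MvPolynomial (Fin r) V) (x : D.M), q (p • x) = (MvPolynomial.map σ p) • q x
  deg : ∀ (n : ℤ) (x : D.M), x ∈ D.gr n → q x ∈ W.gr n
  surj : Function.Surjective q
  ker : ∀ x : D.M, q x = 0 ↔ ∃ y : D.M, x = t • y

/-! ## balanced filtrations -/

/-- `F (j-1)`, with `F (-1) = 0` -/
def Fm {R M : Type} [Ring R] [AddCommGroup M] [Module R M] (F : ℕ → Submodule R M) (j : ℕ) :
    Submodule R M := if j = 0 then ⊥ else F (j - 1)

/-- `W = ⋃ F j` (increasing, homogeneous), `F 0, …, F (a-1)` finitely generated, and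
`γ i / X_i ^ c` is, on the chart `X_i ≠ 0`, an isomorphism `gr_j → gr_(j+a)` of degree `-b`,
independent of `i`. -/
structure BalM {κ : Type} [Field κ] (W : GMod κ 3) (a b c : ℕ)
    (γ : Fin 3 → (W.M →ₗ[MvPolynomial (Fin 3) κ] W.M))
    (F : ℕ → Submodule (MvPolynomial (Fin 3) κ) W.M) : Prop where
  a_pos : 0 < a
  b_pos : 0 < b
  mono : Monotone F
  uni : ∀ x : W.M, ∃ j, x ∈ F j
  hom : ∀ j, IsHom W (F j)
  fg : ∀ j, j < a → (F j).FG
  gdeg : ∀ i (n : ℤ) x, x ∈ W.gr n → γ i x ∈ W.gr (n + c - b)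
  gF : ∀ i j x, x ∈ F j → γ i x ∈ F (j + a)
  coc : ∀ i k j x, x ∈ F j →
    (X k : MvPolynomial (Fin 3) κ) ^ c • γ i x - (X i : MvPolynomial (Fin 3) κ) ^ c • γ k x
      ∈ Fm F (j + a)
  inj : ∀ i j x, x ∈ F j → γ i x ∈ Fm F (j + a) →
    ∃ N : ℕ, (X i : MvPolynomial (Fin 3) κ) ^ N • x ∈ Fm F j
  surj : ∀ i j y, y ∈ F (j + a) →
    ∃ N : ℕ, ∃ x ∈ F j, (X i : MvPolynomial (Fin 3) κ) ^ N • y - γ i x ∈ Fm F (j + a)

/-- `G` (with the projection `p`) is the graded piece `F J / F (J-1)` -/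
structure IsGr {κ : Type} [Field κ] {W : GMod κ 3}
    (F : ℕ → Submodule (MvPolynomial (Fin 3) κ) W.M) (J : ℕ) (G : GMod κ 3)
    (p : ↥(F J) →ₗ[MvPolynomial (Fin 3) κ] G.M) : Prop where
  surj : Function.Surjective p
  ker : ∀ x : F J, p x = 0 ↔ (x : W.M) ∈ Fm F J
  deg : ∀ (n : ℤ) (x : F J), (x : W.M) ∈ W.gr n → p x ∈ G.gr n

end

end Pool.Agent.GML
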