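import Pool.Agent.GML.Stmts

set_option autoImplicit false

open MvPolynomial Filter

set_option linter.all false

namespace Pool.Agent.GML

namespace RNK_

section dvr

variable {V : Type} [CommRing V] [IsDomain V] [IsDiscreteValuationRing V]
  [IsAdicComplete (IsLocalRing.maximalIdeal V) V] {t : V}

omit [IsAdicComplete (IsLocalRing.maximalIdeal V) V] in
lemma mem_pow_smul (ht : Irreducible t) (n : ℕ) (x : V) :
    x ∈ ((IsLocalRing.maximalIdeal V) ^ n • (⊤ : Submodule V V)) ↔ t ^ n ∣ x := by
  rw [ht.maximalIdeal_eq, Ideal.span_singleton_pow, smul_eq_mul, Ideal.mul_top,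
    Ideal.mem_span_singleton]

lemma zero_of_all_pow (ht : Irreducible t) (x : V) (h : ∀ n : ℕ, t ^ n ∣ x) : x = 0 := by
  refine IsHausdorff.haus (inferInstance : IsHausdorff (IsLocalRing.maximalIdeal V) V) x ?_
  intro n
  rw [SModEq.zero]
  exact (mem_pow_smul ht n x).2 (h n)

omit [IsDomain V] [IsDiscreteValuationRing V] [IsAdicComplete (IsLocalRing.maximalIdeal V) V] in
lemma dvd_sub_of_le (f : ℕ → V) (hf : ∀ n, t ^ n ∣ f (n + 1) - f n) (m n : ℕ) (h : m ≤ n) :
    t ^ m ∣ f n - f m := by
  induction n, h using Nat.le_induction with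
  | base => simp
  | succ n hmn ih =>
    have h1 : t ^ m ∣ f (n + 1) - f n := (pow_dvd_pow t hmn).trans (hf n)
    have : f (n + 1) - f m = (f (n + 1) - f n) + (f n - f m) := by ring
    rw [this]
    exact dvd_add h1 ih

lemma exists_lim (ht : Irreducible t) (f : ℕ → V) (hf : ∀ n, t ^ n ∣ f (n + 1) - f n) :
    ∃ L, ∀ n, t ^ n ∣ L - f n := by
  obtain ⟨L, hL⟩ := IsPrecomplete.prec
    (inferInstance : IsPrecomplete (IsLocalRing.maximalIdeal V) V) (f := f) (by
      intro m n hmn
      rw [SModEq.sub_mem, mem_pow_smul ht]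
      have := dvd_sub_of_le f hf m n hmn
      rw [← dvd_neg]
      simpa using this)
  refine ⟨L, fun n => ?_⟩
  have := hL n
  rw [SModEq.sub_mem, mem_pow_smul ht, ← dvd_neg] at this
  simpa using this

/-- the retraction onto the coordinates -/
lemma exists_coord (ht : Irreducible t) {H : Type} [AddCommGroup H] [Module V H]
    (htf : ∀ x : H, t • x = 0 → x = 0) {m : ℕ} (x : Fin m → H)
    (hgen : ∀ h : H, ∃ (c : Fin m → V) (z : H), h = ∑ i, c i • x i + t • z)
    (hind : ∀ (c : Fin m → V) (z : H), ∑ i, c i • x i = t • z → ∀ i, t ∣ c i) :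
    ∃ r : H →ₗ[V] (Fin m → V), ∀ i, r (x i) = Pi.single i 1 := by
  have gen : ∀ (n : ℕ) (h : H), ∃ (c : Fin m → V) (z : H), h = ∑ i, c i • x i + t ^ n • z := by
    intro n
    induction n with
    | zero => intro h; exact ⟨0, h, by simp⟩
    | succ n ih =>
      intro h
      obtain ⟨c, z, hz⟩ := ih h
      obtain ⟨d, w, hw⟩ := hgen z
      refine ⟨c + t ^ n • d, w, ?_⟩
      rw [hz]
      conv_lhs => rw [hw]
      simp only [Pi.add_apply, Pi.smul_apply, add_smul, Finset.sum_add_distrib, smul_add,
        Finset.smul_sum, smul_smul, smul_eq_mul, pow_succ, add_assoc]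
  have ind : ∀ (n : ℕ) (c : Fin m → V) (z : H), ∑ i, c i • x i = t ^ n • z →
      ∀ i, t ^ n ∣ c i := by
    intro n
    induction n with
    | zero => intro c z _ i; simp
    | succ n ih =>
      intro c z hz i
      have h1 : ∀ i, t ∣ c i := hind c (t ^ n • z) (by rw [hz, smul_smul, pow_succ'])
      choose d hd using h1
      have h2 : ∑ i, d i • x i = t ^ n • z := by
        have : t • (∑ i, d i • x i - t ^ n • z) = 0 := by
          rw [smul_sub, Finset.smul_sum, smul_smul, ← pow_succ', ← hz, sub_eq_zero]
          refine Finset.sum_congr rfl fun i _ => ?_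
          rw [smul_smul, ← hd i]
        exact sub_eq_zero.1 (htf _ this)
      rw [hd i, pow_succ']
      exact mul_dvd_mul_left t (ih d z h2 i)
  have uniq : ∀ (h : H) (L L' : Fin m → V),
      (∀ n : ℕ, ∃ z : H, h = ∑ i, L i • x i + t ^ n • z) →
      (∀ n : ℕ, ∃ z : H, h = ∑ i, L' i • x i + t ^ n • z) → L = L' := by
    intro h L L' h1 h2
    funext i
    rw [← sub_eq_zero]
    refine zero_of_all_pow ht _ fun n => ?_
    obtain ⟨z, hz⟩ := h1 n
    obtain ⟨w, hw⟩ := h2 n
    have : ∑ i, (L i - L' i) • x i = t ^ n • (w - z) := by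
      simp only [sub_smul, Finset.sum_sub_distrib, smul_sub]
      have e := hz.symm.trans hw
      rw [sub_eq_sub_iff_add_eq_add, add_comm (t ^ n • w)]
      exact e
    exact ind n _ _ this i
  have ex : ∀ h : H, ∃ L : Fin m → V, ∀ n : ℕ, ∃ z : H, h = ∑ i, L i • x i + t ^ n • z := by
    intro h
    choose c z hc using fun n => gen n h
    have step : ∀ (i : Fin m) (n : ℕ), t ^ n ∣ c (n + 1) i - c n i := by
      intro i n
      refine ind n (fun i => c (n + 1) i - c n i) (z n - t • z (n + 1)) ?_ i
      have e := (hc (n + 1)).symm.trans (hc n)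
      simp only [sub_smul, Finset.sum_sub_distrib, smul_sub, smul_smul]
      rw [← pow_succ, sub_eq_sub_iff_add_eq_add, e, add_comm]
    choose L hL using fun i => exists_lim ht (fun n => c n i) (step i)
    refine ⟨L, fun n => ?_⟩
    choose d hd using fun i => hL i n
    refine ⟨z n - ∑ i, d i • x i, ?_⟩
    have h3 : ∀ i, L i = c n i + t ^ n * d i := by
      intro i
      rw [← hd i]; ring
    conv_lhs => rw [hc n]
    simp only [h3, add_smul, Finset.sum_add_distrib, smul_sub, Finset.smul_sum, smul_smul]
    abel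
  choose L hL using ex
  refine ⟨{ toFun := L, map_add' := ?_, map_smul' := ?_ }, ?_⟩
  · intro g h
    refine uniq (g + h) _ _ (hL _) fun n => ?_
    obtain ⟨z, hz⟩ := hL g n
    obtain ⟨w, hw⟩ := hL h n
    refine ⟨z + w, ?_⟩
    conv_lhs => rw [hz, hw]
    simp only [Pi.add_apply, add_smul, Finset.sum_add_distrib, smul_add]
    abel
  · intro v h
    refine uniq (v • h) _ _ (hL _) fun n => ?_
    obtain ⟨z, hz⟩ := hL h n
    refine ⟨v • z, ?_⟩
    conv_lhs => rw [hz]
    simp only [RingHom.id_apply, Pi.smul_apply, smul_eq_mul, smul_add, Finset.smul_sum, smul_smul]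
    congr 2
    rw [mul_comm]
  · intro i
    refine uniq (x i) _ _ (hL _) fun n => ⟨0, ?_⟩
    simp [Pi.single_apply, ite_smul]

/-- a functional vanishing on generators modulo `t` vanishes -/
lemma funct_zero (ht : Irreducible t) {H : Type} [AddCommGroup H] [Module V H] {m : ℕ}
    (x : Fin m → H) (hgen : ∀ h : H, ∃ (c : Fin m → V) (z : H), h = ∑ i, c i • x i + t • z)
    (l : H →ₗ[V] V) (h0 : ∀ i, l (x i) = 0) : l = 0 := by
  have key : ∀ (n : ℕ) (h : H), t ^ n ∣ l h := by
    intro n
    induction n with
    | zero => intro h; simp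
    | succ n ih =>
      intro h
      obtain ⟨c, z, hz⟩ := hgen h
      have : l h = t * l z := by
        rw [hz, map_add, map_sum, map_smul]
        simp [h0]
      rw [this, pow_succ']
      exact mul_dvd_mul_left t (ih z)
  ext h
  exact zero_of_all_pow ht _ fun n => key n h

end dvr

/-- the torsion bound -/
lemma tors_bound {V : Type} [CommRing V] [IsDomain V] {κ : Type} [Field κ]
    (σ : V →+* κ) (t : V) (ht0 : t ≠ 0) (hσ : Function.Surjective σ) (hker : σ t = 0)
    (H : Type) [AddCommGroup H] [Module V H] (Hk : Type) [AddCommGroup Hk] [Module κ Hk]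
    (K : Type) [AddCommGroup K] [Module κ K] [Module.Finite κ K]
    (ρ : H →+ Hk) (δ : K →+ H) (hρt : ∀ z, ρ (t • z) = 0)
    (hρσ : ∀ (v : V) y, ρ (v • y) = σ v • ρ y) (hδσ : ∀ (v : V) x, δ (σ v • x) = v • δ x)
    (hδ : ∀ y, t • y = 0 → ∃ x, δ x = y) (j : ℕ) (x : Fin j → H)
    (hx : ∀ i, ∃ s : ℕ, t ^ s • x i = 0) (hli : LinearIndependent κ (fun i => ρ (x i))) :
    j ≤ Module.finrank κ K := by
  classical
  letI : Algebra V κ := σ.toAlgebra
  letI : Module V Hk := Module.compHom Hk σ
  letI : Module V K := Module.compHom K σ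
  have hs : ∀ (v : V) (y : Hk), v • y = σ v • y := fun v y => rfl
  have hs' : ∀ (v : V) (y : K), v • y = σ v • y := fun v y => rfl
  haveI : IsScalarTower V κ Hk := ⟨fun a b c => by
    rw [hs, smul_smul]; rfl⟩
  haveI : IsScalarTower V κ K := ⟨fun a b c => by
    rw [hs', smul_smul]; rfl⟩
  let ρ' : H →ₗ[V] Hk := { ρ with map_smul' := fun v y => by simpa [hs] using hρσ v y }
  let δ' : K →ₗ[V] H := { δ with map_smul' := fun v y => by simpa [hs'] using hδσ v y }
  have hρ' : ∀ y, ρ' y = ρ y := fun y => rfl
  have hδ' : ∀ y, δ' y = δ y := fun y => rfl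
  have lenK : Module.length V K = Module.finrank κ K := by
    rw [Module.length_eq_of_surjective (R := κ) (S := V) (M := K) hσ, Module.length_eq_finrank]
  -- kernel of multiplication by t on a submodule has length ≤ length K
  have kerlen : ∀ P : Submodule V H,
      Module.length V (LinearMap.ker (t • (P.subtype))) ≤ Module.length V K := by
    intro P
    -- the preimage of the kernel in K
    let Q : Submodule V K := (P.comap δ')
    have h1 : Module.length V Q ≤ Module.length V K :=
      Module.length_le_of_injective Q.subtype Q.injective_subtype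
    refine le_trans ?_ h1
    have hz : ∀ y : Q, t • δ' (y : K) = 0 := by
      intro y
      rw [← map_smul, hs', hker, zero_smul, map_zero]
    let g : Q →ₗ[V] LinearMap.ker (t • (P.subtype)) :=
      { toFun := fun y => ⟨⟨δ' (y : K), y.2⟩, by
          rw [LinearMap.mem_ker]; simpa using hz y⟩
        map_add' := fun a b => by
          apply Subtype.ext; apply Subtype.ext; simp
        map_smul' := fun a b => by
          apply Subtype.ext; apply Subtype.ext; simp }
    refine Module.length_le_of_surjective g ?_
    rintro ⟨⟨y, hyP⟩, hy⟩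
    rw [LinearMap.mem_ker] at hy
    obtain ⟨w, hw⟩ := hδ y (by simpa using hy)
    refine ⟨⟨w, ?_⟩, ?_⟩
    · change δ' w ∈ P
      rw [hδ', hw]; exact hyP
    · apply Subtype.ext; apply Subtype.ext
      exact hw
  -- lengths of the torsion submodules
  let Tt : ℕ → Submodule V H := fun s => LinearMap.ker (t ^ s • (LinearMap.id : H →ₗ[V] H))
  have hTt : ∀ s y, y ∈ Tt s ↔ t ^ s • y = 0 := fun s y => by simp [Tt]
  have Tlen : ∀ s, Module.length V (Tt s) ≠ ⊤ := by
    intro s
    induction s with
    | zero =>
      have : Subsingleton (Tt 0) := by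
        refine ⟨fun a b => ?_⟩
        have ha := (hTt 0 a).1 a.2
        have hb := (hTt 0 b).1 b.2
        apply Subtype.ext
        simp only [pow_zero, one_smul] at ha hb
        rw [ha, hb]
      rw [Module.length_eq_zero]
      exact ENat.zero_ne_top
    | succ s ih =>
      let m : Tt (s + 1) →ₗ[V] H := t • (Tt (s + 1)).subtype
      have hex := Module.length_eq_add_of_exact (LinearMap.ker m).subtype m.rangeRestrict
        (LinearMap.ker m).injective_subtype m.surjective_rangeRestrict (by
          intro y
          constructor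
          · intro hy
            have : m y = 0 := by
              have := congrArg Subtype.val hy
              simpa using this
            exact ⟨⟨y, this⟩, rfl⟩
          · rintro ⟨⟨w, hw⟩, rfl⟩
            apply Subtype.ext
            simpa using hw)
      rw [hex]
      have hr : Module.length V (LinearMap.range m) ≤ Module.length V (Tt s) := by
        have hle : LinearMap.range m ≤ Tt s := by
          rintro _ ⟨y, rfl⟩
          rw [hTt]
          have := (hTt (s + 1) y).1 y.2
          simpa [m, smul_smul, ← pow_succ] using this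
        exact Module.length_le_of_injective (Submodule.inclusion hle)
          (Submodule.inclusion_injective hle)
      have h1 := kerlen (Tt (s + 1))
      rw [lenK] at h1
      have h2 : Module.length V (LinearMap.ker m) ≠ ⊤ :=
        ne_top_of_le_ne_top (ENat.natCast_ne_top _) h1
      have h3 : Module.length V (LinearMap.range m) ≠ ⊤ := ne_top_of_le_ne_top ih hr
      exact WithTop.add_ne_top.2 ⟨h2, h3⟩
  -- the submodule generated by the x i
  let P : Submodule V H := Submodule.span V (Set.range x)
  choose s hs1 using hx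
  have hPT : P ≤ Tt (∑ i, s i) := by
    refine Submodule.span_le.2 ?_
    rintro _ ⟨i, rfl⟩
    change x i ∈ Tt _
    rw [hTt, ← Finset.add_sum_erase _ _ (Finset.mem_univ i), add_comm, pow_add, mul_smul, hs1 i,
      smul_zero]
  have Plen : Module.length V P ≠ ⊤ := by
    have : Module.length V P ≤ Module.length V (Tt (∑ i, s i)) :=
      Module.length_le_of_injective (Submodule.inclusion hPT) (Submodule.inclusion_injective hPT)
    exact ne_top_of_le_ne_top (Tlen _) this
  -- multiplication by t on P
  let m : P →ₗ[V] P := t • LinearMap.id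
  have hm : ∀ y, m y = t • y := fun y => rfl
  have ex1 := Module.length_eq_add_of_exact (LinearMap.ker m).subtype m.rangeRestrict
        (LinearMap.ker m).injective_subtype m.surjective_rangeRestrict (by
          intro y
          constructor
          · intro hy
            have : m y = 0 := by
              have := congrArg Subtype.val hy
              simpa using this
            exact ⟨⟨y, this⟩, rfl⟩
          · rintro ⟨⟨w, hw⟩, rfl⟩
            apply Subtype.ext
            simpa using hw)
  have ex2 := Module.length_eq_add_of_exact (LinearMap.range m).subtype (LinearMap.range m).mkQ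
        (LinearMap.range m).injective_subtype (Submodule.mkQ_surjective _) (by
          intro y
          constructor
          · intro hy
            rw [Submodule.mkQ_apply, Submodule.Quotient.mk_eq_zero] at hy
            exact ⟨⟨y, hy⟩, rfl⟩
          · rintro ⟨⟨w, hw⟩, rfl⟩
            rw [Submodule.mkQ_apply, Submodule.Quotient.mk_eq_zero]
            exact hw)
  have hrtop : Module.length V (LinearMap.range m) ≠ ⊤ := by
    refine ne_top_of_le_ne_top Plen ?_
    rw [ex2]; exact le_self_add
  have e3 : Module.length V (LinearMap.ker m) =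
      Module.length V (P ⧸ LinearMap.range m) := by
    have := ex1.symm.trans ex2
    rw [add_comm (Module.length V (LinearMap.range m))] at this
    exact (ENat.add_left_injective_of_ne_top hrtop) this
  have e4 : Module.length V (LinearMap.ker m) ≤ Module.finrank κ K := by
    rw [← lenK]
    have : LinearMap.ker m = LinearMap.ker (t • (P.subtype)) := by
      ext y
      rw [LinearMap.mem_ker, LinearMap.mem_ker]
      constructor
      · intro h
        have := congrArg Subtype.val h
        simpa [hm] using this
      · intro h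
        apply Subtype.ext
        simpa [hm] using h
    rw [this]
    exact kerlen P
  -- a surjection of the quotient onto κ^j
  obtain ⟨g, hg⟩ := LinearMap.exists_leftInverse_of_injective
    (Finsupp.linearCombination κ (fun i => ρ (x i))) (LinearMap.ker_eq_bot.2 hli)
  have hg' : ∀ i, g (ρ (x i)) = Finsupp.single i 1 := by
    intro i
    have := congrArg (fun f => f (Finsupp.single i (1 : κ))) hg
    simpa using this
  let G : P →ₗ[V] (Fin j →₀ κ) := (g.restrictScalars V) ∘ₗ ρ' ∘ₗ P.subtype
  have hG : ∀ y : P, G y = g (ρ (y : H)) := fun y => rfl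
  have hGs : Function.Surjective G := by
    intro c
    choose v hv using fun i => hσ (c i)
    refine ⟨∑ i, v i • ⟨x i, Submodule.subset_span ⟨i, rfl⟩⟩, ?_⟩
    rw [map_sum]
    have : ∀ i, G (v i • (⟨x i, Submodule.subset_span ⟨i, rfl⟩⟩ : P)) = Finsupp.single i (c i) := by
      intro i
      rw [map_smul, hG]
      simp only [hg' i]
      ext k
      rw [Finsupp.smul_apply, Algebra.smul_def]
      change σ (v i) * _ = _
      rw [hv i]
      by_cases h : i = k <;> simp [h]
    simp only [this]
    exact Finsupp.univ_sum_single c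
  have hle : LinearMap.range m ≤ LinearMap.ker G := by
    rintro _ ⟨y, rfl⟩
    rw [LinearMap.mem_ker, hm, hG]
    have : ρ ((t • y : P) : H) = 0 := hρt (y : H)
    rw [this, map_zero]
  have e5 : (j : ℕ∞) ≤ Module.length V (P ⧸ LinearMap.range m) := by
    have h1 : Module.length V (Fin j →₀ κ) ≤ Module.length V (P ⧸ LinearMap.range m) := by
      refine Module.length_le_of_surjective ((LinearMap.range m).liftQ G hle) ?_
      intro c
      obtain ⟨y, hy⟩ := hGs c
      exact ⟨Submodule.Quotient.mk y, hy⟩
    have h2 : Module.length V (Fin j →₀ κ) = (j : ℕ∞) := by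
      rw [Module.length_eq_of_surjective (R := κ) (S := V) (M := Fin j →₀ κ) hσ,
        Module.length_eq_finrank]
      simp
    rw [← h2]; exact h1
  rw [← e3] at e5
  exact_mod_cast e5.trans e4

end RNK_

open RNK_ in
theorem rnk_proof : Stmt_RNK := by
  intro V _ _ _ _ κ _ σ t ht hσ hker H _ _ Hk _ _ K _ _ _ _ ρ δ hρ hρk hρσ hδσ hδ
  classical
  have hσt : ∀ v : V, σ v = 0 ↔ t ∣ v := by
    intro v
    rw [← RingHom.mem_ker, hker, Ideal.mem_span_singleton]
  have hst : σ t = 0 := (hσt t).2 dvd_rfl
  have ht0 : t ≠ 0 := ht.ne_zero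
  have hρt : ∀ z, ρ (t • z) = 0 := fun z => (hρk _).2 ⟨z, rfl⟩
  -- generators
  let e := Module.finBasis κ Hk
  choose v hv using fun i => hρ (e i)
  have hgen : ∀ h : H, ∃ (c : Fin (Module.finrank κ Hk) → V) (z : H),
      h = ∑ i, c i • v i + t • z := by
    intro h
    choose c hc using fun i => hσ (e.repr (ρ h) i)
    have : ρ (h - ∑ i, c i • v i) = 0 := by
      rw [map_sub, map_sum]
      simp only [hρσ, hc, hv]
      rw [e.sum_repr, sub_self]
    obtain ⟨z, hz⟩ := (hρk _).1 this
    exact ⟨c, z, by rw [← hz]; abel⟩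
  let ev : (H →ₗ[V] V) →ₗ[V] (Fin (Module.finrank κ Hk) → V) :=
    LinearMap.pi fun i => LinearMap.applyₗ (v i)
  have hev : Function.Injective ev := by
    rw [← LinearMap.ker_eq_bot, LinearMap.ker_eq_bot']
    intro l hl
    exact funct_zero ht v hgen l fun i => congrFun hl i
  haveI hfin : Module.Finite V (H →ₗ[V] V) := Module.Finite.of_injective ev hev
  haveI hfree : Module.Free V (H →ₗ[V] V) :=
    Module.Free.of_equiv (LinearEquiv.ofInjective ev hev).symm
  refine ⟨hfree, hfin, ?_, ?_⟩
  · have := LinearMap.finrank_le_finrank_of_injective hev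
    simpa using this
  -- the image of the torsion
  let A : Submodule κ Hk :=
    { carrier := {y | ∃ x, (∃ s : ℕ, t ^ s • x = 0) ∧ ρ x = y}
      add_mem' := by
        rintro _ _ ⟨x, ⟨s, hs⟩, rfl⟩ ⟨y, ⟨r, hr⟩, rfl⟩
        refine ⟨x + y, ⟨s + r, ?_⟩, map_add _ _ _⟩
        rw [smul_add, pow_add, mul_smul, mul_smul, hr, smul_zero, smul_comm, hs, smul_zero,
          add_zero]
      zero_mem' := ⟨0, ⟨0, by simp⟩, map_zero _⟩
      smul_mem' := by
        rintro c _ ⟨x, ⟨s, hs⟩, rfl⟩
        obtain ⟨w, rfl⟩ := hσ c
        exact ⟨w • x, ⟨s, by rw [smul_comm, hs, smul_zero]⟩, hρσ w x⟩ }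
  have hAle : Module.finrank κ A ≤ Module.finrank κ K := by
    let f := Module.finBasis κ A
    choose x hx1 hx2 using fun i => (f i).2
    refine tors_bound σ t ht0 hσ hst H Hk K ρ δ hρt hρσ hδσ (fun y hy => (hδ y).1 hy) _ x hx1 ?_
    have : (fun i => ρ (x i)) = fun i => ((f i : A) : Hk) := by
      funext i; exact hx2 i
    rw [this]
    exact f.linearIndependent.map' A.subtype (Submodule.ker_subtype A)
  have hsum := A.finrank_quotient_add_finrank
  -- the torsion free quotient
  let Tt : Submodule V H :=
    { carrier := {x | ∃ s : ℕ, t ^ s • x = 0}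
      add_mem' := by
        rintro x y ⟨s, hs⟩ ⟨r, hr⟩
        refine ⟨s + r, ?_⟩
        rw [smul_add, pow_add, mul_smul, mul_smul, hr, smul_zero, smul_comm, hs, smul_zero,
          add_zero]
      zero_mem' := ⟨0, by simp⟩
      smul_mem' := by
        rintro c x ⟨s, hs⟩
        exact ⟨s, by rw [smul_comm, hs, smul_zero]⟩ }
  let q := Module.finBasis κ (Hk ⧸ A)
  choose u hu using fun i => Submodule.Quotient.mk_surjective A (q i)
  choose x hx using fun i => hρ (u i)
  have htf : ∀ y : H ⧸ Tt, t • y = 0 → y = 0 := by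
    intro y hy
    obtain ⟨y, rfl⟩ := Submodule.Quotient.mk_surjective Tt y
    rw [← Submodule.Quotient.mk_smul, Submodule.Quotient.mk_eq_zero] at hy
    rw [Submodule.Quotient.mk_eq_zero]
    obtain ⟨s, hs⟩ := hy
    exact ⟨s + 1, by rw [pow_succ, mul_smul]; exact hs⟩
  obtain ⟨r, hr⟩ := exists_coord ht htf (fun i => (Submodule.Quotient.mk (x i) : H ⧸ Tt))
    (by
      intro h
      obtain ⟨h, rfl⟩ := Submodule.Quotient.mk_surjective Tt h
      choose c hc using fun i => hσ (q.repr (Submodule.Quotient.mk (ρ h)) i)
      have : ρ (h - ∑ i, c i • x i) ∈ A := by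
        rw [← Submodule.Quotient.mk_eq_zero, map_sub, map_sum]
        simp only [hρσ, hc, hx, Submodule.Quotient.mk_sub]
        have e1 : ∀ (d : Fin (Module.finrank κ (Hk ⧸ A)) → κ),
            (Submodule.Quotient.mk (∑ i, d i • u i) : Hk ⧸ A) = ∑ i, d i • q i := by
          intro d
          rw [← Submodule.mkQ_apply, map_sum]
          simp only [map_smul, Submodule.mkQ_apply, hu]
        rw [e1, q.sum_repr, sub_self]
      obtain ⟨y, hy, hyρ⟩ := this
      obtain ⟨z, hz⟩ := (hρk (h - ∑ i, c i • x i - y)).1 (by rw [map_sub, hyρ, sub_self])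
      refine ⟨c, Submodule.Quotient.mk z, ?_⟩
      rw [← Submodule.Quotient.mk_smul, ← hz]
      have e1 : (Submodule.Quotient.mk y : H ⧸ Tt) = 0 := (Submodule.Quotient.mk_eq_zero _).2 hy
      rw [Submodule.Quotient.mk_sub, Submodule.Quotient.mk_sub, e1, sub_zero,
        ← Submodule.mkQ_apply, ← Submodule.mkQ_apply, map_sum]
      simp only [map_smul, Submodule.mkQ_apply]
      abel)
    (by
      intro c z hz i
      obtain ⟨z, rfl⟩ := Submodule.Quotient.mk_surjective Tt z
      have h1 : (Submodule.Quotient.mk (∑ i, c i • x i - t • z) : H ⧸ Tt) = 0 := by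
        rw [Submodule.Quotient.mk_sub, Submodule.Quotient.mk_smul, ← hz,
          ← Submodule.mkQ_apply, map_sum]
        simp only [map_smul, Submodule.mkQ_apply, sub_self]
      rw [Submodule.Quotient.mk_eq_zero] at h1
      have h2 : ρ (∑ i, c i • x i - t • z) ∈ A := ⟨_, h1, rfl⟩
      rw [map_sub, hρt, sub_zero, map_sum] at h2
      simp only [hρσ, hx] at h2
      rw [← Submodule.Quotient.mk_eq_zero, ← Submodule.mkQ_apply, map_sum] at h2
      simp only [map_smul, Submodule.mkQ_apply, hu] at h2
      have h3 := (Fintype.linearIndependent_iff.1 q.linearIndependent) (fun i => σ (c i)) h2 i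
      exact (hσt _).1 h3)
  let l : Fin (Module.finrank κ (Hk ⧸ A)) → (H →ₗ[V] V) := fun i =>
    (LinearMap.proj i) ∘ₗ r ∘ₗ Tt.mkQ
  have hl : ∀ i k, l i (x k) = if i = k then 1 else 0 := by
    intro i k
    have : l i (x k) = r (Submodule.Quotient.mk (x k)) i := rfl
    rw [this, hr k, Pi.single_apply]
  have hli : LinearIndependent V l := by
    rw [Fintype.linearIndependent_iff]
    intro g hg i
    have := congrArg (fun f => f (x i)) hg
    simpa [hl] using this
  have h5 := hli.fintype_card_le_finrank
  rw [Fintype.card_fin] at h5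
  omega

end Pool.Agent.GML
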